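import Mathlib

set_option autoImplicit false

namespace Pool.Agent.Lib.MP_b1ff30_co

open Finset

variable {α K : Type*} [Fintype α] [DecidableEq α] [Field K]

/-- Every sum of `f` over the one-point extensions of an `(r-1)`-set vanishes. -/
def UpRel (r : ℕ) (f : Finset α → K) : Prop :=
  ∀ F : Finset α, F.card + 1 = r → ∑ y ∈ Fᶜ, f (insert y F) = 0

/-- Sum of `f` over the `r`-sets whose trace on `C` is `T`. -/
def sig (r : ℕ) (f : Finset α → K) (C T : Finset α) : K :=
  ∑ X ∈ (univ : Finset (Finset α)).filter (fun X => X.card = r ∧ X ∩ C = T), f X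

lemma sum_swap_insert (r : ℕ) (f : Finset α → K) (C T : Finset α) (y : α) :
    ∑ F ∈ (univ : Finset (Finset α)).filter (fun F => (F.card + 1 = r ∧ F ∩ C = T) ∧ y ∉ F),
        f (insert y F) =
      ∑ X ∈ (univ : Finset (Finset α)).filter
        (fun X => (X.card = r ∧ (X.erase y) ∩ C = T) ∧ y ∈ X), f X := by
  refine Finset.sum_nbij' (fun F => insert y F) (fun X => X.erase y) ?_ ?_ ?_ ?_ ?_
  · intro F hF
    simp only [mem_filter, mem_univ, true_and] at hF ⊢
    obtain ⟨⟨h1, h2⟩, h3⟩ := hF
    refine ⟨⟨?_, ?_⟩, mem_insert_self _ _⟩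
    · rw [card_insert_of_notMem h3]; exact h1
    · rw [erase_insert h3]; exact h2
  · intro X hX
    simp only [mem_filter, mem_univ, true_and] at hX ⊢
    obtain ⟨⟨h1, h2⟩, h3⟩ := hX
    refine ⟨⟨?_, h2⟩, notMem_erase _ _⟩
    rw [card_erase_add_one h3]; exact h1
  · intro F hF
    simp only [mem_filter, mem_univ, true_and] at hF
    exact erase_insert hF.2
  · intro X hX
    simp only [mem_filter, mem_univ, true_and] at hX
    exact insert_erase hX.2
  · intro F _
    rfl

lemma sig_rec {r : ℕ} {f : Finset α → K} (h : UpRel r f) {C T : Finset α} (hT : T ⊆ C) :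
    ((r - T.card : ℕ) : K) * sig r f C T + ∑ y ∈ C \ T, sig r f C (insert y T) = 0 := by
  have h0 : ∑ F ∈ (univ : Finset (Finset α)).filter (fun F => F.card + 1 = r ∧ F ∩ C = T),
      ∑ y ∈ Fᶜ, f (insert y F) = 0 := by
    refine Finset.sum_eq_zero fun F hF => ?_
    simp only [mem_filter, mem_univ, true_and] at hF
    exact h F hF.1
  have h1 : ∑ F ∈ (univ : Finset (Finset α)).filter (fun F => F.card + 1 = r ∧ F ∩ C = T),
      ∑ y ∈ Fᶜ, f (insert y F) =
      ∑ y : α, ∑ F ∈ (univ : Finset (Finset α)).filter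
        (fun F => (F.card + 1 = r ∧ F ∩ C = T) ∧ y ∉ F), f (insert y F) := by
    refine Finset.sum_comm' ?_
    intro F y
    simp only [mem_filter, mem_univ, true_and, mem_compl, and_true]
  rw [h1] at h0
  simp only [sum_swap_insert] at h0
  rw [← Finset.sum_add_sum_compl C, ← Finset.sum_sdiff hT] at h0
  have hA : ∑ y ∈ T, ∑ X ∈ (univ : Finset (Finset α)).filter
      (fun X => (X.card = r ∧ (X.erase y) ∩ C = T) ∧ y ∈ X), f X = 0 := by
    refine Finset.sum_eq_zero fun y hy => Finset.sum_eq_zero fun X hX => ?_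
    simp only [mem_filter, mem_univ, true_and] at hX
    exfalso
    have : y ∈ X.erase y ∩ C := by rw [hX.1.2]; exact hy
    simp at this
  have hB : ∑ y ∈ C \ T, ∑ X ∈ (univ : Finset (Finset α)).filter
      (fun X => (X.card = r ∧ (X.erase y) ∩ C = T) ∧ y ∈ X), f X =
      ∑ y ∈ C \ T, sig r f C (insert y T) := by
    refine Finset.sum_congr rfl fun y hy => ?_
    rw [mem_sdiff] at hy
    unfold sig
    refine Finset.sum_congr ?_ fun _ _ => rfl
    ext X
    simp only [mem_filter, mem_univ, true_and]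
    constructor
    · rintro ⟨⟨h1, h2⟩, h3⟩
      refine ⟨h1, ?_⟩
      rw [← h2]
      ext z
      simp only [mem_inter, mem_insert, mem_erase]
      by_cases hz : z = y
      · subst hz; simp [h3, hy.1]
      · simp [hz]
    · rintro ⟨h1, h2⟩
      have h3 : y ∈ X := by
        have : y ∈ X ∩ C := by rw [h2]; exact mem_insert_self _ _
        exact (mem_inter.1 this).1
      refine ⟨⟨h1, ?_⟩, h3⟩
      rw [erase_inter, h2, erase_insert hy.2]
  have hC : ∑ y ∈ Cᶜ, ∑ X ∈ (univ : Finset (Finset α)).filter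
      (fun X => (X.card = r ∧ (X.erase y) ∩ C = T) ∧ y ∈ X), f X =
      ((r - T.card : ℕ) : K) * sig r f C T := by
    have : ∑ y ∈ Cᶜ, ∑ X ∈ (univ : Finset (Finset α)).filter
        (fun X => (X.card = r ∧ (X.erase y) ∩ C = T) ∧ y ∈ X), f X =
        ∑ X ∈ (univ : Finset (Finset α)).filter (fun X => X.card = r ∧ X ∩ C = T),
          ∑ y ∈ X \ C, f X := by
      refine Finset.sum_comm' ?_
      intro y X
      simp only [mem_filter, mem_univ, true_and, mem_compl, mem_sdiff]
      constructor
      · rintro ⟨h1, ⟨h2, h3⟩, h4⟩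
        refine ⟨⟨h4, h1⟩, h2, ?_⟩
        rw [erase_inter, erase_eq_of_notMem (by simp [h1])] at h3
        exact h3
      · rintro ⟨⟨h4, h1⟩, h2, h3⟩
        refine ⟨h1, ⟨h2, ?_⟩, h4⟩
        rw [erase_inter, erase_eq_of_notMem (by simp [h1])]
        exact h3
    rw [this]
    unfold sig
    rw [Finset.mul_sum]
    refine Finset.sum_congr rfl fun X hX => ?_
    simp only [mem_filter, mem_univ, true_and] at hX
    rw [Finset.sum_const, nsmul_eq_mul]
    congr 2
    have := Finset.card_sdiff_add_card_inter X C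
    rw [hX.2, hX.1] at this
    omega
  rw [hA, hB, hC] at h0
  linear_combination h0

lemma sig_top {r : ℕ} (f : Finset α → K) {C : Finset α} (hC : C.card = r) :
    sig r f C C = f C := by
  unfold sig
  rw [Finset.sum_eq_single C]
  · intro X hX hne
    simp only [mem_filter, mem_univ, true_and] at hX
    exfalso
    apply hne
    have h1 : C ⊆ X := by rw [← hX.2]; exact inter_subset_left
    exact (Finset.eq_of_subset_of_card_le h1 (by omega)).symm
  · intro h
    exfalso
    apply h
    simp [hC]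

lemma sig_eq {r : ℕ} {f : Finset α → K} (h : UpRel r f) {C : Finset α} (hC : C.card = r) :
    ∀ (m : ℕ), (∀ k : ℕ, 0 < k → k ≤ m → (k : K) ≠ 0) → ∀ T : Finset α, T ⊆ C →
      T.card + m = r → sig r f C T = (-1) ^ m * f C := by
  intro m
  induction m with
  | zero =>
    intro _ T hT hc
    have : T = C := Finset.eq_of_subset_of_card_le hT (by omega)
    rw [this, sig_top f hC]; simp
  | succ m ih =>
    intro hk T hT hc
    have h1 := sig_rec h hT
    have h2 : ∑ y ∈ C \ T, sig r f C (insert y T) = ∑ y ∈ C \ T, (-1) ^ m * f C := by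
      refine Finset.sum_congr rfl fun y hy => ?_
      rw [mem_sdiff] at hy
      refine ih (fun k h0 hk' => hk k h0 (by omega)) _ (insert_subset hy.1 hT) ?_
      rw [card_insert_of_notMem hy.2]; omega
    rw [h2, Finset.sum_const, nsmul_eq_mul, card_sdiff_of_subset hT, hC] at h1
    have h3 : r - T.card = m + 1 := by omega
    rw [h3] at h1
    have h4 : ((m + 1 : ℕ) : K) ≠ 0 := hk (m + 1) (by omega) le_rfl
    apply mul_left_cancel₀ h4
    rw [pow_succ]
    linear_combination h1

/-- If `f` and `X ↦ f Xᶜ` both satisfy the relations, then `f Bᶜ = ± f B`, provided `r` splits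
as `a + m` with `1, …, a` and `1, …, m` invertible. -/
lemma compl_eq {r a m : ℕ} {f : Finset α → K} (h : UpRel r f) (h' : UpRel r (fun X => f Xᶜ))
    {B : Finset α} (hB : B.card = r) (hBc : Bᶜ.card = r) (ham : a + m = r)
    (ha : ∀ k : ℕ, 0 < k → k ≤ a → (k : K) ≠ 0) (hm : ∀ k : ℕ, 0 < k → k ≤ m → (k : K) ≠ 0) :
    (-1) ^ m * f Bᶜ = (-1) ^ a * f B := by
  obtain ⟨T, hT, hTc⟩ := Finset.exists_subset_card_eq (s := Bᶜ) (n := a) (by omega)
  have e1 := sig_eq h hBc m hm T hT (by omega)
  have e2 := sig_eq h' hBc a ha (Bᶜ \ T) sdiff_subset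
    (by rw [card_sdiff_of_subset hT]; omega)
  simp only [compl_compl] at e2
  rw [← e1, ← e2]
  have hcard : Fintype.card α = 2 * r := by
    have := Finset.card_add_card_compl B
    omega
  unfold sig
  refine Finset.sum_nbij' (fun X => Xᶜ) (fun X => Xᶜ) ?_ ?_ ?_ ?_ ?_
  · intro X hX
    simp only [mem_filter, mem_univ, true_and] at hX ⊢
    refine ⟨?_, ?_⟩
    · rw [card_compl]; omega
    · rw [← hX.2]
      ext z
      simp only [mem_inter, mem_compl, mem_sdiff]
      tauto
  · intro X hX
    simp only [mem_filter, mem_univ, true_and] at hX ⊢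
    refine ⟨?_, ?_⟩
    · rw [card_compl]; omega
    · ext z
      have h1 : z ∈ X ∩ Bᶜ ↔ z ∈ Bᶜ \ T := by rw [hX.2]
      have h2 : z ∈ T → z ∈ Bᶜ := fun hz => hT hz
      simp only [mem_inter, mem_compl, mem_sdiff] at h1 h2 ⊢
      tauto
  · intro X _; exact compl_compl X
  · intro X _; exact compl_compl X
  · intro X _; simp

end Pool.Agent.Lib.MP_b1ff30_co
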