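import Pool.Agent.Lib.MP_b1ff30_co.P4a

set_option autoImplicit false

namespace Pool.Agent.Lib.MP_b1ff30_co.EC

open Finset
open Pool.Agent.Lib.MP_b1ff30_co.Rup (fo fo_eq)

/-- A list of search trees: child index, branching vertex, witnesses, children, siblings. -/
inductive Ct
  | nil : Ct
  | br : ℕ → ℕ → ℕ → Ct → Ct → Ct

/-- Final test of a witness. -/
def fin (s L acc cnt : ℕ) : Bool := Nat.ble acc s && Nat.ble 1 cnt && Nat.ble cnt L

/-- Sum of the selected edge codes. -/
noncomputable def lf (s L : ℕ) (E : List ℕ) : ℕ → ℕ → ℕ → Bool :=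
  List.rec (fun _ acc cnt => fin s L acc cnt) (fun c _ ih m acc cnt => Bool.rec
    (fo (Nat.div m 2) fun m' => Bool.rec (ih m' acc cnt)
      (fo (Nat.xor acc c) fun x => ih m' x (Nat.succ cnt)) (Nat.beq (Nat.mod m 2) 1))
    (fin s L acc cnt) (Nat.beq m 0)) E

/-- The child index occurs in the list. -/
noncomputable def has (C : Ct) : ℕ → Bool :=
  Ct.rec (fun _ => false) (fun j _ _ _ _ _ r i => Nat.beq j i || r i) C

/-- The code of a signed edge. -/
def code (a j : ℕ) : ℕ :=
  Nat.xor (Nat.xor (Nat.pow 2 (Nat.succ a)) (Nat.pow 2 (Nat.succ (Nat.div j 2)))) (Nat.mod j 2)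

/-- One child of a node. -/
noncomputable def kid (s L : ℕ) (E : List ℕ) (a ms : ℕ) (kids : Ct) (j : ℕ) : Bool :=
  Nat.beq (Nat.div j 2) a || has kids j || fo (code a j) fun c =>
    fo (Nat.mod (Nat.shiftRight ms (Nat.mul 24 j)) 16777216) fun m => lf s L (c :: E) m 0 0

/-- All children below a bound. -/
noncomputable def all (p : ℕ → Bool) (n : ℕ) : Bool := Nat.rec true (fun j ih => p j && ih) n

/-- A node of the search. -/
noncomputable def node (N s L nv : ℕ) (E : List ℕ) (a ms : ℕ) (kids : Ct) : Bool :=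
  Nat.blt a nv && Nat.blt (E.countP fun c => c.testBit (a + 1)) 3 &&
    all (kid s L E a ms kids) (Nat.mul 2 nv) && (Nat.ble N nv || has kids (Nat.mul 2 nv))

/-- The number of vertices after adding an edge. -/
def nx (nv j : ℕ) : ℕ := bif Nat.beq j (Nat.mul 2 nv) then Nat.succ nv else nv

/-- All trees of a list. -/
noncomputable def chk (N s L : ℕ) (C : Ct) : ℕ → List ℕ → ℕ → Bool :=
  Ct.rec (fun _ _ _ => true) (fun j a' ms kids _ ihk ihr nv E a =>
    (fo (nx nv j) fun nv' => fo (code a j) fun c =>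
      node N s L nv' (c :: E) a' ms kids && ihk nv' (c :: E) a') && ihr nv E a) C

lemma all_sound {p : ℕ → Bool} {n : ℕ} (h : all p n = true) : ∀ j < n, p j = true := by
  induction n with
  | zero => omega
  | succ n ih =>
    rw [show all p (n + 1) = (p n && all p n) from rfl, Bool.and_eq_true] at h
    intro j hj
    rcases Nat.lt_succ_iff_lt_or_eq.1 hj with e | rfl
    · exact ih h.2 j e
    · exact h.1

variable {α W : Type*} [DecidableEq α] [DecidableEq W]

/-- The vector of a code. -/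
def dec (β : ℕ → (W → ZMod 2) × ZMod 2) (c : ℕ) : (W → ZMod 2) × ZMod 2 :=
  ∑ i ∈ range 20, if c.testBit i then β i else 0

omit [DecidableEq W] in
lemma two (x : (W → ZMod 2) × ZMod 2) : x + x = 0 := by
  rw [← two_smul (ZMod 2), show (2 : ZMod 2) = 0 from rfl, zero_smul]

omit [DecidableEq W] in
lemma dec_xor (β : ℕ → (W → ZMod 2) × ZMod 2) (c d : ℕ) :
    dec β (c ^^^ d) = dec β c + dec β d := by
  rw [dec, dec, dec, ← sum_add_distrib]
  refine sum_congr rfl fun i _ => ?_
  rw [Nat.testBit_xor]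
  cases c.testBit i <;> cases d.testBit i <;> simp [two]

omit [DecidableEq W] in
lemma dec_pow (β : ℕ → (W → ZMod 2) × ZMod 2) {i : ℕ} (hi : i < 20) : dec β (2 ^ i) = β i := by
  rw [dec, sum_eq_single i]
  · simp
  · intro j _ h
    simp [h.symm]
  · intro h
    exact absurd (mem_range.2 hi) h

omit [DecidableEq W] in
lemma dec_zero (β : ℕ → (W → ZMod 2) × ZMod 2) : dec β 0 = 0 := by simp [dec]

omit [DecidableEq W] in
lemma dec_code (β : ℕ → (W → ZMod 2) × ZMod 2) {a j : ℕ} (ha : a < 19) (hj : j / 2 < 19) :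
    dec β (code a j) = β (a + 1) + β (j / 2 + 1) + dec β (j % 2) := by
  rw [show code a j = 2 ^ (a + 1) ^^^ 2 ^ (j / 2 + 1) ^^^ j % 2 from rfl, dec_xor, dec_xor,
    dec_pow β (by omega), dec_pow β (by omega)]

lemma code_lt {a j n : ℕ} (ha : a < n) (hj : j / 2 < n) : code a j < 2 ^ (n + 1) := by
  rw [show code a j = 2 ^ (a + 1) ^^^ 2 ^ (j / 2 + 1) ^^^ j % 2 from rfl]
  refine Nat.xor_lt_two_pow (Nat.xor_lt_two_pow (Nat.pow_lt_pow_right (by omega) (by omega))
    (Nat.pow_lt_pow_right (by omega) (by omega))) ?_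
  have : 2 ^ 1 ≤ 2 ^ (n + 1) := Nat.pow_le_pow_right (by omega) (by omega)
  omega

omit [DecidableEq W] [DecidableEq α] in
lemma lf_sound {u : α → (W → ZMod 2) × ZMod 2} {β : ℕ → (W → ZMod 2) × ZMod 2} {s L : ℕ}
    {l : List α} {E : List ℕ} (h : List.Forall₂ (fun e c => u e = dec β c) l E) :
    ∀ m acc cnt, lf s L E m acc cnt = true → ∃ l' : List α, l'.Sublist l ∧ ∃ x, x ≤ s ∧
      1 ≤ cnt + l'.length ∧ cnt + l'.length ≤ L ∧ dec β x = dec β acc + (l'.map u).sum := by
  have h0 : ∀ (l : List α) acc cnt, fin s L acc cnt = true → ∃ l' : List α, l'.Sublist l ∧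
      ∃ x, x ≤ s ∧ 1 ≤ cnt + l'.length ∧ cnt + l'.length ≤ L ∧
        dec β x = dec β acc + (l'.map u).sum := by
    intro l acc cnt g
    simp only [fin, Bool.and_eq_true, Nat.ble_eq] at g
    exact ⟨[], List.nil_sublist _, acc, g.1.1, g.1.2, g.2, by simp⟩
  induction h with
  | nil => exact fun m acc cnt g => h0 _ _ _ g
  | @cons e c l E h1 _ ih =>
    intro m acc cnt g
    have g1 : lf s L (c :: E) m acc cnt = Bool.rec (motive := fun _ => Bool)
        (fo (Nat.div m 2) fun m' => Bool.rec (motive := fun _ => Bool) (lf s L E m' acc cnt)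
          (fo (Nat.xor acc c) fun x => lf s L E m' x (Nat.succ cnt)) (Nat.beq (Nat.mod m 2) 1))
        (fin s L acc cnt) (Nat.beq m 0) := rfl
    rw [g1, fo_eq, fo_eq] at g
    cases e1 : Nat.beq m 0
    swap
    · rw [e1] at g
      exact h0 _ _ _ g
    rw [e1] at g
    cases e2 : Nat.beq (Nat.mod m 2) 1
    · rw [e2] at g
      obtain ⟨l', k1, k2⟩ := ih _ _ _ g
      exact ⟨l', k1.cons _, k2⟩
    · rw [e2] at g
      obtain ⟨l', k1, x, k2, k3, k4, k5⟩ := ih _ _ _ g
      refine ⟨e :: l', k1.cons_cons _, x, k2, ?_, ?_, ?_⟩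
      · rw [List.length_cons]; omega
      · rw [List.length_cons]; omega
      · rw [k5, show Nat.xor acc c = acc ^^^ c from rfl, dec_xor, List.map_cons, List.sum_cons, h1,
          add_assoc]

/-- The listed edges occur in the graph. -/
def Real (u : α → (W → ZMod 2) × ZMod 2) (T : Finset α) (A : Finset W) (nv : ℕ) (E : List ℕ) :
    Prop :=
  ∃ (φ : ℕ → W) (β : ℕ → (W → ZMod 2) × ZMod 2) (l : List α), β 0 = (0, 1) ∧
    (∀ i < nv, φ i ∈ A ∧ (β (i + 1)).1 = Pi.single (φ i) 1) ∧
    (∀ i < nv, ∀ j < nv, φ i = φ j → i = j) ∧ l.Nodup ∧ (∀ e ∈ l, e ∈ T) ∧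
    List.Forall₂ (fun e c => u e = dec β c ∧ c < 2 ^ (nv + 1)) l E

/-- A signed graph of minimum degree three on few vertices without a short even element. -/
structure Hyp (u : α → (W → ZMod 2) × ZMod 2) (T : Finset α) (A : Finset W) (N s L : ℕ) :
    Prop where
  gr : ∀ e w, (u e).1 w ≠ 0 → ∃ w', w' ≠ w ∧ (u e).1 = Pi.single w 1 + Pi.single w' 1
  dg : ∀ w ∈ A, 3 ≤ (T.filter fun e => (u e).1 w ≠ 0).card
  mem : ∀ e ∈ T, ∀ w, (u e).1 w ≠ 0 → w ∈ A
  le : A.card ≤ N
  le' : N ≤ 18
  sg : s ≤ 1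
  no : ∀ x ⊆ T, x.Nonempty → x.card ≤ L → (∑ e ∈ x, u e).1 = 0 →
    (s = 0 → (∑ e ∈ x, u e).2 = 0) → False

variable {u : α → (W → ZMod 2) × ZMod 2} {T : Finset α} {A : Finset W} {N s L : ℕ}

omit [DecidableEq W] in
lemma inj_le {φ : ℕ → W} {n : ℕ} (h1 : ∀ i < n, φ i ∈ A)
    (h2 : ∀ i < n, ∀ j < n, φ i = φ j → i = j) : n ≤ A.card := by
  have := card_le_card_of_injOn (s := range n) (t := A) φ (fun i hi => h1 i (by simpa using hi))
    fun i hi j hj => h2 i (by simpa using hi) j (by simpa using hj)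
  simpa using this

lemma Hyp.leaf (H : Hyp u T A N s L) {nv m : ℕ} {E : List ℕ} (h : Real u T A nv E) :
    lf s L E m 0 0 ≠ true := by
  obtain ⟨φ, β, l, h1, -, -, h4, h5, h6⟩ := h
  intro g
  obtain ⟨l', k1, x, k2, k3, k4, k5⟩ := lf_sound (h6.imp fun _ _ e => e.1) _ _ _ g
  have k6 := h4.sublist k1
  rw [dec_zero, zero_add, ← List.sum_toFinset _ k6] at k5
  have k7 := List.toFinset_card_of_nodup k6
  have k8 := H.sg
  refine H.no l'.toFinset (fun e he => h5 e (k1.subset (List.mem_toFinset.1 he)))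
    (card_pos.1 (by omega)) (by omega) ?_ fun e => ?_
  · rw [← k5]
    rcases (show x = 0 ∨ x = 2 ^ 0 by omega) with rfl | rfl
    · rw [dec_zero]; rfl
    · rw [dec_pow β (by omega), h1]
  · rw [← k5, show x = 0 by omega, dec_zero]; rfl

lemma Hyp.step (H : Hyp u T A N s L) {nv a : ℕ} {E : List ℕ} (h : Real u T A nv E) (ha : a < nv)
    (hd : (E.countP fun c => c.testBit (a + 1)) < 3) :
    ∃ j, (j < 2 * nv ∧ j / 2 ≠ a ∨ j = 2 * nv ∧ nv < N) ∧
      Real u T A (nx nv j) (code a j :: E) := by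
  obtain ⟨φ, β, l, h1, h2, h3, h4, h5, h6⟩ := h
  have hn := (inj_le (fun i hi => (h2 i hi).1) h3).trans (H.le.trans H.le')
  have k1 : (l.countP fun e => (u e).1 (φ a) ≠ 0) ≤ E.countP fun c => c.testBit (a + 1) := by
    clear h4 h5 hd
    induction h6 with
    | nil => simp
    | @cons e c l E g _ ih =>
      rw [List.countP_cons, List.countP_cons]
      refine Nat.add_le_add ih ?_
      cases e1 : c.testBit (a + 1)
      swap
      · split_ifs <;> simp_all
      rw [if_neg]
      · simp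
      simp only [ne_eq, decide_not, Bool.not_eq_eq_eq_not, Bool.not_true, decide_eq_false_iff_not,
        not_not]
      rw [g.1, dec, Prod.fst_sum, Finset.sum_apply]
      refine sum_eq_zero fun i _ => ?_
      split_ifs with e2
      swap
      · rfl
      rcases i with _ | i
      · rw [h1]; rfl
      have e3 : i < nv := by
        by_contra e3
        rw [Nat.testBit_lt_two_pow (g.2.trans_le (Nat.pow_le_pow_right (by omega) (by omega)))]
          at e2
        exact absurd e2 (by simp)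
      rw [(h2 i e3).2, Pi.single_eq_of_ne]
      intro e4
      rw [← h3 _ ha _ e3 e4, e1] at e2
      exact absurd e2 (by simp)
  obtain ⟨e, k2, k3⟩ : ∃ e ∈ T.filter fun e => (u e).1 (φ a) ≠ 0, e ∉ l := by
    by_contra k
    push Not at k
    have k2 : (T.filter fun e => (u e).1 (φ a) ≠ 0) ⊆
        (l.filter fun e => (u e).1 (φ a) ≠ 0).toFinset := fun e he => by
      simpa using ⟨k e he, (mem_filter.1 he).2⟩
    have k3 := (H.dg _ (h2 a ha).1).trans ((card_le_card k2).trans (List.toFinset_card_le _))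
    rw [← List.countP_eq_length_filter] at k3
    omega
  rw [mem_filter] at k2
  obtain ⟨w, k4, k5⟩ := H.gr e _ k2.2
  have k6 : w ∈ A := H.mem e k2.1 w (by rw [k5]; simp [k4])
  have k7 : ∀ x ∈ e :: l, x ∈ T := fun x hx => by
    rcases List.mem_cons.1 hx with rfl | g
    · exact k2.1
    · exact h5 x g
  by_cases k8 : ∃ b < nv, φ b = w
  · obtain ⟨b, g1, rfl⟩ := k8
    have g2 : b ≠ a := fun g => k4 (by rw [g])
    obtain ⟨g, g3, g4⟩ : ∃ g < 2, dec β g = u e + (β (a + 1) + β (b + 1)) := by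
      have g3 : (u e + (β (a + 1) + β (b + 1))).1 = 0 := by
        rw [Prod.fst_add, Prod.fst_add, k5, (h2 a ha).2, (h2 b g1).2, ← two_smul (ZMod 2),
          show (2 : ZMod 2) = 0 from rfl, zero_smul]
      have g4 : ∀ z : ZMod 2, z = 0 ∨ z = 1 := by decide
      rcases g4 (u e + (β (a + 1) + β (b + 1))).2 with g5 | g5
      · exact ⟨0, by omega, by rw [dec_zero]; exact (Prod.ext g3 g5).symm⟩
      · exact ⟨2 ^ 0, by omega, by rw [dec_pow β (by omega), h1]; exact (Prod.ext g3 g5).symm⟩
    have g5 : (2 * b + g) / 2 = b := by omega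
    have g6 : nx nv (2 * b + g) = nv := by
      rw [nx, Bool.eq_false_iff.2 (mt Nat.eq_of_beq_eq_true
        (show 2 * b + g ≠ Nat.mul 2 nv from (by omega : 2 * b + g ≠ 2 * nv))), cond_false]
    refine ⟨2 * b + g, Or.inl ⟨by omega, by omega⟩, φ, β, e :: l, h1, ?_⟩
    rw [g6]
    refine ⟨h2, h3, List.nodup_cons.2 ⟨k3, h4⟩, k7, List.Forall₂.cons ⟨?_, ?_⟩ h6⟩
    · rw [dec_code β (by omega) (by omega), g5, show (2 * b + g) % 2 = g by omega, g4,
        add_comm (u e), ← add_assoc, two, zero_add]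
    · exact code_lt ha (by omega)
  · push Not at k8
    have g1 : ∀ i < nv + 1, Function.update φ nv w i ∈ A ∧
        (Function.update β (nv + 1) (u e + β (a + 1)) (i + 1)).1 =
          Pi.single (Function.update φ nv w i) 1 := by
      intro i hi
      rcases Nat.lt_succ_iff_lt_or_eq.1 hi with g | rfl
      · rw [Function.update_of_ne (by omega), Function.update_of_ne (by omega)]
        exact h2 i g
      · rw [Function.update_self, Function.update_self, Prod.fst_add, k5, (h2 a ha).2,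
          add_right_comm, ← two_smul (ZMod 2), show (2 : ZMod 2) = 0 from rfl, zero_smul, zero_add]
        exact ⟨k6, rfl⟩
    have g2 : ∀ i < nv + 1, ∀ j < nv + 1,
        Function.update φ nv w i = Function.update φ nv w j → i = j := by
      intro i hi j hj
      rcases Nat.lt_succ_iff_lt_or_eq.1 hi with g | rfl <;>
        rcases Nat.lt_succ_iff_lt_or_eq.1 hj with g' | g'
      · rw [Function.update_of_ne (by omega), Function.update_of_ne (by omega)]
        exact h3 i g j g'
      · rw [g', Function.update_of_ne (by omega), Function.update_self]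
        exact fun z => absurd z (k8 i g)
      · rw [Function.update_self, Function.update_of_ne (by omega)]
        exact fun z => absurd z.symm (k8 j g')
      · exact fun _ => g'.symm
    have g3 := (inj_le (fun i hi => (g1 i hi).1) g2).trans H.le
    have g4 := H.le'
    have g6 : nx nv (2 * nv) = nv + 1 := by
      rw [nx, show Nat.mul 2 nv = 2 * nv from rfl, Nat.beq_refl, cond_true]
    refine ⟨2 * nv, Or.inr ⟨rfl, g3⟩, Function.update φ nv w,
      Function.update β (nv + 1) (u e + β (a + 1)), e :: l,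
      by rw [Function.update_of_ne (by omega), h1], ?_⟩
    rw [g6]
    refine ⟨g1, g2, List.nodup_cons.2 ⟨k3, h4⟩, k7, List.Forall₂.cons ⟨?_, ?_⟩
      (h6.imp fun x c g => ⟨?_, g.2.trans (Nat.pow_lt_pow_right (by omega) (by omega))⟩)⟩
    · rw [dec_code _ (by omega) (by omega), show 2 * nv / 2 = nv by omega, Function.update_self,
        Function.update_of_ne (by omega), show 2 * nv % 2 = 0 by omega, dec_zero, add_zero,
        add_comm (u e), ← add_assoc, two, zero_add]
    · exact code_lt (by omega) (by omega)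
    · rw [g.1]
      refine sum_congr rfl fun i _ => ?_
      split_ifs with e2
      · rw [Function.update_of_ne]
        rintro rfl
        rw [Nat.testBit_lt_two_pow g.2] at e2
        exact absurd e2 (by simp)
      · rfl

lemma Hyp.node (H : Hyp u T A N s L) {nv a ms : ℕ} {E : List ℕ} {kids : Ct}
    (h : node N s L nv E a ms kids = true)
    (hk : ∀ j, has kids j = true → ¬ Real u T A (nx nv j) (code a j :: E)) :
    ¬ Real u T A nv E := by
  intro g
  simp only [EC.node, Bool.and_eq_true, Nat.blt_eq, Bool.or_eq_true, Nat.ble_eq] at h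
  obtain ⟨⟨⟨h1, h2⟩, h3⟩, h4⟩ := h
  obtain ⟨j, ⟨k1, k2⟩ | ⟨rfl, k2⟩, k3⟩ := H.step g h1 h2
  · have k4 := all_sound h3 j k1
    simp only [kid, Bool.or_eq_true, fo_eq, Nat.beq_eq] at k4
    rcases k4 with (k | k) | k
    · exact k2 k
    · exact hk j k k3
    · exact H.leaf k3 k
  · exact hk _ (h4.resolve_left (by omega)) k3

lemma Hyp.chk (H : Hyp u T A N s L) (C : Ct) : ∀ nv E a, chk N s L C nv E a = true →
    ∀ j, has C j = true → ¬ Real u T A (nx nv j) (code a j :: E) := by
  induction C with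
  | nil => exact fun _ _ _ _ j h => absurd h (by rw [show has Ct.nil j = false from rfl]; simp)
  | br i a' ms kids rest ihk ihr =>
    intro nv E a h j hj
    have g1 : EC.chk N s L (Ct.br i a' ms kids rest) nv E a = ((fo (nx nv i) fun nv' =>
      fo (code a i) fun c => EC.node N s L nv' (c :: E) a' ms kids &&
        EC.chk N s L kids nv' (c :: E) a') && EC.chk N s L rest nv E a) := rfl
    rw [g1, fo_eq, fo_eq, Bool.and_eq_true, Bool.and_eq_true] at h
    rw [show has (Ct.br i a' ms kids rest) j = (Nat.beq i j || has rest j) from rfl,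
      Bool.or_eq_true, Nat.beq_eq] at hj
    rcases hj with rfl | hj
    · exact H.node h.1.1 (ihk _ _ _ h.1.2)
    · exact ihr _ _ _ h.2 j hj

lemma Hyp.root (H : Hyp u T A N s L) (hA : A.Nonempty) {ms : ℕ} {kids : Ct}
    (h1 : EC.node N s L 1 [] 0 ms kids = true) (h2 : EC.chk N s L kids 1 [] 0 = true) : False := by
  obtain ⟨w, hw⟩ := hA
  exact H.node h1 (H.chk kids _ _ _ h2) ⟨fun _ => w,
    fun i => if i = 0 then (0, 1) else (Pi.single w 1, 0), [], rfl, fun i _ => ⟨hw, rfl⟩,
    fun i _ j _ _ => by omega, List.nodup_nil, by simp, List.Forall₂.nil⟩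

end Pool.Agent.Lib.MP_b1ff30_co.EC
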