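import Pool.Agent.Lib.MP_b1ff30_co.P4e

set_option autoImplicit false

namespace Pool.Agent.Lib.MP_b1ff30_co

open Finset Matrix Submodule
open scoped Classical

section
variable {α ι K : Type*} [Fintype α] [DecidableEq α] [Fintype ι] [DecidableEq ι] [Field K]
variable {a b : α → ι → K} {P : Finset α → Prop} {Z : Finset α}
  {na nb : Finset α → (ι → K) →ₗ[K] K}

lemma Bad.bicol (h : Bad a b P Z na nb) : ∃ (N : Finset α) (y z : α),
    N.card = Fintype.card ι ∧ Z ⊆ N ∧ y ∈ N \ Z ∧ z ∈ N \ Z ∧ (MM a b N).det = 0 ∧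
      col a b P (N.erase y) ∧ nb (N.erase y) (b y) ≠ 0 ∧ ¬ col a b P (N.erase z) ∧
      na (N.erase z) ≠ 0 ∧ nb (N.erase z) ≠ 0 := by
  by_contra hno
  push Not at hno
  have hZ := h.hZ
  obtain ⟨X₀, h1, h2⟩ := exists_ne_zero_of_sum_ne_zero h.hc
  simp only [mem_filter, mem_univ, true_and] at h1
  obtain ⟨y₀, hy₀, hy₀Z⟩ := exists_mem_notMem_of_card_lt_card (show Z.card < X₀.card by omega)
  have hR₀ : (X₀.erase y₀).card + 1 = Fintype.card ι := by rw [card_erase_add_one hy₀, h1.1]
  set θ := na (X₀.erase y₀) with hθ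
  set x := a y₀ with hx
  have hθZ : ∀ z ∈ Z, θ (a z) = 0 := fun z hz =>
    (h.hA _ hR₀).1 _ (subset_span ⟨z, subset_erase.2 ⟨h1.2, hy₀Z⟩ hz, rfl⟩)
  have hθx : θ x ≠ 0 := by
    intro e
    apply h2
    have e1 := GG_insert a b (notMem_erase y₀ X₀)
    rw [insert_erase hy₀, h.hG _ hR₀, e, zero_mul] at e1
    rw [fw, ← e1, ite_self]
  set g : α → Finset α → K := fun y R => θ (a y) * aw a b P x (b y) R with hg
  have h3 : ∑ y, ∑ R ∈ (univ : Finset (Finset α)).filter
      (fun R => R.card + 1 = Fintype.card ι ∧ Z ⊆ R), g y R = 0 := by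
    rw [sum_comm]
    refine sum_eq_zero fun R hR => ?_
    simp only [hg, aw, h.hG R (mem_filter.1 hR).2.1]
    split_ifs
    · simp only [mul_left_comm (θ _), ← mul_sum, pair_sum a b h.hs θ (nb R), mul_zero]
    · simp
  have h4 : ∑ y, ∑ R ∈ (univ : Finset (Finset α)).filter
      (fun R => R.card + 1 = Fintype.card ι ∧ Z ⊆ R), g y R =
      ∑ N ∈ (univ : Finset (Finset α)).filter (fun N => N.card = Fintype.card ι ∧ Z ⊆ N),
        ∑ y ∈ N \ Z, g y (N.erase y) := by
    rw [sum_comm' (s := (univ : Finset (Finset α)).filter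
      (fun N => N.card = Fintype.card ι ∧ Z ⊆ N)) (t' := univ) (s' := fun y =>
        (univ : Finset (Finset α)).filter
          (fun N => (N.card = Fintype.card ι ∧ Z ⊆ N) ∧ y ∈ N ∧ y ∉ Z))]
    swap
    · intro N y
      simp only [mem_filter, mem_univ, true_and, mem_sdiff, and_true]
    refine sum_congr rfl fun y _ => ?_
    rw [← sum_filter_of_ne (p := fun R => y ∉ R)]
    · refine Finset.sum_nbij' (fun R => insert y R) (fun N => N.erase y) ?_ ?_ ?_ ?_ ?_
      · intro R hR
        simp only [mem_filter, mem_univ, true_and] at hR ⊢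
        exact ⟨⟨by rw [card_insert_of_notMem hR.2, hR.1.1], hR.1.2.trans (subset_insert _ _)⟩,
          mem_insert_self _ _, fun e => hR.2 (hR.1.2 e)⟩
      · intro N hN
        simp only [mem_filter, mem_univ, true_and] at hN ⊢
        exact ⟨⟨by rw [card_erase_add_one hN.2.1, hN.1.1], subset_erase.2 ⟨hN.1.2, hN.2.2⟩⟩,
          notMem_erase _ _⟩
      · intro R hR
        exact erase_insert (mem_filter.1 hR).2
      · intro N hN
        exact insert_erase (mem_filter.1 hN).2.2.1
      · intro R hR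
        rw [erase_insert (mem_filter.1 hR).2]
    · intro R hR hne hy
      apply hne
      have e := (mem_filter.1 hR).2.1
      simp only [hg, aw, h.hG R e, (h.hB R e).1 _ (subset_span ⟨y, hy, rfl⟩)]
      simp
  have h5 : ∀ N : Finset α, N.card = Fintype.card ι → Z ⊆ N →
      ∑ y ∈ N \ Z, g y (N.erase y) = fw a b P N * θ x := by
    intro N hN hZN
    have hR : ∀ u ∈ N, (N.erase u).card + 1 = Fintype.card ι := fun u hu => by
      rw [card_erase_add_one hu, hN]
    have hcr : ∑ y ∈ N \ Z, θ (a y) * GG a b (N.erase y) x (b y) = (MM a b N).det * θ x := by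
      have e := congrArg θ (cramer_GG a b N hN x)
      simp only [map_sum, map_smul, smul_eq_mul] at e
      rw [← e, ← sum_sdiff hZN, sum_eq_zero (s := Z), add_zero]
      · exact sum_congr rfl fun y _ => mul_comm _ _
      · intro z hz
        rw [hθZ z hz, mul_zero]
    by_cases hdet : (MM a b N).det = 0
    swap
    · have e1 : ∀ y ∈ N \ Z, g y (N.erase y) =
          if P N then θ (a y) * GG a b (N.erase y) x (b y) else 0 := by
        intro y hy
        have hyN := (mem_sdiff.1 hy).1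
        have e3 := col_iff h.hP (hR y hyN) (notMem_erase y N) (by rwa [insert_erase hyN])
        rw [insert_erase hyN] at e3
        simp only [hg, aw, e3, mul_ite, mul_zero]
      rw [sum_congr rfl e1, fw]
      split_ifs
      · exact hcr
      · simp
    rw [fw, hdet, ite_self, zero_mul]
    by_contra hne
    obtain ⟨y, hy, e1⟩ := exists_ne_zero_of_sum_ne_zero hne
    have hyN := (mem_sdiff.1 hy).1
    simp only [hg, aw, h.hG _ (hR y hyN), ne_eq, mul_eq_zero, Classical.not_imp,
      not_or, ite_eq_right_iff] at e1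
    obtain ⟨-, e3, -, e5⟩ := e1
    apply hne
    rw [hdet, zero_mul] at hcr
    rw [← hcr]
    refine sum_congr rfl fun z hz => ?_
    simp only [hg, aw]
    split_ifs with e
    · rfl
    · rw [h.hG _ (hR z (mem_sdiff.1 hz).1)]
      by_cases e6 : na (N.erase z) = 0
      · simp [e6]
      · simp [hno N y z hN hZN hy hz hdet e3 e5 e e6]
  rw [h4, sum_congr rfl fun N hN => h5 N (mem_filter.1 hN).2.1 (mem_filter.1 hN).2.2,
    ← sum_mul] at h3
  exact mul_ne_zero h.hc hθx h3

lemma Bad.off (h : Bad a b P Z na nb) (hZ : Z.card + 4 = Fintype.card ι) (c : α → ι → K)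
    (hc : c = a ∨ c = b) (S : Finset α) (hS : RK c Z S 3) : ∃ F : Finset α, F.card = 4 ∧
      RK a Z F 4 ∧ RK b Z F 4 ∧ P (Z ∪ F) ∧ ∀ w ∈ F, RK c Z (insert w S) 4 := by
  have hst : ∀ X : Finset α, X.card = Fintype.card ι → Z ⊆ X → fw a b P X ≠ 0 →
      RK a Z (X \ Z) 4 ∧ RK b Z (X \ Z) 4 ∧ P X := by
    intro X e1 e2 e3
    rw [fw] at e3
    split_ifs at e3 with e4
    · refine ⟨RK.of_top hZ ?_, RK.of_top hZ ?_, e4⟩
      · rw [union_sdiff_of_subset e2]
        exact (state_left a b X e1 e3).2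
      · rw [union_sdiff_of_subset e2]
        exact (state_right a b X e1 e3).2
    · exact absurd rfl e3
  have h1 := incl_excl _ (fw a b P) Z (univ.filter fun w => RK c Z (insert w S) 4) (by omega) h.hS
  rw [sum_eq_zero] at h1
  swap
  · intro X hX
    simp only [mem_filter, mem_univ, true_and] at hX
    by_contra e
    have e1 := hst X hX.1.1 hX.1.2 e
    obtain ⟨w, e2, e3⟩ := hS.ex (F := X \ Z) (by rcases hc with rfl | rfl; exacts [e1.1, e1.2.1])
    exact disjoint_left.1 hX.2 e2 (by simpa using e3)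
  obtain ⟨X, hX, e⟩ := exists_ne_zero_of_sum_ne_zero fun e => h.hc (by
    rw [e, mul_zero, add_zero] at h1
    exact h1.symm)
  simp only [mem_filter, mem_univ, true_and] at hX
  have e1 := hst X hX.1.1 hX.1.2 e
  refine ⟨X \ Z, by rw [card_sdiff_of_subset hX.1.2]; omega, e1.1, e1.2.1, ?_, fun w hw => ?_⟩
  · rw [union_sdiff_of_subset hX.1.2]
    exact e1.2.2
  · simpa using hX.2 hw

/-- Rank four, any field. -/
theorem up_four (hs : MM a b univ = 0) (hP : Closed a b P) (hZ : Z.card + 4 = Fintype.card ι)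
    (hlow : ∀ Q, Closed a b Q → ∀ Y : Finset α, Z.card < Y.card → Y.card < Fintype.card ι →
      up (Fintype.card ι) (fw a b Q) Y = 0) : up (Fintype.card ι) (fw a b P) Z = 0 := by
  by_contra hc
  choose! na nb hG hA hB using ridge a b
  have hbad : ∀ Q, Closed a b Q → up (Fintype.card ι) (fw a b Q) Z ≠ 0 → Bad a b Q Z na nb :=
    fun Q h1 h2 => ⟨hs, h1, by omega, fun Y _ => hlow Q h1 Y, h2, hG, hA, hB⟩
  have hcard : ∀ (N : Finset α) (y : α), N.card = Fintype.card ι → y ∈ N \ Z →
      (N.erase y).card + 1 = Fintype.card ι := fun N y h1 h2 => by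
    rw [card_erase_add_one (mem_sdiff.1 h2).1, h1]
  have htot : up (Fintype.card ι) (fw a b fun _ => True) Z = 0 := by
    by_contra e
    have h := hbad _ (fun _ _ _ _ _ _ _ _ _ => trivial) e
    obtain ⟨N, y, z, h1, h2, -, h4, -, -, -, h8, h9, h10⟩ := h.bicol
    obtain ⟨w, e1, e2⟩ := h.nodead (subset_erase.2 ⟨h2, (mem_sdiff.1 h4).2⟩) (hcard N z h1 h4) h9 h10
    exact h8 ⟨w, e1, e2, trivial⟩
  have h := hbad P hP hc
  have h' := hbad (fun X => ¬ P X) (fun F y z g1 g2 g3 g4 g5 g6 g7 => g6 (hP F z y g2 g1 g3 g5 g4 g7))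
    fun e => hc (by
      rw [← htot, ← add_zero (up _ (fw a b P) Z), ← e, up, up, up, ← sum_add_distrib]
      refine sum_congr rfl fun X _ => ?_
      by_cases g : P X <;> simp [fw, g])
  obtain ⟨N, y, z, h1, h2, h3, h4, h5, h6, h7, h8, h9, h10⟩ := h.bicol
  obtain ⟨w', e1, e2⟩ := h.nodead (subset_erase.2 ⟨h2, (mem_sdiff.1 h4).2⟩) (hcard N z h1 h4) h9 h10
  have e3 : ¬ P (insert w' (N.erase z)) := fun e => h8 ⟨w', e1, e2, e⟩
  have hyz : y ≠ z := fun e => h8 (e ▸ h6)
  obtain ⟨w, e4, e5, e6⟩ := h6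
  have hzy : z ∈ (N \ Z).erase y := mem_erase.2 ⟨hyz.symm, h4⟩
  obtain ⟨r, q, -, hq⟩ : ∃ r q, r ≠ q ∧ ((N \ Z).erase y).erase z = {r, q} := card_eq_two.1 (by
    rw [card_erase_of_mem hzy, card_erase_of_mem h3, card_sdiff_of_subset h2]
    omega)
  have g1 : Z ∪ {z, r, q} = N.erase y := by
    rw [← hq, insert_erase hzy, ← erase_sdiff_comm, union_sdiff_of_subset
      (subset_erase.2 ⟨h2, (mem_sdiff.1 h3).2⟩)]
  have g2 : Z ∪ {y, r, q} = N.erase z := by
    rw [← hq, erase_right_comm, insert_erase (mem_erase.2 ⟨hyz, h3⟩), ← erase_sdiff_comm,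
      union_sdiff_of_subset (subset_erase.2 ⟨h2, (mem_sdiff.1 h4).2⟩)]
  have g3 : Z ∪ {w, z, r, q} = insert w (N.erase y) := by rw [union_insert, g1]
  have g4 : Z ∪ {w', y, r, q} = insert w' (N.erase z) := by rw [union_insert, g2]
  have g5 : Z ∪ {y, z, r, q} = N := by rw [union_insert, g1, insert_erase (mem_sdiff.1 h3).1]
  have c1 : (insert w (N.erase y)).card = Fintype.card ι := by
    rw [card_insert_of_notMem e4, hcard N y h1 h3]
  have c2 : (insert w' (N.erase z)).card = Fintype.card ι := by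
    rw [card_insert_of_notMem e1, hcard N z h1 h4]
  have b1 : RK b Z {w, z, r, q} 4 := RK.of_top hZ (g3 ▸ (state_right a b _ c1 e5).2)
  refine Grid.false hP hZ (q := q) (r := r) (y11 := z) (y12 := y) (y21 := w') (y22 := w)
    ⟨RK.of_top hZ (g3 ▸ (state_left a b _ c1 e5).2), b1, g3 ▸ e6,
      RK.of_top hZ (g4 ▸ (state_left a b _ c2 e2).2),
      RK.of_top hZ (g4 ▸ (state_right a b _ c2 e2).2), g4 ▸ e3, fun e => ?_⟩ ?_
  · have b2 : RK b Z {y, z, r, q} 4 := (b1.mono card_le_three).ins fun e7 =>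
      h7 ((hB _ (hcard N y h1 h3)).1 _ (g1 ▸ e7))
    exact (RK.state hZ card_le_four e b2).2 (g5.symm ▸ h5)
  · rintro C (rfl | rfl)
    · exact h.off hZ
    · exact h'.off hZ

/-- The first rank at which the link sums are not known to vanish. -/
noncomputable def qq (K : Type*) [Field K] : ℕ := if ringChar K = 2 then 8 else ringChar K ^ 2

lemma up_all8 (hs : MM a b univ = 0) (hP : Closed a b P) (j : ℕ) :
    ∀ Z : Finset α, 0 < j → (ringChar K = 0 ∨ j < qq K) →
      Z.card + j = Fintype.card ι → up (Fintype.card ι) (fw a b P) Z = 0 := by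
  by_cases h2 : ringChar K = 2
  swap
  · rw [qq, if_neg h2]
    exact up_all hs hP j
  rw [qq, if_pos h2, h2]
  have h4 : ∀ Z : Finset α, Z.card + 4 = Fintype.card ι →
      up (Fintype.card ι) (fw a b P) Z = 0 := fun Z hZ => up_four hs hP hZ fun Q hQ Y g1 g2 =>
    up_all hs hQ (Fintype.card ι - Y.card) Y (by omega) (Or.inr (by rw [h2]; omega)) (by omega)
  have h5 : ∀ (j i : ℕ) (Z : Finset α), Z.card + j = Fintype.card ι → i + 4 = j →
      ¬ 2 ∣ j.choose i → up (Fintype.card ι) (fw a b P) Z = 0 := fun j i Z g1 g2 g3 =>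
    up_zero_of _ i _ Z (fun g => g3 (by
      rwa [show Fintype.card ι - Z.card = j by omega, ringChar.spec, h2] at g))
      fun Y _ e => h4 Y (by omega)
  intro Z g1 g2 g3
  by_cases g4 : j < 4
  · exact up_all hs hP j Z g1 (Or.inr (by rw [h2]; omega)) g3
  have g5 : j < 8 := by omega
  refine h5 j (j - 4) Z g3 (by omega) ?_
  interval_cases j <;> decide

end

variable {α K : Type*} [Fintype α] [DecidableEq α] [Field K]

/-- The labelling argument with the final identity left as a hypothesis. -/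
theorem closed_compl_of8 {W : Type*} [AddCommGroup W] [Module K W] [Module.Finite K W]
    (v : α → W) (B : Finset α)
    (hdim : Module.finrank K W = B.card) (hBc : Bᶜ.card = B.card)
    (h1 : LinearIndepOn K v (B : Set α)) (h2 : LinearIndepOn K v ((Bᶜ : Finset α) : Set α))
    (H : ∀ g : Finset α → K, (∀ q, ringChar K = 0 ∨ q = qq K →
      UpZ B.card q g ∧ UpZ B.card q (cp univ g)) → (∀ X : Finset α, X.card = B.card → g X ≠ 0 →
        LinearIndepOn K v (X : Set α) ∧ LinearIndepOn K v ((Xᶜ : Finset α) : Set α)) →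
      g B = (-1) ^ B.card * g (univ \ B))
    (P : Finset α → Prop) (hPB : P B)
    (hP : ∀ X Y : Finset α, X.card = B.card → LinearIndepOn K v (X : Set α) →
      LinearIndepOn K v ((Xᶜ : Finset α) : Set α) → Y.card = B.card →
      LinearIndepOn K v (Y : Set α) → LinearIndepOn K v ((Yᶜ : Finset α) : Set α) →
      (∃ x ∈ X, ∃ y, y ∉ X ∧ Y = insert y (X.erase x)) → P X → P Y) :
    P Bᶜ := by
  have hcard := Finset.card_add_card_compl B
  let e := (Module.finBasisOfFinrankEq K W hdim).equivFun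
  let a : α → Fin B.card → K := fun y => e (v y)
  have ha : ∀ I : Set α, LinearIndepOn K a I ↔ LinearIndepOn K v I := fun I =>
    e.toLinearMap.linearIndependent_iff (v := fun x : I => v x) e.ker
  have hsp : ∀ X : Finset α, X.card = B.card → LinearIndepOn K v (X : Set α) →
      span K (a '' X) = ⊤ := by
    intro X g1 g2
    rw [Set.image_eq_range]
    exact LinearIndependent.span_eq_top_of_card_eq_finrank' ((ha _).2 g2) (by simpa using g1)
  obtain ⟨b₁, hb₁⟩ := exists_dual a B (hsp B rfl h1)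
  obtain ⟨b₂, hb₂⟩ := exists_dual a Bᶜ (hsp Bᶜ hBc h2)
  let b : α → Fin B.card → K := fun y => if y ∈ B then b₁ y else -b₂ y
  have e1 : MM a b B = 1 := by
    rw [← hb₁]
    exact sum_congr rfl fun y hy => by simp only [b, if_pos hy]
  have e2 : MM a b Bᶜ = -1 := by
    rw [← hb₂, MM, MM, ← sum_neg_distrib]
    exact sum_congr rfl fun y hy => by simp only [b, if_neg (mem_compl.1 hy), vecMulVec_neg]
  have hs : MM a b univ = 0 := by
    rw [MM, ← sum_add_sum_compl B]
    change MM a b B + MM a b Bᶜ = 0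
    rw [e1, e2, add_neg_cancel]
  have hne : ∀ X : Finset α, (MM a b X).det ≠ 0 → (MM a b Xᶜ).det ≠ 0 := fun X g => by
    rw [det_compl hs]
    exact mul_ne_zero (pow_ne_zero _ (neg_ne_zero.2 one_ne_zero)) g
  have hcc : ∀ X : Finset α, X.card = B.card → Xᶜ.card = B.card := fun X g => by
    rw [card_compl]
    omega
  have hli : ∀ X : Finset α, X.card = B.card → (MM a b X).det ≠ 0 →
      LinearIndepOn K v (X : Set α) := fun X g1 g2 =>
    (ha _).1 (state_left a b X (by simpa using g1) g2).1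
  have hstep : ∀ X Y : Finset α, X.card = B.card → Y.card = B.card → (MM a b X).det ≠ 0 →
      (MM a b Y).det ≠ 0 → (∃ x ∈ X, ∃ y, y ∉ X ∧ Y = insert y (X.erase x)) → P X → P Y := by
    intro X Y g1 g2 g3 g4
    exact hP X Y g1 (hli X g1 g3) (hli _ (hcc X g1) (hne X g3)) g2 (hli Y g2 g4)
      (hli _ (hcc Y g2) (hne Y g4))
  have c1 : Closed a b P := by
    intro F y z hy hz hF hwy hwz hp
    rw [Fintype.card_fin] at hF
    by_cases hyz : z = y
    · rwa [hyz]
    · refine hstep _ _ (by rw [card_insert_of_notMem hy, hF]) (by rw [card_insert_of_notMem hz, hF])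
        hwy hwz ⟨y, mem_insert_self _ _, z, ?_, ?_⟩ hp
      · simp [hyz, hz]
      · rw [erase_insert hy]
  have c2 : Closed a b fun X => P Xᶜ := by
    intro F y z hy hz hF hwy hwz hp
    rw [Fintype.card_fin] at hF
    by_cases hyz : z = y
    · rwa [hyz]
    · refine hstep _ _ (hcc _ (by rw [card_insert_of_notMem hy, hF]))
        (hcc _ (by rw [card_insert_of_notMem hz, hF])) (hne _ hwy) (hne _ hwz) ⟨z, ?_, y, ?_, ?_⟩ hp
      · simp [hyz, hz]
      · simp
      · ext u
        simp only [mem_compl, mem_insert, mem_erase]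
        by_cases he : u = y
        · subst he
          simp [hy, Ne.symm hyz]
        · tauto
  have hu : ∀ Q, Closed a b Q → ∀ q, ringChar K = 0 ∨ q = qq K →
      UpZ B.card q (fw a b Q) := fun Q hQ q hq Z g1 g2 => by
    have := up_all8 hs hQ (B.card - Z.card) Z (by omega) (hq.imp_right fun g => by omega)
      (by rw [Fintype.card_fin]; omega)
    rwa [Fintype.card_fin] at this
  have h3 := H (fw a b P) (fun q hq => ⟨hu P c1 q hq, fun Z g1 g2 => by
    rw [← mul_zero ((-1 : K) ^ Fintype.card (Fin B.card)), ← hu _ c2 q hq Z g1 g2, up, up, mul_sum]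
    refine sum_congr rfl fun X _ => ?_
    rw [cp, if_pos (subset_univ _), ← compl_eq_univ_sdiff]
    simp only [fw, det_compl hs, mul_ite, mul_zero]⟩) fun X g1 g2 => by
      have g3 : (MM a b X).det ≠ 0 := fun g => g2 (by rw [fw, g, ite_self])
      exact ⟨hli X g1 g3, hli _ (hcc X g1) (hne X g3)⟩
  by_contra hn
  rw [← compl_eq_univ_sdiff, fw, fw, if_pos hPB, if_neg hn, e1, det_one, mul_zero] at h3
  exact one_ne_zero h3

/-- The matroid wrapper. -/
theorem reach_of8 {V : Type*} [AddCommGroup V] [Module K V] (M : Matroid α) (v : α → V)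
    (hv : ∀ I : Set α, LinearIndepOn K v I → M.Indep I) (B : Finset α)
    (hB : M.IsBase (B : Set α)) (hBc : M.IsBase ((Bᶜ : Finset α) : Set α))
    (hvB : LinearIndepOn K v (B : Set α)) (hvBc : LinearIndepOn K v ((Bᶜ : Finset α) : Set α))
    (H : Fintype.card α = 2 * B.card → ∀ g : Finset α → K,
      (∀ q, ringChar K = 0 ∨ q = qq K → UpZ B.card q g ∧ UpZ B.card q (cp univ g)) →
      (∀ X : Finset α, X.card = B.card → g X ≠ 0 →
        LinearIndepOn K v (X : Set α) ∧ LinearIndepOn K v ((Xᶜ : Finset α) : Set α)) →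
      g B = (-1) ^ B.card * g (univ \ B)) :
    Relation.ReflTransGen
      (fun X Y : Set α =>
        M.IsBase X ∧ M.IsBase Xᶜ ∧ M.IsBase Y ∧ M.IsBase Yᶜ ∧
          ∃ x ∈ X, ∃ y, y ∉ X ∧ Y = insert y (X \ {x}))
      (B : Set α) ((Bᶜ : Finset α) : Set α) := by
  have hcc : Bᶜ.card = B.card := by
    have := hBc.ncard_eq_ncard_of_isBase hB
    rwa [Set.ncard_coe_finset, Set.ncard_coe_finset] at this
  have hcard : Fintype.card α = 2 * B.card := by
    have := Finset.card_add_card_compl B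
    omega
  have hbase : ∀ X : Finset α, X.card = B.card → LinearIndepOn K v (X : Set α) →
      M.IsBase (X : Set α) := by
    intro X hX hi
    obtain ⟨Y, hY, hXY⟩ := (hv _ hi).exists_isBase_superset
    have h1 := hY.ncard_eq_ncard_of_isBase hB
    rw [Set.ncard_coe_finset] at h1
    have h2 : (X : Set α) = Y := Set.eq_of_subset_of_ncard_le hXY
      (by rw [Set.ncard_coe_finset]; omega)
    rw [h2]; exact hY
  let W : Submodule K V := Submodule.span K (v '' (B : Set α))
  have hmem : ∀ e, v e ∈ W := by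
    intro e
    by_contra hn
    have he : e ∉ (B : Set α) := fun h => hn (Submodule.subset_span ⟨e, h, rfl⟩)
    have hi : LinearIndepOn K v (insert e (B : Set α)) := hvB.insert hn
    have := hB.eq_of_subset_indep (hv _ hi) (Set.subset_insert _ _)
    exact he (this ▸ Set.mem_insert _ _)
  let u : α → W := fun e => ⟨v e, hmem e⟩
  have hu : ∀ I : Set α, LinearIndepOn K u I ↔ LinearIndepOn K v I := by
    intro I
    exact (W.subtype.linearIndependent_iff (v := fun x : I => u x) W.ker_subtype).symm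
  have _j : Module.Finite K W := Module.Finite.span_of_finite K (Set.toFinite _)
  have hdim : Module.finrank K W = B.card := by
    have h1 : W = Submodule.span K (Set.range (fun x : (B : Set α) => v x)) := by
      rw [← Set.image_eq_range]
    rw [h1, finrank_span_eq_card hvB]
    simp
  refine closed_compl_of8 u B hdim hcc ((hu _).2 hvB) ((hu _).2 hvBc)
    (fun g g1 g2 => H hcard g g1 fun X g3 g4 => (g2 X g3 g4).imp (hu _).1 (hu _).1)
    (fun X : Finset α => Relation.ReflTransGen
      (fun X Y : Set α =>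
        M.IsBase X ∧ M.IsBase Xᶜ ∧ M.IsBase Y ∧ M.IsBase Yᶜ ∧
          ∃ x ∈ X, ∃ y, y ∉ X ∧ Y = insert y (X \ {x})) (B : Set α) (X : Set α))
    Relation.ReflTransGen.refl ?_
  intro X Y hX hX1 hX2 hY hY1 hY2 hxy hp
  have cX : Xᶜ.card = B.card := by rw [Finset.card_compl]; omega
  have cY : Yᶜ.card = B.card := by rw [Finset.card_compl]; omega
  refine hp.tail ⟨hbase X hX ((hu _).1 hX1), ?_, hbase Y hY ((hu _).1 hY1), ?_, ?_⟩
  · rw [← Finset.coe_compl]; exact hbase _ cX ((hu _).1 hX2)
  · rw [← Finset.coe_compl]; exact hbase _ cY ((hu _).1 hY2)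
  · obtain ⟨x, hx, y, hy, rfl⟩ := hxy
    exact ⟨x, hx, y, hy, by simp⟩

end Pool.Agent.Lib.MP_b1ff30_co
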