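import Pool.Agent.Lib.MP_b1ff30_co.EC2
import Pool.Agent.Lib.MP_b1ff30_co.P4f

set_option autoImplicit false

namespace Pool.Agent.Lib.MP_b1ff30_co.EC

open Finset Submodule

variable {α W : Type*} [DecidableEq α] [DecidableEq W] [Fintype W]

/-- The vector of a signed edge, unsigned if `z` holds. -/
def Gr (z : Prop) (x : (W → ZMod 2) × ZMod 2) : Prop :=
  (∃ a b : W, x.1 = Pi.single a 1 + Pi.single b 1) ∧ (z → x.2 = 0)

/-- The rank of a set of edges. -/
noncomputable def rk (u : α → (W → ZMod 2) × ZMod 2) (T : Finset α) : ℕ :=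
  Module.finrank (ZMod 2) (span (ZMod 2) (u '' (T : Set α)))

omit [Fintype W] [DecidableEq W] in
lemma two' (x : W → ZMod 2) : x + x = 0 := by
  rw [← two_smul (ZMod 2), show (2 : ZMod 2) = 0 from rfl, zero_smul]

lemma z2 (z : ZMod 2) : z ≠ 0 → z = 1 := by
  revert z
  decide

omit [Fintype W] in
lemma Gr.at {z : Prop} {x : (W → ZMod 2) × ZMod 2} (h : Gr z x) (w : W) (hw : x.1 w ≠ 0) :
    ∃ w', w' ≠ w ∧ x.1 = Pi.single w 1 + Pi.single w' 1 := by
  obtain ⟨⟨a, b, e⟩, -⟩ := h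
  by_cases ha : a = w <;> by_cases hb : b = w
  · rw [e, ha, hb, two'] at hw
    exact absurd rfl hw
  · exact ⟨b, hb, by rw [e, ha]⟩
  · exact ⟨a, ha, by rw [e, hb, add_comm]⟩
  · rw [e] at hw
    simp [Pi.single_eq_of_ne' ha, Pi.single_eq_of_ne' hb] at hw

omit [DecidableEq W] [DecidableEq α] in
lemma rk_mono (u : α → (W → ZMod 2) × ZMod 2) {S T : Finset α} (h : S ⊆ T) : rk u S ≤ rk u T :=
  Submodule.finrank_mono (span_mono (Set.image_mono h))

omit [DecidableEq W] [Fintype W] in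
lemma dep_of_card (u : α → (W → ZMod 2) × ZMod 2) {T : Finset α} (h : rk u T < T.card) :
    ∃ D ⊆ T, D.Nonempty ∧ ∑ e ∈ D, u e = 0 := by
  have h1 : ¬ LinearIndepOn (ZMod 2) u (T : Set α) := fun g => by
    have := card_inter_le u g T
    rw [inter_self] at this
    exact absurd h (not_lt.2 this)
  obtain ⟨f, h2, i, h3, h4⟩ := not_linearIndepOn_finset_iff.1 h1
  refine ⟨T.filter fun e => f e ≠ 0, filter_subset _ _, ⟨i, mem_filter.2 ⟨h3, h4⟩⟩, ?_⟩
  rw [← h2, sum_filter]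
  refine sum_congr rfl fun e _ => ?_
  split_ifs with g
  · rw [z2 _ g, one_smul]
  · rw [not_not.1 g, zero_smul]

lemma short {z : Prop} {k : ℕ} (hk : z ∧ k = 5 ∨ k = 8) {u : α → (W → ZMod 2) × ZMod 2}
    (hu : ∀ e, Gr z (u e)) {T : Finset α} (hT : T.card = rk u T + k)
    (hd : ∀ e ∈ T, ∀ w, (u e).1 w ≠ 0 → 3 ≤ (T.filter fun e => (u e).1 w ≠ 0).card) :
    ∃ x ⊆ T, x.Nonempty ∧ x.card < k ∧ ∑ e ∈ x, u e = 0 := by
  by_contra hno
  push Not at hno
  have h5 : 5 ≤ k := by omega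
  let A : Finset W := univ.filter fun w => ∃ e ∈ T, (u e).1 w ≠ 0
  let Lp : Finset α := T.filter fun e => (u e).1 = 0
  let T0 : Finset α := T.filter fun e => ¬ (u e).1 = 0
  have c0 : Lp.card + T0.card = T.card := card_filter_add_card_filter_not _
  have c1 : ∀ e ∈ Lp, u e = (0, 1) := fun e he => by
    rw [mem_filter] at he
    refine Prod.ext he.2 (z2 _ fun g => hno {e} (by simpa using he.1) (by simp) (by simp; omega) ?_)
    rw [sum_singleton]
    exact Prod.ext he.2 g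
  have c2 : Lp.card ≤ 1 := card_le_one.2 fun e he f hf => by
    by_contra g
    refine hno {e, f} ?_ (by simp) (by rw [card_pair g]; omega) ?_
    · exact insert_subset (mem_filter.1 he).1 (by simpa using (mem_filter.1 hf).1)
    · rw [sum_pair g, c1 e he, c1 f hf, two]
  have c3 : ∀ w ∈ A, 3 ≤ (T0.filter fun e => (u e).1 w ≠ 0).card := fun w hw => by
    obtain ⟨e, g1, g2⟩ := (mem_filter.1 hw).2
    refine (hd e g1 w g2).trans (card_le_card fun f hf => ?_)
    rw [mem_filter] at hf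
    exact mem_filter.2 ⟨mem_filter.2 ⟨hf.1, fun g => hf.2 (by rw [g]; rfl)⟩, hf.2⟩
  have c4 : A.card * 3 ≤ T0.card * 2 := by
    refine card_mul_le_card_mul (fun w e => (u e).1 w ≠ 0) c3 fun e _ => ?_
    obtain ⟨a, b, g⟩ := (hu e).1
    refine (card_le_card (t := {a, b}) fun w hw => ?_).trans card_le_two
    by_contra g1
    rw [mem_insert, mem_singleton, not_or] at g1
    exact (mem_filter.1 hw).2 (by simp [g, g1.1, g1.2])
  have c5 : ∀ e ∈ T, ∀ w, (u e).1 w ≠ 0 → w ∈ A := fun e he w hw =>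
    mem_filter.2 ⟨mem_univ _, e, he, hw⟩
  obtain ⟨w0, c6⟩ : A.Nonempty := by
    obtain ⟨e, he⟩ : T0.Nonempty := card_pos.1 (by omega)
    rw [mem_filter] at he
    obtain ⟨w, hw⟩ := Function.ne_iff.1 he.2
    exact ⟨w, c5 e he.1 w hw⟩
  let g : W → (W → ZMod 2) × ZMod 2 := fun w => (Pi.single w 1 + Pi.single w0 1, 0)
  let S : Finset ((W → ZMod 2) × ZMod 2) := (A.erase w0).image g
  have c7 : S.card + 1 ≤ A.card := by
    have := card_erase_add_one c6
    have : S.card ≤ (A.erase w0).card := card_image_le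
    omega
  have c8 : ∀ w ∈ A, g w ∈ span (ZMod 2) (S : Set ((W → ZMod 2) × ZMod 2)) := fun w hw => by
    by_cases e : w = w0
    · rw [show g w = 0 from Prod.ext (by rw [e]; exact two' _) rfl]
      exact zero_mem _
    · exact subset_span (mem_coe.2 (mem_image_of_mem _ (mem_erase.2 ⟨e, hw⟩)))
  have c9 : ∀ e ∈ T, ((u e).1, (0 : ZMod 2)) ∈ span (ZMod 2) (S : Set ((W → ZMod 2) × ZMod 2)) :=
    fun e he => by
      by_cases e1 : (u e).1 = 0
      · rw [e1]
        exact zero_mem _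
      obtain ⟨w, hw⟩ := Function.ne_iff.1 e1
      obtain ⟨w', e2, e3⟩ := (hu e).at w hw
      have e4 : ((u e).1, (0 : ZMod 2)) = g w + g w' := Prod.ext (by
        rw [e3, Prod.fst_add, add_add_add_comm, two', add_zero]) (by simp [g])
      rw [e4]
      exact add_mem (c8 w (c5 e he w hw)) (c8 w' (c5 e he w' (by simp [e3, e2])))
  have hyp : ∀ N s L : ℕ, A.card ≤ N → N ≤ 18 → s ≤ 1 → (∀ x ⊆ T0, x.Nonempty → x.card ≤ L →
      (∑ e ∈ x, u e).1 = 0 → (s = 0 → (∑ e ∈ x, u e).2 = 0) → False) → Hyp u T0 A N s L :=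
    fun N s L g1 g2 g3 g4 => ⟨fun e w => (hu e).at w, c3,
      fun e he => c5 e (mem_filter.1 he).1, g1, g2, g3, g4⟩
  have sub : ∀ x ⊆ T0, x ⊆ T := fun x hx => hx.trans (filter_subset _ _)
  rcases hk with ⟨hz, rfl⟩ | rfl
  · have d1 : rk u T ≤ S.card := by
      refine le_trans (Submodule.finrank_mono (span_le.2 ?_)) (finrank_span_finset_le_card S)
      rintro _ ⟨e, he, rfl⟩
      rw [show u e = ((u e).1, 0) from Prod.ext rfl ((hu e).2 hz)]
      exact c9 e he
    refine (hyp 8 1 4 (by omega) (by omega) le_rfl fun x g1 g2 g3 g4 _ => ?_).root ⟨w0, c6⟩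
      tA_node tA_chk
    refine hno x (sub x g1) g2 (by omega) (Prod.ext g4 ?_)
    rw [Prod.snd_sum]
    exact sum_eq_zero fun e _ => (hu e).2 hz
  have d1 : rk u T ≤ S.card + 1 := by
    refine le_trans (Submodule.finrank_mono (span_le.2 ?_))
      ((finrank_span_finset_le_card (insert (0, 1) S)).trans (card_insert_le _ _))
    rintro _ ⟨e, he, rfl⟩
    rw [show u e = ((u e).1, 0) + (u e).2 • ((0 : W → ZMod 2), (1 : ZMod 2)) by simp]
    exact add_mem (span_mono (by simp) (c9 e he)) (smul_mem _ _ (subset_span (by simp)))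
  rcases Lp.eq_empty_or_nonempty with d2 | ⟨f, d2⟩
  · rw [d2, card_empty] at c0
    exact (hyp 16 0 7 (by omega) (by omega) (by omega) fun x g1 g2 g3 g4 g5 =>
      hno x (sub x g1) g2 (by omega) (Prod.ext g4 (g5 rfl))).root ⟨w0, c6⟩ tC_node tC_chk
  have d3 : 0 < Lp.card := card_pos.2 ⟨f, d2⟩
  refine (hyp 14 1 6 (by omega) (by omega) le_rfl fun x g1 g2 g3 g4 _ => ?_).root ⟨w0, c6⟩
    tB_node tB_chk
  by_cases d4 : (∑ e ∈ x, u e).2 = 0
  · exact hno x (sub x g1) g2 (by omega) (Prod.ext g4 d4)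
  have d5 : f ∉ x := fun e => (mem_filter.1 (g1 e)).2 (mem_filter.1 d2).2
  refine hno (insert f x) (insert_subset (mem_filter.1 d2).1 (sub x g1)) (insert_nonempty _ _)
    (by rw [card_insert_of_notMem d5]; omega) ?_
  rw [sum_insert d5, c1 f d2, show ∑ e ∈ x, u e = (0, 1) from Prod.ext g4 (z2 _ d4), two]

/-- Large nullity forces two disjoint cycles. -/
theorem ep {z : Prop} {k : ℕ} (hk : z ∧ k = 5 ∨ k = 8) (n : ℕ) :
    ∀ (T : Finset α) (u : α → (W → ZMod 2) × ZMod 2), T.card = n → (∀ e, Gr z (u e)) →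
      rk u T + k ≤ T.card → ∃ D₁ ⊆ T, ∃ D₂ ⊆ T, Disjoint D₁ D₂ ∧ D₁.Nonempty ∧ D₂.Nonempty ∧
        ∑ e ∈ D₁, u e = 0 ∧ ∑ e ∈ D₂, u e = 0 := by
  induction n with
  | zero => intro T u h1 _ h3; omega
  | succ n ih =>
  intro T u h1 hu h3
  by_cases h4 : T.card = rk u T + k
  swap
  · obtain ⟨e, he⟩ : T.Nonempty := card_pos.1 (by omega)
    have e1 := card_erase_add_one he
    have e2 := rk_mono u (erase_subset e T)
    obtain ⟨D₁, g1, D₂, g2, g3⟩ := ih (T.erase e) u (by omega) hu (by omega)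
    exact ⟨D₁, g1.trans (erase_subset _ _), D₂, g2.trans (erase_subset _ _), g3⟩
  by_cases h5 : ∀ e ∈ T, ∀ w, (u e).1 w ≠ 0 → 3 ≤ (T.filter fun e => (u e).1 w ≠ 0).card
  · obtain ⟨x, g1, g2, g3, g4⟩ := short hk hu h4 h5
    have e1 := card_sdiff_of_subset g1
    have e2 := rk_mono u (sdiff_subset (s := T) (t := x))
    obtain ⟨D, g5, g6, g7⟩ := dep_of_card u (T := T \ x) (by omega)
    exact ⟨x, g1, D, g5.trans sdiff_subset, (disjoint_sdiff.mono_right g5), g2, g6, g4, g7⟩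
  push Not at h5
  obtain ⟨e, he, w, hw, h5⟩ := h5
  let u' : α → (W → ZMod 2) × ZMod 2 := fun f => if (u f).1 w ≠ 0 then u f + u e else u f
  have hu' : ∀ f, Gr z (u' f) := fun f => by
    by_cases g : (u f).1 w ≠ 0
    · rw [show u' f = u f + u e from if_pos g]
      obtain ⟨a, -, g1⟩ := (hu f).at w g
      obtain ⟨b, -, g2⟩ := (hu e).at w hw
      refine ⟨⟨a, b, ?_⟩, fun hz => ?_⟩
      · rw [Prod.fst_add, g1, g2, add_add_add_comm, two', zero_add]
      · rw [Prod.snd_add, (hu f).2 hz, (hu e).2 hz, add_zero]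
    · rw [show u' f = u f from if_neg g]
      exact hu f
  have e1 := card_erase_add_one he
  have e2 : rk u' (T.erase e) < rk u T := by
    refine Submodule.finrank_lt_finrank_of_lt (lt_of_le_of_ne (span_le.2 ?_) fun g => ?_)
    · rintro _ ⟨f, hf, rfl⟩
      have g1 : u f ∈ span (ZMod 2) (u '' (T : Set α)) :=
        subset_span ⟨f, mem_coe.2 (mem_of_mem_erase hf), rfl⟩
      by_cases g : (u f).1 w ≠ 0
      · rw [show u' f = u f + u e from if_pos g]
        exact add_mem g1 (subset_span ⟨e, he, rfl⟩)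
      · rw [show u' f = u f from if_neg g]
        exact g1
    · have g1 : u e ∈ span (ZMod 2) (u' '' (T.erase e : Finset α)) :=
        g ▸ subset_span ⟨e, he, rfl⟩
      have g2 : span (ZMod 2) (u' '' (T.erase e : Finset α)) ≤ LinearMap.ker
          ((LinearMap.proj w).comp (LinearMap.fst (ZMod 2) (W → ZMod 2) (ZMod 2))) := by
        refine span_le.2 ?_
        rintro _ ⟨f, -, rfl⟩
        change (u' f).1 w = 0
        by_cases g : (u f).1 w ≠ 0
        · rw [show u' f = u f + u e from if_pos g, Prod.fst_add, Pi.add_apply, z2 _ g, z2 _ hw]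
          rfl
        · rw [show u' f = u f from if_neg g]
          exact not_not.1 g
      exact hw (g2 g1)
  obtain ⟨D₁, g1, D₂, g2, g3, g4, g5, g6, g7⟩ := ih (T.erase e) u' (by omega) hu' (by omega)
  have uq : ∀ f ∈ T.erase e, ∀ f' ∈ T.erase e, (u f).1 w ≠ 0 → (u f').1 w ≠ 0 → f = f' := by
    intro f hf f' hf' k1 k2
    by_contra k3
    rw [mem_erase] at hf hf'
    have k4 : ({f, f', e} : Finset α) ⊆ T.filter fun e => (u e).1 w ≠ 0 := by
      simp only [insert_subset_iff, singleton_subset_iff, mem_filter]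
      exact ⟨⟨hf.2, k1⟩, ⟨hf'.2, k2⟩, he, hw⟩
    have k5 := card_le_card k4
    rw [card_insert_of_notMem (by simp [k3, hf.1]), card_pair hf'.1] at k5
    omega
  have lift : ∀ D ⊆ T.erase e, ∑ f ∈ D, u' f = 0 → ∃ D', D ⊆ D' ∧ D' ⊆ insert e D ∧
      (e ∈ D' → ∃ f ∈ D, (u f).1 w ≠ 0) ∧ ∑ f ∈ D', u f = 0 := by
    intro D k1 k2
    have k0 : e ∉ D := fun g => (mem_erase.1 (k1 g)).1 rfl
    by_cases k3 : ∃ f ∈ D, (u f).1 w ≠ 0
    · refine ⟨insert e D, subset_insert _ _, Subset.rfl, fun _ => k3, ?_⟩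
      obtain ⟨f, k3, k4⟩ := k3
      rw [← add_sum_erase _ _ k3, show u' f = u f + u e from if_pos k4,
        sum_congr rfl (g := u) fun f' hf' => if_neg fun g => (mem_erase.1 hf').1
          (uq _ (k1 (mem_of_mem_erase hf')) _ (k1 k3) g k4)] at k2
      rw [sum_insert k0, ← add_sum_erase _ _ k3, ← k2]
      abel
    · refine ⟨D, Subset.rfl, subset_insert _ _, fun g => absurd g k0, ?_⟩
      rw [← k2]
      exact sum_congr rfl fun f hf => (if_neg fun g => k3 ⟨f, hf, g⟩).symm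
  obtain ⟨E₁, a1, a2, a3, a4⟩ := lift D₁ g1 g6
  obtain ⟨E₂, b1, b2, b3, b4⟩ := lift D₂ g2 g7
  refine ⟨E₁, a2.trans (insert_subset he (g1.trans (erase_subset _ _))), E₂,
    b2.trans (insert_subset he (g2.trans (erase_subset _ _))), disjoint_left.2 fun x x1 x2 => ?_,
    g4.mono a1, g5.mono b1, a4, b4⟩
  by_cases x3 : x = e
  · rw [x3] at x1 x2
    obtain ⟨f, f1, f2⟩ := a3 x1
    obtain ⟨f', f3, f4⟩ := b3 x2
    exact disjoint_left.1 g3 f1 (uq _ (g1 f1) _ (g2 f3) f2 f4 ▸ f3)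
  · exact disjoint_left.1 g3 ((mem_insert.1 (a2 x1)).resolve_left x3)
      ((mem_insert.1 (b2 x2)).resolve_left x3)

end Pool.Agent.Lib.MP_b1ff30_co.EC
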