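import Pool.Agent.Lib.MP_b1ff30_co.EC3

set_option autoImplicit false

namespace Pool.Agent.Lib.MP_b1ff30_co

open Finset Submodule

variable {α K : Type*} [Fintype α] [DecidableEq α] [Field K]

/-- If every deep link is covered by two sets without states then all link sums vanish. -/
lemma cover_upz (n q : ℕ) (f : Finset α → K) (hf : UpZ n q f)
    (h : ∀ Z : Finset α, Z.card + q ≤ n → ∃ Y : Finset α, ∀ X : Finset α, X.card = n →
      f X ≠ 0 → ¬ Disjoint (X \ Z) Y ∧ ¬ X \ Z ⊆ Y) : UpZ n (n + 1) f := by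
  have key : ∀ (d : ℕ) (Z : Finset α), Z.card < n → n ≤ Z.card + d → up n f Z = 0 := by
    intro d
    induction d with
    | zero => intro Z h1 h2; omega
    | succ d ih =>
      intro Z h1 h2
      by_cases h3 : n < Z.card + q
      · exact hf Z h1 h3
      obtain ⟨Y, hY⟩ := h Z (by omega)
      have e := incl_excl n f Z Y h1 fun Z' _ g1 g2 => ih Z' g2 (by omega)
      rw [sum_eq_zero, sum_eq_zero, mul_zero, add_zero] at e
      · exact e.symm
      · intro X hX
        rw [mem_filter] at hX
        by_contra g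
        exact (hY X hX.2.1.1 g).2 hX.2.2
      · intro X hX
        rw [mem_filter] at hX
        by_contra g
        exact (hY X hX.2.1.1 g).1 hX.2.2
  exact fun Z h1 _ => key n Z h1 (by omega)

/-- Antipodal bases are joined if every set of nullity `q` contains two disjoint dependent sets. -/
theorem reach_of_dep {V : Type*} [AddCommGroup V] [Module K V] (M : Matroid α) (v : α → V)
    (hv : ∀ I : Set α, LinearIndepOn K v I → M.Indep I) (B : Finset α)
    (hB : M.IsBase (B : Set α)) (hBc : M.IsBase ((Bᶜ : Finset α) : Set α))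
    (hvB : LinearIndepOn K v (B : Set α)) (hvBc : LinearIndepOn K v ((Bᶜ : Finset α) : Set α))
    (H : ∀ T : Finset α, Module.finrank K (span K (v '' (T : Set α))) + qq K ≤ T.card →
      ∃ D₁ ⊆ T, ∃ D₂ ⊆ T, Disjoint D₁ D₂ ∧ ¬ LinearIndepOn K v (D₁ : Set α) ∧
        ¬ LinearIndepOn K v (D₂ : Set α)) :
    Relation.ReflTransGen
      (fun X Y : Set α =>
        M.IsBase X ∧ M.IsBase Xᶜ ∧ M.IsBase Y ∧ M.IsBase Yᶜ ∧
          ∃ x ∈ X, ∃ y, y ∉ X ∧ Y = insert y (X \ {x}))
      (B : Set α) ((Bᶜ : Finset α) : Set α) := by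
  refine reach_of8 M v hv B hB hBc hvB hvBc fun hcard g h1 h2 => ?_
  have hcc : ∀ X : Finset α, X.card = B.card → Xᶜ.card = B.card := fun X hX => by
    rw [Finset.card_compl]; omega
  have hrk : ∀ T : Finset α, Module.finrank K (span K (v '' (T : Set α))) ≤ B.card := by
    intro T
    have _j : Module.Finite K (span K (v '' (B : Set α))) :=
      Module.Finite.span_of_finite K (Set.toFinite _)
    have h3 := finrank_span_eq_card hvB
    rw [← Set.image_eq_range] at h3
    rw [← Fintype.card_coe]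
    refine le_trans (Submodule.finrank_mono (span_le.2 ?_)) h3.le
    rintro _ ⟨e, -, rfl⟩
    by_contra hn
    have he : e ∉ (B : Set α) := fun h => hn (subset_span ⟨e, h, rfl⟩)
    have := hB.eq_of_subset_indep (hv _ (hvB.insert hn)) (Set.subset_insert _ _)
    exact he (this ▸ Set.mem_insert _ _)
  have key : ∀ f : Finset α → K, UpZ B.card (qq K) f →
      (∀ X : Finset α, X.card = B.card → f X ≠ 0 →
        LinearIndepOn K v ((Xᶜ : Finset α) : Set α)) → UpZ B.card (B.card + 1) f := by
    intro f g1 g2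
    refine cover_upz _ _ f g1 fun Z hZ => ?_
    have e1 := hrk Zᶜ
    obtain ⟨D₁, k1, D₂, k2, k3, k4, k5⟩ := H Zᶜ (by rw [Finset.card_compl]; omega)
    have k6 : ∀ D ⊆ Zᶜ, ∀ X : Finset α, LinearIndepOn K v ((Xᶜ : Finset α) : Set α) →
        Disjoint (X \ Z) D → LinearIndepOn K v (D : Set α) := fun D a1 X a2 a3 =>
      a2.mono (coe_subset.2 fun x hx => mem_compl.2 fun a4 =>
        disjoint_left.1 a3 (mem_sdiff.2 ⟨a4, mem_compl.1 (a1 hx)⟩) hx)
    exact ⟨D₁, fun X a1 a2 => ⟨fun a3 => k4 (k6 D₁ k1 X (g2 X a1 a2) a3),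
      fun a3 => k5 (k6 D₂ k2 X (g2 X a1 a2) (k3.mono_left a3))⟩⟩
  refine core Finset.univ _ (B.card + 1) g hcard (by omega) (fun _ _ => Finset.subset_univ _)
    (key g (h1 _ (Or.inr rfl)).1 fun X a1 a2 => (h2 X a1 a2).2)
    (key _ (h1 _ (Or.inr rfl)).2 fun X e1 e2 => ?_) B (Finset.subset_univ _) rfl
  rw [cp, if_pos (Finset.subset_univ _), ← Finset.compl_eq_univ_sdiff] at e2
  exact (h2 _ (hcc X e1) e2).1

omit [Fintype α] [DecidableEq α] in
lemma rank_le_ker {U V : Type*} [AddCommGroup U] [Module K U] [AddCommGroup V] [Module K V]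
    [Module.Finite K U] (π : U →ₗ[K] V) (S : Set U) :
    Module.finrank K (span K S) ≤
      Module.finrank K (span K (π '' S)) + Module.finrank K (LinearMap.ker π) := by
  have h1 := (π.domRestrict (span K S)).finrank_range_add_finrank_ker
  rw [LinearMap.range_domRestrict, map_span, LinearMap.ker_domRestrict] at h1
  have h2 : Module.finrank K (comap (span K S).subtype (LinearMap.ker π)) ≤
      Module.finrank K (LinearMap.ker π) := by
    rw [← Submodule.finrank_map_subtype_eq]
    exact Submodule.finrank_mono (map_comap_le _ _)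
  omega

end Pool.Agent.Lib.MP_b1ff30_co
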