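import Pool.Agent.Lib.MP_b1ff30_co.EC4

set_option autoImplicit false

namespace Pool.Agent.Lib.MP_b1ff30_co.EC

open Submodule Matrix

variable {α W : Type*} [DecidableEq W] [Fintype W]

/-- Independence of oriented incidence vectors does not depend on the field. -/
lemma transfer (R R' : Type*) [Field R] [Field R'] (s t : α → W) {F : Set α}
    (h : LinearIndepOn R
      (fun e => ((Pi.single (s e) 1 - Pi.single (t e) 1, 0) : (W → R) × R)) F) :
    LinearIndepOn R'
      (fun e => ((Pi.single (s e) 1 - Pi.single (t e) 1, 0) : (W → R') × R')) F := by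
  classical
  have h1 : ∀ i : F, ∃ p : W → R, p (s i) ≠ p (t i) ∧ ∀ j : F, j ≠ i → p (s j) = p (t j) := by
    intro i
    obtain ⟨φ, k1, k2⟩ := exists_le_ker_of_notMem (linearIndepOn_iff_notMem_span.1 h i i.2)
    have k3 : ∀ e, φ (Pi.single (s e) 1 - Pi.single (t e) 1, 0) =
        φ (Pi.single (s e) 1, 0) - φ (Pi.single (t e) 1, 0) := fun e => by
      rw [← map_sub, Prod.mk_sub_mk, sub_zero]
    refine ⟨fun w => φ (Pi.single w 1, 0), fun g => k1 ?_, fun j hj => sub_eq_zero.1 ?_⟩
    · rw [k3]
      exact sub_eq_zero.2 g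
    · rw [← k3]
      exact k2 (subset_span ⟨j, ⟨j.2, fun g => hj (Subtype.ext g)⟩, rfl⟩)
  choose p hp hp' using h1
  refine LinearIndependent.of_pairwise_dual_eq_zero_one _ (fun i => dotProductBilin R' R'
    (fun w => if p i w = p i (s i) then (1 : R') else 0) ∘ₗ LinearMap.fst R' _ _)
    (fun i j hij => ?_) fun i => ?_
  · simp [dotProduct_sub, hp' i j hij.symm]
  · simp [dotProduct_sub, (hp i).symm]

omit [DecidableEq W] in
/-- Independence of binary vectors is preserved by extension of the field. -/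
lemma base_change (K : Type*) [Field K] [Algebra (ZMod 2) K] (u : α → (W → ZMod 2) × ZMod 2)
    (F : Set α) :
    LinearIndepOn K (fun e => ((algebraMap (ZMod 2) K ∘ (u e).1, algebraMap (ZMod 2) K (u e).2) :
      (W → K) × K)) F ↔ LinearIndepOn (ZMod 2) u F := by
  let L : ∀ (R : Type _) [Field R], ((W → R) × R) ≃ₗ[R] (Option W → R) := fun R _ =>
    (LinearEquiv.prodComm R _ _).trans (LinearEquiv.piOptionEquivProd R (M := fun _ => R)).symm
  let L' : ((W → K) × K) ≃ₗ[K] (Option W → K) :=
    (LinearEquiv.prodComm K _ _).trans (LinearEquiv.piOptionEquivProd K (M := fun _ => K)).symm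
  rw [← (L (ZMod 2)).toLinearMap.linearIndepOn_iff_of_injOn (L (ZMod 2)).injective.injOn,
    ← L'.toLinearMap.linearIndepOn_iff_of_injOn L'.injective.injOn, LinearIndepOn, LinearIndepOn,
    ← linearIndependent_algebraMap_comp_iff (R := ZMod 2) (S := K)]
  refine iff_of_eq (congrArg (fun x : F → Option W → K => LinearIndependent K x)
    (funext fun e => funext fun o => ?_))
  cases o <;> rfl

omit [DecidableEq W] [Fintype W] in
lemma rk_le {K U : Type*} [Field K] [AddCommGroup U] [Module K U] [DecidableEq α] [Fintype α]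
    (u : α → (W → ZMod 2) × ZMod 2) (u' : α → U)
    (h : ∀ F : Set α, LinearIndepOn (ZMod 2) u F → LinearIndepOn K u' F) (T : Finset α) :
    rk u T ≤ Module.finrank K (span K (u' '' (T : Set α))) := by
  obtain ⟨b, b1, -, b2, b3⟩ := exists_linearIndepOn_extension (linearIndepOn_empty (ZMod 2) u)
    (Set.empty_subset (T : Set α))
  obtain ⟨b, rfl⟩ : ∃ b' : Finset α, (b' : Set α) = b := ⟨b.toFinite.toFinset, by simp⟩
  have h1 := card_inter_le u' (h _ b3) T
  rw [Finset.inter_eq_right.2 (Finset.coe_subset.1 b1)] at h1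
  refine le_trans ?_ h1
  have _j : Module.Finite (ZMod 2) (span (ZMod 2) (u '' (b : Set α))) :=
    Module.Finite.span_of_finite _ (Set.toFinite _)
  refine (Submodule.finrank_mono (span_le.2 b2)).trans ?_
  classical
  rw [← Finset.coe_image]
  exact (finrank_span_finset_le_card _).trans Finset.card_image_le

end Pool.Agent.Lib.MP_b1ff30_co.EC
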