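import Mathlib
import Pool.Agent.Lib.MP_b1ff30_co.EC5

set_option autoImplicit false

namespace Pool.Agent.Lib.MP_b1ff30_co.EC6

open Pool.Agent.Lib.MP_b1ff30_co

/-- Antipodal bases lie in the same component of the complementary basis graph, for every matroid
obtained over a field from a graphic matroid by adding `a` rows with idempotent two-torsion entries
and adding, or adding and contracting, `d` columns, where `5 + 3 a + d ≤ q`, with `q = 8` in
characteristic two and `q = p ^ 2` in characteristic `p` otherwise. -/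
theorem main (K : Type*) [Field K] (α W : Type) [Finite α] [Finite W] [DecidableEq W]
    (s t : α → W) (a : ℕ) (σ : α → Fin a → K)
    (hσ : ∀ e i, 2 * σ e i = 0 ∧ σ e i * σ e i = σ e i)
    (V : Type*) [AddCommGroup V] [Module K V]
    (π : ((W → K) × (Fin a → K)) →ₗ[K] V) (D : Set α) (v : α → V)
    (hD : ∀ e, e ∉ D → v e = π (Pi.single (s e) 1 - Pi.single (t e) 1, σ e))
    (q : ℕ) (hq : q = if ringChar K = 2 then 8 else ringChar K ^ 2)
    (hd : 5 + 3 * a + (D.ncard + Module.finrank K (LinearMap.ker π)) ≤ q)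
    (M : Matroid α) (hE : M.E = Set.univ)
    (hv : ∀ I : Set α, LinearIndepOn K v I → M.Indep I)
    (B : Set α) (hB : M.IsBase B) (hBc : M.IsBase Bᶜ)
    (hvB : LinearIndepOn K v B) (hvBc : LinearIndepOn K v Bᶜ) :
    Relation.ReflTransGen
      (fun X Y : Set α =>
        M.IsBase X ∧ M.IsBase Xᶜ ∧ M.IsBase Y ∧ M.IsBase Yᶜ ∧
          ∃ x ∈ X, ∃ y, y ∉ X ∧ Y = insert y (X \ {x}))
      B Bᶜ := by
  classical
  have _hE := hE
  let _i : Fintype α := Fintype.ofFinite α
  let _j : Fintype W := Fintype.ofFinite W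
  obtain ⟨B, rfl⟩ : ∃ B' : Finset α, (B' : Set α) = B := ⟨B.toFinset, Set.coe_toFinset B⟩
  obtain ⟨D, rfl⟩ : ∃ D' : Finset α, (D' : Set α) = D := ⟨D.toFinset, Set.coe_toFinset D⟩
  rw [← Finset.coe_compl] at hBc hvBc ⊢
  rw [Set.ncard_coe_finset] at hd
  refine reach_of_dep M v hv B hB hBc hvB hvBc fun T hT => ?_
  rw [qq, ← hq] at hT
  let u'' : α → (W → K) × (Fin a → K) := fun e => (Pi.single (s e) 1 - Pi.single (t e) 1, σ e)
  let j : ((W → K) × (Fin a → K)) →ₗ[K] (W → K) × K :=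
    LinearMap.id.prodMap (∑ i, LinearMap.proj i)
  let τ : α → K := fun e => ∑ i, σ e i
  let u' : α → (W → K) × K := fun e => (Pi.single (s e) 1 - Pi.single (t e) 1, τ e)
  have hj : u' = j ∘ u'' := funext fun e => by simp [u', u'', j, τ]
  let u : α → (W → ZMod 2) × ZMod 2 := fun e =>
    (Pi.single (s e) 1 + Pi.single (t e) 1, if τ e = 0 then 0 else 1)
  have hc : σ = 0 ∨ ringChar K = 2 ∧ a = 1 := by
    by_cases g : σ = 0
    · exact Or.inl g
    obtain ⟨e, g1⟩ := Function.ne_iff.1 g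
    obtain ⟨i, g2⟩ := Function.ne_iff.1 g1
    have g3 : ((2 : ℕ) : K) = 0 := by
      exact_mod_cast (mul_eq_zero.1 (hσ e i).1).resolve_right g2
    have g4 : ringChar K = 2 := CharP.ringChar_of_prime_eq_zero Nat.prime_two g3
    rw [if_pos g4] at hq
    have := i.2
    exact Or.inr ⟨g4, by omega⟩
  have h0 : ∀ F : Set α, LinearIndepOn K u' F ↔ LinearIndepOn (ZMod 2) u F := fun F => by
    rcases hc with g | ⟨g1, rfl⟩
    · have e1 : u = fun e => (Pi.single (s e) 1 - Pi.single (t e) 1, 0) := funext fun e =>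
        Prod.ext (funext fun w => (CharTwo.sub_eq_add _ _).symm) (by simp [u, τ, g])
      have e2 : u' = fun e => (Pi.single (s e) 1 - Pi.single (t e) 1, 0) := funext fun e => by
        simp [u', τ, g]
      rw [e1, e2]
      exact ⟨EC.transfer _ _ s t, EC.transfer _ _ s t⟩
    · have _c : CharP K 2 := ringChar.of_eq g1
      let _a : Algebra (ZMod 2) K := ZMod.algebra K 2
      rw [← EC.base_change K u F]
      refine iff_of_eq (congrArg (fun x => LinearIndepOn K x F) (funext fun e => Prod.ext ?_ ?_))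
      · funext w
        simp [u, u', Pi.single_apply, CharTwo.sub_eq_add, apply_ite (algebraMap (ZMod 2) K)]
      · by_cases g : σ e 0 = 0
        · simp [u, u', τ, g]
        · simp [u, u', τ, mul_left_cancel₀ g ((hσ e 0).2.trans (mul_one _).symm)]
  have hi : ∀ X : Set α, LinearIndepOn K u'' X → LinearIndepOn K u' X := fun X g => by
    rcases hc with g0 | ⟨-, rfl⟩
    · have e1 : u'' = (LinearMap.id.prodMap (0 : K →ₗ[K] (Fin a → K))) ∘ u' :=
        funext fun e => by simp [u', u'', g0]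
      exact LinearIndepOn.of_comp _ (e1 ▸ g)
    · have e1 : u'' = (LinearMap.id.prodMap (LinearMap.pi fun _ : Fin 1 =>
          (LinearMap.id : K →ₗ[K] K))) ∘ u' := funext fun e => Prod.ext rfl (funext fun i => by
        simp [u', u'', τ, Subsingleton.elim i 0])
      exact LinearIndepOn.of_comp _ (e1 ▸ g)
  have h1 : ∀ e ∈ T \ D, v e = π (u'' e) := fun e he => hD e (Finset.mem_sdiff.1 he).2
  have h2 : EC.rk u (T \ D) ≤ Module.finrank K (Submodule.span K (v '' (T : Set α)))
      + Module.finrank K (LinearMap.ker π) := by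
    have _k : Module.Finite K (Submodule.span K (v '' (T : Set α))) :=
      Module.Finite.span_of_finite _ (Set.toFinite _)
    refine (EC.rk_le u u'' (fun F g => LinearIndepOn.of_comp j (hj ▸ (h0 F).2 g)) _).trans
      ((rank_le_ker π _).trans
      (Nat.add_le_add_right (Submodule.finrank_mono (Submodule.span_mono ?_)) _))
    rintro _ ⟨_, ⟨e, he, rfl⟩, rfl⟩
    exact ⟨e, (Finset.mem_sdiff.1 he).1, h1 e he⟩
  have h3 := Finset.le_card_sdiff D T
  have h4 : ∀ X ⊆ T \ D, X.Nonempty → ∑ e ∈ X, u e = 0 → ¬ LinearIndepOn K v X := by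
    intro X g1 ⟨e, g2⟩ g3 g4
    refine not_linearIndepOn_finset_iff.2 ⟨fun _ => 1, by simpa using g3, e, g2, one_ne_zero⟩
      ((h0 X).1 (hi X (LinearIndepOn.of_comp π (g4.congr fun e he => h1 e (g1 he)))))
  obtain ⟨k, h5, h6⟩ : ∃ k, (σ = 0 ∧ k = 5 ∨ k = 8) ∧ EC.rk u (T \ D) + k ≤ (T \ D).card := by
    rcases hc with g | ⟨-, g⟩
    · exact ⟨5, Or.inl ⟨g, rfl⟩, by omega⟩
    · exact ⟨8, Or.inr rfl, by omega⟩
  obtain ⟨D₁, g1, D₂, g2, g3, g4, g5, g6, g7⟩ := EC.ep h5 _ (T \ D) u rfl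
    (fun e => ⟨⟨s e, t e, rfl⟩, fun g => if_pos (by simp [τ, g])⟩) h6
  exact ⟨D₁, g1.trans Finset.sdiff_subset, D₂, g2.trans Finset.sdiff_subset, g3,
    h4 D₁ g1 g4 g6, h4 D₂ g2 g5 g7⟩

end Pool.Agent.Lib.MP_b1ff30_co.EC6
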