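import Pool.Agent.Lib.MP_b1ff30_co.KH2

set_option autoImplicit false
set_option maxRecDepth 100000

namespace Pool.Agent.Lib.MP_b1ff30_co.KH

open Pool.Agent.Lib.MP_b1ff30_co.Rup (fo fo_eq)

/-- The check of a step within level `r + 1`, with exclusions at the root. -/
noncomputable def eqw (r : ℕ) (L : List ℕ) (tg : ℕ → List ℕ) (ws : ℕ) (T : Tt) : Bool :=
  fo (fl (Nat.succ r)) fun F => fo (msk (ul (Nat.succ r) ++ L)) fun E =>
    fo (lvs (Nat.succ r) F tg E 100 ws 0) fun X => chk r F 0 tg T E X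

/-- The further edges. -/
def nm : List ℕ := [3, 5, 9, 22, 26, 6, 18, 10]

/-- A pattern. -/
def qt1_0 : List ℕ := [3, 5, 6, 9, 11, 13, 17, 18, 22, 26]

/-- A pattern. -/
def qt1_1 : List ℕ := [3, 5, 6, 9, 11, 13, 18, 21, 22, 26]

/-- A pattern. -/
def qt1_2 : List ℕ := [3, 5, 6, 9, 11, 14, 18, 21, 22, 26]

/-- A pattern. -/
def qt1_3 : List ℕ := [3, 5, 6, 9, 11, 14, 18, 22, 23, 26]

/-- A pattern. -/
def qt1_4 : List ℕ := [3, 5, 6, 9, 14, 18, 22, 25, 26]

/-- A pattern. -/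
def qt1_5 : List ℕ := [3, 5, 6, 9, 11, 18, 22, 26, 29]

/-- A pattern. -/
def qt1_6 : List ℕ := [3, 5, 6, 9, 11, 15, 18, 21, 22, 26]

/-- A pattern. -/
def qt1_7 : List ℕ := [3, 5, 6, 10, 13, 14, 17, 19, 26, 28]

/-- A pattern. -/
def qt1_8 : List ℕ := [3, 5, 6, 10, 14, 17, 25, 26, 28]

/-- A pattern. -/
def qt1_9 : List ℕ := [3, 5, 6, 9, 11, 13, 17, 18, 21, 22, 26]

/-- A pattern. -/
def qt1_10 : List ℕ := [3, 5, 6, 9, 11, 13, 17, 18, 22, 26, 28]

/-- A pattern. -/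
def qt1_11 : List ℕ := [3, 5, 6, 9, 11, 13, 17, 18, 22, 26, 30]

/-- A pattern. -/
def qt1_12 : List ℕ := [3, 5, 6, 9, 11, 13, 17, 18, 22, 26, 31]

/-- A pattern. -/
def qt1_13 : List ℕ := [3, 5, 6, 7, 9, 11, 13, 18, 21, 22, 26]

/-- A pattern. -/
def qt1_14 : List ℕ := [3, 5, 6, 9, 11, 13, 18, 21, 22, 26, 28]

/-- A pattern. -/
def qt1_15 : List ℕ := [3, 5, 6, 9, 11, 14, 15, 18, 21, 22, 26]

/-- A pattern. -/
def qt1_16 : List ℕ := [3, 5, 6, 9, 11, 14, 18, 21, 22, 25, 26]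

/-- A pattern. -/
def qt1_17 : List ℕ := [3, 5, 6, 9, 11, 14, 18, 21, 22, 26, 28]

/-- A pattern. -/
def qt1_18 : List ℕ := [3, 5, 6, 9, 11, 14, 18, 21, 22, 26, 31]

/-- A pattern. -/
def qt1_19 : List ℕ := [3, 5, 6, 9, 11, 14, 18, 22, 23, 26, 29]

/-- A pattern. -/
def qt1_20 : List ℕ := [3, 5, 6, 7, 9, 14, 18, 22, 25, 26]

/-- A pattern. -/
def qt1_21 : List ℕ := [3, 5, 6, 9, 11, 14, 18, 22, 25, 26]

/-- A pattern. -/
def qt1_22 : List ℕ := [3, 5, 6, 9, 13, 14, 18, 22, 25, 26]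

/-- A pattern. -/
def qt1_23 : List ℕ := [3, 5, 6, 9, 14, 15, 18, 22, 25, 26]

/-- A pattern. -/
def qt1_24 : List ℕ := [3, 5, 6, 9, 14, 18, 21, 22, 25, 26]

/-- A pattern. -/
def qt1_25 : List ℕ := [3, 5, 6, 9, 14, 18, 22, 23, 25, 26]

/-- A pattern. -/
def qt1_26 : List ℕ := [3, 5, 6, 9, 14, 18, 22, 25, 26, 29]

/-- A pattern. -/
def qt1_27 : List ℕ := [3, 5, 6, 9, 11, 14, 18, 22, 26, 29]

/-- A pattern. -/
def qt1_28 : List ℕ := [3, 5, 6, 9, 11, 18, 22, 26, 28, 29]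

/-- A pattern. -/
def qt1_29 : List ℕ := [3, 5, 6, 9, 11, 18, 22, 26, 29, 30]

/-- A pattern. -/
def qt1_30 : List ℕ := [3, 5, 6, 9, 11, 15, 18, 21, 22, 26, 30]

/-- A pattern. -/
def qt1_31 : List ℕ := [3, 5, 6, 7, 10, 13, 14, 17, 19, 26, 28]

/-- A pattern. -/
def qt1_32 : List ℕ := [3, 5, 6, 10, 14, 17, 19, 25, 26, 28]

/-- A pattern. -/
def qt1_33 : List ℕ := [3, 5, 6, 10, 14, 17, 21, 25, 26, 28]

/-- A pattern. -/
def qt1_34 : List ℕ := [3, 5, 6, 9, 11, 13, 17, 18, 21, 22, 26, 28]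

/-- A pattern. -/
def qt1_35 : List ℕ := [3, 5, 6, 9, 11, 13, 17, 18, 21, 22, 26, 30]

/-- A pattern. -/
def qt1_36 : List ℕ := [3, 5, 6, 9, 11, 13, 17, 18, 22, 26, 28, 29]

/-- A pattern. -/
def qt1_37 : List ℕ := [3, 5, 6, 7, 9, 11, 13, 18, 21, 22, 26, 28]

/-- A pattern. -/
def qt1_38 : List ℕ := [3, 5, 6, 9, 11, 14, 15, 18, 21, 22, 26, 28]

/-- A pattern. -/
def qt1_39 : List ℕ := [3, 5, 6, 9, 11, 14, 18, 21, 22, 26, 28, 31]

/-- A pattern. -/
def qt1_40 : List ℕ := [3, 5, 6, 7, 9, 14, 18, 22, 25, 26, 29]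

/-- A pattern. -/
def qt1_41 : List ℕ := [3, 5, 6, 9, 13, 14, 18, 22, 25, 26, 29]

/-- A pattern. -/
def qt1_42 : List ℕ := [3, 5, 6, 9, 14, 15, 18, 22, 25, 26, 28]

/-- A pattern. -/
def qt1_43 : List ℕ := [3, 5, 6, 9, 14, 18, 21, 22, 23, 25, 26]

/-- A pattern. -/
def qt1_44 : List ℕ := [3, 5, 6, 9, 14, 18, 21, 22, 25, 26, 29]

/-- A pattern. -/
def qt1_45 : List ℕ := [3, 5, 6, 9, 11, 13, 17, 18, 21, 22, 26, 28, 30]

/-- A pattern. -/
def qt1_46 : List ℕ := [3, 5, 6, 9, 14, 18, 21, 22, 23, 25, 26, 29]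

/-- A pattern. -/
def qt2_0 : List ℕ := [3, 5, 10, 14, 22, 25, 30, 35, 42, 49, 53, 58]

/-- A pattern. -/
def qt2_1 : List ℕ := [3, 5, 10, 12, 21, 25, 31, 43, 50, 56, 59, 63]

/-- A pattern. -/
def qt2_2 : List ℕ := [3, 6, 9, 14, 21, 28, 30, 35, 44, 49, 53, 60]

/-- A pattern. -/
def qt2_3 : List ℕ := [3, 5, 12, 14, 25, 26, 30, 44, 49, 51, 57, 60]

/-- A pattern. -/
def qt2_4 : List ℕ := [3, 5, 11, 13, 18, 22, 26, 34, 41, 45, 48, 53]

/-- A pattern. -/
def qt2_5 : List ℕ := [3, 7, 12, 23, 26, 30, 41, 44, 49, 51, 57]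

/-- A pattern. -/
def qt2_6 : List ℕ := [3, 5, 13, 14, 22, 26, 29, 35, 42, 49, 53, 58]

/-- A pattern. -/
def qt2_7 : List ℕ := [3, 5, 13, 22, 25, 26, 39, 41, 50, 54, 57]

/-- A pattern. -/
def qt2_8 : List ℕ := [3, 6, 10, 13, 14, 17, 26, 37, 45, 51, 53, 58]

/-- A pattern. -/
def qt2_9 : List ℕ := [3, 6, 13, 14, 21, 26, 29, 33, 42, 51, 53, 58]

/-- A pattern. -/
def qt2_10 : List ℕ := [3, 6, 12, 15, 21, 26, 31, 35, 40, 50, 59, 63]

/-- A pattern. -/
def qt2_11 : List ℕ := [3, 5, 12, 15, 21, 26, 34, 46, 49, 50, 57]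

/-- A pattern. -/
def qt2_12 : List ℕ := [3, 5, 13, 23, 25, 26, 38, 41, 50, 54, 57, 58]

/-- A pattern. -/
def qt2_13 : List ℕ := [3, 6, 13, 14, 25, 26, 29, 38, 49, 51, 54, 57]

/-- A pattern. -/
def qt2_14 : List ℕ := [3, 7, 12, 14, 20, 25, 28, 37, 46, 49, 51, 57]

/-- A pattern. -/
def qt2_15 : List ℕ := [3, 5, 7, 9, 21, 26, 30, 34, 41, 54, 57, 58]

/-- A pattern. -/
def qt2_16 : List ℕ := [3, 5, 10, 15, 17, 25, 31, 37, 50, 59, 60, 63]

/-- A pattern. -/
def qt2_17 : List ℕ := [3, 6, 9, 14, 21, 27, 30, 38, 42, 50, 53, 58]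

/-- A pattern. -/
def qt2_18 : List ℕ := [3, 5, 10, 14, 19, 23, 24, 41, 42, 49, 52, 54]

/-- A pattern. -/
def qt2_19 : List ℕ := [3, 6, 9, 14, 21, 25, 29, 35, 36, 51, 54, 60]

/-- A pattern. -/
def qt2_20 : List ℕ := [3, 6, 11, 14, 21, 27, 28, 33, 44, 49, 53, 54]

/-- A pattern. -/
def qt2_21 : List ℕ := [3, 5, 11, 12, 19, 27, 29, 38, 41, 48, 52, 58]

/-- A pattern. -/
def qt2_22 : List ℕ := [3, 5, 11, 12, 22, 25, 26, 43, 45, 48, 52, 58]

/-- A pattern. -/
def qt2_23 : List ℕ := [3, 7, 12, 14, 23, 25, 26, 41, 44, 49, 58, 60]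

/-- A pattern. -/
def qt2_24 : List ℕ := [3, 6, 11, 14, 20, 25, 26, 36, 43, 49, 56, 61]

/-- A pattern. -/
def qt2_25 : List ℕ := [3, 7, 12, 14, 20, 25, 28, 37, 46, 49, 54, 60]

/-- A pattern. -/
def qt2_26 : List ℕ := [3, 6, 12, 19, 25, 27, 40, 45, 49, 52, 58, 61]

/-- A pattern. -/
def qt2_27 : List ℕ := [3, 5, 10, 14, 19, 22, 30, 33, 41, 54, 57, 58]

/-- A pattern. -/
def qt2_28 : List ℕ := [3, 5, 10, 14, 19, 22, 30, 33, 49, 54, 57, 58]

/-- A pattern. -/
def qt2_29 : List ℕ := [3, 5, 12, 14, 17, 25, 30, 42, 46, 49, 57, 58]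

/-- A pattern. -/
def qt2_30 : List ℕ := [3, 6, 9, 13, 14, 17, 22, 34, 46, 49, 57, 58]

/-- A pattern. -/
def qt2_31 : List ℕ := [3, 6, 9, 14, 19, 21, 30, 34, 41, 54, 57, 58]

/-- A pattern. -/
def qt2_32 : List ℕ := [3, 6, 9, 14, 19, 21, 30, 34, 50, 54, 57, 58]

/-- A pattern. -/
def qt2_33 : List ℕ := [3, 6, 9, 14, 21, 25, 30, 38, 41, 50, 57, 58]

/-- A pattern. -/
def qt2_34 : List ℕ := [3, 6, 9, 13, 22, 25, 30, 38, 42, 49, 57, 58]

/-- A pattern. -/
def qt2_35 : List ℕ := [3, 6, 14, 21, 25, 30, 38, 41, 50, 54, 57, 58]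

/-- A pattern. -/
def qt2_36 : List ℕ := [3, 5, 7, 9, 18, 29, 36, 42, 54, 58, 61]

/-- A pattern. -/
def qt2_37 : List ℕ := [3, 5, 13, 14, 18, 26, 30, 33, 43, 53, 58, 61]

/-- A pattern. -/
def qt2_38 : List ℕ := [3, 5, 9, 13, 14, 25, 27, 42, 46, 50, 53, 61]

/-- A pattern. -/
def qt2_39 : List ℕ := [3, 5, 15, 22, 24, 31, 42, 49, 51, 56, 60]

/-- A pattern. -/
def qt2_40 : List ℕ := [3, 5, 7, 9, 12, 25, 26, 34, 46, 53, 58, 61]

/-- A pattern. -/
def qt2_41 : List ℕ := [3, 5, 11, 15, 18, 21, 26, 38, 41, 43, 53, 54]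

/-- A pattern. -/
def qt2_42 : List ℕ := [3, 5, 6, 13, 22, 26, 30, 35, 49, 51, 58, 60]

/-- A pattern. -/
def qt2_43 : List ℕ := [3, 6, 11, 12, 17, 26, 28, 37, 38, 46, 49, 53]

/-- A pattern. -/
def qt2_44 : List ℕ := [3, 6, 11, 13, 18, 24, 25, 37, 38, 40, 50, 54]

/-- The patterns of one size. -/
def cs14 : List (List ℕ) := [qt1_4, qt1_5, qt1_8]

/-- The patterns of one size. -/
def cs15 : List (List ℕ) := [qt1_0, qt1_1, qt1_2, qt1_3, qt1_6, qt1_7, qt1_20, qt1_21, qt1_22, qt1_23, qt1_24, qt1_25, qt1_26, qt1_27, qt1_28, qt1_29, qt1_32, qt1_33]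

/-- The patterns of one size. -/
def cs16 : List (List ℕ) := [qt1_9, qt1_10, qt1_11, qt1_12, qt1_13, qt1_14, qt1_15, qt1_16, qt1_17, qt1_18, qt1_19, qt1_30, qt1_31, qt1_40, qt1_41, qt1_42, qt1_43, qt1_44]

/-- The patterns of one size. -/
def cs17 : List (List ℕ) := [qt1_34, qt1_35, qt1_36, qt1_37, qt1_38, qt1_39, qt1_46]

/-- The patterns of one size. -/
def cs18 : List (List ℕ) := [qt1_45]

/-- The patterns of one size. -/
def cs19 : List (List ℕ) := []

/-- The patterns of level five. -/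
def ls5 : List (List ℕ) := [qt1_0, qt1_1, qt1_2, qt1_3, qt1_4, qt1_5, qt1_6, qt1_7, qt1_8]

/-- The patterns of level six. -/
def ls6 : List (List ℕ) := [qt2_0, qt2_1, qt2_2, qt2_3, qt2_4, qt2_5, qt2_6, qt2_7, qt2_8, qt2_9, qt2_10, qt2_11, qt2_12, qt2_13, qt2_14, qt2_15, qt2_16, qt2_17, qt2_18, qt2_19, qt2_20, qt2_21, qt2_22, qt2_23, qt2_24, qt2_25, qt2_26, qt2_27, qt2_28, qt2_29, qt2_30, qt2_31, qt2_32, qt2_33, qt2_34, qt2_35, qt2_36, qt2_37, qt2_38, qt2_39, qt2_40, qt2_41, qt2_42, qt2_43, qt2_44]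

/-- Part of the certificate. -/
def tq0_0 : Tt :=
 (.br 11 0x80000d09060429f0000050000808080809d0000400000809080809b (.br 13 0xb08041049f0000010000808080849d000000000080808084990000000000b080410097000001000080808080950000000000808080809100004000003121208093 (.fin 1 16)
 (.br 14 0x40000b08041009f0000050000808080809d0000040000808080809900000300008080808097000002000080808080950000000000486240411300004000004110a0c091 (.fin 1 16)
 (.br 15 0x60000808080859f0000020000192122c79d00000000000990c0849900000200004920604297000006000080808080950000000000406260419300004000002101208091 (.fin 1 16)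
 (.br 28 0x80000416041009f0000050000808080809d000008000041008080990000040000592020c297000007000041008080950000010000406264881300000200004062248811 (.fin 1 16)
 (.br 30 0x80000d09060429f0000080000c810c088190000040000b1212041170000080000801160ca950000000000496060499300000400001813448211 (.fin 1 16)
 (.fin 4 8))))))
 (.br 13 0x50000b08041009d0000080000d090a041990000400000b09041009b (.br 14 0x40000b08041009f0000050000b08041009d000004000080808080990000020000b080410095000000000048624042130000030000b08041009100004000004170614097 (.fin 1 16)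
 (.br 15 0x9f0c1049f0000020000292123479d0000060000b0804106990000060000b0804100950000000000406260429300000200004920a0419100004000001161210097 (.fin 1 16)
 (.br 24 0x80000f810c10b1f0000050000b08041009d0000080000d090a04199000004000028134481170000080000b011a14a9500000000004900a0499300000400004920a04191 (.fin 1 16)
 (.br 28 0x80000416041009f0000050000b08041009d00000200004062e48b170000070000416041009500000100004062648b1300000400006920214191 (.fin 1 16)
 (.fin 8 18)))))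
 (.br 24 0x80000f810c10b1f0000050000d05200831d000040000081a080809b (.br 14 0x40000b08041009f0000050000701201811d0000040000808080809900000300007012018117000002000018808089150000000000c010c401130000400000b080440091 (.fin 1 16)
 (.br 15 0x80000288044821f0000050000d05200831d0000080000403080891900000400003012440417000007000040308089150000010000406260419300000200004062204191 (.fin 1 16)
 (.br 28 0x600001880808c1f00000200008013460e1d00000000009190c08d190000020000d012048b17000006000018808089150000000000c130c088130000400000d100808091 (.fin 1 16)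
 (.br 30 0x2880410d1f00000000001880808d190000000000288041091700000100001880808915000000000018808089110000400000c120808093 (.fin 1 16)
 (.fin 4 8)))))
 (.br 25 0x80000c810c0881e00000400009190c0819d0000080000410080809c0000080000403080890f0000040000808080808e0000400000f90061811f (.fin 4 8)
 (.br 30 0x50000d032c1031d0000400000b1a041009b (.br 14 0x40000b08041009f00000500007012c1821d000002000028804109150000000000d06024821300000300007012c1821100004000008080858097 (.fin 1 16)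
 (.br 15 0x80000405041091f0000050000d032c1031d00000200004062e04297000007000040504109150000010000406260429300000400003012458411 (.fin 1 16)
 (.br 28 0x91f0c10d1f0000020000b013478e1d0000060000d1504188150000000000f130c10b130000020000d012c488110000400000d160410097 (.fin 1 16)
 (.fin 8 18))))
 (.br 31 0x4000091f0c1029d0000080000416041009c0000080000405041090f0000040000b08041008e (.fin 8 18)
 (.fin 8 22)))))))

theorem cq0_0 : eqw 4 nn (tf nm ls5) 0x400000b08041008c0000400000808080808a tq0_0 = true := by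
  decide +kernel

end Pool.Agent.Lib.MP_b1ff30_co.KH
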