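import Pool.Agent.Lib.MP_b1ff30_co.KH1

set_option autoImplicit false

namespace Pool.Agent.Lib.MP_b1ff30_co.KH

open Pool.Agent.Lib.MP_b1ff30_co.Rup (fo fo_eq)
open Pool.Agent.Lib.MP_b1ff30_co.NK (ad ad_bit sub_bit ad_all)
open Matrix

variable {Q : Set W} {r : ℕ}

lemma vec_xor (c d : ℕ) : vec (Nat.xor c d) = vec c + vec d := by
  funext i
  rw [show Nat.xor c d = c ^^^ d from rfl, Pi.add_apply, vec, vec, vec, Nat.testBit_xor]
  cases c.testBit i <;> cases d.testBit i <;> rfl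

lemma tb_bit {E c : ℕ} (h : tb E c = true) : E.testBit c = true := by
  have h1 : (E >>> c) % 2 = 1 := Nat.eq_of_beq_eq_true h
  rw [Nat.testBit_eq_decide_div_mod_eq, ← Nat.shiftRight_eq_div_pow, h1]
  rfl

lemma vec_tm (a p : ℕ) (i : Fin 7) : vec (tm a i p) = vec a i • vec p := by
  have h1 : tm a i p = (a / 2 ^ (i : ℕ) % 2) * p := by
    rw [← Nat.shiftRight_eq_div_pow]; rfl
  have h2 : vec a i = if a / 2 ^ (i : ℕ) % 2 = 1 then 1 else 0 := by
    rw [vec, Nat.testBit_eq_decide_div_mod_eq]; simp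
  rw [h1, h2]
  rcases Nat.mod_two_eq_zero_or_one (a / 2 ^ (i : ℕ)) with h | h <;> rw [h]
  · rw [zero_mul, vec_zero, if_neg (by omega), zero_smul]
  · rw [one_mul, if_pos rfl, one_smul]

lemma vec_app (p : Fin 7 → ℕ) (a : ℕ) :
    vec (app (p 0) (p 1) (p 2) (p 3) (p 4) (p 5) (p 6) a) = ∑ i, vec a i • vec (p i) := by
  rw [Fin.sum_univ_seven, ← vec_tm, ← vec_tm, ← vec_tm, ← vec_tm, ← vec_tm, ← vec_tm, ← vec_tm,
    ← vec_xor, ← vec_xor, ← vec_xor, ← vec_xor, ← vec_xor, ← vec_xor]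
  rfl

lemma vec_mod {a b : ℕ} (h : a % 2 ^ r = b % 2 ^ r) (i : Fin 7) (hi : (i : ℕ) < r) :
    vec a i = vec b i := by
  have h1 := congrArg (fun x => Nat.testBit x i) h
  simp only [Nat.testBit_mod_two_pow, hi, decide_true, Bool.true_and] at h1
  rw [vec, vec, h1]

lemma vec_high {a : ℕ} (h : a < 2 ^ r) (i : Fin 7) (hi : r ≤ (i : ℕ)) : vec a i = 0 := by
  rw [vec, Nat.testBit_lt_two_pow (h.trans_le (Nat.pow_le_pow_right (by omega) hi))]
  rfl

lemma Pr.mod {r' a b : ℕ} (h : Pr r Q a) (h1 : r' ≤ r) (h2 : a % 2 ^ r' = b % 2 ^ r') :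
    Pr r' Q b := by
  obtain ⟨x, g1, g2⟩ := h
  exact ⟨x, g1, fun i hi => (g2 i (by omega)).trans (vec_mod h2 i hi)⟩

lemma Pr.line {a : ℕ} (h : Pr r Q a) : Pr (r + 1) Q a ∨ Pr (r + 1) Q (Nat.xor a (Nat.pow 2 r)) := by
  obtain ⟨x, g1, g2⟩ := h
  by_cases g : ∀ i : Fin 7, (i : ℕ) = r → x i = vec a i
  · refine Or.inl ⟨x, g1, fun i hi => ?_⟩
    rcases Nat.lt_succ_iff_lt_or_eq.1 hi with k | k
    exacts [g2 i k, g i k]
  · push Not at g
    obtain ⟨j, k1, k2⟩ := g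
    refine Or.inr ⟨x, g1, fun i hi => ?_⟩
    have e : vec (Nat.pow 2 r) i = if r = i then 1 else 0 := by
      rw [vec, show Nat.pow 2 r = 2 ^ r from rfl, Nat.testBit_two_pow]; simp
    rw [vec_xor, Pi.add_apply, e]
    rcases Nat.lt_succ_iff_lt_or_eq.1 hi with k | k
    · rw [if_neg (by omega), add_zero]
      exact g2 i k
    · obtain rfl : i = j := Fin.ext (k.trans k1.symm)
      rw [if_pos k.symm]
      revert k2
      generalize x i = s
      generalize vec a i = t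
      revert s t
      decide

lemma alp_sound (p₀ p₁ p₂ p₃ p₄ p₅ p₆ E : ℕ) (L : List ℕ)
    (h : alp p₀ p₁ p₂ p₃ p₄ p₅ p₆ E L = true) :
    ∀ a ∈ L, E.testBit (app p₀ p₁ p₂ p₃ p₄ p₅ p₆ a) = true := by
  induction L with
  | nil => simp
  | cons b L ih =>
    have e : alp p₀ p₁ p₂ p₃ p₄ p₅ p₆ E (b :: L) =
      ((fo b fun a' => tb E (app p₀ p₁ p₂ p₃ p₄ p₅ p₆ a')) && alp p₀ p₁ p₂ p₃ p₄ p₅ p₆ E L) := rfl
    rw [e, fo_eq, Bool.and_eq_true] at h
    intro a ha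
    rcases List.mem_cons.1 ha with rfl | ha
    exacts [tb_bit h.1, ih h.2 a ha]

/-- Change of coordinates. -/
lemma recoord (hU : Un Q) (p : Fin 7 → ℕ) (h0 : ∀ i, p i < 128)
    (h1 : ∀ i : Fin 7, r ≤ (i : ℕ) → p i = 0) (h2 : ∀ i, Pr r Q (p i))
    (h3 : ∀ f < 128, 0 < f → f < 2 ^ r → ∃ i, (hm (p i)).testBit f = true) (L : List ℕ)
    (h4 : ∀ a ∈ L, Pr r Q (app (p 0) (p 1) (p 2) (p 3) (p 4) (p 5) (p 6) a)) : St r L Q := by
  choose x hx hx' using h2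
  let b : Matrix (Fin 7) (Fin 7) (ZMod 2) :=
    Matrix.of fun i => if (i : ℕ) < r then x i else Pi.single i 1
  have b1 : ∀ i : Fin 7, (i : ℕ) < r → b i = x i := fun i hi => if_pos hi
  have b2 : ∀ i : Fin 7, ¬ (i : ℕ) < r → b i = Pi.single i 1 := fun i hi => if_neg hi
  have h5 : IsUnit b := by
    rw [← mulVec_injective_iff_isUnit, ← coe_mulVecLin, ← LinearMap.ker_eq_bot,
      LinearMap.ker_eq_bot']
    intro y hy
    have k0 : ∀ i, b i ⬝ᵥ y = 0 := fun i => congrFun hy i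
    have k1 : ∀ i : Fin 7, ¬ (i : ℕ) < r → y i = 0 := fun i hi => by
      have := k0 i
      rwa [b2 i hi, single_one_dotProduct] at this
    obtain ⟨c, k2, rfl⟩ := vec_surj y
    have k3 : c % 2 ^ r < 2 ^ r := Nat.mod_lt _ (by positivity)
    have k4 : vec (c % 2 ^ r) = vec c := funext fun i => by
      by_cases hi : (i : ℕ) < r
      · exact vec_mod (Nat.mod_mod _ _) i hi
      · rw [k1 i hi, vec_high k3 i (by omega)]
    rcases Nat.eq_zero_or_pos (c % 2 ^ r) with k5 | k5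
    · rw [← k4, k5, vec_zero]
    have k6 : c % 2 ^ r < 128 := (Nat.mod_le _ _).trans_lt k2
    obtain ⟨i, k7⟩ := h3 _ k6 k5 k3
    rw [hm_par _ (h0 i) _ k6, k4] at k7
    refine absurd ?_ k7
    by_cases hi : (i : ℕ) < r
    · rw [← k0 i, b1 i hi]
      refine Finset.sum_congr rfl fun j _ => ?_
      by_cases hj : (j : ℕ) < r
      · rw [hx' i j hj]
      · rw [k1 j hj, mul_zero, mul_zero]
    · rw [h1 i (by omega), vec_zero, zero_dotProduct]
  have h6 : Function.Injective b.vecMulLinear := by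
    rw [coe_vecMulLinear]
    exact vecMul_injective_iff_isUnit.2 h5
  let S := LinearEquiv.ofInjectiveEndo b.vecMulLinear h6
  have h7 : ∀ y, S y = ∑ i, y i • b i := fun y => vecMul_eq_sum y b
  refine ⟨S, fun i => ?_, fun a ha => ?_⟩
  · rw [Set.mem_preimage, show S (Pi.single i 1) = b i from single_one_vecMul i b]
    by_cases hi : (i : ℕ) < r
    · rw [b1 i hi]; exact hx i
    · rw [b2 i hi]; exact hU i
  · obtain ⟨y, k1, k2⟩ := h4 a ha
    have k3 : ∀ j : Fin 7, (j : ℕ) < r → (y - S (vec a)) j = 0 := fun j hj => by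
      rw [Pi.sub_apply, k2 j hj, vec_app, h7, Finset.sum_apply, Finset.sum_apply, sub_eq_zero]
      refine Finset.sum_congr rfl fun i _ => ?_
      rw [Pi.smul_apply, Pi.smul_apply]
      by_cases hi : (i : ℕ) < r
      · rw [b1 i hi, hx' i j hj]
      · rw [b2 i hi, h1 i (by omega), vec_zero, Pi.single_eq_of_ne (by rintro rfl; exact hi hj),
          Pi.zero_apply]
    have k4 : S (y - S (vec a)) = y - S (vec a) := by
      generalize y - S (vec a) = z at k3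
      rw [h7]
      conv_rhs => rw [pi_eq_sum_univ' z]
      refine Finset.sum_congr rfl fun i _ => ?_
      by_cases hi : (i : ℕ) < r
      · rw [k3 i hi, zero_smul, zero_smul]
      · rw [b2 i hi]
    refine ⟨vec a + (y - S (vec a)), ?_, fun j hj => by rw [Pi.add_apply, k3 j hj, add_zero]⟩
    rw [Set.mem_preimage, map_add, k4, add_sub_cancel]
    exact k1

lemma wit_sound (hU : Un Q) (hr : r < 8) {E w : ℕ} {L : List ℕ}
    (hE : ∀ c, E.testBit c → Pr r Q c) (h : wit r (fl r) L E w = true) : St r L Q := by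
  simp only [wit, fo_eq, Bool.and_eq_true] at h
  obtain ⟨⟨⟨h1, h2⟩, h3⟩, h4⟩ := h
  refine recoord hU (fun i => pp w i) (fun i => Nat.mod_lt _ (by omega)) (fun i hi => ?_)
    (fun i => hE _ (tb_bit ?_)) (fun f g1 g2 g3 => ?_) L fun a ha => hE _ (alp_sound _ _ _ _ _ _ _ _ _ h4 a ha)
  · have g : w >>> (7 * r) = 0 := Nat.eq_of_beq_eq_true h1
    show (w >>> (7 * (i : ℕ))) % 128 = 0
    rw [show 7 * (i : ℕ) = 7 * r + (7 * i - 7 * r) by omega, Nat.shiftRight_add, g,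
      Nat.zero_shiftRight]
  · fin_cases i
    exacts [h2.1.1.1.1.1.1, h2.1.1.1.1.1.2, h2.1.1.1.1.2, h2.1.1.1.2, h2.1.1.2, h2.1.2, h2.2]
  · have g : (hm (pp w 0) ||| hm (pp w 1) ||| hm (pp w 2) ||| hm (pp w 3) ||| hm (pp w 4) |||
        hm (pp w 5) ||| hm (pp w 6)).testBit f = true := sub_bit h3 (fl_bit r hr f g1 g2 g3)
    simp only [Nat.testBit_or, Bool.or_eq_true] at g
    rcases g with (((((g | g) | g) | g) | g) | g) | g
    exacts [⟨0, g⟩, ⟨1, g⟩, ⟨2, g⟩, ⟨3, g⟩, ⟨4, g⟩, ⟨5, g⟩, ⟨6, g⟩]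

lemma lvs_sound (hU : Un Q) (hr : r < 8) {tg : ℕ → List ℕ} (h : ∀ s, ¬ St r (tg s) Q) {E : ℕ}
    (hE : ∀ c, E.testBit c → Pr r Q c) (n : ℕ) :
    ∀ ws X, (∀ c, X.testBit c → ¬ Pr r Q c) →
      ∀ c, (lvs r (fl r) tg E n ws X).testBit c → ¬ Pr r Q c := by
  induction n with
  | zero => exact fun _ _ hX => hX
  | succ n ih =>
    intro ws X hX
    have e : lvs r (fl r) tg E (n + 1) ws X = Bool.rec (motive := fun _ => ℕ)
        (fo (Nat.mod ws 128) fun p => Bool.rec (motive := fun _ => ℕ) X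
          (fo (Nat.shiftRight ws 80) fun ws' => fo (ad X p) fun X' => lvs r (fl r) tg E n ws' X')
          (fo (ad E p) fun E' => fo (Nat.mod (Nat.shiftRight ws 7) 562949953421312) fun w =>
            fo (Nat.mod (Nat.shiftRight ws 56) 16777216) fun s => wit r (fl r) (tg s) E' w)) X
        (Nat.beq ws 0) := rfl
    rw [e, fo_eq, fo_eq, fo_eq, fo_eq, fo_eq, fo_eq]
    cases Nat.beq ws 0
    swap
    · exact hX
    cases e1 : wit r (fl r) (tg (Nat.mod (Nat.shiftRight ws 56) 16777216)) (ad E (Nat.mod ws 128))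
      (Nat.mod (Nat.shiftRight ws 7) 562949953421312)
    · exact hX
    · exact ih _ _ (ad_all hX fun g => h _ (wit_sound hU hr (ad_all hE g) e1))

lemma cover_pt (hr : r < 8) (h : ¬ Cov Q) {f g : ℕ} (f0 : 0 < f) (f1 : f < 2 ^ r) (g0 : 0 < g)
    (g1 : g < 2 ^ r) : ∃ c, Pr r Q c ∧ (hm f &&& hm g &&& fl r).testBit c = true := by
  have hp : 2 ^ r ≤ 128 := Nat.pow_le_pow_right (n := 2) (by omega) (show r ≤ 7 by omega)
  have ne : ∀ f, 0 < f → f < 2 ^ r →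
      (dotProductBilin (ZMod 2) (ZMod 2) (vec f) : W →ₗ[ZMod 2] ZMod 2) ≠ 0 := fun f a1 a2 a3 => by
    obtain ⟨c, -, a4⟩ := vec_ne f (by omega) a1
    exact a4 (LinearMap.congr_fun a3 (vec c))
  by_contra k
  refine h ⟨_, _, ne f f0 f1, ne g g0 g1, fun x hx => ?_⟩
  by_contra k1
  rw [not_or] at k1
  obtain ⟨c, k2, rfl⟩ := vec_surj x
  have k3 : c % 2 ^ r < 2 ^ r := Nat.mod_lt _ (by positivity)
  have k4 : ∀ f < 2 ^ r, vec f ⬝ᵥ vec (c % 2 ^ r) = vec f ⬝ᵥ vec c := fun f a1 =>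
    Finset.sum_congr rfl fun j _ => by
      by_cases hj : (j : ℕ) < r
      · rw [vec_mod (Nat.mod_mod _ _) j hj]
      · rw [vec_high a1 j (by omega), zero_mul, zero_mul]
  have k5 : vec f ⬝ᵥ vec (c % 2 ^ r) ≠ 0 := by rw [k4 f f1]; exact k1.1
  have k6 : vec g ⬝ᵥ vec (c % 2 ^ r) ≠ 0 := by rw [k4 g g1]; exact k1.2
  refine k ⟨c % 2 ^ r, ⟨_, hx, fun i hi => vec_mod (Nat.mod_mod _ _).symm i hi⟩, ?_⟩
  rw [Nat.testBit_and, Nat.testBit_and, (hm_par f (by omega) _ (by omega)).2 k5,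
    (hm_par g (by omega) _ (by omega)).2 k6, fl_bit r hr _ (by omega) ?_ k3]
  · rfl
  · refine Nat.pos_of_ne_zero fun a => k5 ?_
    rw [a, vec_zero, dotProduct_zero]

lemma chk_sound (hU : Un Q) (hr : r < 7) (hC : ¬ Cov Q) {tg : ℕ → List ℕ}
    (h : ∀ s, ¬ St (r + 1) (tg s) Q) {A : ℕ} (hA : ∀ c, A.testBit c → Pr r Q c) (T : Tt) :
    ∀ E X, chk r (fl (r + 1)) A tg T E X = true → (∀ c, E.testBit c → Pr (r + 1) Q c) →
      (∀ c, X.testBit c → ¬ Pr (r + 1) Q c) → False := by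
  induction T with
  | fin f g =>
    intro E X h1 _ hX
    have e : chk r (fl (r + 1)) A tg (Tt.fin f g) E X = (Nat.blt 0 f && Nat.blt f (2 ^ (r + 1)) &&
      Nat.blt 0 g && Nat.blt g (2 ^ (r + 1)) &&
      fo (hm f &&& hm g &&& fl (r + 1)) fun m => Nat.beq (Nat.land m X) m) := rfl
    rw [e, fo_eq] at h1
    simp only [Bool.and_eq_true, Nat.blt_eq] at h1
    obtain ⟨c, g1, g2⟩ := cover_pt (r := r + 1) (by omega) hC h1.1.1.1.1 h1.1.1.1.2 h1.1.1.2 h1.1.2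
    exact hX c (sub_bit h1.2 g2) g1
  | lin a =>
    intro E X h1 _ hX
    have e : chk r (fl (r + 1)) A tg (Tt.lin a) E X =
      (tb A a && tb X a && tb X (Nat.xor a (Nat.pow 2 r))) := rfl
    rw [e, Bool.and_eq_true, Bool.and_eq_true] at h1
    rcases (hA a (tb_bit h1.1.1)).line with g | g
    exacts [hX _ (tb_bit h1.1.2) g, hX _ (tb_bit h1.2) g]
  | br p ws l u ihl ihu =>
    intro E X h1 hE hX
    have e : chk r (fl (r + 1)) A tg (Tt.br p ws l u) E X = ((fo (ad E p) fun E' =>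
      fo (lvs (r + 1) (fl (r + 1)) tg E' 100 ws X) fun X' => chk r (fl (r + 1)) A tg l E' X') &&
        fo (ad X p) fun X' => chk r (fl (r + 1)) A tg u E X') := rfl
    rw [e, fo_eq, fo_eq, fo_eq, Bool.and_eq_true] at h1
    by_cases g : Pr (r + 1) Q p
    · exact ihl _ _ h1.1 (ad_all hE g) (lvs_sound hU (by omega) h (ad_all hE g) _ _ _ hX)
    · exact ihu _ _ h1.2 hE (ad_all hX g)

lemma msk_bit (L : List ℕ) (c : ℕ) (h : (msk L).testBit c = true) : c ∈ L := by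
  induction L with
  | nil => exact absurd h (by rw [show msk [] = 0 from rfl]; simp)
  | cons a L ih =>
    rcases (ad_bit (E := msk L) (p := a)).1 h with g | rfl
    exacts [List.mem_cons_of_mem _ (ih g), List.mem_cons_self]

lemma ul_pr (hU : Un Q) (hr : r < 8) {L : List ℕ} (hL : ∀ a ∈ L, Pr r Q a) (c : ℕ)
    (h : (msk (ul r ++ L)).testBit c = true) : Pr r Q c := by
  rcases List.mem_append.1 (msk_bit _ _ h) with g | g
  · obtain ⟨i, g1⟩ := ul_spec r hr c g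
    exact ⟨_, hU i, g1⟩
  · exact hL c g

lemma St.of_pre (S : W ≃ₗ[ZMod 2] W) {L : List ℕ} (h : St r L (S ⁻¹' Q)) : St r L Q := by
  obtain ⟨S', h1, h2⟩ := h
  exact ⟨S'.trans S, h1, h2⟩

lemma Cov.of_pre (S : W ≃ₗ[ZMod 2] W) (h : Cov (S ⁻¹' Q)) : Cov Q := by
  obtain ⟨φ, ψ, h1, h2, h3⟩ := h
  have k : ∀ χ : W →ₗ[ZMod 2] ZMod 2, χ ≠ 0 → χ ∘ₗ S.symm.toLinearMap ≠ 0 := fun χ a b =>
    a (LinearMap.ext fun x => by simpa using LinearMap.congr_fun b (S x))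
  exact ⟨_, _, k φ h1, k ψ h2, fun x hx => h3 (S.symm x) (by simpa using hx)⟩

lemma up_sound (hr : r < 7) (hC : ¬ Cov Q) {L : List ℕ} {tg₀ tg : ℕ → List ℕ} {ws : ℕ} {T : Tt}
    (h : up r L tg₀ tg ws T = true) (h₀ : ws = 0 ∨ ∀ s, ¬ St r (tg₀ s) Q)
    (h₁ : ∀ s, ¬ St (r + 1) (tg s) Q) : ¬ St r L Q := by
  rintro ⟨S, hU, hL⟩
  simp only [up, fo_eq] at h
  have hA := ul_pr hU (by omega) hL
  have hX : ∀ c, (lvs r (fl r) tg₀ (msk (ul r ++ L)) 100 ws 0).testBit c → ¬ Pr r (S ⁻¹' Q) c := by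
    rcases h₀ with rfl | h₀
    · rw [show lvs r (fl r) tg₀ (msk (ul r ++ L)) 100 0 0 = 0 from rfl]
      simp
    · exact lvs_sound hU (by omega) (fun s g => h₀ s (g.of_pre S)) hA _ _ _ (by simp)
  refine chk_sound hU hr (fun g => hC (g.of_pre S)) (fun s g => h₁ s (g.of_pre S)) hA T _ _ h
    (fun c hc => ul_pr (L := []) hU (by omega) (by simp) c (by rwa [List.append_nil]))
    fun c hc g => ?_
  generalize lvs r (fl r) tg₀ (msk (ul r ++ L)) 100 ws 0 = X at hX hc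
  have hc' : (X ||| X <<< 2 ^ r).testBit c = true := hc
  rw [Nat.testBit_or, Bool.or_eq_true, Nat.testBit_shiftLeft, Bool.and_eq_true,
    decide_eq_true_eq] at hc'
  rcases hc' with k | k
  · exact hX c k (g.mod (by omega) rfl)
  · exact hX _ k.2 (g.mod (by omega) (Nat.mod_eq_sub_mod k.1))

lemma eqv_sound (hr : r < 7) (hC : ¬ Cov Q) {L : List ℕ} {tg : ℕ → List ℕ} {T : Tt}
    (h : eqv r L tg T = true) (h₁ : ∀ s, ¬ St (r + 1) (tg s) Q) : ¬ St (r + 1) L Q := by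
  rintro ⟨S, hU, hL⟩
  simp only [eqv, fo_eq] at h
  exact chk_sound hU hr (fun g => hC (g.of_pre S)) (fun s g => h₁ s (g.of_pre S)) (by simp) T _ _ h
    (ul_pr hU (by omega) hL) (by simp)

lemma nth_not {Ls : List (List ℕ)} {d : List ℕ} (h : ∀ L ∈ Ls, ¬ St r L Q) (hd : ¬ St r d Q) :
    ∀ s, ¬ St r (nth Ls d s) Q := by
  induction Ls with
  | nil => exact fun _ => hd
  | cons a Ls ih =>
    intro s
    rw [show nth (a :: Ls) d s = Bool.rec (motive := fun _ => List ℕ) (fo (Nat.pred s) (nth Ls d)) a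
      (Nat.beq s 0) from rfl, fo_eq]
    cases Nat.beq s 0
    exacts [ih (fun L hL => h L (List.mem_cons_of_mem _ hL)) _, h a List.mem_cons_self]

lemma ml_mem (N : List ℕ) : ∀ t, ∀ a ∈ N, ∃ j, a + 32 * j ∈ ml N t := by
  induction N with
  | nil => simp
  | cons b N ih =>
    intro t a ha
    rw [show ml (b :: N) t = (b + 32 * (t % 4)) :: fo (Nat.div t 4) (ml N) from rfl, fo_eq]
    rcases List.mem_cons.1 ha with rfl | ha
    · exact ⟨_, List.mem_cons_self⟩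
    · exact (ih _ a ha).imp fun j g => List.mem_cons_of_mem _ g

lemma ml_not (hr : 5 ≤ r) {N : List ℕ} (h : ¬ St 5 N Q) (t : ℕ) : ¬ St r (ml N t) Q := by
  rintro ⟨S, hU, hL⟩
  refine h ⟨S, hU, fun a ha => ?_⟩
  obtain ⟨j, g⟩ := ml_mem N t a ha
  exact (hL _ g).mod hr (Nat.add_mul_mod_self_left a 32 j)

lemma tf_not (hr : 5 ≤ r) {N : List ℕ} (h : ¬ St 5 N Q) {Ls : List (List ℕ)}
    (hL : ∀ L ∈ Ls, ¬ St r L Q) (s : ℕ) : ¬ St r (tf N Ls s) Q := by
  rw [tf, fo_eq]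
  cases Nat.blt s 64
  exacts [ml_not hr h _, nth_not hL (ml_not hr h _) _]

end Pool.Agent.Lib.MP_b1ff30_co.KH
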