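import Pool.Agent.Lib.MP_b1ff30_co.KG1
import Pool.Agent.Lib.MP_b1ff30_co.KG2
import Pool.Agent.Lib.MP_b1ff30_co.KG3
import Pool.Agent.Lib.MP_b1ff30_co.KG4
import Pool.Agent.Lib.MP_b1ff30_co.KG5
import Pool.Agent.Lib.MP_b1ff30_co.KG6
import Pool.Agent.Lib.MP_b1ff30_co.KG7
import Pool.Agent.Lib.MP_b1ff30_co.KG8
import Pool.Agent.Lib.MP_b1ff30_co.KG9
import Pool.Agent.Lib.MP_b1ff30_co.KG10
import Pool.Agent.Lib.MP_b1ff30_co.KG11
import Pool.Agent.Lib.MP_b1ff30_co.KG12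
import Pool.Agent.Lib.MP_b1ff30_co.KH4

set_option autoImplicit false

namespace Pool.Agent.Lib.MP_b1ff30_co.KH

open Pool.Agent.Lib.MP_b1ff30_co.Rup (fo fo_eq)

variable {Q : Set W}

lemma eqw_sound {r : ℕ} (hr : r < 7) (hC : ¬ Cov Q) {L : List ℕ} {tg : ℕ → List ℕ} {ws : ℕ} {T : Tt}
    (h : eqw r L tg ws T = true) (h₁ : ∀ s, ¬ St (r + 1) (tg s) Q) : ¬ St (r + 1) L Q := by
  rintro ⟨S, hU, hL⟩
  simp only [eqw, fo_eq] at h
  have hE := ul_pr hU (by omega) hL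
  exact chk_sound hU hr (fun g => hC (g.of_pre S)) (fun s g => h₁ s (g.of_pre S)) (by simp) T _ _ h
    hE (lvs_sound hU (by omega) (fun s g => h₁ s (g.of_pre S)) hE _ _ _ (by simp))

lemma no_ls6 (hC : ¬ Cov Q) (h : ¬ St 5 nm Q) : ∀ L ∈ ls6, ¬ St 6 L Q := by
  have t : ∀ r, 5 ≤ r → ∀ s, ¬ St r (tf nm [] s) Q := fun r hr => tf_not hr h (by simp)
  have u : ∀ {L ws T}, up 6 L (tf nm []) (tf nm []) ws T = true → ¬ St 6 L Q := fun g =>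
    up_sound (by omega) hC g (Or.inr (t _ (by omega))) (t _ (by omega))
  exact List.forall_mem_cons.2 ⟨u cq2_0,
      List.forall_mem_cons.2 ⟨u cq2_1,
      List.forall_mem_cons.2 ⟨u cq2_2,
      List.forall_mem_cons.2 ⟨u cq2_3,
      List.forall_mem_cons.2 ⟨u cq2_4,
      List.forall_mem_cons.2 ⟨u cq2_5,
      List.forall_mem_cons.2 ⟨u cq2_6,
      List.forall_mem_cons.2 ⟨u cq2_7,
      List.forall_mem_cons.2 ⟨u cq2_8,
      List.forall_mem_cons.2 ⟨u cq2_9,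
      List.forall_mem_cons.2 ⟨u cq2_10,
      List.forall_mem_cons.2 ⟨u cq2_11,
      List.forall_mem_cons.2 ⟨u cq2_12,
      List.forall_mem_cons.2 ⟨u cq2_13,
      List.forall_mem_cons.2 ⟨u cq2_14,
      List.forall_mem_cons.2 ⟨u cq2_15,
      List.forall_mem_cons.2 ⟨u cq2_16,
      List.forall_mem_cons.2 ⟨u cq2_17,
      List.forall_mem_cons.2 ⟨u cq2_18,
      List.forall_mem_cons.2 ⟨u cq2_19,
      List.forall_mem_cons.2 ⟨u cq2_20,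
      List.forall_mem_cons.2 ⟨u cq2_21,
      List.forall_mem_cons.2 ⟨u cq2_22,
      List.forall_mem_cons.2 ⟨u cq2_23,
      List.forall_mem_cons.2 ⟨u cq2_24,
      List.forall_mem_cons.2 ⟨u cq2_25,
      List.forall_mem_cons.2 ⟨u cq2_26,
      List.forall_mem_cons.2 ⟨u cq2_27,
      List.forall_mem_cons.2 ⟨u cq2_28,
      List.forall_mem_cons.2 ⟨u cq2_29,
      List.forall_mem_cons.2 ⟨u cq2_30,
      List.forall_mem_cons.2 ⟨u cq2_31,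
      List.forall_mem_cons.2 ⟨u cq2_32,
      List.forall_mem_cons.2 ⟨u cq2_33,
      List.forall_mem_cons.2 ⟨u cq2_34,
      List.forall_mem_cons.2 ⟨u cq2_35,
      List.forall_mem_cons.2 ⟨u cq2_36,
      List.forall_mem_cons.2 ⟨u cq2_37,
      List.forall_mem_cons.2 ⟨u cq2_38,
      List.forall_mem_cons.2 ⟨u cq2_39,
      List.forall_mem_cons.2 ⟨u cq2_40,
      List.forall_mem_cons.2 ⟨u cq2_41,
      List.forall_mem_cons.2 ⟨u cq2_42,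
      List.forall_mem_cons.2 ⟨u cq2_43,
      List.forall_mem_cons.2 ⟨u cq2_44,
      List.forall_mem_nil _⟩⟩⟩⟩⟩⟩⟩⟩⟩⟩⟩⟩⟩⟩⟩⟩⟩⟩⟩⟩⟩⟩⟩⟩⟩⟩⟩⟩⟩⟩⟩⟩⟩⟩⟩⟩⟩⟩⟩⟩⟩⟩⟩⟩⟩

lemma no_step (hC : ¬ Cov Q) (h : ¬ St 5 nm Q) {Ls : List (List ℕ)} (hL : ∀ L ∈ Ls, ¬ St 5 L Q)
    {L : List ℕ} {ws : ℕ} {T : Tt} (g : up 5 L (tf nm Ls) (tf nm ls6) ws T = true) : ¬ St 5 L Q :=
  up_sound (by omega) hC g (Or.inr (tf_not (by omega) h hL)) (tf_not (by omega) h (no_ls6 hC h))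

lemma no_cs19 (_hC : ¬ Cov Q) (_h : ¬ St 5 nm Q) : ∀ L ∈ cs19, ¬ St 5 L Q :=
  List.forall_mem_nil _

lemma no_cs18 (hC : ¬ Cov Q) (h : ¬ St 5 nm Q) : ∀ L ∈ cs18, ¬ St 5 L Q :=
  List.forall_mem_cons.2 ⟨no_step hC h (no_cs19 hC h) cq1_45,
      List.forall_mem_nil _⟩

lemma no_cs17 (hC : ¬ Cov Q) (h : ¬ St 5 nm Q) : ∀ L ∈ cs17, ¬ St 5 L Q :=
  List.forall_mem_cons.2 ⟨no_step hC h (no_cs18 hC h) cq1_34,
      List.forall_mem_cons.2 ⟨no_step hC h (no_cs18 hC h) cq1_35,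
      List.forall_mem_cons.2 ⟨no_step hC h (no_cs18 hC h) cq1_36,
      List.forall_mem_cons.2 ⟨no_step hC h (no_cs18 hC h) cq1_37,
      List.forall_mem_cons.2 ⟨no_step hC h (no_cs18 hC h) cq1_38,
      List.forall_mem_cons.2 ⟨no_step hC h (no_cs18 hC h) cq1_39,
      List.forall_mem_cons.2 ⟨no_step hC h (no_cs18 hC h) cq1_46,
      List.forall_mem_nil _⟩⟩⟩⟩⟩⟩⟩

lemma no_cs16 (hC : ¬ Cov Q) (h : ¬ St 5 nm Q) : ∀ L ∈ cs16, ¬ St 5 L Q :=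
  List.forall_mem_cons.2 ⟨no_step hC h (no_cs17 hC h) cq1_9,
      List.forall_mem_cons.2 ⟨no_step hC h (no_cs17 hC h) cq1_10,
      List.forall_mem_cons.2 ⟨no_step hC h (no_cs17 hC h) cq1_11,
      List.forall_mem_cons.2 ⟨no_step hC h (no_cs17 hC h) cq1_12,
      List.forall_mem_cons.2 ⟨no_step hC h (no_cs17 hC h) cq1_13,
      List.forall_mem_cons.2 ⟨no_step hC h (no_cs17 hC h) cq1_14,
      List.forall_mem_cons.2 ⟨no_step hC h (no_cs17 hC h) cq1_15,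
      List.forall_mem_cons.2 ⟨no_step hC h (no_cs17 hC h) cq1_16,
      List.forall_mem_cons.2 ⟨no_step hC h (no_cs17 hC h) cq1_17,
      List.forall_mem_cons.2 ⟨no_step hC h (no_cs17 hC h) cq1_18,
      List.forall_mem_cons.2 ⟨no_step hC h (no_cs17 hC h) cq1_19,
      List.forall_mem_cons.2 ⟨no_step hC h (no_cs17 hC h) cq1_30,
      List.forall_mem_cons.2 ⟨no_step hC h (no_cs17 hC h) cq1_31,
      List.forall_mem_cons.2 ⟨no_step hC h (no_cs17 hC h) cq1_40,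
      List.forall_mem_cons.2 ⟨no_step hC h (no_cs17 hC h) cq1_41,
      List.forall_mem_cons.2 ⟨no_step hC h (no_cs17 hC h) cq1_42,
      List.forall_mem_cons.2 ⟨no_step hC h (no_cs17 hC h) cq1_43,
      List.forall_mem_cons.2 ⟨no_step hC h (no_cs17 hC h) cq1_44,
      List.forall_mem_nil _⟩⟩⟩⟩⟩⟩⟩⟩⟩⟩⟩⟩⟩⟩⟩⟩⟩⟩

lemma no_cs15 (hC : ¬ Cov Q) (h : ¬ St 5 nm Q) : ∀ L ∈ cs15, ¬ St 5 L Q :=
  List.forall_mem_cons.2 ⟨no_step hC h (no_cs16 hC h) cq1_0,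
      List.forall_mem_cons.2 ⟨no_step hC h (no_cs16 hC h) cq1_1,
      List.forall_mem_cons.2 ⟨no_step hC h (no_cs16 hC h) cq1_2,
      List.forall_mem_cons.2 ⟨no_step hC h (no_cs16 hC h) cq1_3,
      List.forall_mem_cons.2 ⟨no_step hC h (no_cs16 hC h) cq1_6,
      List.forall_mem_cons.2 ⟨no_step hC h (no_cs16 hC h) cq1_7,
      List.forall_mem_cons.2 ⟨no_step hC h (no_cs16 hC h) cq1_20,
      List.forall_mem_cons.2 ⟨no_step hC h (no_cs16 hC h) cq1_21,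
      List.forall_mem_cons.2 ⟨no_step hC h (no_cs16 hC h) cq1_22,
      List.forall_mem_cons.2 ⟨no_step hC h (no_cs16 hC h) cq1_23,
      List.forall_mem_cons.2 ⟨no_step hC h (no_cs16 hC h) cq1_24,
      List.forall_mem_cons.2 ⟨no_step hC h (no_cs16 hC h) cq1_25,
      List.forall_mem_cons.2 ⟨no_step hC h (no_cs16 hC h) cq1_26,
      List.forall_mem_cons.2 ⟨no_step hC h (no_cs16 hC h) cq1_27,
      List.forall_mem_cons.2 ⟨no_step hC h (no_cs16 hC h) cq1_28,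
      List.forall_mem_cons.2 ⟨no_step hC h (no_cs16 hC h) cq1_29,
      List.forall_mem_cons.2 ⟨no_step hC h (no_cs16 hC h) cq1_32,
      List.forall_mem_cons.2 ⟨no_step hC h (no_cs16 hC h) cq1_33,
      List.forall_mem_nil _⟩⟩⟩⟩⟩⟩⟩⟩⟩⟩⟩⟩⟩⟩⟩⟩⟩⟩

lemma no_cs14 (hC : ¬ Cov Q) (h : ¬ St 5 nm Q) : ∀ L ∈ cs14, ¬ St 5 L Q :=
  List.forall_mem_cons.2 ⟨no_step hC h (no_cs15 hC h) cq1_4,
      List.forall_mem_cons.2 ⟨no_step hC h (no_cs15 hC h) cq1_5,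
      List.forall_mem_cons.2 ⟨no_step hC h (no_cs15 hC h) cq1_8,
      List.forall_mem_nil _⟩⟩⟩

lemma no_nn (hC : ¬ Cov Q) (h : ¬ St 5 nm Q) : ¬ St 5 nn Q :=
  eqw_sound (by omega) hC cq0_0 (tf_not (by omega) h (
    List.forall_mem_cons.2 ⟨no_step hC h (no_cs16 hC h) cq1_0,
      List.forall_mem_cons.2 ⟨no_step hC h (no_cs16 hC h) cq1_1,
      List.forall_mem_cons.2 ⟨no_step hC h (no_cs16 hC h) cq1_2,
      List.forall_mem_cons.2 ⟨no_step hC h (no_cs16 hC h) cq1_3,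
      List.forall_mem_cons.2 ⟨no_step hC h (no_cs15 hC h) cq1_4,
      List.forall_mem_cons.2 ⟨no_step hC h (no_cs15 hC h) cq1_5,
      List.forall_mem_cons.2 ⟨no_step hC h (no_cs16 hC h) cq1_6,
      List.forall_mem_cons.2 ⟨no_step hC h (no_cs16 hC h) cq1_7,
      List.forall_mem_cons.2 ⟨no_step hC h (no_cs15 hC h) cq1_8,
      List.forall_mem_nil _⟩⟩⟩⟩⟩⟩⟩⟩⟩))

end Pool.Agent.Lib.MP_b1ff30_co.KH
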