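import Pool.Agent.Lib.MP_b1ff30_co.NK3

set_option autoImplicit false

namespace Pool.Agent.Lib.MP_b1ff30_co

open Finset Submodule

variable {α K : Type*} [Fintype α] [DecidableEq α] [Field K]

/-- If every deep link is covered by two sets without states then all link sums vanish. -/
lemma cover_upz' (n q : ℕ) (f : Finset α → K) (hf : UpZ n q f)
    (h : ∀ Z : Finset α, Z.card + q ≤ n → ∃ Y : Finset α, ∀ X : Finset α, X.card = n → Z ⊆ X →
      f X ≠ 0 → ¬ Disjoint (X \ Z) Y ∧ ¬ X \ Z ⊆ Y) : UpZ n (n + 1) f := by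
  have key : ∀ (d : ℕ) (Z : Finset α), Z.card < n → n ≤ Z.card + d → up n f Z = 0 := by
    intro d
    induction d with
    | zero => intro Z h1 h2; omega
    | succ d ih =>
      intro Z h1 h2
      by_cases h3 : n < Z.card + q
      · exact hf Z h1 h3
      obtain ⟨Y, hY⟩ := h Z (by omega)
      have e := incl_excl n f Z Y h1 fun Z' _ g1 g2 => ih Z' g2 (by omega)
      rw [sum_eq_zero, sum_eq_zero, mul_zero, add_zero] at e
      · exact e.symm
      · intro X hX
        rw [mem_filter] at hX
        by_contra g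
        exact (hY X hX.2.1.1 hX.2.1.2 g).2 hX.2.2
      · intro X hX
        rw [mem_filter] at hX
        by_contra g
        exact (hY X hX.2.1.1 hX.2.1.2 g).1 hX.2.2
  exact fun Z h1 _ => key n Z h1 (by omega)

omit [Fintype α] in
/-- Coordinates on a contraction of rank five. -/
lemma coords {V : Type*} [AddCommGroup V] [Module K V] (v : α → V) {X Z : Finset α}
    (hX : LinearIndepOn K v (X : Set α)) (hZ : Z ⊆ X) (hc : Z.card + 5 = X.card)
    (hs : ∀ e, v e ∈ span K (v '' (X : Set α))) :
    ∃ (P : α → Fin 5 → K) (ι : (Fin 5 → K) →ₗ[K] V ⧸ span K (v '' (Z : Set α))),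
      Function.Injective ι ∧ (∀ i, ∃ e, P e = Pi.single i 1) ∧
        ι ∘ P = mkQ (span K (v '' (Z : Set α))) ∘ v := by
  have h1 : (X \ Z).card = 5 := by rw [card_sdiff_of_subset hZ]; omega
  let b : Fin 5 ≃ (X \ Z : Finset α) := (equivFinOfCardEq h1).symm
  let u : α → V ⧸ span K (v '' (Z : Set α)) := mkQ (span K (v '' (Z : Set α))) ∘ v
  have h2 : LinearIndepOn K u ((X \ Z : Finset α) : Set α) := by
    refine ((hX.mono (coe_subset.2 hZ)).quotient_iff_union (disjoint_coe.2 disjoint_sdiff)).2 ?_
    rwa [← coe_union, union_sdiff_of_subset hZ]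
  have h3 : LinearIndependent K fun i => u (b i) := LinearIndependent.comp h2 b b.injective
  let ι := Fintype.linearCombination K fun i => u (b i)
  have h4 : Function.Injective ι := h3.fintypeLinearCombination_injective
  have h5 : ∀ e, ∃ x, ι x = u e := fun e => by
    have g : span K (v '' (X : Set α)) ≤
        (LinearMap.range ι).comap (mkQ (span K (v '' (Z : Set α)))) := by
      refine span_le.2 ?_
      rintro _ ⟨x, hx, rfl⟩
      by_cases g : x ∈ Z
      · exact ⟨0, by
          rw [map_zero, mkQ_apply, eq_comm, Quotient.mk_eq_zero]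
          exact subset_span ⟨x, g, rfl⟩⟩
      · exact ⟨Pi.single (b.symm ⟨x, mem_sdiff.2 ⟨hx, g⟩⟩) 1, by simp [ι, u]⟩
    exact g (hs e)
  choose P hP using h5
  exact ⟨P, ι, h4, fun i => ⟨b i, h4 (by rw [hP]; simp [ι])⟩, funext hP⟩

end Pool.Agent.Lib.MP_b1ff30_co
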