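import Pool.Agent.Lib.MP_b1ff30_co.KH3
import Pool.Agent.Lib.MP_b1ff30_co.KG13
import Pool.Agent.Lib.MP_b1ff30_co.NK4

set_option autoImplicit false

namespace Pool.Agent.Lib.MP_b1ff30_co.KH

open Finset Submodule Matrix

lemma st_five {Q : Set W} (hU : Un Q) (hC : ¬ Cov Q) : St 5 nn Q := by
  by_contra h
  have t : ∀ r, 5 ≤ r → ∀ s, ¬ St r (tf nn [] s) Q := fun r hr => tf_not hr h (by simp)
  have a50 := up_sound (by omega) hC ck5_0 (Or.inr (t _ (by omega))) (t _ (by omega))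
  have a51 := up_sound (by omega) hC ck5_1 (Or.inr (t _ (by omega))) (t _ (by omega))
  have t5 := tf_not (r := 5 + 1) (Ls := [pt5_0, pt5_1]) (by omega) h (by simpa using ⟨a50, a51⟩)
  have a40 := up_sound (by omega) hC ck4_0 (Or.inr (t _ (by omega))) t5
  have a41 := up_sound (by omega) hC ck4_1 (Or.inr (t _ (by omega))) t5
  have a42 := up_sound (by omega) hC ck4_2 (Or.inr (t _ (by omega))) t5
  have a43 := up_sound (by omega) hC ck4_3 (Or.inr (t _ (by omega))) t5
  have a30 := eqv_sound (by omega) hC ck3_0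
    (tf_not (by omega) h (by simpa using ⟨a40, a41, a42, a43⟩))
  have a20 := up_sound (by omega) hC ck2_0 (Or.inl rfl) (nth_not (by simp) a30)
  have a21 := up_sound (by omega) hC ck2_1 (Or.inl rfl) (nth_not (by simp) a30)
  have a10 := up_sound (by omega) hC ck1_0 (Or.inl rfl) (nth_not (by simpa using a20) a21)
  exact up_sound (by omega) hC ck0_0 (Or.inl rfl) (nth_not (by simp) a10)
    ⟨LinearEquiv.refl _ _, hU, by simp⟩

lemma st_five' {Q : Set W} (hU : Un Q) (hC : ¬ Cov Q) : St 5 nm Q := by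
  by_contra h
  exact no_nn hC h (st_five hU hC)

/-- The edges of the excluded graph. -/
abbrev Ed := {p : Fin 6 × Fin 6 // p.1 < p.2 ∧ p ≠ (1, 2) ∧ p ≠ (4, 5)}

/-- The incidence vector of an edge. -/
def hv (p : Ed) : Fin 6 → ZMod 2 := Pi.single p.1.1 1 + Pi.single p.1.2 1

/-- The code of an edge. -/
def cd (p : Ed) : ℕ := Nat.xor (![0, 1, 18, 2, 4, 8] p.1.1) (![0, 1, 18, 2, 4, 8] p.1.2)

/-- From codes to incidence vectors. -/
def mx : Matrix (Fin 6) (Fin 7) (ZMod 2) :=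
  !![1, 1, 1, 1, 0, 0, 0; 1, 0, 0, 0, 0, 0, 0; 0, 0, 0, 0, 1, 0, 0; 0, 1, 0, 0, 1, 0, 0;
    0, 0, 1, 0, 0, 0, 0; 0, 0, 0, 1, 0, 0, 0]

lemma hv_inj : Function.Injective hv := by decide +kernel

lemma hv_ne : ∀ p, hv p ≠ 0 := by decide +kernel

lemma cd_mem : ∀ p, cd p ∈ ul 5 ++ nm := by decide +kernel

lemma mx_cd : ∀ p, mx *ᵥ vec (cd p) = hv p := by decide +kernel

lemma mx_high : ∀ j, ∀ i : Fin 7, ¬ (i : ℕ) < 5 → mx j i = 0 := by decide +kernel

lemma mx_ker : ∀ y : W, mx *ᵥ y = 0 → y = y 5 • Pi.single 5 1 + y 6 • Pi.single 6 1 := by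
  decide +kernel

lemma mx_five : mx *ᵥ Pi.single 5 1 = 0 ∧ mx *ᵥ Pi.single 6 1 = 0 := by decide +kernel

/-- Points of the binary space of rank seven that contain the unit vectors are covered by two
hyperplanes or have the excluded minor. -/
theorem seven {α : Type*} (P : α → W) (hP : ∀ i, ∃ e, P e = Pi.single i 1) :
    (∃ φ ψ : W →ₗ[ZMod 2] ZMod 2, φ ≠ 0 ∧ ψ ≠ 0 ∧ ∀ e, φ (P e) = 0 ∨ ψ (P e) = 0) ∨
    ∃ (D : Set α) (f : Ed → α), Function.Injective f ∧ LinearIndepOn (ZMod 2) P D ∧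
      (∀ p, f p ∉ D) ∧ (∀ p, P (f p) ≠ 0) ∧
      ∀ I, LinearIndepOn (ZMod 2) P (D ∪ f '' I) ↔ LinearIndepOn (ZMod 2) hv I := by
  by_cases h1 : Cov (Set.range P)
  · obtain ⟨φ, ψ, g1, g2, g3⟩ := h1
    exact Or.inl ⟨φ, ψ, g1, g2, fun e => g3 _ ⟨e, rfl⟩⟩
  obtain ⟨S, hU, hL⟩ := st_five' (Q := Set.range P) hP h1
  have h2 : ∀ p, Pr 5 (S ⁻¹' Set.range P) (cd p) := fun p => by
    rcases List.mem_append.1 (cd_mem p) with g | g
    · obtain ⟨i, g1⟩ := ul_spec 5 (by omega) _ g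
      exact ⟨_, hU i, g1⟩
    · exact hL _ g
  choose x hx hx' using h2
  choose f hf using hx
  obtain ⟨a, ha⟩ := hU 5
  obtain ⟨b, hb⟩ := hU 6
  let R : α → W := S.symm.toLinearMap ∘ P
  have r1 : ∀ J, LinearIndepOn (ZMod 2) R J ↔ LinearIndepOn (ZMod 2) P J := fun J =>
    S.symm.toLinearMap.linearIndepOn_iff_of_injOn S.symm.injective.injOn
  have ra : R a = Pi.single 5 1 := by simp [R, ha]
  have rb : R b = Pi.single 6 1 := by simp [R, hb]
  have r2 : ∀ p, mx *ᵥ R (f p) = hv p := fun p => by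
    rw [← mx_cd, show R (f p) = x p by simp [R, hf]]
    funext j
    show ∑ i, mx j i * x p i = ∑ i, mx j i * vec (cd p) i
    refine Finset.sum_congr rfl fun i _ => ?_
    by_cases hi : (i : ℕ) < 5
    · rw [hx' p i hi]
    · rw [mx_high j i hi, zero_mul, zero_mul]
  have hab : a ≠ b := fun e => by
    have := congrFun (ra.symm.trans (e ▸ rb)) 5
    simp at this
  have r3 : LinearIndepOn (ZMod 2) R {a, b} := by
    rw [LinearIndepOn.pair_iff _ hab, ra, rb]
    intro c d e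
    exact ⟨by simpa using congrFun e 5, by simpa using congrFun e 6⟩
  have r4 : ∀ p, f p ∉ ({a, b} : Set α) := fun p e => hv_ne p (by
    rw [← r2]
    rcases e with e | e <;> rw [e]
    · rw [ra, mx_five.1]
    · rw [rb, mx_five.2])
  have hi : Function.Injective f := fun p p' e => hv_inj (by rw [← r2, ← r2, e])
  have r5 : span (ZMod 2) (R '' {a, b}) ≤ LinearMap.ker mx.mulVecLin := by
    refine span_le.2 ?_
    rintro _ ⟨e, e1 | e1, rfl⟩ <;> rw [e1]
    · rw [ra]; exact mx_five.1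
    · rw [rb]; exact mx_five.2
  have r6 : Function.Injective (liftQ _ _ r5) := by
    rw [← LinearMap.ker_eq_bot]
    refine ker_liftQ_eq_bot _ _ _ fun y hy => ?_
    rw [mx_ker y hy]
    exact add_mem (smul_mem _ _ (subset_span ⟨a, Or.inl rfl, ra⟩))
      (smul_mem _ _ (subset_span ⟨b, Or.inr rfl, rb⟩))
  refine Or.inr ⟨{a, b}, f, hi, (r1 _).1 r3, r4, fun p e => hv_ne p ?_, fun I => ?_⟩
  · rw [← r2, show R (f p) = 0 by simp [R, e], mulVec_zero]
  · rw [← r1, ← r3.quotient_iff_union (Set.disjoint_right.2 (by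
      rintro _ ⟨p, -, rfl⟩
      exact r4 p)), ← (liftQ _ _ r5).linearIndepOn_iff_of_injOn r6.injOn,
      show hv = (liftQ _ _ r5 ∘ mkQ (span (ZMod 2) (R '' {a, b})) ∘ R) ∘ f from
        funext fun p => (r2 p).symm]
    exact ⟨fun g => g.comp_of_image hi.injOn, fun g => g.image_of_comp _ _⟩

/-- Coordinates on a contraction. -/
lemma coords' {α K : Type*} [DecidableEq α] [Field K] {V : Type*} [AddCommGroup V] [Module K V]
    (v : α → V) {X Z : Finset α} (n : ℕ)
    (hX : LinearIndepOn K v (X : Set α)) (hZ : Z ⊆ X) (hc : Z.card + n = X.card)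
    (hs : ∀ e, v e ∈ span K (v '' (X : Set α))) :
    ∃ (P : α → Fin n → K) (ι : (Fin n → K) →ₗ[K] V ⧸ span K (v '' (Z : Set α))),
      Function.Injective ι ∧ (∀ i, ∃ e, P e = Pi.single i 1) ∧
        ι ∘ P = mkQ (span K (v '' (Z : Set α))) ∘ v := by
  have h1 : (X \ Z).card = n := by rw [card_sdiff_of_subset hZ]; omega
  let b : Fin n ≃ (X \ Z : Finset α) := (equivFinOfCardEq h1).symm
  let u : α → V ⧸ span K (v '' (Z : Set α)) := mkQ (span K (v '' (Z : Set α))) ∘ v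
  have h2 : LinearIndepOn K u ((X \ Z : Finset α) : Set α) := by
    refine ((hX.mono (coe_subset.2 hZ)).quotient_iff_union (disjoint_coe.2 disjoint_sdiff)).2 ?_
    rwa [← coe_union, union_sdiff_of_subset hZ]
  have h3 : LinearIndependent K fun i => u (b i) := LinearIndependent.comp h2 b b.injective
  let ι := Fintype.linearCombination K fun i => u (b i)
  have h4 : Function.Injective ι := h3.fintypeLinearCombination_injective
  have h5 : ∀ e, ∃ x, ι x = u e := fun e => by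
    have g : span K (v '' (X : Set α)) ≤
        (LinearMap.range ι).comap (mkQ (span K (v '' (Z : Set α)))) := by
      refine span_le.2 ?_
      rintro _ ⟨x, hx, rfl⟩
      by_cases g : x ∈ Z
      · exact ⟨0, by
          rw [map_zero, mkQ_apply, eq_comm, Quotient.mk_eq_zero]
          exact subset_span ⟨x, g, rfl⟩⟩
      · exact ⟨Pi.single (b.symm ⟨x, mem_sdiff.2 ⟨hx, g⟩⟩) 1, by simp [ι, u]⟩
    exact g (hs e)
  choose P hP using h5
  exact ⟨P, ι, h4, fun i => ⟨b i, h4 (by rw [hP]; simp [ι])⟩, funext hP⟩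

end Pool.Agent.Lib.MP_b1ff30_co.KH
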