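import Pool.Agent.Lib.MP_b1ff30_co.KH5

set_option autoImplicit false

namespace Pool.Agent.Lib.MP_b1ff30_co.KH

open Submodule
open scoped Matroid

section

variable {α K V : Type*} [Field K] [AddCommGroup V] [Module K V] {N : Matroid α} {v : α → V}

lemma base_span (hv : ∀ I : Set α, N.Indep I ↔ LinearIndepOn K v I) {X : Set α} (hX : N.IsBase X)
    (e : α) : v e ∈ span K (v '' X) := by
  by_contra hn
  have g := hX.eq_of_subset_indep ((hv _).2 (((hv _).1 hX.indep).insert hn)) (Set.subset_insert _ _)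
  exact hn (subset_span ⟨e, g ▸ Set.mem_insert _ _, rfl⟩)

/-- A representation of the dual matroid. -/
lemma dual_rep [Finite α] (hE : N.E = Set.univ)
    (hv : ∀ I : Set α, N.Indep I ↔ LinearIndepOn K v I) (I : Set α) :
    N✶.Indep I ↔ LinearIndepOn K (fun e : α => (Finsupp.lapply e ∘ₗ
      (LinearMap.ker (Finsupp.linearCombination K v)).subtype :
        Module.Dual K (LinearMap.ker (Finsupp.linearCombination K v)))) I := by
  classical
  rw [Matroid.dual_indep_iff_exists', hE, and_iff_right (Set.subset_univ _)]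
  constructor
  · rintro ⟨B, hB, hd⟩
    have h1 := fun e => (Finsupp.mem_span_image_iff_linearCombination K).1 (base_span hv hB e)
    choose l hl hl' using h1
    have h2 : ∀ e, Finsupp.single e 1 - l e ∈ LinearMap.ker (Finsupp.linearCombination K v) :=
      fun e => by simp [hl']
    have h3 : ∀ e, ∀ i ∈ I, l e i = 0 := fun e i hi =>
      (Finsupp.mem_supported' _ _).1 (hl e) i (Set.disjoint_left.1 hd hi)
    refine LinearIndependent.of_pairwise_dual_eq_zero_one _
      (fun i => Module.Dual.eval K _ ⟨_, h2 i⟩) (fun i j hij => ?_) fun i => ?_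
    · simp [h3 _ _ j.2, Finsupp.single_eq_of_ne (fun e => hij (Subtype.ext e.symm) : j.1 ≠ i.1)]
    · simp [h3 _ _ i.2]
  · intro h
    obtain ⟨b, b1, -, b2, b3⟩ := exists_linearIndepOn_extension (linearIndepOn_empty K v)
      (Set.empty_subset Iᶜ)
    refine ⟨b, ((hv _).2 b3).isBase_of_forall_insert fun e he g => ?_,
      Set.disjoint_left.2 fun e c d => b1 d c⟩
    obtain ⟨φ, k1, k2⟩ := exists_le_ker_of_notMem ((linearIndepOn_insert he.2).1 ((hv _).1 g)).2
    have k3 := linearIndepOn_iff.1 h (Finsupp.equivFunOnFinite.symm fun i => φ (v i))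
      ((Finsupp.mem_supported' _ _).2 fun i hi => k2 (b2 ⟨i, hi, rfl⟩)) (by
        let _i : Fintype α := Fintype.ofFinite α
        ext x
        have k4 := congrArg φ (LinearMap.mem_ker.1 x.2)
        rw [Finsupp.linearCombination_apply, Finsupp.sum_fintype _ _ (by simp)] at k4 ⊢
        simpa [mul_comm] using k4)
    exact k1 (DFunLike.congr_fun k3 e)

lemma sep_meet {C D S X : Set α} {k : ℕ∞} (hC : C ⊆ D) (hD : N.Indep D)
    (hk : k ≤ (N.contract D).eRk S) (hl : N.eRk S + N.eRk Sᶜ < N.eRank + k) (hX : N.IsBase X) :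
    ∃ x ∈ X, x ∉ C ∧ x ∈ S := by
  by_contra h
  have h1 : X ∩ S ⊆ D := fun x hx => hC (by
    by_contra g
    exact h ⟨x, hx.1, g, hx.2⟩)
  obtain ⟨I, hI⟩ := (N.contract D).exists_isBasis' S
  obtain ⟨h2, h3⟩ := hD.contract_indep_iff.1 hI.indep
  have h4 := (h3.subset (Set.union_subset_union_right I h1)).encard_le_eRk_of_subset
    (Set.union_subset hI.subset Set.inter_subset_right)
  have h5 := (hX.indep.subset (Set.sdiff_subset (t := S))).encard_le_eRk_of_subset
    (X := Sᶜ) fun _ g => g.2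
  rw [Set.encard_union_eq (h2.mono_right h1), hI.encard_eq_eRk] at h4
  refine hl.not_ge ?_
  rw [← hX.encard_eq_eRank, ← Set.encard_sdiff_add_encard_inter X S, add_assoc, add_comm]
  exact add_le_add ((add_comm _ _).trans_le ((add_le_add_left hk _).trans h4)) h5

lemma lam_dual [Finite α] (hE : N.E = Set.univ) {S : Set α} {k : ℕ∞}
    (hl : N.eRk S + N.eRk Sᶜ < N.eRank + k) : N✶.eRk Sᶜ + N✶.eRk Sᶜᶜ < N✶.eRank + k := by
  have h1 := N.eRk_dual_add_eRank S (by simp [hE])
  have h2 := N.eRk_dual_add_eRank Sᶜ (by simp [hE])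
  have h3 := N.eRank_add_eRank_dual
  have h4 := Set.encard_add_encard_compl S
  rw [hE] at h1 h2 h3
  rw [← Set.compl_eq_univ_sdiff] at h1 h2
  rw [compl_compl] at h2 ⊢
  have h5 : (Set.univ : Set α).encard ≠ ⊤ := Set.finite_univ.encard_lt_top.ne
  by_contra h
  refine hl.not_ge ((ENat.add_le_add_iff_right h5).1 ?_)
  calc N.eRank + k + Set.univ.encard = N✶.eRank + k + (N.eRank + N.eRank) := by rw [← h3]; ring
    _ ≤ N✶.eRk Sᶜ + N✶.eRk S + (N.eRank + N.eRank) := add_le_add_left (not_lt.1 h) _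
    _ = (N✶.eRk Sᶜ + N.eRank) + (N✶.eRk S + N.eRank) := by ring
    _ = N.eRk S + N.eRk Sᶜ + Set.univ.encard := by rw [h1, h2, ← h4]; ring

end

/-- A contraction of rank seven has two disjoint cocircuits or the excluded minor. -/
theorem alt {α V : Type*} [DecidableEq α] [AddCommGroup V] [Module (ZMod 2) V] {N : Matroid α}
    {v : α → V} (hN : ∀ I : Set α, N.Indep I ↔ LinearIndepOn (ZMod 2) v I) {X₀ C : Finset α}
    (h₀ : N.IsBase X₀) (hC : C ⊆ X₀) (hc : C.card + 7 = X₀.card) :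
    (∃ Y : Set α, ∀ X : Set α, N.IsBase X →
      (∃ x ∈ X, x ∉ (C : Set α) ∧ x ∈ Y) ∧ ∃ x ∈ X, x ∉ (C : Set α) ∧ x ∈ Yᶜ) ∨
    ∃ (D : Set α) (f : Ed → α), (C : Set α) ⊆ D ∧ N.Indep D ∧ Function.Injective f ∧
      ∀ I, (N.contract D).Indep (f '' I) ↔ LinearIndepOn (ZMod 2) hv I := by
  have k7 := (hN _).1 h₀.indep
  obtain ⟨P, ι, k8, k9, k10⟩ := coords' v 7 k7 hC hc (base_span hN h₀)
  have k11 : ∀ e ∈ C, P e = 0 := fun e he => k8 (by
    have := congrFun k10 e
    rw [Function.comp_apply] at this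
    rw [this, map_zero, Function.comp_apply, mkQ_apply, Quotient.mk_eq_zero]
    exact subset_span ⟨e, he, rfl⟩)
  rcases seven P k9 with ⟨φ, ψ, a1, a2, a3⟩ | ⟨D, f, a1, a2, a3, a4, a5⟩
  · have k12 : ∀ χ : W →ₗ[ZMod 2] ZMod 2, χ ≠ 0 → ∀ X : Set α, N.IsBase X →
        ∃ x ∈ X, x ∉ (C : Set α) ∧ χ (P x) ≠ 0 := fun χ b1 X b2 => by
      by_contra b4
      push Not at b4
      refine b1 ((Pi.basisFun (ZMod 2) (Fin 7)).ext fun i => ?_)
      obtain ⟨e, b5⟩ := k9 i
      have b6 : P e ∈ span (ZMod 2) (P '' X) := by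
        have b7 := mem_map_of_mem (f := mkQ (span (ZMod 2) (v '' (C : Set α)))) (base_span hN b2 e)
        rw [map_span, ← Set.image_comp, ← k10, Set.image_comp, ← map_span,
          show mkQ _ (v e) = ι (P e) from (congrFun k10 e).symm] at b7
        obtain ⟨y, b8, b9⟩ := b7
        exact k8 b9 ▸ b8
      have b7 : span (ZMod 2) (P '' X) ≤ LinearMap.ker χ := by
        refine span_le.2 ?_
        rintro _ ⟨x, hx, rfl⟩
        by_cases b8 : x ∈ (C : Set α)
        · rw [k11 x b8]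
          exact zero_mem _
        · exact b4 x hx b8
      rw [Pi.basisFun_apply, ← b5]
      exact b7 b6
    refine Or.inl ⟨{e | φ (P e) ≠ 0}, fun X b1 => ⟨k12 φ a1 X b1, ?_⟩⟩
    obtain ⟨x, b2, b3, b4⟩ := k12 ψ a2 X b1
    exact ⟨x, b2, b3, fun b5 => b5 ((a3 x).resolve_right b4)⟩
  · have b1 := k7.mono (Finset.coe_subset.2 hC)
    have b2 : ∀ J : Set α, (∀ e ∈ J, P e ≠ 0) →
        (N.Indep (C ∪ J) ↔ LinearIndepOn (ZMod 2) P J) := fun J b => by
      rw [hN, ← b1.quotient_iff_union (Set.disjoint_left.2 fun e c d => b e d (k11 e c)), ← k10,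
        ι.linearIndepOn_iff_of_injOn k8.injOn]
    have b3 : ∀ e ∈ D, P e ≠ 0 := fun e he => a2.ne_zero he
    refine Or.inr ⟨C ∪ D, f, Set.subset_union_left, (b2 D b3).2 a2, a1, fun I => ?_⟩
    have b4 : Disjoint (f '' I) ((C : Set α) ∪ D) := Set.disjoint_left.2 (by
      rintro _ ⟨p, -, rfl⟩ (b | b)
      exacts [a4 p (k11 _ b), a3 p b])
    rw [((b2 D b3).2 a2).contract_indep_iff, and_iff_right b4, Set.union_comm, Set.union_assoc,
      b2 _ (by
        rintro _ (b | ⟨p, -, rfl⟩)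
        exacts [b3 _ b, a4 p])]
    exact a5 I

end Pool.Agent.Lib.MP_b1ff30_co.KH
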