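import Mathlib
import Pool.Agent.Lib.MP_b1ff30_co.Count

set_option autoImplicit false

namespace Pool.Agent.Lib.MP_b1ff30_co

open Finset

variable {α K W : Type*} [Fintype α] [DecidableEq α] [Field K] [AddCommGroup W] [Module K W]

/-- Put the vectors of `X` in the first factor and the others in the second factor. -/
def fam (v : α → W) (X : Finset α) : α → W × W :=
  fun e => if e ∈ X then (v e, 0) else (0, v e)

lemma fam_linearIndependent_iff (v : α → W) (X : Finset α) :
    LinearIndependent K (fam v X) ↔
      LinearIndepOn K v (X : Set α) ∧ LinearIndepOn K v ((Xᶜ : Finset α) : Set α) := by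
  rw [Fintype.linearIndependent_iff, linearIndepOn_finset_iff, linearIndepOn_finset_iff]
  have key : ∀ g : α → K, ∑ i, g i • fam v X i =
      (∑ i ∈ X, g i • v i, ∑ i ∈ Xᶜ, g i • v i) := by
    intro g
    rw [← Finset.sum_add_sum_compl X]
    have h1 : ∑ i ∈ X, g i • fam v X i = (∑ i ∈ X, g i • v i, 0) := by
      ext
      · rw [Prod.fst_sum]
        exact Finset.sum_congr rfl fun i hi => by simp [fam, hi]
      · rw [Prod.snd_sum]
        exact Finset.sum_eq_zero fun i hi => by simp [fam, hi]
    have h2 : ∑ i ∈ Xᶜ, g i • fam v X i = (0, ∑ i ∈ Xᶜ, g i • v i) := by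
      ext
      · rw [Prod.fst_sum]
        exact Finset.sum_eq_zero fun i hi => by simp [fam, mem_compl.1 hi]
      · rw [Prod.snd_sum]
        exact Finset.sum_congr rfl fun i hi => by simp [fam, mem_compl.1 hi]
    rw [h1, h2]
    simp
  constructor
  · intro h
    constructor
    · intro g hg i hi
      have := h (fun e => if e ∈ X then g e else 0) (by
        rw [key]
        ext
        · simp only [Prod.fst_zero]
          rw [← hg]
          exact Finset.sum_congr rfl fun j hj => by simp [hj]
        · simp only [Prod.snd_zero]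
          exact Finset.sum_eq_zero fun j hj => by simp [mem_compl.1 hj]) i
      simpa [hi] using this
    · intro g hg i hi
      have := h (fun e => if e ∈ X then 0 else g e) (by
        rw [key]
        ext
        · simp only [Prod.fst_zero]
          exact Finset.sum_eq_zero fun j hj => by simp [hj]
        · simp only [Prod.snd_zero]
          rw [← hg]
          exact Finset.sum_congr rfl fun j hj => by simp [mem_compl.1 hj]) i
      simpa [mem_compl.1 hi] using this
  · rintro ⟨h1, h2⟩ g hg i
    rw [key] at hg
    by_cases hi : i ∈ X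
    · exact h1 g (congrArg Prod.fst hg) i hi
    · exact h2 g (congrArg Prod.snd hg) i (mem_compl.2 hi)

/-- The shear `(a, b) ↦ (a + b, b)`. -/
def shear (K W : Type*) [Field K] [AddCommGroup W] [Module K W] : W × W →ₗ[K] W × W :=
  (LinearMap.fst K W W + LinearMap.snd K W W).prod (LinearMap.snd K W W)

lemma upRel_det (b : Module.Basis α K (W × W)) (v : α → W) (r : ℕ)
    (hr : ∀ X : Finset α, b.det (fam v X) ≠ 0 → X.card = r) :
    UpRel r (fun X => b.det (fam v X)) := by
  intro F hF
  have h0 : b.det (fam v F) = 0 := by
    by_contra h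
    have := hr F h
    omega
  set m : α → W × W := fun e => if e ∈ F then 0 else (v e, 0) with hm
  have h1 : m + fam v F = shear K W ∘ fam v F := by
    funext e
    by_cases he : e ∈ F <;> simp [hm, fam, shear, he]
  have h2 : b.det (m + fam v F) = 0 := by
    rw [h1, Module.Basis.det_comp, h0, mul_zero]
  rw [AlternatingMap.map_add_univ] at h2
  rw [← h2]
  have h3 : ∀ s : Finset α, Disjoint s F → s.piecewise m (fam v F) = fam v (s ∪ F) := by
    intro s hs
    funext e
    by_cases h : e ∈ s
    · have : e ∉ F := Finset.disjoint_left.1 hs h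
      simp [Finset.piecewise, h, hm, fam, this]
    · simp [Finset.piecewise, h, fam]
  have hinj : Set.InjOn (fun y : α => ({y} : Finset α)) (Fᶜ : Finset α) :=
    fun a _ b _ hab => Finset.singleton_injective hab
  calc ∑ y ∈ Fᶜ, b.det (fam v (insert y F))
      = ∑ y ∈ Fᶜ, b.det (({y} : Finset α).piecewise m (fam v F)) := by
        refine Finset.sum_congr rfl fun y hy => ?_
        rw [h3 _ (by simpa using hy)]
        rfl
    _ = ∑ s ∈ Fᶜ.image (fun y : α => ({y} : Finset α)), b.det (s.piecewise m (fam v F)) := by
        rw [Finset.sum_image hinj]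
    _ = ∑ s : Finset α, b.det (s.piecewise m (fam v F)) := by
        refine Finset.sum_subset (subset_univ _) fun s _ hs => ?_
        by_cases hd : Disjoint s F
        · by_contra hne
          rw [h3 s hd] at hne
          have hc := hr _ hne
          rw [card_union_of_disjoint hd] at hc
          obtain ⟨y, rfl⟩ := Finset.card_eq_one.1 (show s.card = 1 by omega)
          apply hs
          exact mem_image.2 ⟨y, by simpa using hd, rfl⟩
        · obtain ⟨e, he1, he2⟩ := Finset.not_disjoint_iff.1 hd
          exact b.det.map_coord_zero e (by simp [Finset.piecewise, he1, hm, he2])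

lemma det_compl (b : Module.Basis α K (W × W)) (v : α → W) (X : Finset α) :
    b.det (fam v Xᶜ) =
      LinearMap.det (LinearEquiv.prodComm K W W).toLinearMap * b.det (fam v X) := by
  rw [← Module.Basis.det_comp]
  congr 1
  funext e
  by_cases he : e ∈ X <;> simp [fam, he]

lemma upRel_det_compl (b : Module.Basis α K (W × W)) (v : α → W) (r : ℕ)
    (hr : ∀ X : Finset α, b.det (fam v X) ≠ 0 → X.card = r) :
    UpRel r (fun X => b.det (fam v Xᶜ)) := by
  intro F hF
  have := upRel_det b v r hr F hF
  simp only [det_compl]
  rw [← Finset.mul_sum]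
  simp only at this
  rw [this, mul_zero]

lemma upRel_restrict {r : ℕ} {w : Finset α → K} (h : UpRel r w) (P : Finset α → Prop)
    [DecidablePred P]
    (hP : ∀ (F : Finset α) (y z : α), y ∉ F → z ∉ F → w (insert y F) ≠ 0 → w (insert z F) ≠ 0 →
      P (insert y F) → P (insert z F)) :
    UpRel r (fun X => if P X then w X else 0) := by
  intro F hF
  by_cases hex : ∃ y, y ∉ F ∧ w (insert y F) ≠ 0 ∧ P (insert y F)
  · obtain ⟨y, hy1, hy2, hy3⟩ := hex
    refine Eq.trans ?_ (h F hF)
    refine Finset.sum_congr rfl fun z hz => ?_
    by_cases hw : w (insert z F) = 0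
    · simp [hw]
    · simp [hP F y z hy1 (mem_compl.1 hz) hy2 hw hy3]
  · refine Finset.sum_eq_zero fun z hz => ?_
    by_cases hp : P (insert z F)
    · by_contra hne
      exact hex ⟨z, mem_compl.1 hz, by simpa [hp] using hne, hp⟩
    · simp [hp]

end Pool.Agent.Lib.MP_b1ff30_co
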