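import Mathlib
import Pool.Agent.Lib.MP_b1ff30_co.Plucker

set_option autoImplicit false

namespace Pool.Agent.Lib.MP_b1ff30_co

open Finset

variable {α K W : Type*} [Fintype α] [DecidableEq α] [Field K] [AddCommGroup W] [Module K W]

lemma natCast_ne_zero_of_lt_ringChar {k : ℕ} (hk : 0 < k)
    (h : ringChar K = 0 ∨ k < ringChar K) : (k : K) ≠ 0 := by
  intro h0
  have hd : ringChar K ∣ k := (ringChar.spec K k).1 h0
  rcases h with h | h
  · rw [h] at hd
    have := Nat.eq_zero_of_zero_dvd hd
    omega
  · have := Nat.le_of_dvd hk hd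
    omega

/-- Abstract form: a class of finsets containing `B` and closed under exchanges between
complementary independent pairs contains `Bᶜ`. -/
theorem closed_compl [Module.Finite K W] (v : α → W) (B : Finset α)
    (hdim : Module.finrank K W = B.card) (hBc : Bᶜ.card = B.card)
    (hchar : ringChar K = 0 ∨ B.card + 2 ≤ 2 * ringChar K)
    (h1 : LinearIndepOn K v (B : Set α)) (h2 : LinearIndepOn K v ((Bᶜ : Finset α) : Set α))
    (P : Finset α → Prop) (hPB : P B)
    (hP : ∀ X Y : Finset α, X.card = B.card → LinearIndepOn K v (X : Set α) →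
      LinearIndepOn K v ((Xᶜ : Finset α) : Set α) → Y.card = B.card →
      LinearIndepOn K v (Y : Set α) → LinearIndepOn K v ((Yᶜ : Finset α) : Set α) →
      (∃ x ∈ X, ∃ y, y ∉ X ∧ Y = insert y (X.erase x)) → P X → P Y) :
    P Bᶜ := by
  classical
  have hcard : Fintype.card α = 2 * B.card := by
    have := Finset.card_add_card_compl B
    omega
  have hfr : Module.finrank K (W × W) = Fintype.card α := by
    rw [Module.finrank_prod, hdim, hcard]; ring
  let b : Module.Basis α K (W × W) :=
    (Module.finBasisOfFinrankEq K (W × W) hfr).reindex (Fintype.equivFin α).symm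
  have hgood : ∀ X : Finset α, b.det (fam v X) ≠ 0 ↔
      LinearIndepOn K v (X : Set α) ∧ LinearIndepOn K v ((Xᶜ : Finset α) : Set α) := by
    intro X
    rw [← fam_linearIndependent_iff]
    constructor
    · intro h
      by_contra hn
      exact h (b.det.map_linearDependent _ hn)
    · intro h
      exact (b.is_basis_iff_det.1 ⟨h, h.span_eq_top_of_card_eq_finrank' hfr.symm⟩).ne_zero
  have hle : ∀ X : Finset α, LinearIndepOn K v (X : Set α) → X.card ≤ B.card := by
    intro X hX
    have := LinearIndependent.fintype_card_le_finrank hX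
    simpa [hdim] using this
  have hr : ∀ X : Finset α, b.det (fam v X) ≠ 0 → X.card = B.card := by
    intro X hX
    obtain ⟨ha, hb⟩ := (hgood X).1 hX
    have e1 := hle _ ha
    have e2 := hle _ hb
    have := Finset.card_add_card_compl X
    omega
  have hstep : ∀ X Y : Finset α, b.det (fam v X) ≠ 0 → b.det (fam v Y) ≠ 0 →
      (∃ x ∈ X, ∃ y, y ∉ X ∧ Y = insert y (X.erase x)) → P X → P Y := by
    intro X Y hX hY
    exact hP X Y (hr X hX) ((hgood X).1 hX).1 ((hgood X).1 hX).2 (hr Y hY) ((hgood Y).1 hY).1
      ((hgood Y).1 hY).2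
  have u1 : UpRel B.card (fun X => if P X then b.det (fam v X) else 0) := by
    refine upRel_restrict (upRel_det b v _ hr) P ?_
    intro F y z hy hz hwy hwz hp
    by_cases hyz : z = y
    · rw [hyz]; exact hp
    · refine hstep _ _ hwy hwz ⟨y, mem_insert_self _ _, z, ?_, ?_⟩ hp
      · simp [hyz, hz]
      · rw [erase_insert hy]
  have u2 : UpRel B.card (fun X => if P Xᶜ then b.det (fam v Xᶜ) else 0) := by
    refine upRel_restrict (upRel_det_compl b v _ hr) (fun X => P Xᶜ) ?_
    intro F y z hy hz hwy hwz hp
    by_cases hyz : z = y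
    · rw [hyz]; exact hp
    · refine hstep _ _ hwy hwz ⟨z, ?_, y, ?_, ?_⟩ hp
      · simp [hyz, hz]
      · simp
      · ext e
        simp only [mem_compl, mem_insert, mem_erase]
        by_cases he : e = y
        · subst he
          simp [hy, Ne.symm hyz]
        · tauto
  have key := compl_eq (a := B.card / 2) (m := B.card - B.card / 2) u1 u2 rfl hBc (by omega)
    (fun k hk hk' => natCast_ne_zero_of_lt_ringChar hk (by omega))
    (fun k hk hk' => natCast_ne_zero_of_lt_ringChar hk (by omega))
  simp only [if_pos hPB] at key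
  by_contra hn
  rw [if_neg hn, mul_zero] at key
  have hB0 : b.det (fam v B) ≠ 0 := (hgood B).2 ⟨h1, h2⟩
  exact mul_ne_zero (pow_ne_zero _ (neg_ne_zero.2 one_ne_zero)) hB0 key.symm

end Pool.Agent.Lib.MP_b1ff30_co
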