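import Pool.Agent.Lib.MP_b1ff30_co.P4a

set_option autoImplicit false

namespace Pool.Agent.Lib.MP_b1ff30_co.NK

open Pool.Agent.Lib.MP_b1ff30_co.Rup (fo fo_eq)

/-- The points on which a functional is one, as a bit mask. -/
def hm (f : ℕ) : ℕ := Nat.land (Nat.shiftRight
  105622735006793763986092022096263865308079899692311177685378058438345220088721992339628874028198789988684159127361102458632418818923913222235609807209506990760239623885411195645223534497974722455560480577157535013488054948939428379547520536719329363993097094287490097053867168767581589602653703026698851713024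
  (Nat.mul 32 f)) 4294967295

/-- A search tree. -/
inductive Tt
  | fin : ℕ → ℕ → Tt
  | br : ℕ → ℕ → Tt → Tt → Tt

/-- Add a point to a mask. -/
def ad (E p : ℕ) : ℕ := Nat.lor E (Nat.pow 2 p)

/-- The nine points of a copy. -/
def nine (a₁ a₂ b₀ b₁ b₂ : ℕ) : ℕ :=
  ad (ad (ad (ad (ad (ad (ad (ad (ad 0 b₀) b₁) b₂) (Nat.xor a₁ b₀)) (Nat.xor a₁ b₁))
    (Nat.xor a₁ b₂)) (Nat.xor a₂ b₀)) (Nat.xor a₂ b₁)) (Nat.xor a₂ b₂)

/-- The five labels span. -/
def spn (a₁ a₂ b₀ b₁ b₂ : ℕ) : ℕ :=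
  Nat.lor (Nat.lor (Nat.lor (Nat.lor (hm a₁) (hm a₂)) (hm b₀)) (hm b₁)) (hm b₂)

/-- Test of a copy. -/
noncomputable def wit (E w : ℕ) : Bool :=
  fo (Nat.mod w 32) fun a₁ => fo (Nat.mod (Nat.div w 32) 32) fun a₂ =>
    fo (Nat.mod (Nat.div w 1024) 32) fun b₀ => fo (Nat.mod (Nat.div w 32768) 32) fun b₁ =>
      fo (Nat.mod (Nat.div w 1048576) 32) fun b₂ => fo (nine a₁ a₂ b₀ b₁ b₂) fun m =>
        Nat.beq (Nat.land m E) m && Nat.beq (spn a₁ a₂ b₀ b₁ b₂) 4294967294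

/-- Exclude the points that complete a copy. -/
noncomputable def lvs (E n : ℕ) : ℕ → ℕ → ℕ :=
  Nat.rec (fun _ X => X) (fun _ ih ws X => Bool.rec (fo (Nat.mod ws 32) fun p => Bool.rec X
    (fo (Nat.div ws 1073741824) fun ws' => fo (ad X p) fun X' => ih ws' X')
    (fo (ad E p) fun E' => fo (Nat.div ws 32) fun w => wit E' w)) X (Nat.beq ws 0)) n

/-- The check of a tree. -/
noncomputable def chk (T : Tt) : ℕ → ℕ → Bool :=
  Tt.rec (fun f g _ X => Nat.blt 0 f && Nat.blt f 32 && Nat.blt 0 g && Nat.blt g 32 &&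
      fo (Nat.land (hm f) (hm g)) fun m => Nat.beq (Nat.land m X) m)
    (fun p ws _ _ l r E X => (fo (ad E p) fun E' => fo (lvs E' 8 ws X) fun X' => l E' X') &&
      fo (ad X p) fun X' => r E X') T

/-- Two hyperplanes cover the points. -/
def Cover (P : ℕ → Prop) : Prop :=
  ∃ f g, 0 < f ∧ f < 32 ∧ 0 < g ∧ g < 32 ∧ ∀ c, P c → (hm f).testBit c → ¬ (hm g).testBit c

/-- The points contain a copy. -/
def Copy (P : ℕ → Prop) : Prop :=
  ∃ a₁ < 32, ∃ a₂ < 32, ∃ b₀ < 32, ∃ b₁ < 32, ∃ b₂ < 32, spn a₁ a₂ b₀ b₁ b₂ = 4294967294 ∧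
    ∀ c, (nine a₁ a₂ b₀ b₁ b₂).testBit c → P c

variable {P : ℕ → Prop}

lemma ad_bit {E p c : ℕ} : (ad E p).testBit c ↔ E.testBit c ∨ p = c := by
  rw [show ad E p = E ||| 2 ^ p from rfl]
  simp [Nat.testBit_two_pow]

lemma sub_bit {m E c : ℕ} (h : Nat.beq (Nat.land m E) m = true) (hc : m.testBit c) :
    E.testBit c := by
  have h1 : m &&& E = m := Nat.eq_of_beq_eq_true h
  rw [← h1, Nat.testBit_and, Bool.and_eq_true] at hc
  exact hc.2

lemma ad_all {Q : ℕ → Prop} {E p : ℕ} (hE : ∀ c, E.testBit c → Q c) (hp : Q p) :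
    ∀ c, (ad E p).testBit c → Q c := fun c hc => by
  rcases ad_bit.1 hc with h | rfl
  · exact hE c h
  · exact hp

lemma wit_sound {E w : ℕ} (hE : ∀ c, E.testBit c → P c) (h : wit E w = true) : Copy P := by
  simp only [wit, fo_eq, Bool.and_eq_true] at h
  exact ⟨_, Nat.mod_lt _ (by omega), _, Nat.mod_lt _ (by omega), _, Nat.mod_lt _ (by omega), _,
    Nat.mod_lt _ (by omega), _, Nat.mod_lt _ (by omega), Nat.eq_of_beq_eq_true h.2,
    fun c hc => hE c (sub_bit h.1 hc)⟩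

lemma lvs_sound (h : ¬ Copy P) {E : ℕ} (hE : ∀ c, E.testBit c → P c) (n : ℕ) :
    ∀ ws X, (∀ c, X.testBit c → ¬ P c) → ∀ c, (lvs E n ws X).testBit c → ¬ P c := by
  induction n with
  | zero => exact fun _ _ hX => hX
  | succ n ih =>
    intro ws X hX
    have e : lvs E (n + 1) ws X = Bool.rec (motive := fun _ => ℕ) (fo (Nat.mod ws 32) fun p =>
        Bool.rec (motive := fun _ => ℕ) X
          (fo (Nat.div ws 1073741824) fun ws' => fo (ad X p) fun X' => lvs E n ws' X')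
          (fo (ad E p) fun E' => fo (Nat.div ws 32) fun w => wit E' w)) X (Nat.beq ws 0) := rfl
    rw [e, fo_eq, fo_eq, fo_eq, fo_eq, fo_eq]
    cases Nat.beq ws 0
    swap
    · exact hX
    cases e1 : wit (ad E (Nat.mod ws 32)) (Nat.div ws 32)
    · exact hX
    · exact ih _ _ (ad_all hX fun g => h (wit_sound (ad_all hE g) e1))

lemma chk_sound (h : ¬ Copy P) (h' : ¬ Cover P) (T : Tt) : ∀ E X, chk T E X = true →
    (∀ c, E.testBit c → P c) → (∀ c, X.testBit c → ¬ P c) → False := by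
  induction T with
  | fin f g =>
    intro E X h1 _ hX
    have e : chk (Tt.fin f g) E X = (Nat.blt 0 f && Nat.blt f 32 && Nat.blt 0 g && Nat.blt g 32 &&
      fo (Nat.land (hm f) (hm g)) fun m => Nat.beq (Nat.land m X) m) := rfl
    rw [e, fo_eq] at h1
    simp only [Bool.and_eq_true, Nat.blt_eq] at h1
    refine h' ⟨f, g, h1.1.1.1.1, h1.1.1.1.2, h1.1.1.2, h1.1.2, fun c g1 g2 g3 =>
      hX c (sub_bit h1.2 ?_) g1⟩
    rw [show Nat.land (hm f) (hm g) = hm f &&& hm g from rfl, Nat.testBit_and, g2, g3]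
    rfl
  | br p ws l r ihl ihr =>
    intro E X h1 hE hX
    have e : chk (Tt.br p ws l r) E X = ((fo (ad E p) fun E' => fo (lvs E' 8 ws X) fun X' =>
      chk l E' X') && fo (ad X p) fun X' => chk r E X') := rfl
    rw [e, fo_eq, fo_eq, fo_eq, Bool.and_eq_true] at h1
    by_cases g : P p
    · exact ihl _ _ h1.1 (ad_all hE g) (lvs_sound h (ad_all hE g) _ _ _ hX)
    · exact ihr _ _ h1.2 hE (ad_all hX g)

end Pool.Agent.Lib.MP_b1ff30_co.NK
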