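import Pool.Agent.Lib.MP_b1ff30_co.NK2
import Pool.Agent.Lib.MP_b1ff30_co.P4f

set_option autoImplicit false

namespace Pool.Agent.Lib.MP_b1ff30_co.NK

open Finset Submodule Matrix

/-- The vector of a code. -/
def vec (c : ℕ) : Fin 5 → ZMod 2 := fun i => if c.testBit i then 1 else 0

lemma vec_xor (c d : ℕ) : vec (Nat.xor c d) = vec c + vec d := by
  funext i
  rw [show Nat.xor c d = c ^^^ d from rfl, Pi.add_apply, vec, vec, vec, Nat.testBit_xor]
  cases c.testBit i <;> cases d.testBit i <;> rfl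

lemma hm_spec : ∀ f < 32, ∀ c < 32, (hm f).testBit c = true ↔ vec f ⬝ᵥ vec c ≠ 0 := by
  decide +kernel

lemma vec_surj : ∀ x : Fin 5 → ZMod 2, ∃ c < 32, vec c = x := by decide +kernel

lemma vec_ne : ∀ f < 32, 0 < f → vec f ≠ 0 := by decide +kernel

lemma vec_zero : vec 0 = 0 := by decide +kernel

lemma root_bit : ∀ c < 17, Nat.testBit 65814 c = true → ∃ i : Fin 5, vec c = Pi.single i 1 := by
  decide +kernel

lemma full_bit : ∀ c < 32, 0 < c → Nat.testBit 4294967294 c = true := by decide +kernel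

/-- The incidence vectors of the complete bipartite graph on three plus three vertices. -/
def kv (p : Fin 3 × Fin 3) : (Fin 3 → ZMod 2) × (Fin 3 → ZMod 2) :=
  (Pi.single p.1 1, Pi.single p.2 1)

lemma kv_inj : Function.Injective kv := by decide +kernel

lemma kv_ne : ∀ p, kv p ≠ 0 := by decide +kernel

/-- Points of the binary space of rank five that contain the unit vectors are covered by two
hyperplanes or contain the nine points. -/
theorem five {α : Type*} (P : α → Fin 5 → ZMod 2) (hP : ∀ i, ∃ e, P e = Pi.single i 1) :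
    (∃ φ ψ : Fin 5 → ZMod 2, φ ≠ 0 ∧ ψ ≠ 0 ∧ ∀ e, φ ⬝ᵥ P e = 0 ∨ ψ ⬝ᵥ P e = 0) ∨
    ∃ f : Fin 3 × Fin 3 → α, Function.Injective f ∧ (∀ p, P (f p) ≠ 0) ∧
      ∀ I, LinearIndepOn (ZMod 2) P (f '' I) ↔ LinearIndepOn (ZMod 2) kv I := by
  by_cases h1 : Cover fun c => ∃ e, P e = vec c
  · obtain ⟨f, g, g1, g2, g3, g4, g5⟩ := h1
    refine Or.inl ⟨vec f, vec g, vec_ne f g2 g1, vec_ne g g4 g3, fun e => ?_⟩
    obtain ⟨c, k1, k2⟩ := vec_surj (P e)
    by_contra k
    rw [not_or, ← k2] at k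
    exact g5 c ⟨e, k2.symm⟩ ((hm_spec f g2 c k1).2 k.1) ((hm_spec g g4 c k1).2 k.2)
  have h2 : Copy fun c => ∃ e, P e = vec c := by
    by_contra h2
    refine chk_sound h2 h1 tK _ _ tK_chk (fun c hc => ?_) (by simp)
    have k1 : c < 17 := by
      by_contra k
      rw [Nat.testBit_lt_two_pow ((show 65814 < 2 ^ 17 by norm_num).trans_le
        (Nat.pow_le_pow_right (by omega) (by omega)))] at hc
      exact absurd hc (by simp)
    obtain ⟨i, k2⟩ := root_bit c k1 hc
    rw [k2]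
    exact hP i
  obtain ⟨a₁, a1, a₂, a2, b₀, b0, b₁, b1, b₂, b2, h3, h4⟩ := h2
  let A : Fin 3 → Fin 5 → ZMod 2 := ![0, vec a₁, vec a₂]
  let B : Fin 3 → Fin 5 → ZMod 2 := ![vec b₀, vec b₁, vec b₂]
  have h5 : ∀ p : Fin 3 × Fin 3, ∃ e, P e = A p.1 + B p.2 := by
    have k : ∀ c, (c = b₀ ∨ c = b₁ ∨ c = b₂ ∨ c = Nat.xor a₁ b₀ ∨ c = Nat.xor a₁ b₁ ∨
        c = Nat.xor a₁ b₂ ∨ c = Nat.xor a₂ b₀ ∨ c = Nat.xor a₂ b₁ ∨ c = Nat.xor a₂ b₂) →
        ∃ e, P e = vec c := fun c hc => h4 c (by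
      simp only [nine, ad_bit, @eq_comm _ _ c]
      tauto)
    rintro ⟨i, j⟩
    fin_cases i <;> fin_cases j
    · exact (k b₀ (by tauto)).imp fun _ e => e.trans (zero_add _).symm
    · exact (k b₁ (by tauto)).imp fun _ e => e.trans (zero_add _).symm
    · exact (k b₂ (by tauto)).imp fun _ e => e.trans (zero_add _).symm
    · exact (k _ (by tauto)).imp fun _ e => e.trans (vec_xor a₁ b₀)
    · exact (k _ (by tauto)).imp fun _ e => e.trans (vec_xor a₁ b₁)
    · exact (k _ (by tauto)).imp fun _ e => e.trans (vec_xor a₁ b₂)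
    · exact (k _ (by tauto)).imp fun _ e => e.trans (vec_xor a₂ b₀)
    · exact (k _ (by tauto)).imp fun _ e => e.trans (vec_xor a₂ b₁)
    · exact (k _ (by tauto)).imp fun _ e => e.trans (vec_xor a₂ b₂)
  choose f hf using h5
  let L : ((Fin 3 → ZMod 2) × (Fin 3 → ZMod 2)) →ₗ[ZMod 2] (Fin 5 → ZMod 2) :=
    (Fintype.linearCombination (ZMod 2) A).coprod (Fintype.linearCombination (ZMod 2) B)
  have h6 : P ∘ f = L ∘ kv := by
    funext p
    simp [L, kv, hf]
  let R : Matrix (Fin 5) (Fin 5) (ZMod 2) := Matrix.of ![vec a₁, vec a₂, vec b₀, vec b₁, vec b₂]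
  have h7 : LinearIndependent (ZMod 2) R.row := by
    rw [linearIndependent_rows_iff_isUnit, ← mulVec_injective_iff_isUnit, ← coe_mulVecLin,
      ← LinearMap.ker_eq_bot, LinearMap.ker_eq_bot']
    intro x hx
    obtain ⟨c, k1, rfl⟩ := vec_surj x
    rcases Nat.eq_zero_or_pos c with rfl | k2
    · exact vec_zero
    have k3 := full_bit c k1 k2
    rw [← h3, show spn a₁ a₂ b₀ b₁ b₂ = hm a₁ ||| hm a₂ ||| hm b₀ ||| hm b₁ ||| hm b₂ from rfl] at k3
    simp only [Nat.testBit_or, Bool.or_eq_true, hm_spec _ a1 c k1, hm_spec _ a2 c k1,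
      hm_spec _ b0 c k1, hm_spec _ b1 c k1, hm_spec _ b2 c k1] at k3
    rcases k3 with (((k | k) | k) | k) | k
    exacts [absurd (congrFun hx 0) k, absurd (congrFun hx 1) k, absurd (congrFun hx 2) k,
      absurd (congrFun hx 3) k, absurd (congrFun hx 4) k]
  have h8 : Disjoint (span (ZMod 2) (Set.range kv)) (LinearMap.ker L) := by
    rw [disjoint_def]
    intro x k1 k2
    have k3 : x.1 0 + x.1 1 + x.1 2 + (x.2 0 + x.2 1 + x.2 2) = 0 := by
      refine span_induction (p := fun x _ =>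
        x.1 0 + x.1 1 + x.1 2 + (x.2 0 + x.2 1 + x.2 2) = 0) ?_ (by simp) ?_ ?_ k1
      · rintro _ ⟨p, rfl⟩
        revert p
        decide +kernel
      · intro y z _ _ g1 g2
        simp only [Prod.fst_add, Prod.snd_add, Pi.add_apply]
        linear_combination g1 + g2
      · intro c y _ g1
        simp only [Prod.smul_fst, Prod.smul_snd, Pi.smul_apply, smul_eq_mul]
        linear_combination c * g1
    have k4 := Fintype.linearIndependent_iff.1 h7 ![x.1 1, x.1 2, x.2 0, x.2 1, x.2 2] (by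
      rw [LinearMap.mem_ker] at k2
      rw [← k2]
      simp [L, A, B, R, Fintype.linearCombination_apply, Fin.sum_univ_succ, add_assoc, row]
      rfl)
    have e0 : x.1 1 = 0 := k4 0
    have e1 : x.1 2 = 0 := k4 1
    have e2 : x.2 0 = 0 := k4 2
    have e3 : x.2 1 = 0 := k4 3
    have e4 : x.2 2 = 0 := k4 4
    simp only [e0, e1, e2, e3, e4, add_zero] at k3
    refine Prod.ext (funext fun i => ?_) (funext fun i => ?_) <;> fin_cases i <;> assumption
  have h9 := LinearMap.injOn_of_disjoint_ker le_rfl h8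
  have hm : ∀ p, kv p ∈ span (ZMod 2) (Set.range kv) := fun p => subset_span ⟨p, rfl⟩
  have hi : Function.Injective f := fun p p' e =>
    kv_inj (h9 (hm p) (hm p') (by
      have e1 := congrFun h6 p
      have e2 := congrFun h6 p'
      rw [Function.comp_apply, Function.comp_apply] at e1 e2
      rw [← e1, ← e2, e]))
  refine Or.inr ⟨f, hi, fun p e => kv_ne p (disjoint_def.1 h8 _ (hm p) ?_), fun I => ?_⟩
  · exact (congrFun h6 p).symm.trans e
  · rw [← L.linearIndepOn_iff_of_injOn (h9.mono (span_mono (Set.image_subset_range _ _))), ← h6]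
    exact ⟨fun g => g.comp_of_image hi.injOn, fun g => g.image_of_comp _ _⟩

end Pool.Agent.Lib.MP_b1ff30_co.NK
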