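import Pool.Agent.Lib.MP_b1ff30_co.Sq7

set_option autoImplicit false

namespace Pool.Agent.Lib.MP_b1ff30_co

open Finset Matrix Submodule
open scoped Classical

variable {α K : Type*} [Fintype α] [DecidableEq α] [Field K]

/-- The sum over the sets containing `Y` whose remaining elements lie in `S`. -/
def ins (n : ℕ) (g : Finset α → K) (Y S : Finset α) : K :=
  ∑ X ∈ (univ : Finset (Finset α)).filter (fun X => (X.card = n ∧ Y ⊆ X) ∧ X \ Y ⊆ S), g X

lemma ins_split {n : ℕ} {g : Finset α → K} {Y S₁ S₂ : Finset α} (hd : Disjoint S₁ S₂)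
    (h : ins n g Y (S₁ ∪ S₂) ≠ 0) : ∃ U ⊆ S₂, ins n g (Y ∪ U) S₁ ≠ 0 := by
  by_contra h1
  push Not at h1
  refine h ?_
  rw [ins, ← sum_fiberwise_of_maps_to (t := (S₂ \ Y).powerset) (g := fun X => (X \ Y) ∩ S₂)
    fun X _ => mem_powerset.2 fun z hz => by
      simp only [mem_inter, mem_sdiff] at hz ⊢
      tauto]
  refine sum_eq_zero fun U hU => ?_
  rw [mem_powerset] at hU
  rw [← h1 U (hU.trans sdiff_subset), ins, filter_filter]
  refine sum_congr (filter_congr fun X _ => ?_) fun _ _ => rfl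
  have hd' := disjoint_left.1 hd
  constructor
  · rintro ⟨⟨⟨e1, e2⟩, e3⟩, rfl⟩
    refine ⟨⟨e1, union_subset e2 (inter_subset_left.trans sdiff_subset)⟩, fun z hz => ?_⟩
    have := @e3 z
    simp only [mem_inter, mem_sdiff, mem_union] at hz this
    tauto
  · rintro ⟨⟨e1, e2⟩, e3⟩
    refine ⟨⟨⟨e1, subset_union_left.trans e2⟩, fun z hz => ?_⟩, ?_⟩
    · have g1 := @e3 z
      have g2 := @hU z
      simp only [mem_sdiff, mem_union] at hz g1 g2 ⊢
      tauto
    · ext z
      have g1 := @e3 z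
      have g2 := @hU z
      have g3 := @e2 z
      have g4 := @hd' z
      simp only [mem_inter, mem_sdiff, mem_union] at g1 g2 g3 ⊢
      tauto

lemma ins_state {n : ℕ} {g : Finset α → K} {Y S : Finset α} (h : ins n g Y S ≠ 0) :
    ∃ X : Finset α, X.card = n ∧ Y ⊆ X ∧ X \ Y ⊆ S ∧ g X ≠ 0 := by
  obtain ⟨X, hX, h1⟩ := exists_ne_zero_of_sum_ne_zero h
  simp only [mem_filter, mem_univ, true_and] at hX
  exact ⟨X, hX.1.1, hX.1.2, hX.2, h1⟩

lemma branch_core (n q : ℕ) (g : Finset α → K) (hg : UpZ n q g) (l : Finset α → ℕ)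
    (hl : ∀ X : Finset α, X.card = n → g X ≠ 0 → ∀ S : Finset α,
      (S ∩ X).card ≤ (S \ X).card + l S ∧ (S \ X).card ≤ (S ∩ X).card + l S)
    (T : Finset α → Prop)
    (hT : ∀ S, T S → (∀ X : Finset α, X.card = n → g X ≠ 0 → (S ∩ X).card < q) ∨
      ∃ S₁ S₂, T S₁ ∧ T S₂ ∧ Disjoint S₁ S₂ ∧ S₁ ∪ S₂ = S ∧ S₁.Nonempty ∧ S₂.Nonempty ∧
        l S + l S₁ + l S₂ < 2 * q) (S : Finset α) :
    T S → ∀ Y, ins n g Y S ≠ 0 → n < Y.card + q ∧ S.card ≤ 2 * (S ∩ Y).card + l S := by
  induction S using Finset.strongInduction with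
  | H S ih =>
  intro hS Y hY
  obtain ⟨X, h1, h2, h3, h4⟩ := ins_state hY
  have h5 : (S ∩ X).card + Y.card = (S ∩ Y).card + n := by
    have e1 : S ∩ X = (S ∩ Y) ∪ (X \ Y) := by
      ext z
      have g1 := @h2 z
      have g2 := @h3 z
      simp only [mem_inter, mem_sdiff, mem_union] at g2 ⊢
      tauto
    have e2 := card_sdiff_add_card_eq_card h2
    rw [e1, card_union_of_disjoint (disjoint_left.2 fun z e3 e4 =>
      (mem_sdiff.1 e4).2 (mem_inter.1 e3).2)]
    omega
  have h6 : n < Y.card + q := by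
    rcases hT S hS with e | ⟨S₁, S₂, e1, e2, e3, rfl, e4, e5, e6⟩
    · have := e X h1 h4
      omega
    obtain ⟨U, g1, g2⟩ := ins_split e3 hY
    obtain ⟨U', g3, g4⟩ := ins_split e3.symm (union_comm S₁ S₂ ▸ hY)
    have hss : ∀ A C : Finset α, Disjoint A C → C.Nonempty → A ⊂ A ∪ C := fun A C k1 ⟨z, hz⟩ =>
      ⟨subset_union_left, fun k2 => disjoint_left.1 k1 (k2 (mem_union_right _ hz)) hz⟩
    have g5 := (ih S₁ (hss _ _ e3 e5) e1 _ g2).2
    have g6 := (ih S₂ (union_comm S₁ S₂ ▸ hss _ _ e3.symm e4) e2 _ g4).2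
    rw [inter_union_distrib_left, disjoint_iff_inter_eq_empty.1 (e3.mono_right g1), union_empty]
      at g5
    rw [inter_union_distrib_left, disjoint_iff_inter_eq_empty.1 (e3.symm.mono_right g3),
      union_empty] at g6
    have g7 := (hl X h1 h4 (S₁ ∪ S₂)).1
    have g8 := card_sdiff_add_card_inter (S₁ ∪ S₂) X
    rw [card_union_of_disjoint e3] at g8
    rw [union_inter_distrib_right (u := Y), card_union_of_disjoint
      (e3.mono inter_subset_left inter_subset_left)] at h5
    omega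
  refine ⟨h6, ?_⟩
  obtain ⟨X', g1, g2, g3⟩ : ∃ X' : Finset α, X'.card = n ∧ g X' ≠ 0 ∧ S ∩ X' = S ∩ Y := by
    rcases (h1 ▸ card_le_card h2 : Y.card ≤ n).lt_or_eq with e | e
    · have e1 := incl_excl n g Y Sᶜ e fun Z _ e2 e3 => hg Z e3 (by omega)
      rw [hg Y e h6, zero_add] at e1
      obtain ⟨X', k1, k2, k3, k4⟩ := ins_state (n := n) (g := g) (Y := Y) (S := Sᶜ) fun k => hY (by
        rw [ins] at k
        rw [k, mul_zero] at e1
        rw [← e1, ins]
        refine sum_congr (filter_congr fun X _ => ?_) fun _ _ => rfl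
        rw [disjoint_compl_right_iff])
      refine ⟨X', k1, k4, ?_⟩
      ext z
      have k5 := @k2 z
      have k6 := @k3 z
      simp only [mem_inter, mem_sdiff, mem_compl] at k6 ⊢
      tauto
    · exact ⟨X, h1, h4, by rw [eq_of_subset_of_card_le h2 (by omega)]⟩
  have g4 := (hl X' g1 g2 S).2
  have g5 := card_sdiff_add_card_inter S X'
  rw [g3] at g4 g5
  omega

lemma branch_upz (n q : ℕ) (g : Finset α → K) (hg : UpZ n q g) (l : Finset α → ℕ)
    (hl : ∀ X : Finset α, X.card = n → g X ≠ 0 → ∀ S : Finset α,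
      (S ∩ X).card ≤ (S \ X).card + l S ∧ (S \ X).card ≤ (S ∩ X).card + l S)
    (T : Finset α → Prop) (hU : T univ)
    (hT : ∀ S, T S → (∀ X : Finset α, X.card = n → g X ≠ 0 → (S ∩ X).card < q) ∨
      ∃ S₁ S₂, T S₁ ∧ T S₂ ∧ Disjoint S₁ S₂ ∧ S₁ ∪ S₂ = S ∧ S₁.Nonempty ∧ S₂.Nonempty ∧
        l S + l S₁ + l S₂ < 2 * q) : UpZ n (n + 1) g := by
  intro Z h1 _
  by_contra h2
  refine h2 (hg Z h1 (branch_core n q g hg l hl T hT univ hU Z fun h3 => h2 ?_).1)
  rw [← h3, ins, up]
  exact sum_congr (filter_congr fun X _ => by simp) fun _ _ => rfl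

omit [Fintype α] in
lemma card_inter_le {V : Type*} [AddCommGroup V] [Module K V] (v : α → V) {X : Finset α}
    (hX : LinearIndepOn K v (X : Set α)) (S : Finset α) :
    (S ∩ X).card ≤ Module.finrank K (span K (v '' (S : Set α))) := by
  have h1 : LinearIndepOn K v ((S ∩ X : Finset α) : Set α) := hX.mono (by simp)
  have h2 := finrank_span_eq_card h1
  have _j : Module.Finite K (span K (v '' (S : Set α))) :=
    Module.Finite.span_of_finite K (Set.toFinite _)
  rw [← Set.image_eq_range] at h2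
  rw [← Fintype.card_coe]
  refine h2.ge.trans ?_
  exact Submodule.finrank_mono (span_mono (Set.image_mono (by simp)))

lemma bal_of {V : Type*} [AddCommGroup V] [Module K V] (v : α → V) {X : Finset α} {n : ℕ}
    (h1 : LinearIndepOn K v (X : Set α)) (h2 : LinearIndepOn K v ((Xᶜ : Finset α) : Set α))
    (h3 : Xᶜ.card = n) (S : Finset α) :
    (S ∩ X).card + n ≤ (S \ X).card + (Module.finrank K (span K (v '' (S : Set α))) +
      Module.finrank K (span K (v '' (S : Set α)ᶜ))) := by
  have e1 := card_inter_le v h1 S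
  have e2 := card_inter_le v h2 Sᶜ
  have e3 := card_sdiff_add_card_inter Xᶜ S
  rw [coe_compl] at e2
  rw [sdiff_eq_inter_compl, inter_comm _ Sᶜ, inter_comm _ S, ← sdiff_eq_inter_compl S] at e3
  omega

/-- The labelling argument with the final identity left as a hypothesis. -/
theorem closed_compl_of {W : Type*} [AddCommGroup W] [Module K W] [Module.Finite K W]
    (v : α → W) (B : Finset α)
    (hdim : Module.finrank K W = B.card) (hBc : Bᶜ.card = B.card)
    (h1 : LinearIndepOn K v (B : Set α)) (h2 : LinearIndepOn K v ((Bᶜ : Finset α) : Set α))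
    (H : ∀ g : Finset α → K, (∀ q, ringChar K = 0 ∨ q = ringChar K ^ 2 →
      UpZ B.card q g ∧ UpZ B.card q (cp univ g)) → (∀ X : Finset α, X.card = B.card → g X ≠ 0 →
        LinearIndepOn K v (X : Set α) ∧ LinearIndepOn K v ((Xᶜ : Finset α) : Set α)) →
      g B = (-1) ^ B.card * g (univ \ B))
    (P : Finset α → Prop) (hPB : P B)
    (hP : ∀ X Y : Finset α, X.card = B.card → LinearIndepOn K v (X : Set α) →
      LinearIndepOn K v ((Xᶜ : Finset α) : Set α) → Y.card = B.card →
      LinearIndepOn K v (Y : Set α) → LinearIndepOn K v ((Yᶜ : Finset α) : Set α) →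
      (∃ x ∈ X, ∃ y, y ∉ X ∧ Y = insert y (X.erase x)) → P X → P Y) :
    P Bᶜ := by
  have hcard := Finset.card_add_card_compl B
  let e := (Module.finBasisOfFinrankEq K W hdim).equivFun
  let a : α → Fin B.card → K := fun y => e (v y)
  have ha : ∀ I : Set α, LinearIndepOn K a I ↔ LinearIndepOn K v I := fun I =>
    e.toLinearMap.linearIndependent_iff (v := fun x : I => v x) e.ker
  have hsp : ∀ X : Finset α, X.card = B.card → LinearIndepOn K v (X : Set α) →
      span K (a '' X) = ⊤ := by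
    intro X g1 g2
    rw [Set.image_eq_range]
    exact LinearIndependent.span_eq_top_of_card_eq_finrank' ((ha _).2 g2) (by simpa using g1)
  obtain ⟨b₁, hb₁⟩ := exists_dual a B (hsp B rfl h1)
  obtain ⟨b₂, hb₂⟩ := exists_dual a Bᶜ (hsp Bᶜ hBc h2)
  let b : α → Fin B.card → K := fun y => if y ∈ B then b₁ y else -b₂ y
  have e1 : MM a b B = 1 := by
    rw [← hb₁]
    exact sum_congr rfl fun y hy => by simp only [b, if_pos hy]
  have e2 : MM a b Bᶜ = -1 := by
    rw [← hb₂, MM, MM, ← sum_neg_distrib]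
    exact sum_congr rfl fun y hy => by simp only [b, if_neg (mem_compl.1 hy), vecMulVec_neg]
  have hs : MM a b univ = 0 := by
    rw [MM, ← sum_add_sum_compl B]
    change MM a b B + MM a b Bᶜ = 0
    rw [e1, e2, add_neg_cancel]
  have hne : ∀ X : Finset α, (MM a b X).det ≠ 0 → (MM a b Xᶜ).det ≠ 0 := fun X g => by
    rw [det_compl hs]
    exact mul_ne_zero (pow_ne_zero _ (neg_ne_zero.2 one_ne_zero)) g
  have hcc : ∀ X : Finset α, X.card = B.card → Xᶜ.card = B.card := fun X g => by
    rw [card_compl]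
    omega
  have hli : ∀ X : Finset α, X.card = B.card → (MM a b X).det ≠ 0 →
      LinearIndepOn K v (X : Set α) := fun X g1 g2 =>
    (ha _).1 (state_left a b X (by simpa using g1) g2).1
  have hstep : ∀ X Y : Finset α, X.card = B.card → Y.card = B.card → (MM a b X).det ≠ 0 →
      (MM a b Y).det ≠ 0 → (∃ x ∈ X, ∃ y, y ∉ X ∧ Y = insert y (X.erase x)) → P X → P Y := by
    intro X Y g1 g2 g3 g4
    exact hP X Y g1 (hli X g1 g3) (hli _ (hcc X g1) (hne X g3)) g2 (hli Y g2 g4)
      (hli _ (hcc Y g2) (hne Y g4))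
  have c1 : Closed a b P := by
    intro F y z hy hz hF hwy hwz hp
    rw [Fintype.card_fin] at hF
    by_cases hyz : z = y
    · rwa [hyz]
    · refine hstep _ _ (by rw [card_insert_of_notMem hy, hF]) (by rw [card_insert_of_notMem hz, hF])
        hwy hwz ⟨y, mem_insert_self _ _, z, ?_, ?_⟩ hp
      · simp [hyz, hz]
      · rw [erase_insert hy]
  have c2 : Closed a b fun X => P Xᶜ := by
    intro F y z hy hz hF hwy hwz hp
    rw [Fintype.card_fin] at hF
    by_cases hyz : z = y
    · rwa [hyz]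
    · refine hstep _ _ (hcc _ (by rw [card_insert_of_notMem hy, hF]))
        (hcc _ (by rw [card_insert_of_notMem hz, hF])) (hne _ hwy) (hne _ hwz) ⟨z, ?_, y, ?_, ?_⟩ hp
      · simp [hyz, hz]
      · simp
      · ext u
        simp only [mem_compl, mem_insert, mem_erase]
        by_cases he : u = y
        · subst he
          simp [hy, Ne.symm hyz]
        · tauto
  have hu : ∀ Q, Closed a b Q → ∀ q, ringChar K = 0 ∨ q = ringChar K ^ 2 →
      UpZ B.card q (fw a b Q) := fun Q hQ q hq Z g1 g2 => by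
    have := up_all hs hQ (B.card - Z.card) Z (by omega) (hq.imp_right fun g => by omega)
      (by rw [Fintype.card_fin]; omega)
    rwa [Fintype.card_fin] at this
  have h3 := H (fw a b P) (fun q hq => ⟨hu P c1 q hq, fun Z g1 g2 => by
    rw [← mul_zero ((-1 : K) ^ Fintype.card (Fin B.card)), ← hu _ c2 q hq Z g1 g2, up, up, mul_sum]
    refine sum_congr rfl fun X _ => ?_
    rw [cp, if_pos (subset_univ _), ← compl_eq_univ_sdiff]
    simp only [fw, det_compl hs, mul_ite, mul_zero]⟩) fun X g1 g2 => by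
      have g3 : (MM a b X).det ≠ 0 := fun g => g2 (by rw [fw, g, ite_self])
      exact ⟨hli X g1 g3, hli _ (hcc X g1) (hne X g3)⟩
  by_contra hn
  rw [← compl_eq_univ_sdiff, fw, fw, if_pos hPB, if_neg hn, e1, det_one, mul_zero] at h3
  exact one_ne_zero h3

/-- The matroid wrapper. -/
theorem reach_of {V : Type*} [AddCommGroup V] [Module K V] (M : Matroid α) (v : α → V)
    (hv : ∀ I : Set α, LinearIndepOn K v I → M.Indep I) (B : Finset α)
    (hB : M.IsBase (B : Set α)) (hBc : M.IsBase ((Bᶜ : Finset α) : Set α))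
    (hvB : LinearIndepOn K v (B : Set α)) (hvBc : LinearIndepOn K v ((Bᶜ : Finset α) : Set α))
    (H : Fintype.card α = 2 * B.card → ∀ g : Finset α → K,
      (∀ q, ringChar K = 0 ∨ q = ringChar K ^ 2 → UpZ B.card q g ∧ UpZ B.card q (cp univ g)) →
      (∀ X : Finset α, X.card = B.card → g X ≠ 0 →
        LinearIndepOn K v (X : Set α) ∧ LinearIndepOn K v ((Xᶜ : Finset α) : Set α)) →
      g B = (-1) ^ B.card * g (univ \ B)) :
    Relation.ReflTransGen
      (fun X Y : Set α =>
        M.IsBase X ∧ M.IsBase Xᶜ ∧ M.IsBase Y ∧ M.IsBase Yᶜ ∧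
          ∃ x ∈ X, ∃ y, y ∉ X ∧ Y = insert y (X \ {x}))
      (B : Set α) ((Bᶜ : Finset α) : Set α) := by
  have hcc : Bᶜ.card = B.card := by
    have := hBc.ncard_eq_ncard_of_isBase hB
    rwa [Set.ncard_coe_finset, Set.ncard_coe_finset] at this
  have hcard : Fintype.card α = 2 * B.card := by
    have := Finset.card_add_card_compl B
    omega
  have hbase : ∀ X : Finset α, X.card = B.card → LinearIndepOn K v (X : Set α) →
      M.IsBase (X : Set α) := by
    intro X hX hi
    obtain ⟨Y, hY, hXY⟩ := (hv _ hi).exists_isBase_superset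
    have h1 := hY.ncard_eq_ncard_of_isBase hB
    rw [Set.ncard_coe_finset] at h1
    have h2 : (X : Set α) = Y := Set.eq_of_subset_of_ncard_le hXY
      (by rw [Set.ncard_coe_finset]; omega)
    rw [h2]; exact hY
  let W : Submodule K V := Submodule.span K (v '' (B : Set α))
  have hmem : ∀ e, v e ∈ W := by
    intro e
    by_contra hn
    have he : e ∉ (B : Set α) := fun h => hn (Submodule.subset_span ⟨e, h, rfl⟩)
    have hi : LinearIndepOn K v (insert e (B : Set α)) := hvB.insert hn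
    have := hB.eq_of_subset_indep (hv _ hi) (Set.subset_insert _ _)
    exact he (this ▸ Set.mem_insert _ _)
  let u : α → W := fun e => ⟨v e, hmem e⟩
  have hu : ∀ I : Set α, LinearIndepOn K u I ↔ LinearIndepOn K v I := by
    intro I
    exact (W.subtype.linearIndependent_iff (v := fun x : I => u x) W.ker_subtype).symm
  have _j : Module.Finite K W := Module.Finite.span_of_finite K (Set.toFinite _)
  have hdim : Module.finrank K W = B.card := by
    have h1 : W = Submodule.span K (Set.range (fun x : (B : Set α) => v x)) := by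
      rw [← Set.image_eq_range]
    rw [h1, finrank_span_eq_card hvB]
    simp
  refine closed_compl_of u B hdim hcc ((hu _).2 hvB) ((hu _).2 hvBc)
    (fun g g1 g2 => H hcard g g1 fun X g3 g4 => (g2 X g3 g4).imp (hu _).1 (hu _).1)
    (fun X : Finset α => Relation.ReflTransGen
      (fun X Y : Set α =>
        M.IsBase X ∧ M.IsBase Xᶜ ∧ M.IsBase Y ∧ M.IsBase Yᶜ ∧
          ∃ x ∈ X, ∃ y, y ∉ X ∧ Y = insert y (X \ {x})) (B : Set α) (X : Set α))
    Relation.ReflTransGen.refl ?_
  intro X Y hX hX1 hX2 hY hY1 hY2 hxy hp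
  have cX : Xᶜ.card = B.card := by rw [Finset.card_compl]; omega
  have cY : Yᶜ.card = B.card := by rw [Finset.card_compl]; omega
  refine hp.tail ⟨hbase X hX ((hu _).1 hX1), ?_, hbase Y hY ((hu _).1 hY1), ?_, ?_⟩
  · rw [← Finset.coe_compl]; exact hbase _ cX ((hu _).1 hX2)
  · rw [← Finset.coe_compl]; exact hbase _ cY ((hu _).1 hY2)
  · obtain ⟨x, hx, y, hy, rfl⟩ := hxy
    exact ⟨x, hx, y, hy, by simp⟩

end Pool.Agent.Lib.MP_b1ff30_co
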