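import Pool.Agent.Lib.MP_b1ff30_co.Sq5

set_option autoImplicit false

namespace Pool.Agent.Lib.MP_b1ff30_co

open Finset Matrix Submodule
open scoped Classical

variable {α ι K : Type*} [Fintype α] [DecidableEq α] [Fintype ι] [DecidableEq ι] [Field K]
variable {a b : α → ι → K} {P : Finset α → Prop}

lemma up_all (hs : MM a b univ = 0) (hP : Closed a b P) (j : ℕ) :
    ∀ Z : Finset α, 0 < j → (ringChar K = 0 ∨ j < ringChar K ^ 2) →
      Z.card + j = Fintype.card ι → up (Fintype.card ι) (fw a b P) Z = 0 := by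
  induction j using Nat.strong_induction_on with
  | _ j ih =>
  intro Z h0 h1 h2
  by_cases h3 : ringChar K = 0 ∨ j ≤ ringChar K
  · refine up_link hs hP Z (by omega) fun i g1 g2 g3 => ?_
    have g4 := (ringChar.spec K i).1 g3
    rcases h3 with h3 | h3
    · rw [h3, zero_dvd_iff] at g4
      omega
    · have := Nat.le_of_dvd g1 g4
      omega
  push Not at h3
  have h4 := h1.resolve_left h3.1
  have : Fact (ringChar K).Prime := ⟨(CharP.char_is_prime_or_zero K _).resolve_right h3.1⟩
  have h5 : 2 ≤ ringChar K := (Fact.out : (ringChar K).Prime).two_le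
  by_cases h6 : ringChar K ∣ j
  · refine up_zero_of _ (ringChar K) _ Z (fun g => ?_) fun Y _ e2 =>
      ih (j - ringChar K) (by omega) Y (by omega) (Or.inr (by omega)) (by omega)
    obtain ⟨t, rfl⟩ := h6
    rw [show Fintype.card ι - Z.card = ringChar K * t by omega, ringChar.spec] at g
    have g1 := Choose.choose_mul_mul_modEq_choose_nat (p := ringChar K) (a := t) (b := 1)
    rw [mul_one, Nat.choose_one_right] at g1
    have g2 := (g1.dvd_iff dvd_rfl).1 g
    have g3 := Nat.le_of_dvd (Nat.pos_of_mul_pos_left h0) g2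
    nlinarith
  · refine up_zero_of _ 1 _ Z (fun g => h6 ?_) fun Y _ e2 =>
      ih (j - 1) (by omega) Y (by omega) (Or.inr (by omega)) (by omega)
    rwa [show Fintype.card ι - Z.card = j by omega, Nat.choose_one_right, ringChar.spec] at g

lemma sig_up (n : ℕ) (g : Finset α → K) (C T : Finset α) (hC : C.card = n) (hT : T ⊆ C)
    (h : ∀ Z : Finset α, T ⊆ Z → Z.card < n → up n g Z = 0) :
    ∑ X ∈ (univ : Finset (Finset α)).filter (fun X => X.card = n ∧ X ∩ C = T), g X =
      (-1) ^ (n - T.card) * g C := by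
  have h1 : ∀ X : Finset α, X.card = n → X ⊆ C → X = C := fun X e1 e2 =>
    eq_of_subset_of_card_le e2 (by omega)
  rcases (hC ▸ card_le_card hT : T.card ≤ n).lt_or_eq with h2 | h2
  · have h3 := incl_excl n g T C h2 fun Z e1 _ e3 => h Z e1 e3
    rw [h T subset_rfl h2, zero_add, sum_eq_single (s := (univ : Finset (Finset α)).filter
      (fun X => (X.card = n ∧ T ⊆ X) ∧ X \ T ⊆ C)) C] at h3
    · rw [← h3]
      refine sum_congr (filter_congr fun X _ => ?_) fun _ _ => rfl
      rw [and_assoc]
      refine and_congr_right fun _ => ⟨fun e => ?_, fun e => ?_⟩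
      · rw [← e]
        exact ⟨inter_subset_left, by rw [sdiff_inter_self_left]; exact sdiff_disjoint⟩
      · refine Subset.antisymm (fun z hz => ?_) (subset_inter e.1 hT)
        by_contra e1
        exact disjoint_left.1 e.2 (mem_sdiff.2 ⟨(mem_inter.1 hz).1, e1⟩) (mem_inter.1 hz).2
    · intro X hX hne
      simp only [mem_filter, mem_univ, true_and] at hX
      refine absurd (h1 X hX.1.1 fun z hz => ?_) hne
      by_cases e : z ∈ T
      · exact hT e
      · exact hX.2 (mem_sdiff.2 ⟨hz, e⟩)
    · intro e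
      exact absurd (by simp [hC, hT]) e
  · rw [h1 T h2 hT, hC, Nat.sub_self, pow_zero, one_mul, sum_eq_single C]
    · intro X hX hne
      simp only [mem_filter, mem_univ, true_and, inter_eq_right] at hX
      exact absurd (eq_of_subset_of_card_le hX.2 (by omega)).symm hne
    · intro e
      exact absurd (by simp [hC]) e

omit [Fintype α] [DecidableEq α] [Fintype ι] in
lemma exists_dual (a : α → ι → K) (N : Finset α) (h : span K (a '' N) = ⊤) :
    ∃ b : α → ι → K, MM a b N = 1 := by
  choose c hc using fun j : ι =>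
    (mem_span_image_finset_iff_exists_fun' K).1 (h.ge mem_top : Pi.single j (1 : K) ∈ _)
  refine ⟨fun y j => c j y, ?_⟩
  ext i j
  have h1 := congrFun (hc j) i
  simp only [Finset.sum_apply, Pi.smul_apply, smul_eq_mul] at h1
  simp only [MM, Matrix.sum_apply, vecMulVec_apply, mul_comm (a _ i), h1, Pi.single_apply,
    Matrix.one_apply]

lemma det_compl (hs : MM a b univ = 0) (X : Finset α) :
    (MM a b Xᶜ).det = (-1) ^ Fintype.card ι * (MM a b X).det := by
  rw [← det_neg]
  congr 1
  rw [eq_neg_iff_add_eq_zero, add_comm, ← hs]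
  exact sum_add_sum_compl X _

lemma compl_of_closed (hs : MM a b univ = 0) (hP : Closed a b P)
    (hP' : Closed a b fun X => P Xᶜ) (B : Finset α) (hB : B.card = Fintype.card ι)
    (hBc : Bᶜ.card = Fintype.card ι)
    (hchar : ringChar K = 0 ∨ Fintype.card ι + 2 ≤ 2 * ringChar K ^ 2)
    (h0 : (MM a b Bᶜ).det ≠ 0) (hPB : P B) : P Bᶜ := by
  obtain ⟨T, hT, hTc⟩ := Finset.exists_subset_card_eq (s := Bᶜ) (n := Fintype.card ι / 2)
    (by omega)
  have hT' := card_sdiff_of_subset hT
  have e1 := sig_up _ (fw a b P) Bᶜ T hBc hT fun Z g1 g2 =>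
    up_all hs hP (Fintype.card ι - Z.card) Z (by omega)
      (hchar.imp_right fun g => by have := card_le_card g1; omega) (by omega)
  have e2 := sig_up _ (fw a b fun X => P Xᶜ) Bᶜ (Bᶜ \ T) hBc sdiff_subset fun Z g1 g2 =>
    up_all hs hP' (Fintype.card ι - Z.card) Z (by omega)
      (hchar.imp_right fun g => by have := card_le_card g1; omega) (by omega)
  have hcard := Finset.card_add_card_compl B
  by_contra hn
  rw [fw, if_neg hn, mul_zero] at e1
  rw [fw, compl_compl, if_pos hPB] at e2
  refine mul_ne_zero (pow_ne_zero _ (neg_ne_zero.2 one_ne_zero)) h0 (e2.symm.trans ?_)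
  rw [← mul_zero ((-1 : K) ^ Fintype.card ι), ← e1, mul_sum]
  symm
  refine Finset.sum_nbij' (fun X => Xᶜ) (fun X => Xᶜ) ?_ ?_ ?_ ?_ ?_
  · intro X hX
    simp only [mem_filter, mem_univ, true_and] at hX ⊢
    refine ⟨by rw [card_compl]; omega, ?_⟩
    rw [← hX.2]
    ext z
    simp only [mem_inter, mem_compl, mem_sdiff]
    tauto
  · intro X hX
    simp only [mem_filter, mem_univ, true_and] at hX ⊢
    refine ⟨by rw [card_compl]; omega, ?_⟩
    ext z
    have h1 : z ∈ X ∩ Bᶜ ↔ z ∈ Bᶜ \ T := by rw [hX.2]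
    have h2 : z ∈ T → z ∈ Bᶜ := fun hz => hT hz
    simp only [mem_inter, mem_compl, mem_sdiff] at h1 h2 ⊢
    tauto
  · exact fun X _ => compl_compl X
  · exact fun X _ => compl_compl X
  · intro X _
    simp only [fw, compl_compl, det_compl hs, mul_ite, mul_zero]

/-- A class of finsets containing `B` and closed under exchanges between complementary
independent pairs contains `Bᶜ`, up to rank `2 p ^ 2 - 2` in characteristic `p`. -/
theorem closed_compl_sq {W : Type*} [AddCommGroup W] [Module K W] [Module.Finite K W]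
    (v : α → W) (B : Finset α)
    (hdim : Module.finrank K W = B.card) (hBc : Bᶜ.card = B.card)
    (hchar : ringChar K = 0 ∨ B.card + 2 ≤ 2 * ringChar K ^ 2)
    (h1 : LinearIndepOn K v (B : Set α)) (h2 : LinearIndepOn K v ((Bᶜ : Finset α) : Set α))
    (P : Finset α → Prop) (hPB : P B)
    (hP : ∀ X Y : Finset α, X.card = B.card → LinearIndepOn K v (X : Set α) →
      LinearIndepOn K v ((Xᶜ : Finset α) : Set α) → Y.card = B.card →
      LinearIndepOn K v (Y : Set α) → LinearIndepOn K v ((Yᶜ : Finset α) : Set α) →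
      (∃ x ∈ X, ∃ y, y ∉ X ∧ Y = insert y (X.erase x)) → P X → P Y) :
    P Bᶜ := by
  have hcard := Finset.card_add_card_compl B
  let e := (Module.finBasisOfFinrankEq K W hdim).equivFun
  let a : α → Fin B.card → K := fun y => e (v y)
  have ha : ∀ I : Set α, LinearIndepOn K a I ↔ LinearIndepOn K v I := fun I =>
    e.toLinearMap.linearIndependent_iff (v := fun x : I => v x) e.ker
  have hsp : ∀ X : Finset α, X.card = B.card → LinearIndepOn K v (X : Set α) →
      span K (a '' X) = ⊤ := by
    intro X g1 g2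
    rw [Set.image_eq_range]
    exact LinearIndependent.span_eq_top_of_card_eq_finrank' ((ha _).2 g2) (by simpa using g1)
  obtain ⟨b₁, hb₁⟩ := exists_dual a B (hsp B rfl h1)
  obtain ⟨b₂, hb₂⟩ := exists_dual a Bᶜ (hsp Bᶜ hBc h2)
  let b : α → Fin B.card → K := fun y => if y ∈ B then b₁ y else -b₂ y
  have e1 : MM a b B = 1 := by
    rw [← hb₁]
    exact sum_congr rfl fun y hy => by simp only [b, if_pos hy]
  have e2 : MM a b Bᶜ = -1 := by
    rw [← hb₂, MM, MM, ← sum_neg_distrib]
    exact sum_congr rfl fun y hy => by simp only [b, if_neg (mem_compl.1 hy), vecMulVec_neg]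
  have hs : MM a b univ = 0 := by
    rw [MM, ← sum_add_sum_compl B]
    change MM a b B + MM a b Bᶜ = 0
    rw [e1, e2, add_neg_cancel]
  have hne : ∀ X : Finset α, (MM a b X).det ≠ 0 → (MM a b Xᶜ).det ≠ 0 := fun X g => by
    rw [det_compl hs]
    exact mul_ne_zero (pow_ne_zero _ (neg_ne_zero.2 one_ne_zero)) g
  have hcc : ∀ X : Finset α, X.card = B.card → Xᶜ.card = B.card := fun X g => by
    rw [card_compl]
    omega
  have hstep : ∀ X Y : Finset α, X.card = B.card → Y.card = B.card → (MM a b X).det ≠ 0 →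
      (MM a b Y).det ≠ 0 → (∃ x ∈ X, ∃ y, y ∉ X ∧ Y = insert y (X.erase x)) → P X → P Y := by
    have g : ∀ X : Finset α, X.card = B.card → (MM a b X).det ≠ 0 →
        LinearIndepOn K v (X : Set α) := fun X g1 g2 =>
      (ha _).1 (state_left a b X (by simpa using g1) g2).1
    intro X Y g1 g2 g3 g4
    exact hP X Y g1 (g X g1 g3) (g _ (hcc X g1) (hne X g3)) g2 (g Y g2 g4)
      (g _ (hcc Y g2) (hne Y g4))
  refine compl_of_closed (a := a) (b := b) hs ?_ ?_ B (by simp) (by simpa using hBc)
    (by simpa using hchar) (hne B (by rw [e1, det_one]; exact one_ne_zero)) hPB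
  · intro F y z hy hz hF hwy hwz hp
    rw [Fintype.card_fin] at hF
    by_cases hyz : z = y
    · rwa [hyz]
    · refine hstep _ _ (by rw [card_insert_of_notMem hy, hF]) (by rw [card_insert_of_notMem hz, hF])
        hwy hwz ⟨y, mem_insert_self _ _, z, ?_, ?_⟩ hp
      · simp [hyz, hz]
      · rw [erase_insert hy]
  · intro F y z hy hz hF hwy hwz hp
    rw [Fintype.card_fin] at hF
    by_cases hyz : z = y
    · rwa [hyz]
    · refine hstep _ _ (hcc _ (by rw [card_insert_of_notMem hy, hF]))
        (hcc _ (by rw [card_insert_of_notMem hz, hF])) (hne _ hwy) (hne _ hwz) ⟨z, ?_, y, ?_, ?_⟩ hp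
      · simp [hyz, hz]
      · simp
      · ext u
        simp only [mem_compl, mem_insert, mem_erase]
        by_cases he : u = y
        · subst he
          simp [hy, Ne.symm hyz]
        · tauto

end Pool.Agent.Lib.MP_b1ff30_co
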