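import Mathlib

set_option autoImplicit false

namespace Pool.Agent.Lib.MP_b1ff30_co.Rup

/-- Two independence systems with local augmentation and a colour, on bit masks. -/
structure Sys (W : ℕ → ℕ → Prop) : Prop where
  mono : ∀ k m x, k < 2 → m.testBit x = false → W k (m ||| 2 ^ x) → W k m
  aug : ∀ k m z x y, k < 2 → m.testBit z = false → m.testBit x = false → m.testBit y = false →
    z ≠ x → z ≠ y → x ≠ y → W k (m ||| 2 ^ z) → W k (m ||| 2 ^ y ||| 2 ^ x) →
    W k (m ||| 2 ^ z ||| 2 ^ x) ∨ W k (m ||| 2 ^ z ||| 2 ^ y)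
  col : ∀ m u v, m.testBit u = false → m.testBit v = false → W 0 (m ||| 2 ^ u) →
    W 1 (m ||| 2 ^ u) → W 0 (m ||| 2 ^ v) → W 1 (m ||| 2 ^ v) → W 2 (m ||| 2 ^ u) →
    W 2 (m ||| 2 ^ v)

/-- Truth of a literal. -/
def Hd (W : ℕ → ℕ → Prop) (l : ℕ) : Prop :=
  if l % 2 = 0 then W (l / 2 % 4) (l / 8) else ¬ W (l / 2 % 4) (l / 8)

/-- Positive literal. -/
def ps (k m : ℕ) : ℕ := Nat.add (Nat.mul 8 m) (Nat.mul 2 k)

/-- Negative literal. -/
def ng (k m : ℕ) : ℕ := Nat.succ (Nat.add (Nat.mul 8 m) (Nat.mul 2 k))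

/-- The opposite literal. -/
def op (l : ℕ) : ℕ := bif Nat.beq (Nat.mod l 2) 0 then Nat.succ l else Nat.pred l

lemma op_eq (l : ℕ) : op l = bif Nat.beq (l % 2) 0 then l + 1 else l - 1 := rfl

variable {W : ℕ → ℕ → Prop}

lemma hd_ps {k m : ℕ} (hk : k < 4) : Hd W (ps k m) ↔ W k m := by
  rw [Hd, show ps k m = 8 * m + 2 * k from rfl, if_pos (by omega), show (8 * m + 2 * k) / 2 % 4 = k by omega,
    show (8 * m + 2 * k) / 8 = m by omega]

lemma hd_ng {k m : ℕ} (hk : k < 4) : Hd W (ng k m) ↔ ¬ W k m := by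
  rw [Hd, show ng k m = 8 * m + 2 * k + 1 from rfl, if_neg (by omega), show (8 * m + 2 * k + 1) / 2 % 4 = k by omega,
    show (8 * m + 2 * k + 1) / 8 = m by omega]

lemma hd_op {l : ℕ} (h : Hd W l) : ¬ Hd W (op l) := by
  by_cases e : l % 2 = 0
  · rw [op_eq, e, Nat.beq_refl, cond_true, Hd, if_neg (by omega),
      show (l + 1) / 2 % 4 = l / 2 % 4 by omega, show (l + 1) / 8 = l / 8 by omega]
    rw [Hd, if_pos e] at h
    exact not_not.2 h
  · rw [op_eq, show l % 2 = 1 by omega, show Nat.beq 1 0 = false from rfl, cond_false, Hd,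
      if_pos (by omega), show (l - 1) / 2 % 4 = l / 2 % 4 by omega,
      show (l - 1) / 8 = l / 8 by omega]
    rwa [Hd, if_neg e] at h

/-- Evaluate a number before passing it on. -/
noncomputable def fo {β : Type} (n : ℕ) (k : ℕ → β) : β :=
  Nat.rec (k 0) (fun m _ => k (Nat.succ m)) n

lemma fo_eq {β : Type} (n : ℕ) (k : ℕ → β) : fo n k = k n := by
  cases n <;> rfl

/-- Digits. -/
noncomputable def dec (b f : ℕ) : ℕ → List ℕ :=
  Nat.rec (fun _ => []) (fun _ ih c => Bool.rec
    (fo (Nat.mod c b) fun x => fo (Nat.div c b) fun d => x :: ih d) [] (Nat.beq c 0)) f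

/-- A table of lemmas: clause code and hint code. -/
inductive Tr
  | leaf : Tr
  | node : Tr → ℕ → ℕ → Tr → Tr

/-- Lookup. -/
noncomputable def Tr.get (T : Tr) : ℕ → ℕ × ℕ :=
  Tr.rec (fun _ => (0, 0)) (fun _ c h _ l r k => Bool.rec
    (Bool.rec (fo (Nat.div k 2).pred r) (fo (Nat.div k 2) l) (Nat.beq (Nat.mod k 2) 1))
    (c, h) (Nat.beq k 0)) T

/-- The clause of a lemma. -/
noncomputable def cls (T : Tr) (i : ℕ) : List ℕ := dec 4194304 100 (T.get i).1

/-- Membership. -/
noncomputable def mem (l : ℕ) (F : List ℕ) : Bool :=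
  List.rec false (fun x _ ih => Bool.rec ih true (Nat.beq x l)) F

/-- The literals not known to be false. -/
noncomputable def live (F C : List ℕ) : List ℕ :=
  List.rec [] (fun x _ ih => fo x fun y => Bool.rec (y :: ih) ih (mem y F)) C

/-- A unit assumption `(kind, sign, i, j, k, l)`. -/
def unit (u : ℕ × Bool × ℕ × ℕ × ℕ × ℕ) : ℕ :=
  bif u.2.1 then ps u.1 (2 ^ u.2.2.1 ||| 2 ^ u.2.2.2.1 ||| 2 ^ u.2.2.2.2.1 ||| 2 ^ u.2.2.2.2.2)
  else ng u.1 (2 ^ u.2.2.1 ||| 2 ^ u.2.2.2.1 ||| 2 ^ u.2.2.2.2.1 ||| 2 ^ u.2.2.2.2.2)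

/-- Setting a bit. -/
def sb (m x : ℕ) : ℕ := Nat.lor m (Nat.pow 2 x)

/-- The bit is set. -/
def tb (m x : ℕ) : Bool := Nat.beq (sb m x) m

lemma sb_eq (m x : ℕ) : sb m x = m ||| 2 ^ x := rfl

lemma tb_false {m x : ℕ} (h : tb m x = false) : m.testBit x = false := by
  by_contra e
  refine Nat.ne_of_beq_eq_false h (Nat.eq_of_testBit_eq fun i => ?_)
  rw [sb_eq, Nat.testBit_or, Nat.testBit_two_pow]
  by_cases e1 : x = i
  · subst e1
    simpa using e
  · simp [e1]

/-- The clause `mono`. -/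
noncomputable def cMono (k m x : ℕ) : List ℕ :=
  Bool.rec [ng k (sb m x), ps k m] [0, 1] (tb m x)

/-- The clause `aug`. -/
noncomputable def cAug (k m z x y : ℕ) : List ℕ :=
  fo m fun m => fo z fun z => fo x fun x => fo y fun y => fo k fun k => fo (sb m z) fun n =>
  fo (sb m y) fun n' => Bool.rec [ng k n, ng k (sb n' x), ps k (sb n x), ps k (sb n y)] [0, 1]
    (Nat.beq n m || tb n y || tb n x || tb n' x)

/-- The clause `col`. -/
noncomputable def cCol (m u v : ℕ) : List ℕ :=
  fo m fun m => fo (sb m u) fun n => fo (sb m v) fun n' =>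
  Bool.rec [ng 0 n, ng 1 n, ng 0 n', ng 1 n', ng 2 n, ps 2 n'] [0, 1] (Nat.beq n m || Nat.beq n' m)

/-- A field of a hint. -/
def fld (h d m : ℕ) : ℕ := Nat.mod (Nat.div h d) m

/-- The clause described by a hint. -/
noncomputable def hint (T : Tr) (U : List ℕ) (i h : ℕ) : List ℕ :=
  fo (Nat.mod h 8) fun t => Bool.rec (Bool.rec (Bool.rec (Bool.rec
    (fo (Nat.div h 8) fun l => Bool.rec [0, 1] [l] (mem l U))
    (cMono (fld h 8 2) (Nat.div h 524288) (fld h 16 32)) (Nat.beq t 4))
    (cCol (Nat.div h 524288) (fld h 16 32) (fld h 512 32)) (Nat.beq t 3))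
    (fo (Nat.div h 8) fun j => Bool.rec [0, 1] (cls T j) (Nat.ble j.succ i)) (Nat.beq t 1))
    (cAug (fld h 8 2) (Nat.div h 524288) (fld h 16 32) (fld h 512 32) (fld h 16384 32))
    (Nat.beq t 2)

/-- Reverse unit propagation. -/
noncomputable def rup (T : Tr) (U : List ℕ) (i : ℕ) (hs : List ℕ) : List ℕ → Bool :=
  List.rec (fun _ => false) (fun h _ ih F => List.rec true
    (fun l t _ => List.rec (fo (op l) fun y => ih (y :: F)) (fun _ _ _ => false) t)
    (live F (hint T U i h))) hs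

/-- All lemmas in a range are checked. -/
noncomputable def loop (T : Tr) (U : List ℕ) (lo n : ℕ) : Bool :=
  Nat.rec true (fun j ih => fo (Nat.add lo j) fun i =>
    Bool.rec false ih (rup T U i (dec 1099511627776 100000 (T.get i).2) (cls T i))) n

lemma mem_sound {l : ℕ} {F : List ℕ} (h : mem l F = true) : l ∈ F := by
  induction F with
  | nil => exact absurd h Bool.false_ne_true
  | cons x t ih =>
    change Bool.rec (mem l t) true (Nat.beq x l) = true at h
    cases e : Nat.beq x l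
    · rw [e] at h
      exact List.mem_cons_of_mem _ (ih h)
    · rw [Nat.eq_of_beq_eq_true e]
      exact List.mem_cons_self

lemma live_sound {F C : List ℕ} {l : ℕ} (h : l ∈ C) (h1 : l ∉ F) : l ∈ live F C := by
  induction C with
  | nil => simp at h
  | cons x t ih =>
    change l ∈ fo x fun y => (Bool.rec (y :: live F t) (live F t) (mem y F) : List ℕ)
    rw [fo_eq]
    rcases List.mem_cons.1 h with rfl | h
    · cases e : mem l F
      · exact List.mem_cons_self
      · exact absurd (mem_sound e) h1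
    · cases mem x F
      · exact List.mem_cons_of_mem _ (ih h)
      · exact ih h

lemma taut : ∃ l ∈ [0, 1], Hd W l := by
  by_cases h : W 0 0
  · exact ⟨0, by simp, by simpa [Hd] using h⟩
  · exact ⟨1, by simp, by simpa [Hd] using h⟩

lemma tb_sb {m x y : ℕ} (h : tb (sb m x) y = false) : m.testBit y = false ∧ x ≠ y := by
  have e := tb_false h
  rw [sb_eq, Nat.testBit_or, Nat.testBit_two_pow, Bool.or_eq_false_iff] at e
  exact ⟨e.1, by simpa using e.2⟩

lemma hint_sound (hW : Sys W) {T : Tr} {U : List ℕ} (hU : ∀ u ∈ U, Hd W u) {i : ℕ}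
    (hi : ∀ j < i, ∃ l ∈ cls T j, Hd W l) (h : ℕ) : ∃ l ∈ hint T U i h, Hd W l := by
  have k2 : fld h 8 2 < 2 := Nat.mod_lt _ (by omega)
  have k4 : fld h 8 2 < 4 := by omega
  simp only [hint, fo_eq]
  generalize Nat.div h 524288 = m
  generalize fld h 16 32 = z
  generalize fld h 512 32 = x
  generalize fld h 16384 32 = y
  generalize Nat.mod h 8 = t
  cases Nat.beq t 2
  swap
  · simp only [cAug, fo_eq]
    cases e : (Nat.beq (sb m z) m || tb (sb m z) y || tb (sb m z) x || tb (sb m y) x)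
    swap
    · exact taut
    simp only [Bool.or_eq_false_iff] at e
    have := hW.aug _ m z x y k2 (tb_false e.1.1.1) (tb_sb e.2).1 (tb_sb e.1.1.2).1 (tb_sb e.1.2).2
      (tb_sb e.1.1.2).2 (tb_sb e.2).2.symm
    simp only [List.mem_cons, List.not_mem_nil, or_false, exists_eq_or_imp,
      exists_eq_left, hd_ps k4, hd_ng k4, sb_eq]
    tauto
  cases Nat.beq t 1
  swap
  · cases e : Nat.ble (Nat.div h 8).succ i
    · exact taut
    · exact hi _ (Nat.le_of_ble_eq_true e)
  cases Nat.beq t 3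
  swap
  · simp only [cCol, fo_eq]
    cases e : (Nat.beq (sb m z) m || Nat.beq (sb m x) m)
    swap
    · exact taut
    simp only [Bool.or_eq_false_iff] at e
    have := hW.col m z x (tb_false e.1) (tb_false e.2)
    simp only [List.mem_cons, List.not_mem_nil, or_false, exists_eq_or_imp,
      exists_eq_left, hd_ps (show 2 < 4 by omega), hd_ng (show 0 < 4 by omega),
      hd_ng (show 1 < 4 by omega), hd_ng (show 2 < 4 by omega), sb_eq]
    tauto
  cases Nat.beq t 4
  swap
  · simp only [cMono]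
    cases e : tb m z
    swap
    · exact taut
    have := hW.mono _ m z k2 (tb_false e)
    simp only [List.mem_cons, List.not_mem_nil, or_false, exists_eq_or_imp,
      exists_eq_left, hd_ps k4, hd_ng k4, sb_eq]
    tauto
  cases e : mem (Nat.div h 8) U
  · exact taut
  · exact ⟨_, List.mem_cons_self, hU _ (mem_sound e)⟩

lemma rup_sound {T : Tr} {U : List ℕ} {i : ℕ} (hh : ∀ h, ∃ l ∈ hint T U i h, Hd W l)
    (hs : List ℕ) : ∀ F : List ℕ, rup T U i hs F = true → ∃ l ∈ F, Hd W l := by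
  induction hs with
  | nil => exact fun F h => absurd h Bool.false_ne_true
  | cons h hs ih =>
    intro F h1
    by_contra h2
    obtain ⟨l, h3, h4⟩ := hh h
    have h5 := live_sound h3 fun e => h2 ⟨l, e, h4⟩
    change (List.rec true (fun l t _ => List.rec (fo (op l) fun y => rup T U i hs (y :: F))
      (fun _ _ _ => false) t) (live F (hint T U i h)) : Bool) = true at h1
    generalize live F (hint T U i h) = L at h1 h5
    rcases L with _ | ⟨l', _ | ⟨l'', L⟩⟩
    · simp at h5
    · rw [List.mem_singleton] at h5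
      change (fo (op l') fun y => rup T U i hs (y :: F)) = true at h1
      rw [fo_eq] at h1
      obtain ⟨u, h6, h7⟩ := ih _ h1
      rcases List.mem_cons.1 h6 with rfl | h6
      · exact hd_op (h5 ▸ h4) h7
      · exact h2 ⟨u, h6, h7⟩
    · exact Bool.false_ne_true h1

/-- All lemmas below `n` hold. -/
def Good (W : ℕ → ℕ → Prop) (T : Tr) (n : ℕ) : Prop := ∀ j < n, ∃ l ∈ cls T j, Hd W l

lemma good_zero (T : Tr) : Good W T 0 := fun _ h => absurd h (Nat.not_lt_zero _)

lemma Good.step (hW : Sys W) {T : Tr} {U : List (ℕ × Bool × ℕ × ℕ × ℕ × ℕ)}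
    (hU : ∀ u ∈ U, Hd W (unit u)) {lo : ℕ} (h0 : Good W T lo) (n : ℕ) :
    loop T (U.map unit) lo n = true → Good W T (lo + n) := by
  induction n with
  | zero => exact fun _ => h0
  | succ n ih =>
    intro h j hj
    change (fo (lo + n) fun i => (Bool.rec false (loop T (U.map unit) lo n)
      (rup T (U.map unit) i (dec 1099511627776 100000 (T.get i).2) (cls T i)) : Bool)) = true at h
    rw [fo_eq] at h
    cases e : rup T (U.map unit) (lo + n) (dec 1099511627776 100000 (T.get (lo + n)).2)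
      (cls T (lo + n))
    · rw [e] at h
      exact absurd h Bool.false_ne_true
    rw [e] at h
    rcases Nat.lt_succ_iff_lt_or_eq.1 hj with hj | rfl
    · exact ih h j hj
    · exact rup_sound (hint_sound hW (List.forall_mem_map.2 hU) (ih h)) _ _ e

lemma Good.false {T : Tr} {n : ℕ} (h : Good W T (n + 1)) (h1 : Nat.beq (T.get n).1 0 = true) :
    False := by
  obtain ⟨l, h2, -⟩ := h n (by omega)
  rw [cls, Nat.eq_of_beq_eq_true h1] at h2
  exact List.not_mem_nil h2

end Pool.Agent.Lib.MP_b1ff30_co.Rup
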