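import Pool.Agent.Lib.MP_b1ff30_co.Sq8
import Pool.Agent.Lib.MP_b1ff30_co.P4b
import Pool.Agent.Lib.MP_b1ff30_co.P4c
import Pool.Agent.Lib.MP_b1ff30_co.P4d

set_option autoImplicit false

namespace Pool.Agent.Lib.MP_b1ff30_co

open Finset Matrix Submodule Module
open scoped Classical

variable {α ι K : Type*} [DecidableEq α] [Fintype ι] [DecidableEq ι] [Field K]

/-- The vectors on `Z ∪ S` have rank `|Z| + k`. -/
def RK (a : α → ι → K) (Z S : Finset α) (k : ℕ) : Prop :=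
  finrank K (span K (a '' (Z ∪ S : Finset α))) = Z.card + k

variable {a b : α → ι → K} {P : Finset α → Prop} {Z : Finset α}

omit [DecidableEq α] [DecidableEq ι] in
lemma rk_le (a : α → ι → K) (X : Finset α) : finrank K (span K (a '' (X : Set α))) ≤ X.card := by
  rw [← coe_image]
  exact (finrank_span_finset_le_card _).trans card_image_le

omit [Fintype ι] [DecidableEq ι] in
lemma span_ins (a : α → ι → K) (Z S : Finset α) (x : α) :
    span K (a '' (Z ∪ insert x S : Finset α)) = span K (a '' (Z ∪ S : Finset α)) ⊔ span K {a x} := by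
  rw [union_insert, coe_insert, Set.image_insert_eq, span_insert, sup_comm]

omit [DecidableEq ι] in
lemma RK.ins {S : Finset α} {k : ℕ} (h : RK a Z S k) {x : α}
    (hx : a x ∉ span K (a '' (Z ∪ S : Finset α))) : RK a Z (insert x S) (k + 1) := by
  rw [RK, span_ins, finrank_sup_span_singleton hx, h, add_assoc]

omit [DecidableEq ι] in
lemma RK.mono {S : Finset α} {k : ℕ} {x : α} (h : RK a Z (insert x S) (k + 1)) (hS : S.card ≤ k) :
    RK a Z S k := by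
  have h1 := rk_le a (Z ∪ S)
  have h2 := card_union_le Z S
  rw [RK, span_ins] at h
  by_cases hx : a x ∈ span K (a '' (Z ∪ S : Finset α))
  · rw [sup_eq_left.2 ((span_singleton_le_iff_mem _ _).2 hx)] at h
    omega
  · rw [finrank_sup_span_singleton hx] at h
    rw [RK]
    omega

omit [DecidableEq ι] in
lemma RK.ex {S F : Finset α} {k : ℕ} (h : RK a Z S k) (hF : RK a Z F (k + 1)) :
    ∃ w ∈ F, RK a Z (insert w S) (k + 1) := by
  by_contra h1
  push Not at h1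
  have h2 : span K (a '' (Z ∪ F : Finset α)) ≤ span K (a '' (Z ∪ S : Finset α)) := by
    rw [span_le]
    rintro _ ⟨w, hw, rfl⟩
    rcases mem_union.1 hw with hw | hw
    · exact subset_span ⟨w, mem_union_left _ hw, rfl⟩
    · by_contra e
      exact h1 w hw (h.ins e)
  have h3 := Submodule.finrank_mono h2
  rw [h, hF] at h3
  omega

omit [DecidableEq ι] in
lemma RK.aug {S : Finset α} {k : ℕ} {z x y : α} (h : RK a Z (insert z S) (k + 1))
    (h' : RK a Z (insert x (insert y S)) (k + 1 + 1)) :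
    RK a Z (insert x (insert z S)) (k + 1 + 1) ∨ RK a Z (insert y (insert z S)) (k + 1 + 1) := by
  obtain ⟨w, h1, h2⟩ := h.ex h'
  rcases mem_insert.1 h1 with rfl | h1
  · exact Or.inl h2
  rcases mem_insert.1 h1 with rfl | h1
  · exact Or.inr h2
  rw [insert_eq_of_mem (mem_insert_of_mem h1), RK] at h2
  rw [RK] at h
  omega

omit [DecidableEq α] in
lemma det_of_span (a b : α → ι → K) (N : Finset α) (hN : N.card = Fintype.card ι)
    (h1 : span K (a '' N) = ⊤) (h2 : span K (b '' N) = ⊤) : (MM a b N).det ≠ 0 := by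
  obtain ⟨e⟩ : Nonempty (ι ≃ N) := Fintype.card_eq.1 (by simpa using hN.symm)
  have h3 : MM a b N = ∑ i, vecMulVec (a (e i)) (b (e i)) := by
    rw [MM, ← sum_coe_sort, ← e.sum_comp]
  have h4 : ∀ c : α → ι → K, span K (c '' N) = ⊤ → (of fun i => c (e i)).det ≠ 0 := by
    intro c hc
    refine ((isUnit_iff_isUnit_det _).1 (linearIndependent_rows_iff_isUnit.1 ?_)).ne_zero
    refine linearIndependent_of_top_le_span_of_card_eq_finrank ?_ (by simp)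
    rw [← hc]
    refine span_mono ?_
    rintro _ ⟨y, hy, rfl⟩
    exact ⟨e.symm ⟨y, hy⟩, by ext j; simp⟩
  rw [h3, det_sum]
  exact mul_ne_zero (h4 a h1) (h4 b h2)

lemma RK.state (hZ : Z.card + 4 = Fintype.card ι) {S : Finset α} (hS : S.card ≤ 4)
    (h1 : RK a Z S 4) (h2 : RK b Z S 4) :
    (Z ∪ S).card = Fintype.card ι ∧ (MM a b (Z ∪ S)).det ≠ 0 := by
  have h3 := rk_le a (Z ∪ S)
  have h4 := card_union_le Z S
  rw [RK] at h1 h2
  have h5 : (Z ∪ S).card = Fintype.card ι := by omega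
  exact ⟨h5, det_of_span a b _ h5 (eq_top_of_finrank_eq (by rw [h1, hZ]; simp))
    (eq_top_of_finrank_eq (by rw [h2, hZ]; simp))⟩

omit [DecidableEq ι] in
lemma RK.of_top (hZ : Z.card + 4 = Fintype.card ι) {S : Finset α}
    (h : span K (a '' (Z ∪ S : Finset α)) = ⊤) : RK a Z S 4 := by
  rw [RK, h, hZ]
  simp

/-- The bits of a number. -/
def bs (m : ℕ) : Finset ℕ := (range (m + 1)).filter fun i => m.testBit i

lemma mem_bs {m i : ℕ} : i ∈ bs m ↔ m.testBit i := by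
  rw [bs, mem_filter, mem_range]
  refine ⟨fun h => h.2, fun h => ⟨?_, h⟩⟩
  have h1 := Nat.ge_two_pow_of_testBit h
  have h2 : i < 2 ^ i := Nat.lt_two_pow_self
  omega

lemma bs_or (m x : ℕ) : bs (m ||| 2 ^ x) = insert x (bs m) := by
  ext i
  rw [mem_insert, mem_bs, mem_bs, Nat.testBit_or, Nat.testBit_two_pow, Bool.or_eq_true,
    decide_eq_true_eq, or_comm, eq_comm]

lemma bs_pow (x : ℕ) : bs (2 ^ x) = {x} := by
  ext i
  rw [mem_singleton, mem_bs, Nat.testBit_two_pow]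
  simp [eq_comm]

/-- The three predicates on four elements. -/
def Q4 (a b : α → ι → K) (P : Finset α → Prop) (Z : Finset α) : ℕ → Finset α → ℕ → Prop
  | 0, S, c => RK a Z S c
  | 1, S, c => RK b Z S c
  | _, S, c => c = 4 → P (Z ∪ S)

/-- The valuation attached to a family of labels. -/
def Wv (a b : α → ι → K) (P : Finset α → Prop) (Z : Finset α) (e : ℕ → α) (k m : ℕ) : Prop :=
  Q4 a b P Z k ((bs m).image e) (bs m).card

lemma sys (hP : Closed a b P) (hZ : Z.card + 4 = Fintype.card ι) (e : ℕ → α) :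
    Rup.Sys (Wv a b P Z e) := by
  have hn : ∀ m x : ℕ, m.testBit x = false → x ∉ bs m := fun m x h => by simp [mem_bs, h]
  refine ⟨fun k m x hk hx => ?_, fun k m z x y hk hz hx hy h1 h2 h3 => ?_, fun m u v hu hv => ?_⟩
  · simp only [Wv, bs_or, image_insert, card_insert_of_notMem (hn m x hx)]
    interval_cases k <;> exact fun h => RK.mono h card_image_le
  · have e1 : x ∉ insert y (bs m) := by simp [h3, hn m x hx]
    have e2 : x ∉ insert z (bs m) := by simp [h1.symm, hn m x hx]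
    have e3 : y ∉ insert z (bs m) := by simp [h2.symm, hn m y hy]
    simp only [Wv, bs_or, image_insert, card_insert_of_notMem (hn m z hz),
      card_insert_of_notMem (hn m y hy), card_insert_of_notMem e1, card_insert_of_notMem e2,
      card_insert_of_notMem e3]
    interval_cases k <;> exact RK.aug
  · simp only [Wv, bs_or, image_insert, card_insert_of_notMem (hn m u hu),
      card_insert_of_notMem (hn m v hv)]
    intro h1 h2 h3 h4 h5 h6
    have h7 : ((bs m).image e).card ≤ 3 := card_image_le.trans (by omega)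
    rw [h6] at h1 h2 h3 h4
    have h8 := RK.state hZ ((card_insert_le _ _).trans (by omega)) h1 h2
    have h9 := RK.state hZ ((card_insert_le _ _).trans (by omega)) h3 h4
    have h10 := h5 h6
    have h11 := card_union_le Z ((bs m).image e)
    rw [union_insert] at h8 h9 h10 ⊢
    have g : ∀ w, (insert w (Z ∪ (bs m).image e)).card = Fintype.card ι →
        w ∉ Z ∪ (bs m).image e := fun w h h' => by
      rw [insert_eq_of_mem h'] at h
      omega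
    exact hP _ _ _ (g _ h8.1) (g _ h9.1) (by rw [← h8.1, card_insert_of_notMem (g _ h8.1)])
      h8.2 h9.2 h10

/-- A signed fact on four labels. -/
def H4 (a b : α → ι → K) (P : Finset α → Prop) (Z : Finset α) (e : ℕ → α)
    (u : ℕ × Bool × ℕ × ℕ × ℕ × ℕ) : Prop :=
  bif u.2.1 then Q4 a b P Z u.1 {e u.2.2.2.2.2, e u.2.2.2.2.1, e u.2.2.2.1, e u.2.2.1} 4
  else ¬ Q4 a b P Z u.1 {e u.2.2.2.2.2, e u.2.2.2.2.1, e u.2.2.2.1, e u.2.2.1} 4

omit [Fintype ι] [DecidableEq ι] in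
lemma units (e : ℕ → α) (U : List (ℕ × Bool × ℕ × ℕ × ℕ × ℕ))
    (h1 : ∀ u ∈ U, u.1 < 4 ∧ u.2.2.1 < u.2.2.2.1 ∧ u.2.2.2.1 < u.2.2.2.2.1 ∧
      u.2.2.2.2.1 < u.2.2.2.2.2) (h2 : U.Forall (H4 a b P Z e)) :
    ∀ u ∈ U, Rup.Hd (Wv a b P Z e) (Rup.unit u) := by
  intro u hu
  have h3 := List.forall_iff_forall_mem.1 h2 u hu
  obtain ⟨e1, e2, e3, e4⟩ := h1 u hu
  obtain ⟨k, s, i, j, l, m⟩ := u
  simp only at e1 e2 e3 e4
  have h4 : Wv a b P Z e k (2 ^ i ||| 2 ^ j ||| 2 ^ l ||| 2 ^ m) ↔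
      Q4 a b P Z k {e m, e l, e j, e i} 4 := by
    rw [Wv, bs_or, bs_or, bs_or, bs_pow, card_insert_of_notMem (by simp; omega),
      card_insert_of_notMem (by simp; omega), card_insert_of_notMem (by simp; omega)]
    simp only [image_insert, image_singleton, card_singleton]
  cases s
  · exact (Rup.hd_ng e1).2 (mt h4.1 h3)
  · exact (Rup.hd_ps e1).2 (h4.2 h3)

/-- Two states of different colour at distance two that share a row. -/
structure Grid (a b : α → ι → K) (P : Finset α → Prop) (Z : Finset α) (q r y11 y12 y21 y22 : α) :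
    Prop where
  a1 : RK a Z {y22, y11, r, q} 4
  b1 : RK b Z {y22, y11, r, q} 4
  c1 : P (Z ∪ {y22, y11, r, q})
  a2 : RK a Z {y21, y12, r, q} 4
  b2 : RK b Z {y21, y12, r, q} 4
  c2 : ¬ P (Z ∪ {y21, y12, r, q})
  a3 : ¬ RK a Z {y12, y11, r, q} 4

/-- A state `{w₁, …, w₄}` of colour `C` off a hyperplane, with three typed labels. -/
structure Wit (a b : α → ι → K) (C : Finset α → Prop) (Z : Finset α) (o p₁ p₂ p₃ : α → Prop)
    (w₁ w₂ w₃ w₄ : α) : Prop where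
  a1 : RK a Z {w₄, w₃, w₂, w₁} 4
  b1 : RK b Z {w₄, w₃, w₂, w₁} 4
  c1 : C (Z ∪ {w₄, w₃, w₂, w₁})
  o1 : o w₁
  o2 : o w₂
  o3 : o w₃
  o4 : o w₄
  t1 : p₁ w₁
  t2 : p₂ w₂
  t3 : p₃ w₃

omit [Fintype ι] [DecidableEq ι] in
lemma wit_of {C : Finset α → Prop} {o p₁ p₂ p₃ : α → Prop} {F : Finset α} (h0 : F.card = 4)
    (h1 : RK a Z F 4) (h2 : RK b Z F 4) (h3 : C (Z ∪ F)) (h4 : ∀ w ∈ F, o w)
    (e1 : ∃ w ∈ F, p₁ w) (e2 : ∃ w ∈ F, p₂ w) (e3 : ∃ w ∈ F, p₃ w)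
    (d1 : ∀ w, o w → p₁ w → p₂ w → False) (d2 : ∀ w, o w → p₁ w → p₃ w → False)
    (d3 : ∀ w, o w → p₂ w → p₃ w → False) :
    ∃ w₁ w₂ w₃ w₄, Wit a b C Z o p₁ p₂ p₃ w₁ w₂ w₃ w₄ := by
  obtain ⟨w₁, m1, t1⟩ := e1
  obtain ⟨w₂, m2, t2⟩ := e2
  obtain ⟨w₃, m3, t3⟩ := e3
  have n1 : w₂ ≠ w₁ := fun e => d1 w₁ (h4 _ m1) t1 (e ▸ t2)
  have n2 : w₃ ≠ w₁ := fun e => d2 w₁ (h4 _ m1) t1 (e ▸ t3)
  have n3 : w₃ ≠ w₂ := fun e => d3 w₂ (h4 _ m2) t2 (e ▸ t3)
  have hc : ({w₃, w₂, w₁} : Finset α).card = 3 := by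
    rw [card_insert_of_notMem (by simp [n2, n3]), card_pair n1]
  obtain ⟨w₄, m4, n4⟩ := exists_mem_notMem_of_card_lt_card
    (show ({w₃, w₂, w₁} : Finset α).card < F.card by omega)
  have hF : ({w₄, w₃, w₂, w₁} : Finset α) = F := eq_of_subset_of_card_le
    (by simp [insert_subset_iff, m1, m2, m3, m4]) (by rw [card_insert_of_notMem n4]; omega)
  exact ⟨w₁, w₂, w₃, w₄, hF ▸ h1, hF ▸ h2, hF ▸ h3, h4 _ m1, h4 _ m2, h4 _ m3, h4 _ m4, t1, t2, t3⟩

/-- The combinatorial core: a grid with states of both colours off all four hyperplanes does not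
exist in rank four. -/
theorem Grid.false (hP : Closed a b P) (hZ : Z.card + 4 = Fintype.card ι)
    {q r y11 y12 y21 y22 : α} (g : Grid a b P Z q r y11 y12 y21 y22)
    (hw : ∀ C : Finset α → Prop, C = P ∨ (C = fun X => ¬ P X) → ∀ c : α → ι → K, c = a ∨ c = b →
      ∀ S : Finset α, RK c Z S 3 → ∃ F : Finset α, F.card = 4 ∧ RK a Z F 4 ∧ RK b Z F 4 ∧
        C (Z ∪ F) ∧ ∀ w ∈ F, RK c Z (insert w S) 4) : False := by
  have k3 : ∀ x y z : α, ({x, y, z} : Finset α).card ≤ 3 := fun x y z => card_le_three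
  have r1 : RK a Z {y11, r, q} 3 := g.a1.mono (k3 _ _ _)
  have r2 : RK a Z {y22, r, q} 3 := (insert_comm y22 y11 _ ▸ g.a1).mono (k3 _ _ _)
  have s1 : RK b Z {y11, r, q} 3 := g.b1.mono (k3 _ _ _)
  have s2 : RK b Z {y22, r, q} 3 := (insert_comm y22 y11 _ ▸ g.b1).mono (k3 _ _ _)
  set H1 : α → Prop := fun w => RK a Z {w, y11, r, q} 4
  set H2 : α → Prop := fun w => RK a Z {w, y22, r, q} 4
  set C1 : α → Prop := fun w => RK b Z {w, y11, r, q} 4
  set C2 : α → Prop := fun w => RK b Z {w, y22, r, q} 4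
  have n2 : ¬ (4 = 4 → P (Z ∪ {y21, y12, r, q})) := fun h => g.c2 (h rfl)
  have D1 : ∀ w, H2 w → C1 w → C2 w → False := fun w h1 h2 h3 =>
    Rup.fD1 (sys hP hZ _) (units (fun i => [q, r, y11, y12, y21, y22, w].getD i q) _ (by decide)
      ⟨g.a1, g.b1, fun _ => g.c1, g.a2, g.b2, n2, g.a3, h1, h2, h3⟩)
  have D2 : ∀ w, H1 w → H2 w → C1 w → False := fun w h1 h2 h3 =>
    Rup.fD2 (sys hP hZ _) (units (fun i => [q, r, y11, y12, y21, y22, w].getD i q) _ (by decide)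
      ⟨g.a1, g.b1, fun _ => g.c1, g.a2, g.b2, n2, g.a3, h1, h2, h3⟩)
  have D3 : ∀ w, H1 w → H2 w → C2 w → False := fun w h1 h2 h3 =>
    Rup.fD3 (sys hP hZ _) (units (fun i => [q, r, y11, y12, y21, y22, w].getD i q) _ (by decide)
      ⟨g.a1, g.b1, fun _ => g.c1, g.a2, g.b2, n2, g.a3, h1, h2, h3⟩)
  have D4 : ∀ w, H1 w → C1 w → C2 w → False := fun w h1 h2 h3 =>
    Rup.fD4 (sys hP hZ _) (units (fun i => [q, r, y11, y12, y21, y22, w].getD i q) _ (by decide)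
      ⟨g.a1, g.b1, fun _ => g.c1, g.a2, g.b2, n2, g.a3, h1, h2, h3⟩)
  have wH2 : ∀ C : Finset α → Prop, C = P ∨ (C = fun X => ¬ P X) →
      ∃ w₁ w₂ w₃ w₄, Wit a b C Z H2 C2 C1 H1 w₁ w₂ w₃ w₄ := fun C hC => by
    obtain ⟨F, h0, h1, h2, h3, h4⟩ := hw C hC a (Or.inl rfl) _ r2
    exact wit_of h0 h1 h2 h3 h4 (s2.ex h2) (s1.ex h2) (r1.ex h1) (fun w x y z => D1 w x z y)
      (fun w x y z => D3 w z x y) fun w x y z => D2 w z x y
  have wH1 : ∀ C : Finset α → Prop, C = P ∨ (C = fun X => ¬ P X) →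
      ∃ w₁ w₂ w₃ w₄, Wit a b C Z H1 C2 C1 H2 w₁ w₂ w₃ w₄ := fun C hC => by
    obtain ⟨F, h0, h1, h2, h3, h4⟩ := hw C hC a (Or.inl rfl) _ r1
    exact wit_of h0 h1 h2 h3 h4 (s2.ex h2) (s1.ex h2) (r2.ex h1) (fun w x y z => D4 w x z y)
      (fun w x y z => D3 w x z y) fun w x y z => D2 w x z y
  have wC2 : ∀ C : Finset α → Prop, C = P ∨ (C = fun X => ¬ P X) →
      ∃ w₁ w₂ w₃ w₄, Wit a b C Z C2 H2 H1 C1 w₁ w₂ w₃ w₄ := fun C hC => by
    obtain ⟨F, h0, h1, h2, h3, h4⟩ := hw C hC b (Or.inr rfl) _ s2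
    exact wit_of h0 h1 h2 h3 h4 (r2.ex h1) (r1.ex h1) (s1.ex h2) (fun w x y z => D3 w z y x)
      (fun w x y z => D1 w y z x) fun w x y z => D4 w y z x
  have wC1 : ∀ C : Finset α → Prop, C = P ∨ (C = fun X => ¬ P X) →
      ∃ w₁ w₂ w₃ w₄, Wit a b C Z C1 H2 H1 C2 w₁ w₂ w₃ w₄ := fun C hC => by
    obtain ⟨F, h0, h1, h2, h3, h4⟩ := hw C hC b (Or.inr rfl) _ s1
    exact wit_of h0 h1 h2 h3 h4 (r2.ex h1) (r1.ex h1) (s2.ex h2) (fun w x y z => D2 w z y x)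
      (fun w x y z => D1 w y x z) fun w x y z => D4 w y x z
  obtain ⟨u₁, u₂, u₃, u₄, u⟩ := wH2 P (Or.inl rfl)
  obtain ⟨v₁, v₂, v₃, v₄, v⟩ := wH1 _ (Or.inr rfl)
  have hu : C1 u₄ := by
    by_contra h1
    by_cases h2 : H1 u₄
    · obtain ⟨w₁, w₂, w₃, w₄, w⟩ := wC2 _ (Or.inr rfl)
      exact Rup.fP2 (sys hP hZ _) (units (fun i =>
        [q, r, y11, y12, y21, y22, u₁, u₂, u₃, u₄, w₁, w₂, w₃, w₄].getD i q) _ (by decide)
        ⟨g.a1, g.b1, fun _ => g.c1, g.a2, g.b2, n2, g.a3, u.a1, u.b1, fun _ => u.c1, u.o1, u.o2,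
          u.o3, u.o4, u.t1, u.t2, u.t3, h1, h2, w.a1, w.b1, fun h => w.c1 (h rfl), w.o1, w.o2,
          w.o3, w.o4, w.t1, w.t2, w.t3⟩)
    · obtain ⟨w₁, w₂, w₃, w₄, w⟩ := wC1 _ (Or.inr rfl)
      exact Rup.fP1 (sys hP hZ _) (units (fun i =>
        [q, r, y11, y12, y21, y22, u₁, u₂, u₃, u₄, w₁, w₂, w₃, w₄].getD i q) _ (by decide)
        ⟨g.a1, g.b1, fun _ => g.c1, g.a2, g.b2, n2, g.a3, u.a1, u.b1, fun _ => u.c1, u.o1, u.o2,
          u.o3, u.o4, u.t1, u.t2, u.t3, h1, h2, w.a1, w.b1, fun h => w.c1 (h rfl), w.o1, w.o2,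
          w.o3, w.o4, w.t1, w.t2, w.t3⟩)
  have hv : C1 v₄ := by
    by_contra h1
    by_cases h2 : H2 v₄
    · obtain ⟨w₁, w₂, w₃, w₄, w⟩ := wC2 P (Or.inl rfl)
      exact Rup.fP4 (sys hP hZ _) (units (fun i =>
        [q, r, y11, y12, y21, y22, v₁, v₂, v₃, v₄, w₁, w₂, w₃, w₄].getD i q) _ (by decide)
        ⟨g.a1, g.b1, fun _ => g.c1, g.a2, g.b2, n2, g.a3, v.a1, v.b1, fun h => v.c1 (h rfl), v.o1,
          v.o2, v.o3, v.o4, v.t1, v.t2, v.t3, h1, h2, w.a1, w.b1, fun _ => w.c1, w.o1, w.o2,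
          w.o3, w.o4, w.t1, w.t2, w.t3⟩)
    · obtain ⟨w₁, w₂, w₃, w₄, w⟩ := wC1 P (Or.inl rfl)
      exact Rup.fP3 (sys hP hZ _) (units (fun i =>
        [q, r, y11, y12, y21, y22, v₁, v₂, v₃, v₄, w₁, w₂, w₃, w₄].getD i q) _ (by decide)
        ⟨g.a1, g.b1, fun _ => g.c1, g.a2, g.b2, n2, g.a3, v.a1, v.b1, fun h => v.c1 (h rfl), v.o1,
          v.o2, v.o3, v.o4, v.t1, v.t2, v.t3, h1, h2, w.a1, w.b1, fun _ => w.c1, w.o1, w.o2,
          w.o3, w.o4, w.t1, w.t2, w.t3⟩)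
  obtain ⟨w₁, w₂, w₃, w₄, w⟩ := wC2 P (Or.inl rfl)
  exact Rup.fT (sys hP hZ _) (units (fun i =>
    [q, r, y11, y12, y21, y22, u₁, u₂, u₃, u₄, v₁, v₂, v₃, v₄, w₁, w₂, w₃, w₄].getD i q) _
    (by decide)
    ⟨g.a1, g.b1, fun _ => g.c1, g.a2, g.b2, n2, g.a3, u.a1, u.b1, fun _ => u.c1, u.o1, u.o2,
      u.o3, u.o4, u.t1, u.t2, u.t3, hu, v.a1, v.b1, fun h => v.c1 (h rfl), v.o1,
      v.o2, v.o3, v.o4, v.t1, v.t2, v.t3, hv, w.a1, w.b1, w.o1, w.o2,
      w.o3, w.o4, w.t1, w.t2, w.t3⟩)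

end Pool.Agent.Lib.MP_b1ff30_co
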