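import Mathlib

/-!
Antipodal bases are connected in `N / e \ f` for an identically self-dual binary matroid `N`.
-/

open Set Matroid

namespace Pool.Agent.Lib.MP_b1ff30_co.SelfDual

variable {α : Type} {N : Matroid α} {e f : α}

/-- both `X + e` and `X + f` are bases -/
def St (N : Matroid α) (e f : α) (X : Set α) : Prop :=
  e ∉ X ∧ f ∉ X ∧ N.IsBase (insert e X) ∧ N.IsBase (insert f X)

def Step (N : Matroid α) (e f : α) (X Y : Set α) : Prop :=
  St N e f X ∧ St N e f Y ∧ ∃ x ∈ X, ∃ y, y ∉ X ∧ Y = insert y (X \ {x})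

def co (e f : α) (X : Set α) : Set α := (insert e (insert f X))ᶜ

theorem st_of_circuit (hef : e ≠ f) {X A : Set α} (he : e ∉ X) (hf : f ∉ X)
    (hB : N.IsBase (insert e X)) (hA : N.IsCircuit A) (heA : e ∈ A)
    (hAX : A ⊆ insert f (insert e X)) (hfA : f ∈ A) : St N e f X := by
  have hf' : f ∉ insert e X := by simp [hef.symm, hf]
  refine ⟨he, hf, hB, ?_⟩
  rw [hA.eq_fundCircuit_of_subset hB.indep hAX, hB.indep.mem_fundCircuit_iff
    (by rw [hB.closure_eq]; exact hA.subset_ground hfA) hf'] at heA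
  have := hB.exchange_isBase_of_indep' (mem_insert e X) hf' heA
  rwa [show insert f (insert e X) \ {e} = insert f X by
    ext x; by_cases h : x = e <;> simp [h, hef, he]] at this

theorem St.exists_circuit (hE : N.E = univ) (hef : e ≠ f) {X : Set α} (h : St N e f X) :
    ∃ A, N.IsCircuit A ∧ e ∈ A ∧ f ∈ A ∧ A ⊆ insert f (insert e X) := by
  have hf' : f ∉ insert e X := by simp [hef.symm, h.2.1]
  refine ⟨_, h.2.2.1.fundCircuit_isCircuit (by simp [hE]) hf', ?_, N.mem_fundCircuit _ _,
    N.fundCircuit_subset_insert _ _⟩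
  rw [h.2.2.1.indep.mem_fundCircuit_iff (by simp [h.2.2.1.closure_eq, hE]) hf',
    show insert f (insert e X) \ {e} = insert f X by
      ext x; by_cases h' : x = e <;> simp [h', hef, h.1]]
  exact h.2.2.2.indep

theorem base_compl (hE : N.E = univ) (hd : N✶ = N) {B : Set α} (h : N.IsBase B) :
    N.IsBase Bᶜ := by
  have := h.compl_isBase_dual
  rwa [hd, hE, ← compl_eq_univ_sdiff] at this

theorem St.co (hE : N.E = univ) (hd : N✶ = N) (hef : e ≠ f) {X : Set α} (h : St N e f X) :
    St N e f (co e f X) := by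
  refine ⟨by simp [SelfDual.co], by simp [SelfDual.co], ?_, ?_⟩
  · convert base_compl hE hd h.2.2.2 using 1
    ext x; by_cases h' : x = e <;> simp [SelfDual.co, h', hef, h.1]
  · convert base_compl hE hd h.2.2.1 using 1
    ext x; by_cases h' : x = f <;> simp [SelfDual.co, h', hef.symm, h.2.1]

theorem co_co {X : Set α} (h : St N e f X) : co e f (co e f X) = X := by
  ext x
  have := h.1
  have := h.2.1
  simp only [co, mem_compl_iff, mem_insert_iff]
  grind

theorem Step.co (hE : N.E = univ) (hd : N✶ = N) (hef : e ≠ f) {X Y : Set α}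
    (h : Step N e f X Y) : Step N e f (co e f X) (co e f Y) := by
  obtain ⟨h1, h2, x, hx, y, hy, rfl⟩ := h
  have a1 := h1.1
  have a2 := h1.2.1
  have a3 := h2.1
  have a4 := h2.2.1
  refine ⟨h1.co hE hd hef, h2.co hE hd hef, y, ?_, x, ?_, ?_⟩
  · simp only [SelfDual.co, mem_compl_iff, mem_insert_iff] at *; grind
  · simp [SelfDual.co, hx]
  · ext z
    simp only [SelfDual.co, mem_compl_iff, mem_insert_iff, mem_sdiff, mem_singleton_iff] at *
    grind

variable [Finite α]

theorem move_in (hef : e ≠ f) {A : Set α} (hA : N.IsCircuit A) (heA : e ∈ A) (hfA : f ∈ A)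
    {Y : Set α} (hY : St N e f Y) (hAY : A ⊆ insert f (insert e Y)) (n : ℕ) :
    ∀ X, (X \ Y).ncard = n → St N e f X → A ⊆ insert f (insert e X) →
      Relation.ReflTransGen (Step N e f) X Y := by
  induction n with
  | zero =>
    intro X hn hX _
    have h1 : X ⊆ Y := sdiff_eq_empty.1 ((ncard_eq_zero (toFinite _)).1 hn)
    have h2 := hX.2.2.1.eq_of_subset_isBase hY.2.2.1 (insert_subset_insert h1)
    rw [← insert_sdiff_self_of_notMem hX.1, h2, insert_sdiff_self_of_notMem hY.1]
  | succ n ih =>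
    intro X hn hX hAX
    obtain ⟨x, hx⟩ : (X \ Y).Nonempty := nonempty_of_ncard_ne_zero (by omega)
    have hxe : x ≠ e := fun h => hX.1 (h ▸ hx.1)
    have hxf : x ≠ f := fun h => hX.2.1 (h ▸ hx.1)
    obtain ⟨y, hy, hb⟩ := hX.2.2.1.exchange hY.2.2.1 (e := x) ⟨Or.inr hx.1, by simp [hxe, hx.2]⟩
    have hye : y ≠ e := fun h => hy.2 (Or.inl h)
    have hyY : y ∈ Y := hy.1.resolve_left hye
    have hyX : y ∉ X := fun h => hy.2 (Or.inr h)
    have hyf : y ≠ f := fun h => hY.2.1 (h ▸ hyY)
    have hs : A ⊆ insert f (insert e (insert y (X \ {x}))) := fun z hz => by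
      have a := hAX hz
      have b := hAY hz
      have c := hx.2
      simp only [mem_insert_iff, mem_sdiff, mem_singleton_iff] at *
      grind
    have h1 : St N e f (insert y (X \ {x})) := by
      refine st_of_circuit hef (by simp [hye.symm, hX.1]) (by simp [hyf.symm, hX.2.1]) ?_ hA heA
        hs hfA
      convert hb using 1
      ext z; simp only [mem_insert_iff, mem_sdiff, mem_singleton_iff]; grind
    refine .head ⟨hX, h1, x, hx.1, y, hyX, rfl⟩ (ih _ ?_ h1 hs)
    rw [show insert y (X \ {x}) \ Y = (X \ Y) \ {x} by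
      ext z; simp only [mem_insert_iff, mem_sdiff, mem_singleton_iff]; grind,
      ncard_sdiff_singleton_of_mem hx, hn]
    rfl

omit [Finite α] in
theorem exists_state (hE : N.E = univ) (hd : N✶ = N) (hef : e ≠ f) {A D : Set α}
    (hA : N.IsCircuit A) (heA : e ∈ A) (hfA : f ∈ A) (hD : N.IsCircuit D) (heD : e ∈ D)
    (hAD : A ∩ D ⊆ {e, f}) (hfD : f ∈ D) : ∃ X, St N e f X ∧ A ⊆ insert f (insert e X) ∧
      D ⊆ insert f (insert e (co e f X)) := by
  have h1 : N.Coindep (D \ {e}) := by rw [coindep_def, hd]; exact hD.sdiff_singleton_indep heD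
  obtain ⟨B, hB, h2, h3⟩ := (hA.sdiff_singleton_indep hfA).exists_isBase_subset_spanning
    h1.compl_spanning (fun x hx => ⟨by simp [hE], fun h => by
      have := hAD ⟨hx.1, h.1⟩
      have a := hx.2
      have b := h.2
      simp only [mem_insert_iff, mem_singleton_iff] at *
      grind⟩)
  have heB : e ∈ B := h2 ⟨heA, hef⟩
  have hfB : f ∉ B := fun h => (h3 h).2 ⟨hfD, hef.symm⟩
  have hs : A ⊆ insert f (insert e (B \ {e})) := fun x hx => by
    by_cases h : x = f
    · exact Or.inl h
    · rw [insert_sdiff_singleton, insert_eq_of_mem heB]; exact Or.inr (h2 ⟨hx, h⟩)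
  refine ⟨B \ {e}, st_of_circuit hef (by simp) (fun h => hfB h.1)
    (by rwa [insert_sdiff_singleton, insert_eq_of_mem heB]) hA heA hs hfA, hs, fun x hx => ?_⟩
  have := fun h : x ∈ B => (h3 h).2
  simp only [co, mem_insert_iff, mem_compl_iff, mem_sdiff, mem_singleton_iff] at *
  grind

theorem third (hE : N.E = univ) (hd : N✶ = N) (hef : e ≠ f)
    (hev : ∀ C D, N.IsCircuit C → N.IsCircuit D → Even (C ∩ D).ncard) {A D : Set α}
    (hA : N.IsCircuit A) (heA : e ∈ A) (hD : N.IsCircuit D) (heD : e ∈ D)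
    (hAD : A ∩ D ⊆ {e, f}) :
    ∃ C, N.IsCircuit C ∧ e ∈ C ∧ f ∈ C ∧ A ∩ C ⊆ {e, f} ∧ D ∩ C ⊆ {e, f} := by
  have one : ∀ C K x, N.IsCircuit C → N.IsCircuit K → C ∩ K ≠ {x} := fun C K x h1 h2 h => by
    simpa [h] using hev C K h1 h2
  set S := insert f (A ∪ D)ᶜ with hS
  have heS : e ∉ S := by simp [hS, hef, heA]
  by_cases hcl : e ∈ N.closure S
  · obtain ⟨C, h1, h2, h3⟩ := exists_isCircuit_of_mem_closure hcl heS
    have key : ∀ K, K ⊆ A ∪ D → K ∩ C ⊆ {e, f} := fun K hK x hx => by
      have a := h1 hx.2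
      have b := hK hx.1
      simp only [hS, mem_insert_iff, mem_compl_iff, mem_singleton_iff] at *
      grind
    refine ⟨C, h2, h3, by_contra fun hf => one A C e hA h2 ?_, key A subset_union_left,
      key D subset_union_right⟩
    refine Subset.antisymm (fun x hx => ?_) (singleton_subset_iff.2 ⟨heA, h3⟩)
    rcases key A subset_union_left hx with h | h
    · exact h
    · exact absurd (h ▸ hx.2) hf
  exfalso
  obtain ⟨I, hI⟩ := N.exists_isBasis S (by simp [hE])
  have heI : e ∉ I := fun h => heS (hI.subset h)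
  have hi : N.Indep (insert e I) := (hI.indep.insert_indep_iff_of_notMem heI).2
    ⟨by simp [hE], by rwa [hI.closure_eq_closure]⟩
  obtain ⟨B, hB, hIB⟩ := hi.exists_isBase_superset
  have heB : e ∉ Bᶜ := fun h => h (hIB (mem_insert _ _))
  have hK := (base_compl hE hd hB).fundCircuit_isCircuit (x := e) (by simp [hE]) heB
  have hKs := N.fundCircuit_subset_insert e Bᶜ
  have heK := N.mem_fundCircuit e Bᶜ
  set K := N.fundCircuit e Bᶜ
  have hKS : ∀ s ∈ K, s ∉ S := fun s hs hsS => by
    have hsB : s ∉ B := (hKs hs).resolve_left fun h => heS (h ▸ hsS)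
    have hsI : s ∉ I := fun h => hsB (hIB (Or.inr h))
    refine one _ K s (hI.indep.fundCircuit_isCircuit (hI.subset_closure hsS) hsI) hK ?_
    refine Subset.antisymm (fun x hx => ?_) (singleton_subset_iff.2 ⟨N.mem_fundCircuit _ _, hs⟩)
    rcases N.fundCircuit_subset_insert s I hx.1 with h | h
    · exact h
    · rcases hKs hx.2 with h' | h'
      · exact absurd (h' ▸ h) heI
      · exact absurd (hIB (Or.inr h)) h'
  have h1 := ncard_union_add_ncard_inter (K ∩ A) (K ∩ D)
  have e1 : K ∩ A ∪ K ∩ D = K ∩ K := by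
    ext x
    have := hKS x
    simp only [hS, mem_insert_iff, mem_compl_iff, mem_union, mem_inter_iff] at *
    grind
  have e2 : K ∩ A ∩ (K ∩ D) = {e} := by
    ext x
    have := hKS x
    have := fun h => hAD (a := x) h
    simp only [hS, mem_insert_iff, mem_compl_iff, mem_union, mem_inter_iff,
      mem_singleton_iff] at *
    grind
  rw [e1, e2, ncard_singleton] at h1
  obtain ⟨a, ha⟩ := hev K K hK hK
  obtain ⟨b, hb⟩ := hev K A hK hA
  obtain ⟨c, hc⟩ := hev K D hK hD
  omega

theorem main (hE : N.E = univ) (hd : N✶ = N) (hef : e ≠ f)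
    (hev : ∀ C D, N.IsCircuit C → N.IsCircuit D → Even (C ∩ D).ncard) {X : Set α}
    (hX : St N e f X) : Relation.ReflTransGen (Step N e f) X (co e f X) := by
  obtain ⟨A, hA, heA, hfA, hAX⟩ := hX.exists_circuit hE hef
  obtain ⟨D, hD, heD, hfD, hDX⟩ := (hX.co hE hd hef).exists_circuit hE hef
  have hAD : A ∩ D ⊆ {e, f} := fun x hx => by
    have a := hAX hx.1
    have b := hDX hx.2
    simp only [co, mem_insert_iff, mem_compl_iff, mem_singleton_iff] at *
    grind
  obtain ⟨C, hC, heC, hfC, hAC, hDC⟩ := third hE hd hef hev hA heA hD heD hAD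
  obtain ⟨X1, s1, a1, c1⟩ := exists_state hE hd hef hA heA hfA hC heC hAC hfC
  obtain ⟨X2, s2, a2, c2⟩ := exists_state hE hd hef hD heD hfD hC heC hDC hfC
  have p1 := move_in hef hA heA hfA s1 a1 _ X rfl hX hAX
  have p2 : Relation.ReflTransGen (Step N e f) (co e f (co e f X1)) (co e f (co e f X2)) :=
    (move_in hef hC heC hfC (s2.co hE hd hef) c2 _ _ rfl (s1.co hE hd hef) c1).lift
    (co e f) (fun _ _ h => h.co hE hd hef)
  rw [co_co s1, co_co s2] at p2
  exact p1.trans (p2.trans (move_in hef hD heD hfD (hX.co hE hd hef) hDX _ _ rfl s2 a2))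

end Pool.Agent.Lib.MP_b1ff30_co.SelfDual
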