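import Mathlib

set_option autoImplicit false

namespace Pool.Agent.Lib.MP_b1ff30_co

open Finset

variable {α K : Type*} [Fintype α] [DecidableEq α] [Field K]

/-- Sum of `g` over the `n`-sets containing `Z`. -/
def up (n : ℕ) (g : Finset α → K) (Z : Finset α) : K :=
  ∑ X ∈ (univ : Finset (Finset α)).filter (fun X => X.card = n ∧ Z ⊆ X), g X

lemma up_choose (n i : ℕ) (g : Finset α → K) (Z : Finset α) :
    ∑ U ∈ Zᶜ.powersetCard i, up n g (Z ∪ U) = ((n - Z.card).choose i : K) * up n g Z := by
  unfold up
  rw [Finset.mul_sum, Finset.sum_comm' (t' := (univ : Finset (Finset α)).filter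
    (fun X => X.card = n ∧ Z ⊆ X)) (s' := fun X => (X \ Z).powersetCard i)]
  · refine Finset.sum_congr rfl fun X hX => ?_
    simp only [mem_filter, mem_univ, true_and] at hX
    rw [Finset.sum_const, nsmul_eq_mul, card_powersetCard, card_sdiff_of_subset hX.2, hX.1]
  · intro U X
    simp only [mem_filter, mem_univ, true_and, mem_powersetCard, union_subset_iff, subset_sdiff,
      subset_compl_iff_disjoint_right]
    tauto

lemma up_zero_of (n i : ℕ) (g : Finset α → K) (Z : Finset α)
    (hc : ((n - Z.card).choose i : K) ≠ 0)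
    (h : ∀ Y : Finset α, Z ⊆ Y → Y.card = Z.card + i → up n g Y = 0) : up n g Z = 0 := by
  have h1 := up_choose n i g Z
  rw [Finset.sum_eq_zero] at h1
  · exact (mul_eq_zero.1 h1.symm).resolve_left hc
  · intro U hU
    rw [mem_powersetCard, subset_compl_iff_disjoint_left] at hU
    exact h _ subset_union_left (by rw [card_union_of_disjoint hU.1, hU.2])

lemma up_down (n m : ℕ) (g : Finset α → K) (Z : Finset α)
    (hk : ∀ j : ℕ, n - m < j → j + Z.card ≤ n → (j : K) ≠ 0) (hm : m ≤ n)
    (h : ∀ Y : Finset α, Z ⊆ Y → Y.card = m → up n g Y = 0) :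
    ∀ (d : ℕ) (Y : Finset α), Z ⊆ Y → Y.card + d = m → up n g Y = 0 := by
  intro d
  induction d with
  | zero => exact fun Y h1 h2 => h Y h1 h2
  | succ d ih =>
    intro Y h1 h2
    have h3 := card_le_card h1
    refine up_zero_of n 1 g Y ?_ fun Y' h4 h5 => ih Y' (h1.trans h4) (by omega)
    rw [Nat.choose_one_right]
    exact hk _ (by omega) (by omega)

lemma up_top (n : ℕ) (g : Finset α → K) (X : Finset α) (hX : X.card = n) : up n g X = g X := by
  unfold up
  rw [Finset.sum_eq_single X]
  · intro Y hY hne
    simp only [mem_filter, mem_univ, true_and] at hY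
    exact absurd (Finset.eq_of_subset_of_card_le hY.2 (by omega)).symm hne
  · intro h
    exact absurd (by simp [hX]) h

lemma up_big (n : ℕ) (g : Finset α → K) (X : Finset α) (hX : n < X.card) : up n g X = 0 := by
  refine Finset.sum_eq_zero fun Y hY => ?_
  simp only [mem_filter, mem_univ, true_and] at hY
  have := card_le_card hY.2
  omega

lemma up_ridge (n : ℕ) (g : Finset α → K) (R : Finset α) (hR : R.card + 1 = n) :
    up n g R = ∑ y ∈ Rᶜ, g (insert y R) := by
  have h := up_choose n 1 g R
  rw [show n - R.card = 1 by omega, Nat.choose_self, Nat.cast_one, one_mul, powersetCard_one,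
    Finset.sum_map] at h
  rw [← h]
  refine Finset.sum_congr rfl fun y hy => ?_
  have e : R ∪ {y} = insert y R := by
    rw [union_comm]
    rfl
  rw [Function.Embedding.coeFn_mk, e, up_top]
  rw [card_insert_of_notMem (mem_compl.1 hy), hR]

lemma incl_excl (n : ℕ) (g : Finset α → K) (Z Y : Finset α) (hZ : Z.card < n)
    (h : ∀ Z' : Finset α, Z ⊆ Z' → Z.card < Z'.card → Z'.card < n → up n g Z' = 0) :
    ∑ X ∈ (univ : Finset (Finset α)).filter
        (fun X => (X.card = n ∧ Z ⊆ X) ∧ Disjoint (X \ Z) Y), g X =
      up n g Z + (-1) ^ (n - Z.card) * ∑ X ∈ (univ : Finset (Finset α)).filter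
        (fun X => (X.card = n ∧ Z ⊆ X) ∧ X \ Z ⊆ Y), g X := by
  have h1 : ∑ X ∈ (univ : Finset (Finset α)).filter
      (fun X => (X.card = n ∧ Z ⊆ X) ∧ Disjoint (X \ Z) Y), g X =
      ∑ U ∈ (Y \ Z).powerset, (-1) ^ U.card * up n g (Z ∪ U) := by
    simp only [up, Finset.mul_sum]
    rw [Finset.sum_comm' (t' := (univ : Finset (Finset α)).filter
      (fun X => X.card = n ∧ Z ⊆ X)) (s' := fun X => ((X \ Z) ∩ Y).powerset), ← filter_filter,
      Finset.sum_filter]
    · refine Finset.sum_congr rfl fun X _ => ?_
      have h2 := congrArg (Int.cast : ℤ → K) (sum_powerset_neg_one_pow_card (x := (X \ Z) ∩ Y))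
      push_cast at h2
      rw [← Finset.sum_mul, h2]
      simp only [disjoint_iff_inter_eq_empty, ite_mul, one_mul, zero_mul]
    · intro U X
      simp only [mem_filter, mem_univ, true_and, mem_powerset, union_subset_iff, subset_sdiff,
        subset_inter_iff]
      tauto
  rw [h1, ← Finset.add_sum_erase _ _ (empty_mem_powerset _), card_empty, pow_zero, one_mul,
    union_empty, Finset.mul_sum]
  congr 1
  rw [← Finset.sum_filter_of_ne (p := fun U => Z.card + U.card = n)]
  · refine Finset.sum_nbij' (fun U => Z ∪ U) (fun X => X \ Z) ?_ ?_ ?_ ?_ ?_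
    · intro U hU
      simp only [mem_filter, mem_erase, mem_powerset, subset_sdiff, mem_univ, true_and] at hU ⊢
      refine ⟨⟨by rw [card_union_of_disjoint hU.1.2.2.symm, hU.2], subset_union_left⟩, ?_⟩
      rw [union_sdiff_cancel_left hU.1.2.2.symm]
      exact hU.1.2.1
    · intro X hX
      simp only [mem_filter, mem_erase, mem_powerset, subset_sdiff, mem_univ, true_and] at hX ⊢
      have h2 := card_sdiff_of_subset hX.1.2
      refine ⟨⟨fun h3 => ?_, hX.2, sdiff_disjoint⟩, by omega⟩
      rw [h3, card_empty] at h2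
      omega
    · intro U hU
      simp only [mem_filter, mem_erase, mem_powerset, subset_sdiff] at hU
      exact union_sdiff_cancel_left hU.1.2.2.symm
    · intro X hX
      simp only [mem_filter, mem_univ, true_and] at hX
      exact union_sdiff_of_subset hX.1.2
    · intro U hU
      simp only [mem_filter, mem_erase, mem_powerset, subset_sdiff] at hU
      rw [up_top n g _ (by rw [card_union_of_disjoint hU.1.2.2.symm, hU.2]),
        show n - Z.card = U.card by omega]
  · intro U hU hne
    simp only [mem_erase, mem_powerset, subset_sdiff] at hU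
    have h2 := card_union_of_disjoint hU.2.2.symm
    have h3 : 0 < U.card := card_pos.2 (nonempty_iff_ne_empty.2 hU.1)
    by_contra h4
    apply hne
    rcases lt_or_gt_of_ne h4 with h5 | h5
    · rw [h _ subset_union_left (by omega) (by omega), mul_zero]
    · rw [up_big n g _ (by omega), mul_zero]

end Pool.Agent.Lib.MP_b1ff30_co
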