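import Mathlib

set_option autoImplicit false

namespace Pool.Agent.Lib.MP_b1ff30_co

open Finset Matrix Submodule

variable {α ι K : Type*} [DecidableEq α] [Fintype ι] [DecidableEq ι] [Field K]

/-- The sum of the rank one matrices of the labels in `X`. -/
def MM (a b : α → ι → K) (X : Finset α) : Matrix ι ι K := ∑ y ∈ X, vecMulVec (a y) (b y)

/-- The weight of `R` together with one more label `(x, x')`. -/
def GG (a b : α → ι → K) (R : Finset α) (x x' : ι → K) : K := (MM a b R + vecMulVec x x').det

lemma det_sum (u u' : ι → ι → K) :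
    (∑ i, vecMulVec (u i) (u' i)).det = (of u).det * (of u').det := by
  rw [← det_transpose (of u), ← det_mul]
  congr 1
  ext i j
  simp [Matrix.sum_apply, vecMulVec_apply, Matrix.mul_apply]

lemma GG_insert (a b : α → ι → K) {R : Finset α} {y : α} (hy : y ∉ R) :
    GG a b R (a y) (b y) = (MM a b (insert y R)).det := by
  rw [GG, MM, MM, sum_insert hy, add_comm]

/-- `n` is a normal functional of the family `a` on `R`. -/
def Nrm (a : α → ι → K) (R : Finset α) (n : (ι → K) →ₗ[K] K) : Prop :=
  (∀ x ∈ span K (a '' R), n x = 0) ∧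
    (n ≠ 0 → LinearIndepOn K a R ∧ ∀ x, n x = 0 → x ∈ span K (a '' R)) ∧
    (LinearIndepOn K a R → n ≠ 0)

omit [DecidableEq α] in
lemma exists_nrm (a : α → ι → K) (R : Finset α) (e : Option R ≃ ι) :
    ∃ n : (ι → K) →ₗ[K] K,
      (∀ x, n x = (of fun i => (e.symm i).elim x fun y => a y).det) ∧ Nrm a R n := by
  have h1 : ∀ x, ((LinearMap.proj (e none)).comp
      (cramer (of fun i => (e.symm i).elim 0 fun y => a y)ᵀ) : (ι → K) →ₗ[K] K) x =
      (of fun i => (e.symm i).elim x fun y => a y).det := by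
    intro x
    rw [LinearMap.comp_apply, LinearMap.proj_apply, cramer_transpose_apply]
    congr 1
    ext i j
    obtain ⟨o, rfl⟩ := e.surjective i
    cases o with
    | none => simp
    | some y => simp [updateRow_apply]
  refine ⟨_, h1, ?_⟩
  generalize ((LinearMap.proj (e none)).comp
    (cramer (of fun i => (e.symm i).elim 0 fun y => a y)ᵀ) : (ι → K) →ₗ[K] K) = n at h1
  have h2 : ∀ x ∈ span K (a '' R), n x = 0 := by
    intro x hx
    refine (span_le (p := LinearMap.ker n)).2 ?_ hx
    rintro _ ⟨y, hy, rfl⟩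
    rw [SetLike.mem_coe, LinearMap.mem_ker, h1]
    refine det_zero_of_row_eq (i := e none) (j := e (some ⟨y, hy⟩)) (by simp) ?_
    ext j
    simp
  refine ⟨h2, fun hn => ?_, fun hi => ?_⟩
  · obtain ⟨x₀, hx₀⟩ := DFunLike.ne_iff.1 hn
    rw [LinearMap.zero_apply] at hx₀
    have h3 := linearIndependent_rows_of_det_ne_zero (h1 x₀ ▸ hx₀)
    constructor
    · have h4 := h3.comp (fun y : R => e (some y)) (e.injective.comp (Option.some_injective _))
      have e1 : (fun y : R => a y) = ((of fun i => (e.symm i).elim x₀ fun y => a y).row ∘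
          fun y : R => e (some y)) := by
        ext y j
        simp
      exact (e1 ▸ h4 : LinearIndependent K fun y : R => a y)
    · intro x hx
      have h4 := h3.span_eq_top_of_card_eq_finrank' (by simp)
      have h5 : x ∈ span K (insert x₀ (a '' R)) := by
        refine span_mono ?_ (h4.ge mem_top)
        rintro _ ⟨i, rfl⟩
        obtain ⟨o, rfl⟩ := e.surjective i
        cases o with
        | none => exact Or.inl (by ext j; simp)
        | some y => exact Or.inr ⟨y, y.2, by ext j; simp⟩
      obtain ⟨c, z, hz, rfl⟩ := mem_span_insert.1 h5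
      rw [map_add, map_smul, h2 z hz, add_zero, smul_eq_mul, mul_eq_zero] at hx
      rw [hx.resolve_right hx₀, zero_smul, zero_add]
      exact hz
  · have h3 : span K (Set.range fun y : R => a y) < ⊤ := by
      classical
      apply span_lt_top_of_card_lt_finrank
      have h4 := Fintype.card_congr e
      have h5 := Fintype.card_range_le fun y : R => a y
      simp only [Fintype.card_option, Module.finrank_fintype_fun_eq_card, Set.toFinset_card] at *
      omega
    obtain ⟨x, -, hx⟩ := SetLike.exists_of_lt h3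
    have h4 := (LinearIndependent.option hi hx).comp e.symm e.symm.injective
    intro hn
    have h5 : IsUnit (of fun i => (e.symm i).elim x fun y => a y) := by
      rw [← linearIndependent_rows_iff_isUnit]
      have e1 : (of fun i => (e.symm i).elim x fun y : R => a y).row =
          (fun o : Option R => o.casesOn' x fun y => a y) ∘ e.symm := by
        ext i j
        simp only [Matrix.row, of_apply, Function.comp]
        cases e.symm i <;> rfl
      rw [e1]
      exact h4
    have h6 := ((isUnit_iff_isUnit_det _).1 h5).ne_zero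
    rw [← h1, hn] at h6
    exact h6 rfl

omit [DecidableEq α] in
lemma ridge (a b : α → ι → K) (R : Finset α) (hR : R.card + 1 = Fintype.card ι) :
    ∃ na nb : (ι → K) →ₗ[K] K, (∀ x x', GG a b R x x' = na x * nb x') ∧ Nrm a R na ∧ Nrm b R nb := by
  obtain ⟨e⟩ : Nonempty (Option R ≃ ι) := Fintype.card_eq.1 (by simpa using hR)
  obtain ⟨na, h1, h2⟩ := exists_nrm a R e
  obtain ⟨nb, h3, h4⟩ := exists_nrm b R e
  refine ⟨na, nb, fun x x' => ?_, h2, h4⟩
  rw [h1, h3, ← det_sum, ← e.sum_comp, Fintype.sum_option, GG, MM, add_comm, ← sum_coe_sort]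
  simp

lemma cramer_GG (a b : α → ι → K) (N : Finset α) (hN : N.card = Fintype.card ι) (x : ι → K) :
    ∑ y ∈ N, GG a b (N.erase y) x (b y) • a y = (MM a b N).det • x := by
  obtain ⟨e⟩ : Nonempty (ι ≃ N) := Fintype.card_eq.1 (by simpa using hN.symm)
  have h1 : MM a b N = ∑ i, vecMulVec (a (e i)) (b (e i)) := by
    rw [MM, ← sum_coe_sort, ← e.sum_comp]
  have h2 : ∀ i, GG a b (N.erase (e i)) x (b (e i)) =
      cramer (of fun i => a (e i))ᵀ x i * (of fun i => b (e i)).det := by
    intro i
    have h3 := det_sum ((of fun i => a (e i)).updateRow i x) fun i => b (e i)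
    rw [cramer_transpose_apply]
    refine Eq.trans ?_ h3
    rw [GG, ← add_sum_erase _ _ (mem_univ i), updateRow_self, add_comm]
    congr 2
    have h4 : MM a b (N.erase (e i)) = MM a b N - vecMulVec (a (e i)) (b (e i)) := by
      rw [MM, MM, sum_erase_eq_sub (e i).2]
    rw [h4, h1, ← sum_erase_eq_sub (mem_univ i)]
    refine sum_congr rfl fun j hj => ?_
    rw [updateRow_ne (ne_of_mem_erase hj)]
    rfl
  rw [← sum_coe_sort, ← e.sum_comp, h1, det_sum, mul_comm, mul_smul,
    ← det_transpose (of fun i => a (e i)), ← mulVec_cramer (of fun i => a (e i))ᵀ x]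
  simp only [h2]
  ext j
  simp only [Finset.sum_apply, Pi.smul_apply, smul_eq_mul, mulVec, dotProduct, transpose_apply,
    of_apply, mul_sum]
  exact sum_congr rfl fun i _ => by ring

omit [DecidableEq α] in
lemma state_left (a b : α → ι → K) (N : Finset α) (hN : N.card = Fintype.card ι)
    (h : (MM a b N).det ≠ 0) : LinearIndepOn K a N ∧ span K (a '' N) = ⊤ := by
  obtain ⟨e⟩ : Nonempty (ι ≃ N) := Fintype.card_eq.1 (by simpa using hN.symm)
  have h1 : MM a b N = ∑ i, vecMulVec (a (e i)) (b (e i)) := by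
    rw [MM, ← sum_coe_sort, ← e.sum_comp]
  rw [h1, det_sum] at h
  have h2 := (linearIndependent_rows_of_det_ne_zero (left_ne_zero_of_mul h)).comp e.symm
    e.symm.injective
  have h3 : LinearIndepOn K a N := by
    have e1 : (fun y : N => a y) = (of fun i => a (e i)).row ∘ e.symm := by
      ext y j
      simp
    exact (e1 ▸ h2 : LinearIndependent K fun y : N => a y)
  refine ⟨h3, ?_⟩
  rw [Set.image_eq_range]
  exact h3.span_eq_top_of_card_eq_finrank' (by simpa using hN)

omit [DecidableEq α] [Fintype ι] [DecidableEq ι] in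
lemma MM_transpose (a b : α → ι → K) (N : Finset α) : (MM a b N)ᵀ = MM b a N := by
  ext i j
  simp [MM, Matrix.sum_apply, vecMulVec_apply, mul_comm]

omit [DecidableEq α] in
lemma state_right (a b : α → ι → K) (N : Finset α) (hN : N.card = Fintype.card ι)
    (h : (MM a b N).det ≠ 0) : LinearIndepOn K b N ∧ span K (b '' N) = ⊤ :=
  state_left b a N hN (by rwa [← MM_transpose, det_transpose])

omit [DecidableEq α] in
lemma pair_sum [Fintype α] (a b : α → ι → K) (hs : MM a b univ = 0) (l m : (ι → K) →ₗ[K] K) :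
    ∑ q, l (a q) * m (b q) = 0 := by
  have h : ∀ i j, ∑ q, a q i * b q j = 0 := fun i j => by
    simpa [MM, Matrix.sum_apply, vecMulVec_apply] using congrFun (congrFun hs i) j
  simp only [LinearMap.pi_apply_eq_sum_univ l (a _), LinearMap.pi_apply_eq_sum_univ m (b _),
    sum_mul_sum, smul_eq_mul]
  rw [sum_comm]
  refine sum_eq_zero fun i _ => ?_
  rw [sum_comm]
  refine sum_eq_zero fun j _ => ?_
  simp only [mul_mul_mul_comm (a _ i), ← sum_mul, h, zero_mul]

lemma span_core {W : Type*} [AddCommGroup W] [Module K W] (a : α → W) (N J : Finset α)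
    (hi : LinearIndepOn K a N) (v : W) (hv : v ∈ span K (a '' N))
    (hJ : ∀ z ∈ N, z ∉ J → v ∈ span K (a '' (N.erase z))) : v ∈ span K (a '' J) := by
  obtain ⟨c, rfl⟩ := (mem_span_image_finset_iff_exists_fun' K).1 hv
  refine sum_mem fun z hz => ?_
  by_cases h : z ∈ J
  · exact smul_mem _ _ (subset_span ⟨z, h, rfl⟩)
  by_cases hc : c z = 0
  · rw [hc, zero_smul]
    exact zero_mem _
  exfalso
  have h1 := hJ z hz h
  have h2 : ∑ y ∈ N.erase z, c y • a y ∈ span K (a '' (N.erase z)) :=
    sum_mem fun y hy => smul_mem _ _ (subset_span ⟨y, hy, rfl⟩)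
  rw [← add_sum_erase _ _ hz, add_mem_cancel_right h2, smul_mem_iff _ hc, coe_erase] at h1
  exact linearIndepOn_iff_notMem_span.1 hi z hz h1

lemma prop_of_ker {W : Type*} [AddCommGroup W] [Module K W] (f g : W →ₗ[K] K)
    (h : ∀ x, f x = 0 → g x = 0) : ∃ c : K, ∀ x, g x = c * f x := by
  by_cases hf : ∃ x₀, f x₀ ≠ 0
  · obtain ⟨x₀, hx₀⟩ := hf
    refine ⟨g x₀ / f x₀, fun x => ?_⟩
    have h1 := h (f x₀ • x - f x • x₀) (by simp [mul_comm])
    simp only [map_sub, map_smul, smul_eq_mul] at h1
    field_simp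
    linear_combination h1
  · push Not at hf
    exact ⟨0, fun x => by rw [h x (hf x), zero_mul]⟩

lemma zero_of_span {W : Type*} [AddCommGroup W] [Module K W] (f : W →ₗ[K] K) (s : Set W)
    (h : ∀ x ∈ s, f x = 0) : ∀ x ∈ span K s, f x = 0 := fun _ hx =>
  (span_le (p := LinearMap.ker f)).2 h hx

omit [DecidableEq α] in
lemma card_le_of_span {W : Type*} [AddCommGroup W] [Module K W] (b : α → W) (U J : Finset α)
    (hi : LinearIndepOn K b U) (h : ∀ u ∈ U, b u ∈ span K (b '' J)) : U.card ≤ J.card := by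
  classical
  have h1 := linearIndependent_le_span_aux' (fun u : U => b u) hi (J.image b : Set W) (by
    rintro _ ⟨u, rfl⟩
    rw [coe_image]
    exact h u u.2)
  simp only [Fintype.card_coe, coe_sort_coe] at h1
  exact h1.trans card_image_le

omit [DecidableEq α] in
lemma bilin_zero {W : Type*} [AddCommGroup W] [Module K W] (s : Finset α) (l m : α → W →ₗ[K] K)
    (A B : Set W) (hA : span K A = ⊤) (hB : span K B = ⊤)
    (h : ∀ x ∈ A, ∀ x' ∈ B, ∑ q ∈ s, l q x * m q x' = 0) (x x' : W) :
    ∑ q ∈ s, l q x * m q x' = 0 := by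
  have h1 : ∀ x' ∈ B, ∑ q ∈ s, l q x * m q x' = 0 := fun x' hx' => by
    have := zero_of_span (∑ q ∈ s, m q x' • l q) A (fun x hx => by
      simpa [LinearMap.sum_apply, mul_comm] using h x hx x' hx') x (hA.ge mem_top)
    simpa [LinearMap.sum_apply, mul_comm] using this
  have := zero_of_span (∑ q ∈ s, l q x • m q) B (fun x' hx' => by
    simpa [LinearMap.sum_apply] using h1 x' hx') x' (hB.ge mem_top)
  simpa [LinearMap.sum_apply] using this

omit [Fintype ι] [DecidableEq ι] in
lemma ker_eq_iff (a : α → ι → K) (Z : Finset α) (u v : α) (nu nv : (ι → K) →ₗ[K] K)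
    (hu : Nrm a (insert u Z) nu) (hv : Nrm a (insert v Z) nv) (hu0 : nu ≠ 0) (hv0 : nv ≠ 0) :
    nu (a v) = 0 ↔ LinearMap.ker nu = LinearMap.ker nv := by
  constructor
  · intro h
    obtain ⟨c, hc⟩ := prop_of_ker nv nu fun x hx => by
      refine zero_of_span nu _ ?_ x ((hv.2.1 hv0).2 x hx)
      rintro _ ⟨y, hy, rfl⟩
      rcases mem_insert.1 hy with rfl | hy
      · exact h
      · exact hu.1 _ (subset_span ⟨y, mem_insert_of_mem hy, rfl⟩)
    have hc0 : c ≠ 0 := by
      rintro rfl
      exact hu0 (LinearMap.ext fun x => by simpa using hc x)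
    ext x
    simp [hc, hc0]
  · intro h
    rw [← LinearMap.mem_ker, h]
    exact hv.1 _ (subset_span ⟨v, mem_insert_self _ _, rfl⟩)

lemma total_two [Fintype α] (a b : α → ι → K) (hs : MM a b univ = 0) (Z : Finset α)
    (hZ : Z.card + 2 = Fintype.card ι) (x x' : ι → K) :
    ∑ q ∈ Zᶜ, GG a b (insert q Z) x x' = 0 := by
  obtain ⟨l, m, h1, h2, -⟩ := ridge (fun o : Option α => o.elim x a) (fun o => o.elim x' b)
    (insertNone Z) (by rw [card_insertNone]; omega)
  rw [← pair_sum a b hs l m, ← sum_add_sum_compl Z, sum_eq_zero (s := Z), zero_add]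
  · refine sum_congr rfl fun q hq => ?_
    rw [← h1, GG, GG, MM, MM, sum_insert (mem_compl.1 hq), sum_insertNone]
    congr 1
    simp only [Option.elim]
    abel
  · intro q hq
    rw [h2.1 (a q) (subset_span ⟨some q, by simpa using hq, rfl⟩), zero_mul]

end Pool.Agent.Lib.MP_b1ff30_co
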