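import Pool.Agent.Lib.MP_b1ff30_co.Sq1
import Pool.Agent.Lib.MP_b1ff30_co.Sq2

set_option autoImplicit false

namespace Pool.Agent.Lib.MP_b1ff30_co

open Finset Matrix Submodule
open scoped Classical

variable {α ι K : Type*} [Fintype α] [DecidableEq α] [Fintype ι] [DecidableEq ι] [Field K]

/-- The weight restricted to the class `P`. -/
noncomputable def fw (a b : α → ι → K) (P : Finset α → Prop) (X : Finset α) : K :=
  if P X then (MM a b X).det else 0

/-- The ridge `R` lies in a state of the class `P`. -/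
def col (a b : α → ι → K) (P : Finset α → Prop) (R : Finset α) : Prop :=
  ∃ q, q ∉ R ∧ (MM a b (insert q R)).det ≠ 0 ∧ P (insert q R)

/-- The class `P` is closed under exchanges between states. -/
def Closed (a b : α → ι → K) (P : Finset α → Prop) : Prop :=
  ∀ (F : Finset α) (y z : α), y ∉ F → z ∉ F → F.card + 1 = Fintype.card ι →
    (MM a b (insert y F)).det ≠ 0 → (MM a b (insert z F)).det ≠ 0 → P (insert y F) → P (insert z F)

/-- The adjugate weight of a ridge, restricted to the class `P`. -/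
noncomputable def aw (a b : α → ι → K) (P : Finset α → Prop) (x x' : ι → K) (R : Finset α) : K :=
  if col a b P R then GG a b R x x' else 0

variable {a b : α → ι → K} {P : Finset α → Prop}

omit [Fintype α] in
lemma col_iff (hP : Closed a b P) {R : Finset α} (hR : R.card + 1 = Fintype.card ι) {y : α}
    (hy : y ∉ R) (h : (MM a b (insert y R)).det ≠ 0) : col a b P R ↔ P (insert y R) :=
  ⟨fun ⟨q, h1, h2, h3⟩ => hP R q y h1 hy hR h2 h h3, fun h1 => ⟨y, hy, h, h1⟩⟩

omit [Fintype α] in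
lemma fw_insert (hP : Closed a b P) {R : Finset α} (hR : R.card + 1 = Fintype.card ι) {y : α}
    (hy : y ∉ R) : fw a b P (insert y R) = aw a b P (a y) (b y) R := by
  rw [fw, aw, GG_insert a b hy]
  by_cases h : (MM a b (insert y R)).det = 0
  · simp [h]
  · simp only [col_iff hP hR hy h]

lemma up_one (hs : MM a b univ = 0) (hP : Closed a b P) {R : Finset α}
    (hR : R.card + 1 = Fintype.card ι) : up (Fintype.card ι) (fw a b P) R = 0 := by
  obtain ⟨l, m, h1, h2, -⟩ := ridge a b R hR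
  rw [up_ridge _ _ _ hR, sum_congr rfl fun y hy => fw_insert hP hR (mem_compl.1 hy)]
  simp only [aw]
  split_ifs
  · rw [← pair_sum a b hs l m, ← sum_add_sum_compl R, sum_eq_zero (s := R), zero_add]
    · simp only [h1]
    · intro q hq
      rw [h2.1 (a q) (subset_span ⟨q, hq, rfl⟩), zero_mul]
  · simp

/-- The data of a failing link. -/
structure Bad (a b : α → ι → K) (P : Finset α → Prop) (Z : Finset α)
    (na nb : Finset α → (ι → K) →ₗ[K] K) : Prop where
  hs : MM a b univ = 0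
  hP : Closed a b P
  hZ : Z.card + 2 ≤ Fintype.card ι
  hS : ∀ Z' : Finset α, Z ⊆ Z' → Z.card < Z'.card → Z'.card < Fintype.card ι →
    up (Fintype.card ι) (fw a b P) Z' = 0
  hc : up (Fintype.card ι) (fw a b P) Z ≠ 0
  hG : ∀ R : Finset α, R.card + 1 = Fintype.card ι → ∀ x x', GG a b R x x' = na R x * nb R x'
  hA : ∀ R : Finset α, R.card + 1 = Fintype.card ι → Nrm a R (na R)
  hB : ∀ R : Finset α, R.card + 1 = Fintype.card ι → Nrm b R (nb R)

variable {Z : Finset α} {na nb : Finset α → (ι → K) →ₗ[K] K}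

omit [Fintype α] [DecidableEq α] in
lemma kill_left {X : Finset α} (hX : X.card = Fintype.card ι) (φ : (ι → K) →ₗ[K] K) (hφ : φ ≠ 0)
    (h : ∀ y ∈ X, φ (a y) = 0) : (MM a b X).det = 0 := by
  by_contra h1
  refine hφ (LinearMap.ext fun x => zero_of_span φ _ ?_ x ((state_left a b X hX h1).2.ge mem_top))
  rintro _ ⟨y, hy, rfl⟩
  exact h y hy

omit [Fintype α] [DecidableEq α] in
lemma kill_right {X : Finset α} (hX : X.card = Fintype.card ι) (φ : (ι → K) →ₗ[K] K) (hφ : φ ≠ 0)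
    (h : ∀ y ∈ X, φ (b y) = 0) : (MM a b X).det = 0 := by
  rw [← det_transpose, MM_transpose]
  exact kill_left hX φ hφ h

lemma Bad.nodead (h : Bad a b P Z na nb) {R : Finset α} (hZR : Z ⊆ R)
    (hR : R.card + 1 = Fintype.card ι) (ha : na R ≠ 0) (hb : nb R ≠ 0) :
    ∃ q, q ∉ R ∧ (MM a b (insert q R)).det ≠ 0 := by
  by_contra h1
  push Not at h1
  have h2 := incl_excl _ (fw a b P) Z (univ.filter fun q => na R (a q) ≠ 0)
    (by have := h.hZ; omega) h.hS
  rw [sum_eq_zero, sum_eq_zero, mul_zero, add_zero] at h2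
  · exact h.hc h2.symm
  · intro X hX
    simp only [mem_filter, mem_univ, true_and] at hX
    rw [fw, kill_right hX.1.1 (nb R) hb, ite_self]
    intro y hy
    by_cases hyR : y ∈ R
    · exact (h.hB R hR).1 _ (subset_span ⟨y, hyR, rfl⟩)
    · have h3 := h1 y hyR
      rw [← GG_insert a b hyR, h.hG R hR, mul_eq_zero] at h3
      exact h3.resolve_left (mem_filter.1 (hX.2 (mem_sdiff.2 ⟨hy, fun h4 => hyR (hZR h4)⟩))).2
  · intro X hX
    simp only [mem_filter, mem_univ, true_and] at hX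
    rw [fw, kill_left hX.1.1 (na R) ha, ite_self]
    intro y hy
    by_cases hyZ : y ∈ Z
    · exact (h.hA R hR).1 _ (subset_span ⟨y, hZR hyZ, rfl⟩)
    · simpa using disjoint_left.1 hX.2 (mem_sdiff.2 ⟨hy, hyZ⟩)

lemma cell {S T : Type*} {A1 A1' A2 A2' A : S} {B1 B1' B2 B2' B : T} (e1 : A1 ≠ A1')
    (e2 : B1 ≠ B1') (e3 : A2 ≠ A2') (e4 : B2 ≠ B2') (h1 : A1 = A2 ∨ B1 = B2)
    (h2 : A1 = A2' ∨ B1 = B2') (h3 : A1' = A2 ∨ B1' = B2) (h4 : A1' = A2' ∨ B1' = B2')
    (h5 : A1 = A ∨ B1 = B) (h6 : A1' = A ∨ B1' = B) : A = A2 ∨ B = B2' := by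
  grind

lemma Bad.adj_two (h : Bad a b P Z na nb) {Y : Finset α} (hZY : Z ⊆ Y)
    (hY : Y.card + 2 = Fintype.card ι) (x x' : ι → K) :
    up (Fintype.card ι - 1) (aw a b P x x') Y = 0 := by
  rw [up_ridge _ _ _ (by omega)]
  have hR : ∀ q, q ∉ Y → (insert q Y).card + 1 = Fintype.card ι := fun q hq => by
    rw [card_insert_of_notMem hq]
    omega
  have hst : ∀ u v, u ∉ Y → v ∉ Y → na (insert u Y) (a v) * nb (insert u Y) (b v) ≠ 0 →
      v ∉ insert u Y ∧ (MM a b (insert v (insert u Y))).det ≠ 0 := by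
    intro u v hu _ h1
    have h2 : v ∉ insert u Y := fun h3 =>
      h1 (by rw [(h.hA _ (hR u hu)).1 _ (subset_span ⟨v, h3, rfl⟩), zero_mul])
    exact ⟨h2, by rwa [← GG_insert a b h2, h.hG _ (hR u hu)]⟩
  have hX : ∀ u v, u ∉ Y → v ∉ Y → col a b P (insert u Y) → ¬ col a b P (insert v Y) →
      na (insert u Y) (a v) * nb (insert u Y) (b v) = 0 := by
    intro u v hu hv h1 h2
    by_contra h3
    obtain ⟨h4, h5⟩ := hst u v hu hv h3
    have h6 := (col_iff h.hP (hR u hu) h4 h5).1 h1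
    rw [insert_comm] at h5 h6
    refine h2 ⟨u, fun h7 => ?_, h5, h6⟩
    rcases mem_insert.1 h7 with rfl | h7
    · exact h4 (mem_insert_self _ _)
    · exact hu h7
  have hpart : ∀ u v, u ∉ Y → v ∉ insert u Y → (MM a b (insert v (insert u Y))).det ≠ 0 →
      v ∉ Y ∧ (col a b P (insert v Y) ↔ col a b P (insert u Y)) ∧
      (na (insert u Y) ≠ 0 ∧ nb (insert u Y) ≠ 0) ∧ (na (insert v Y) ≠ 0 ∧ nb (insert v Y) ≠ 0) ∧
      LinearMap.ker (na (insert u Y)) ≠ LinearMap.ker (na (insert v Y)) ∧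
      LinearMap.ker (nb (insert u Y)) ≠ LinearMap.ker (nb (insert v Y)) := by
    intro u v hu hv h1
    have hvY : v ∉ Y := fun h2 => hv (mem_insert_of_mem h2)
    have huv : u ∉ insert v Y := fun h2 => by
      rcases mem_insert.1 h2 with rfl | h2
      · exact hv (mem_insert_self _ _)
      · exact hu h2
    have h2 := h1
    rw [insert_comm] at h2
    have h3 := h1
    have h4 := h2
    rw [← GG_insert a b hv, h.hG _ (hR u hu), mul_ne_zero_iff] at h3
    rw [← GG_insert a b huv, h.hG _ (hR v hvY), mul_ne_zero_iff] at h4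
    have e1 : na (insert u Y) ≠ 0 := fun e => h3.1 (by rw [e]; rfl)
    have e2 : nb (insert u Y) ≠ 0 := fun e => h3.2 (by rw [e]; rfl)
    have e3 : na (insert v Y) ≠ 0 := fun e => h4.1 (by rw [e]; rfl)
    have e4 : nb (insert v Y) ≠ 0 := fun e => h4.2 (by rw [e]; rfl)
    refine ⟨hvY, ?_, ⟨e1, e2⟩, ⟨e3, e4⟩, ?_, ?_⟩
    · rw [col_iff h.hP (hR u hu) hv h1, col_iff h.hP (hR v hvY) huv h2, insert_comm]
    · exact fun e => h3.1 ((ker_eq_iff a Y u v _ _ (h.hA _ (hR u hu)) (h.hA _ (hR v hvY)) e1 e3).2 e)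
    · exact fun e => h3.2 ((ker_eq_iff b Y u v _ _ (h.hB _ (hR u hu)) (h.hB _ (hR v hvY)) e2 e4).2 e)
  have hK : ∀ u v, u ∉ Y → v ∉ Y → col a b P (insert u Y) → ¬ col a b P (insert v Y) →
      na (insert v Y) ≠ 0 ∧ nb (insert v Y) ≠ 0 →
      LinearMap.ker (na (insert u Y)) = LinearMap.ker (na (insert v Y)) ∨
      LinearMap.ker (nb (insert u Y)) = LinearMap.ker (nb (insert v Y)) := by
    intro u v hu hv h1 h2 h3
    obtain ⟨q, e1, e2, -⟩ := id h1
    have e3 := (hpart u q hu e1 e2).2.2.1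
    exact (mul_eq_zero.1 (hX u v hu hv h1 h2)).imp
      (ker_eq_iff a Y u v _ _ (h.hA _ (hR u hu)) (h.hA _ (hR v hv)) e3.1 h3.1).1
      (ker_eq_iff b Y u v _ _ (h.hB _ (hR u hu)) (h.hB _ (hR v hv)) e3.2 h3.2).1
  have htot : ∀ x x', ∑ q ∈ Yᶜ.filter (fun q => col a b P (insert q Y)),
      na (insert q Y) x * nb (insert q Y) x' + ∑ q ∈ Yᶜ.filter (fun q => ¬ col a b P (insert q Y)),
      na (insert q Y) x * nb (insert q Y) x' = 0 := fun x x' => by
    rw [sum_filter_add_sum_filter_not, ← total_two a b h.hs Y hY x x']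
    exact sum_congr rfl fun q hq => (h.hG _ (hR q (mem_compl.1 hq)) x x').symm
  have e0 : ∑ q ∈ Yᶜ, aw a b P x x' (insert q Y) = ∑ q ∈ Yᶜ.filter (fun q => col a b P (insert q Y)),
      na (insert q Y) x * nb (insert q Y) x' := by
    rw [sum_filter]
    exact sum_congr rfl fun q hq => by rw [aw, h.hG _ (hR q (mem_compl.1 hq))]
  rw [e0]
  by_cases h1 : ∃ q, q ∉ Y ∧ col a b P (insert q Y)
  swap
  · refine sum_eq_zero fun q hq => absurd ⟨q, mem_compl.1 (mem_filter.1 hq).1, (mem_filter.1 hq).2⟩ h1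
  by_cases h2 : ∃ q, q ∉ Y ∧ ¬ col a b P (insert q Y) ∧ na (insert q Y) ≠ 0 ∧ nb (insert q Y) ≠ 0
  swap
  · rw [← htot x x', sum_eq_zero (s := Yᶜ.filter (fun q => ¬ col a b P (insert q Y))), add_zero]
    intro q hq
    by_contra h3
    exact h2 ⟨q, mem_compl.1 (mem_filter.1 hq).1, (mem_filter.1 hq).2,
      fun e => h3 (by rw [e]; simp), fun e => h3 (by rw [e]; simp)⟩
  obtain ⟨u, hu, hcu⟩ := h1
  obtain ⟨u', e1, e2, -⟩ := id hcu
  obtain ⟨hu', e3, -, -, e4, e5⟩ := hpart u u' hu e1 e2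
  have hcu' := e3.2 hcu
  obtain ⟨v, hv, hcv, hv1, hv2⟩ := h2
  obtain ⟨v', f1, f2⟩ := h.nodead (hZY.trans (subset_insert _ _)) (hR v hv) hv1 hv2
  obtain ⟨hv', f3, f6, f7, f4, f5⟩ := hpart v v' hv f1 f2
  have hcv' : ¬ col a b P (insert v' Y) := fun e => hcv (f3.1 e)
  have hcard : (insert v' (insert v Y)).card = Fintype.card ι := by
    rw [card_insert_of_notMem f1, hR v hv]
  have mixed : ∀ s t, s ∉ Y → t ∉ Y → ¬ col a b P (insert s Y) → ¬ col a b P (insert t Y) →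
      (na (insert s Y) ≠ 0 ∧ nb (insert s Y) ≠ 0) → (na (insert t Y) ≠ 0 ∧ nb (insert t Y) ≠ 0) →
      LinearMap.ker (na (insert s Y)) ≠ LinearMap.ker (na (insert t Y)) →
      LinearMap.ker (nb (insert s Y)) ≠ LinearMap.ker (nb (insert t Y)) →
      ∑ q ∈ Yᶜ.filter (fun q => col a b P (insert q Y)),
        na (insert q Y) (a s) * nb (insert q Y) (b t) = 0 := by
    intro s t hs ht g1 g2 g3 g4 g5 g6
    rw [← htot (a s) (b t), sum_eq_zero (s := Yᶜ.filter (fun q => ¬ col a b P (insert q Y))),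
      add_zero]
    intro q hq
    have hqY := mem_compl.1 (mem_filter.1 hq).1
    have hcq := (mem_filter.1 hq).2
    by_contra h3
    have g7 : na (insert q Y) ≠ 0 ∧ nb (insert q Y) ≠ 0 :=
      ⟨fun e => h3 (by rw [e]; simp), fun e => h3 (by rw [e]; simp)⟩
    apply h3
    rw [mul_eq_zero, ker_eq_iff a Y q s _ _ (h.hA _ (hR q hqY)) (h.hA _ (hR s hs)) g7.1 g3.1,
      ker_eq_iff b Y q t _ _ (h.hB _ (hR q hqY)) (h.hB _ (hR t ht)) g7.2 g4.2]
    exact cell e4 e5 g5 g6 (hK u s hu hs hcu g1 g3) (hK u t hu ht hcu g2 g4)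
      (hK u' s hu' hs hcu' g1 g3) (hK u' t hu' ht hcu' g2 g4) (hK u q hu hqY hcu hcq g7)
      (hK u' q hu' hqY hcu' hcq g7)
  have same : ∀ s, s ∉ Y → ¬ col a b P (insert s Y) →
      ∑ q ∈ Yᶜ.filter (fun q => col a b P (insert q Y)),
        na (insert q Y) (a s) * nb (insert q Y) (b s) = 0 := fun s hs g1 =>
    sum_eq_zero fun q hq => hX q s (mem_compl.1 (mem_filter.1 hq).1) hs (mem_filter.1 hq).2 g1
  refine bilin_zero _ (fun q => na (insert q Y)) (fun q => nb (insert q Y)) _ _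
    (state_left a b _ hcard f2).2 (state_right a b _ hcard f2).2 ?_ x x'
  rintro _ ⟨s, hs, rfl⟩ _ ⟨t, ht, rfl⟩
  by_cases hsY : s ∈ Y
  · exact sum_eq_zero fun q hq => by
      rw [(h.hA _ (hR q (mem_compl.1 (mem_filter.1 hq).1))).1 _
        (subset_span ⟨s, mem_insert_of_mem hsY, rfl⟩), zero_mul]
  by_cases htY : t ∈ Y
  · exact sum_eq_zero fun q hq => by
      rw [(h.hB _ (hR q (mem_compl.1 (mem_filter.1 hq).1))).1 _
        (subset_span ⟨t, mem_insert_of_mem htY, rfl⟩), mul_zero]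
  simp only [coe_insert, Set.mem_insert_iff, mem_coe, hsY, htY, or_false] at hs ht
  rcases hs with rfl | rfl <;> rcases ht with rfl | rfl
  · exact same _ hv' hcv'
  · exact mixed _ _ hv' hv hcv' hcv f7 f6 f4.symm f5.symm
  · exact mixed _ _ hv hv' hcv hcv' f6 f7 f4 f5
  · exact same _ hv hcv

end Pool.Agent.Lib.MP_b1ff30_co
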