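import Pool.Agent.Lib.MP_b1ff30_co.Sq3

set_option autoImplicit false

namespace Pool.Agent.Lib.MP_b1ff30_co

open Finset Matrix Submodule
open scoped Classical

variable {α ι K : Type*} [Fintype α] [DecidableEq α] [Fintype ι] [DecidableEq ι] [Field K]
variable {a b : α → ι → K} {P : Finset α → Prop} {Z : Finset α}
  {na nb : Finset α → (ι → K) →ₗ[K] K}

lemma Bad.lemX (h : Bad a b P Z na nb) (φ : (ι → K) →ₗ[K] K) (hφ : φ ≠ 0)
    (hφZ : ∀ z ∈ Z, φ (a z) = 0) (DA : Finset α) (hDA : ∀ d ∈ DA, φ (a d) ≠ 0) (k : ℕ)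
    (hk : ∀ X : Finset α, X.card = Fintype.card ι → Z ⊆ X → (∀ y ∈ X \ Z, φ (a y) ≠ 0) →
      (MM a b X).det ≠ 0 → (X ∩ DA).card = k)
    (hsp : ∑ d ∈ DA, φ (a d) • b d ∈ span K (b '' Z)) : (k : K) = 0 := by
  have hZ := h.hZ
  set D := univ.filter fun q => φ (a q) ≠ 0 with hD
  have hmem : ∀ q, q ∈ D ↔ φ (a q) ≠ 0 := fun q => by simp [hD]
  set c' := ∑ X ∈ (univ : Finset (Finset α)).filter
    (fun X => (X.card = Fintype.card ι ∧ Z ⊆ X) ∧ X \ Z ⊆ D), fw a b P X with hc'
  have h1 := incl_excl _ (fw a b P) Z D (by omega) h.hS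
  rw [sum_eq_zero] at h1
  swap
  · intro X hX
    simp only [mem_filter, mem_univ, true_and] at hX
    rw [fw, kill_left hX.1.1 φ hφ, ite_self]
    intro y hy
    by_cases hyZ : y ∈ Z
    · exact hφZ y hyZ
    · simpa [hmem] using disjoint_left.1 hX.2 (mem_sdiff.2 ⟨hy, hyZ⟩)
  have hc0 : c' ≠ 0 := fun e => h.hc (by rw [← hc', e, mul_zero, add_zero] at h1; exact h1.symm)
  have hdZ : ∀ d ∈ DA, d ∉ Z := fun d hd e => hDA d hd (hφZ d e)
  have h2 : ∀ d ∈ DA, ∑ R ∈ (univ : Finset (Finset α)).filter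
      (fun R => (R.card + 1 = Fintype.card ι ∧ Z ⊆ R) ∧ Disjoint R D), aw a b P (a d) (b d) R =
      (-1) ^ (Fintype.card ι - (Z.card + 1)) * ∑ X ∈ (univ : Finset (Finset α)).filter
        (fun X => ((X.card = Fintype.card ι ∧ Z ⊆ X) ∧ X \ Z ⊆ D) ∧ d ∈ X), fw a b P X := by
    intro d hd
    have hdD := (hmem d).2 (hDA d hd)
    have e1 := card_insert_of_notMem (hdZ d hd)
    have h3 := incl_excl _ (fw a b P) (insert d Z) D (by omega) fun Z' e2 e3 e4 =>
      h.hS Z' ((subset_insert _ _).trans e2) (by omega) e4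
    rw [h.hS _ (subset_insert _ _) (by omega) (by omega), zero_add, e1] at h3
    refine Eq.trans ?_ (h3.trans ?_)
    · refine Finset.sum_nbij' (fun R => insert d R) (fun X => X.erase d) ?_ ?_ ?_ ?_ ?_
      · intro R hR
        simp only [mem_filter, mem_univ, true_and] at hR ⊢
        have hdR : d ∉ R := disjoint_right.1 hR.2 hdD
        refine ⟨⟨by rw [card_insert_of_notMem hdR, hR.1.1], insert_subset_insert _ hR.1.2⟩, ?_⟩
        refine hR.2.mono_left fun y hy => ?_
        simp only [mem_sdiff, mem_insert, not_or] at hy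
        exact hy.1.resolve_left hy.2.1
      · intro X hX
        simp only [mem_filter, mem_univ, true_and, insert_subset_iff] at hX ⊢
        refine ⟨⟨by rw [card_erase_add_one hX.1.2.1, hX.1.1],
          subset_erase.2 ⟨hX.1.2.2, hdZ d hd⟩⟩, disjoint_left.2 fun y hy hyD => ?_⟩
        rw [mem_erase] at hy
        refine disjoint_left.1 hX.2 (mem_sdiff.2 ⟨hy.2, fun e => ?_⟩) hyD
        rcases mem_insert.1 e with e | e
        · exact hy.1 e
        · exact (hmem y).1 hyD (hφZ y e)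
      · intro R hR
        simp only [mem_filter, mem_univ, true_and] at hR
        exact erase_insert (disjoint_right.1 hR.2 hdD)
      · intro X hX
        simp only [mem_filter, mem_univ, true_and, insert_subset_iff] at hX
        exact insert_erase hX.1.2.1
      · intro R hR
        simp only [mem_filter, mem_univ, true_and] at hR
        exact (fw_insert h.hP hR.1.1 (disjoint_right.1 hR.2 hdD)).symm
    · congr 1
      refine sum_congr (filter_congr fun X _ => ?_) fun _ _ => rfl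
      simp only [insert_subset_iff]
      constructor
      · rintro ⟨⟨e2, e3, e4⟩, e5⟩
        refine ⟨⟨⟨e2, e4⟩, fun y hy => ?_⟩, e3⟩
        by_cases e6 : y = d
        · exact e6 ▸ hdD
        · exact e5 (by simpa [e6] using hy)
      · rintro ⟨⟨⟨e2, e4⟩, e5⟩, e3⟩
        exact ⟨⟨e2, e3, e4⟩, (sdiff_subset_sdiff subset_rfl (subset_insert _ _)).trans e5⟩
  have h3 := sum_congr rfl h2
  rw [sum_comm, sum_eq_zero, ← mul_sum] at h3
  swap
  · intro R hR
    simp only [mem_filter, mem_univ, true_and] at hR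
    simp only [aw, h.hG R hR.1.1]
    split_ifs
    swap
    · simp
    by_cases e1 : na R = 0
    · simp [e1]
    obtain ⟨t, ht⟩ := prop_of_ker (na R) φ fun x hx =>
      zero_of_span φ _ (by
        rintro _ ⟨y, hy, rfl⟩
        simpa [hmem] using disjoint_left.1 hR.2 hy) x (((h.hA R hR.1.1).2.1 e1).2 x hx)
    have ht0 : t ≠ 0 := by
      rintro rfl
      exact hφ (LinearMap.ext fun x => by simpa using ht x)
    have e2 := (h.hB R hR.1.1).1 _ (span_mono (Set.image_mono (coe_subset.2 hR.1.2)) hsp)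
    simp only [map_sum, map_smul, smul_eq_mul, ht, mul_assoc, ← mul_sum] at e2
    exact (mul_eq_zero.1 e2).resolve_left ht0
  have h4 : ∑ d ∈ DA, ∑ X ∈ (univ : Finset (Finset α)).filter
      (fun X => ((X.card = Fintype.card ι ∧ Z ⊆ X) ∧ X \ Z ⊆ D) ∧ d ∈ X), fw a b P X = k * c' := by
    rw [hc', mul_sum, sum_comm' (t' := (univ : Finset (Finset α)).filter
      (fun X => (X.card = Fintype.card ι ∧ Z ⊆ X) ∧ X \ Z ⊆ D)) (s' := fun X => X ∩ DA)]
    · refine sum_congr rfl fun X hX => ?_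
      simp only [mem_filter, mem_univ, true_and] at hX
      rw [sum_const, nsmul_eq_mul]
      by_cases e : (MM a b X).det = 0
      · simp [fw, e]
      · rw [hk X hX.1.1 hX.1.2 (fun y hy => (hmem y).1 (hX.2 hy)) e]
    · intro d X
      simp only [mem_filter, mem_univ, true_and, mem_inter]
      tauto
  rw [h4] at h3
  exact (mul_eq_zero.1 ((mul_eq_zero.1 h3.symm).resolve_left
    (pow_ne_zero _ (neg_ne_zero.2 one_ne_zero)))).resolve_right hc0

lemma Bad.full (h : Bad a b P Z na nb)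
    (hk : ∀ j : ℕ, 0 < j → j + Z.card < Fintype.card ι → (j : K) ≠ 0) {N : Finset α}
    (hN : N.card = Fintype.card ι) (hZN : Z ⊆ N) (hdet : (MM a b N).det = 0)
    (hb : LinearIndepOn K b N) (ha : ∀ z ∈ N \ Z, LinearIndepOn K a (N.erase z)) {y : α}
    (hy : y ∈ N \ Z) (hcy : col a b P (N.erase y)) {z : α} (hz : z ∈ N \ Z) :
    col a b P (N.erase z) := by
  by_contra hcz
  have hR : ∀ u ∈ N, (N.erase u).card + 1 = Fintype.card ι := fun u hu => by
    rw [card_erase_add_one hu, hN]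
  have hnb : ∀ u ∈ N, nb (N.erase u) ≠ 0 := fun u hu =>
    (h.hB _ (hR u hu)).2.2 (hb.mono (coe_subset.2 (erase_subset _ _)))
  have hker : ∀ u ∈ N, ∀ v, nb (N.erase u) v = 0 → v ∈ span K (b '' (N.erase u)) := fun u hu =>
    ((h.hB _ (hR u hu)).2.1 (hnb u hu)).2
  have hna : ∀ u ∈ N \ Z, na (N.erase u) ≠ 0 := fun u hu =>
    (h.hA _ (hR u (mem_sdiff.1 hu).1)).2.2 (ha u hu)
  have hyN := (mem_sdiff.1 hy).1
  set φ := na (N.erase y) with hφ
  have hφN : ∀ u ∈ N, φ (a u) = 0 := by
    intro u hu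
    by_cases e : u = y
    · subst e
      have e1 := GG_insert a b (notMem_erase u N)
      rw [insert_erase hu, hdet, h.hG _ (hR u hu), mul_eq_zero] at e1
      refine e1.resolve_right fun e2 => ?_
      have e3 := hker u hu _ e2
      rw [coe_erase] at e3
      exact linearIndepOn_iff_notMem_span.1 hb u hu e3
    · exact (h.hA _ (hR y hyN)).1 _ (subset_span ⟨u, mem_erase.2 ⟨e, hu⟩, rfl⟩)
  have hst : ∀ f, φ (a f) ≠ 0 → ∀ u ∈ N \ Z, nb (N.erase u) (b f) ≠ 0 →
      (MM a b (insert f (N.erase u))).det ≠ 0 := by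
    intro f hf u hu h1
    have huN := (mem_sdiff.1 hu).1
    rw [← GG_insert a b fun e => hf (hφN f (mem_of_mem_erase e)), h.hG _ (hR u huN)]
    refine mul_ne_zero (fun e => hf ?_) h1
    refine zero_of_span φ _ ?_ _ (((h.hA _ (hR u huN)).2.1 (hna u hu)).2 _ e)
    rintro _ ⟨v, hv, rfl⟩
    exact hφN v (mem_of_mem_erase hv)
  set CA := (N \ Z).filter fun u => col a b P (N.erase u) with hCA
  set CB := (N \ Z).filter fun u => ¬ col a b P (N.erase u) with hCB
  have hY : ∀ f, φ (a f) ≠ 0 → ∀ u ∈ CA, ∀ v ∈ CB,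
      nb (N.erase u) (b f) = 0 ∨ nb (N.erase v) (b f) = 0 := by
    intro f hf u hu v hv
    by_contra h1
    push Not at h1
    rw [mem_filter] at hu hv
    have huN := (mem_sdiff.1 hu.1).1
    have hvN := (mem_sdiff.1 hv.1).1
    have hfN : f ∉ N := fun e => hf (hφN f e)
    have huv : u ≠ v := fun e => hv.2 (e ▸ hu.2)
    have e1 := hst f hf u hu.1 h1.1
    have e2 := hst f hf v hv.1 h1.2
    have e3 := (col_iff h.hP (hR u huN) (fun e => hfN (mem_of_mem_erase e)) e1).1 hu.2
    have hvu : v ∈ N.erase u := mem_erase.2 ⟨huv.symm, hvN⟩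
    have g1 : insert v (insert f ((N.erase u).erase v)) = insert f (N.erase u) := by
      rw [insert_comm, insert_erase hvu]
    have g2 : insert u (insert f ((N.erase u).erase v)) = insert f (N.erase v) := by
      rw [insert_comm, erase_right_comm, insert_erase (mem_erase.2 ⟨huv, huN⟩)]
    have hf' : f ∉ (N.erase u).erase v := fun e => hfN (mem_of_mem_erase (mem_of_mem_erase e))
    have e4 := h.hP (insert f ((N.erase u).erase v)) v u
      (by simp [show v ≠ f from fun e => hfN (e ▸ hvN)])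
      (by simp [show u ≠ f from fun e => hfN (e ▸ huN)])
      (by rw [card_insert_of_notMem hf', card_erase_add_one hvu, hR u huN])
      (g1 ▸ e1) (g2 ▸ e2) (g1 ▸ e3)
    rw [g2] at e4
    exact hv.2 ⟨f, fun e => hfN (mem_of_mem_erase e), e2, e4⟩
  set DA := univ.filter fun f => φ (a f) ≠ 0 ∧ ∀ v ∈ CB, nb (N.erase v) (b f) = 0 with hDA
  have hDB : ∀ f, φ (a f) ≠ 0 → f ∉ DA → ∀ u ∈ CA, nb (N.erase u) (b f) = 0 := by
    intro f hf h1 u hu
    simp only [hDA, mem_filter, mem_univ, true_and, not_and, not_forall] at h1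
    obtain ⟨v, hv, h2⟩ := h1 hf
    exact (hY f hf u hu v hv).resolve_right h2
  have htop : span K (b '' N) = ⊤ := by
    rw [Set.image_eq_range]
    exact hb.span_eq_top_of_card_eq_finrank' (by simpa using hN)
  have hsplit : CA.card + CB.card + Z.card = Fintype.card ι := by
    rw [hCA, hCB, card_filter_add_card_filter_not, card_sdiff_add_card_eq_card hZN, hN]
  have hcount : ∀ (C U X : Finset α), C ⊆ N \ Z → X.card = Fintype.card ι → Z ⊆ X → U ⊆ X \ Z →
      (MM a b X).det ≠ 0 → (∀ f ∈ U, ∀ v ∈ N \ Z, v ∉ C → nb (N.erase v) (b f) = 0) →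
      U.card ≤ C.card := by
    intro C U X e1 e2 e3 e4 e5 e6
    have e7 := card_le_of_span b (Z ∪ U) (Z ∪ C) ((state_right a b X e2 e5).1.mono
      (coe_subset.2 (union_subset e3 (e4.trans sdiff_subset)))) fun f hf => by
        rcases mem_union.1 hf with hf | hf
        · exact subset_span ⟨f, mem_union_left _ hf, rfl⟩
        · refine span_core b N _ hb _ (htop.ge mem_top) fun v hv hv' => ?_
          rw [mem_union, not_or] at hv'
          exact hker v hv _ (e6 f hf v (mem_sdiff.2 ⟨hv, hv'.1⟩) hv'.2)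
    rw [card_union_of_disjoint (subset_sdiff.1 e4).2.symm,
      card_union_of_disjoint (subset_sdiff.1 e1).2.symm] at e7
    omega
  have hA0 : 0 < CA.card := card_pos.2 ⟨y, mem_filter.2 ⟨hy, hcy⟩⟩
  have hB0 : 0 < CB.card := card_pos.2 ⟨z, mem_filter.2 ⟨hz, hcz⟩⟩
  refine hk CA.card hA0 (by omega) (h.lemX φ (hna y hy) (fun u hu => hφN u (hZN hu)) DA
    (fun d hd => (mem_filter.1 hd).2.1) _ ?_ ?_)
  · intro X e1 e2 e3 e4
    have g1 := hcount CA (X ∩ DA) X (filter_subset _ _) e1 e2 (fun f hf => by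
      rw [mem_inter] at hf
      exact mem_sdiff.2 ⟨hf.1, fun e => (mem_filter.1 hf.2).2.1 (hφN f (hZN e))⟩) e4
      fun f hf v hv hv' => (mem_filter.1 (mem_inter.1 hf).2).2.2 v
        (mem_filter.2 ⟨hv, fun e => hv' (mem_filter.2 ⟨hv, e⟩)⟩)
    have g2 := hcount CB ((X \ Z) \ DA) X (filter_subset _ _) e1 e2 sdiff_subset e4
      fun f hf v hv hv' => hDB f (e3 f (mem_sdiff.1 hf).1) (mem_sdiff.1 hf).2 v
        (mem_filter.2 ⟨hv, not_not.1 fun e => hv' (mem_filter.2 ⟨hv, e⟩)⟩)
    have g3 := card_sdiff_add_card_inter (X \ Z) DA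
    have g4 := card_le_card (inter_subset_inter_right (u := DA) (sdiff_subset (s := X) (t := Z)))
    have g5 := card_sdiff_add_card_eq_card e2
    omega
  · refine span_core b N Z hb _ (htop.ge mem_top) fun v hv hv' => hker v hv _ ?_
    simp only [map_sum, map_smul, smul_eq_mul]
    have hvZ := mem_sdiff.2 ⟨hv, hv'⟩
    by_cases e : col a b P (N.erase v)
    · rw [← pair_sum a b h.hs φ (nb (N.erase v))]
      refine sum_subset (subset_univ _) fun f _ hf => ?_
      by_cases e1 : φ (a f) = 0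
      · rw [e1, zero_mul]
      · rw [hDB f e1 hf v (mem_filter.2 ⟨hvZ, e⟩), mul_zero]
    · exact sum_eq_zero fun f hf => by
        rw [(mem_filter.1 hf).2.2 v (mem_filter.2 ⟨hvZ, e⟩), mul_zero]

end Pool.Agent.Lib.MP_b1ff30_co
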