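import Pool.Agent.Lib.MP_b1ff30_co.Sq4

set_option autoImplicit false

namespace Pool.Agent.Lib.MP_b1ff30_co

open Finset Matrix Submodule
open scoped Classical

variable {α ι K : Type*} [Fintype α] [DecidableEq α] [Fintype ι] [DecidableEq ι] [Field K]
variable {a b : α → ι → K} {P : Finset α → Prop} {Z : Finset α}
  {na nb : Finset α → (ι → K) →ₗ[K] K}

/-- The support of `a y` in the family `a` on `R`, together with `Z`. -/
noncomputable def sg (a : α → ι → K) (Z : Finset α) (y : α) (R : Finset α) : Finset α :=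
  Z ∪ R.filter fun z => a y ∉ span K (a '' (R.erase z))

omit [Fintype α] [Fintype ι] [DecidableEq ι] in
lemma sg_subset {y : α} {R Y : Finset α} (h1 : Z ⊆ Y) (h2 : Y ⊆ R) (h3 : a y ∈ span K (a '' Y)) :
    sg a Z y R ⊆ Y := by
  refine union_subset h1 fun z hz => ?_
  by_contra h4
  exact (mem_filter.1 hz).2 (span_mono (Set.image_mono (coe_subset.2 (subset_erase.2 ⟨h2, h4⟩))) h3)

omit [Fintype α] [Fintype ι] [DecidableEq ι] in
lemma mem_span_sg {y : α} {R : Finset α} (h1 : LinearIndepOn K a R)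
    (h2 : a y ∈ span K (a '' R)) : a y ∈ span K (a '' (sg a Z y R)) :=
  span_core a R _ h1 _ h2 fun z hz hz' => by
    by_contra h3
    exact hz' (mem_union_right _ (mem_filter.2 ⟨hz, h3⟩))

lemma Bad.nonfull (h : Bad a b P Z na nb) (x x' : ι → K)
    (hadj : ∀ Y : Finset α, Z ⊆ Y → Y.card + 2 ≤ Fintype.card ι →
      up (Fintype.card ι - 1) (aw a b P x x') Y = 0) (y : α) :
    ∑ R ∈ (univ : Finset (Finset α)).filter (fun R => (R.card + 1 = Fintype.card ι ∧ Z ⊆ R) ∧
      (na R (a y) = 0 ∧ sg a Z y R ≠ R)), aw a b P x x' R = 0 := by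
  have hne : ∀ R : Finset α, R.card + 1 = Fintype.card ι → aw a b P x x' R ≠ 0 → na R ≠ 0 := by
    intro R hR h1 e
    apply h1
    rw [aw, h.hG R hR, e]
    simp
  rw [← sum_fiberwise _ (sg a Z y)]
  refine sum_eq_zero fun Y _ => ?_
  by_contra h1
  obtain ⟨R₀, h2, h3⟩ := exists_ne_zero_of_sum_ne_zero h1
  simp only [mem_filter, mem_univ, true_and] at h2
  obtain ⟨⟨⟨e1, e2⟩, e3, e4⟩, e5⟩ := h2
  have e6 := (h.hA R₀ e1).2.1 (hne R₀ e1 h3)
  have e7 : a y ∈ span K (a '' Y) := e5 ▸ mem_span_sg e6.1 (e6.2 _ e3)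
  have e8 : Z ⊆ Y := e5 ▸ subset_union_left
  have e9 : Y ⊆ R₀ := e5 ▸ union_subset e2 (filter_subset _ _)
  have e10 := card_lt_card (Finset.ssubset_iff_subset_ne.2 ⟨e9, e5 ▸ e4⟩)
  apply h1
  refine Eq.trans ?_ (hadj Y e8 (by omega))
  rw [up]
  refine sum_subset (fun R hR => ?_) fun R hR hR' => ?_
  · simp only [mem_filter, mem_univ, true_and] at hR ⊢
    exact ⟨by omega, hR.2 ▸ union_subset hR.1.1.2 (filter_subset _ _)⟩
  · by_contra g1
    apply hR'
    simp only [mem_filter, mem_univ, true_and] at hR ⊢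
    have g2 : R.card + 1 = Fintype.card ι := by omega
    have g3 := (h.hA R g2).2.1 (hne R g2 g1)
    have g4 : a y ∈ span K (a '' R) := span_mono (Set.image_mono (coe_subset.2 hR.2)) e7
    have g5 : sg a Z y R ⊆ Y := sg_subset e8 hR.2 e7
    have g6 : sg a Z y R = Y := by
      refine Subset.antisymm g5 ?_
      rw [← e5]
      exact sg_subset subset_union_left (g5.trans e9) (mem_span_sg g3.1 g4)
    refine ⟨⟨⟨g2, e8.trans hR.2⟩, (h.hA R g2).1 _ g4, fun g7 => ?_⟩, g6⟩
    rw [g6] at g7
    rw [g7] at e10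
    omega

lemma Bad.false (h : Bad a b P Z na nb)
    (hk : ∀ j : ℕ, 0 < j → j + Z.card < Fintype.card ι → (j : K) ≠ 0) : False := by
  have hZ := h.hZ
  have hadj : ∀ (x x' : ι → K) (Y : Finset α), Z ⊆ Y → Y.card + 2 ≤ Fintype.card ι →
      up (Fintype.card ι - 1) (aw a b P x x') Y = 0 := fun x x' Y h1 h2 =>
    up_down _ (Fintype.card ι - 2) _ Z (fun j e1 e2 => hk j (by omega) (by omega)) (by omega)
      (fun Y' e1 e2 => h.adj_two e1 (by omega) x x') (Fintype.card ι - 2 - Y.card) Y h1 (by omega)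
  obtain ⟨X₀, h1, h2⟩ := exists_ne_zero_of_sum_ne_zero h.hc
  simp only [mem_filter, mem_univ, true_and] at h1
  obtain ⟨y₀, hy₀, hy₀Z⟩ := exists_mem_notMem_of_card_lt_card (show Z.card < X₀.card by omega)
  have hR₀ : (X₀.erase y₀).card + 1 = Fintype.card ι := by rw [card_erase_add_one hy₀, h1.1]
  set θ := na (X₀.erase y₀) with hθ
  set x := a y₀ with hx
  have hθZ : ∀ z ∈ Z, θ (a z) = 0 := fun z hz =>
    (h.hA _ hR₀).1 _ (subset_span ⟨z, subset_erase.2 ⟨h1.2, hy₀Z⟩ hz, rfl⟩)
  have hθx : θ x ≠ 0 := by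
    intro e
    apply h2
    have e1 := GG_insert a b (notMem_erase y₀ X₀)
    rw [insert_erase hy₀, h.hG _ hR₀, e, zero_mul] at e1
    rw [fw, ← e1, ite_self]
  set g : α → Finset α → K := fun y R =>
    if na R (a y) = 0 ∧ sg a Z y R ≠ R then 0 else θ (a y) * aw a b P x (b y) R with hg
  have h3 : ∑ y, ∑ R ∈ (univ : Finset (Finset α)).filter
      (fun R => R.card + 1 = Fintype.card ι ∧ Z ⊆ R), g y R = 0 := by
    have e1 : ∑ y, ∑ R ∈ (univ : Finset (Finset α)).filter
        (fun R => R.card + 1 = Fintype.card ι ∧ Z ⊆ R), θ (a y) * aw a b P x (b y) R = 0 := by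
      rw [sum_comm]
      refine sum_eq_zero fun R hR => ?_
      simp only [aw, h.hG R (mem_filter.1 hR).2.1]
      split_ifs
      · simp only [mul_left_comm (θ _), ← mul_sum, pair_sum a b h.hs θ (nb R), mul_zero]
      · simp
    rw [← e1]
    refine sum_congr rfl fun y _ => ?_
    have e2 := h.nonfull x (b y) (hadj x (b y)) y
    rw [← filter_filter, sum_filter] at e2
    have e3 := congrArg (θ (a y) * ·) e2
    simp only [mul_sum, mul_zero] at e3
    rw [← sub_eq_zero, ← sum_sub_distrib, ← neg_eq_zero, ← sum_neg_distrib, ← e3]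
    refine sum_congr rfl fun R _ => ?_
    simp only [hg]
    split_ifs <;> simp
  have h4 : ∑ y, ∑ R ∈ (univ : Finset (Finset α)).filter
      (fun R => R.card + 1 = Fintype.card ι ∧ Z ⊆ R), g y R =
      ∑ N ∈ (univ : Finset (Finset α)).filter (fun N => N.card = Fintype.card ι ∧ Z ⊆ N),
        ∑ y ∈ N \ Z, g y (N.erase y) := by
    rw [sum_comm' (s := (univ : Finset (Finset α)).filter
      (fun N => N.card = Fintype.card ι ∧ Z ⊆ N)) (t' := univ) (s' := fun y =>
        (univ : Finset (Finset α)).filter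
          (fun N => (N.card = Fintype.card ι ∧ Z ⊆ N) ∧ y ∈ N ∧ y ∉ Z))]
    swap
    · intro N y
      simp only [mem_filter, mem_univ, true_and, mem_sdiff, and_true]
    refine sum_congr rfl fun y _ => ?_
    rw [← sum_filter_of_ne (p := fun R => y ∉ R)]
    · refine Finset.sum_nbij' (fun R => insert y R) (fun N => N.erase y) ?_ ?_ ?_ ?_ ?_
      · intro R hR
        simp only [mem_filter, mem_univ, true_and] at hR ⊢
        exact ⟨⟨by rw [card_insert_of_notMem hR.2, hR.1.1], hR.1.2.trans (subset_insert _ _)⟩,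
          mem_insert_self _ _, fun e => hR.2 (hR.1.2 e)⟩
      · intro N hN
        simp only [mem_filter, mem_univ, true_and] at hN ⊢
        exact ⟨⟨by rw [card_erase_add_one hN.2.1, hN.1.1], subset_erase.2 ⟨hN.1.2, hN.2.2⟩⟩,
          notMem_erase _ _⟩
      · intro R hR
        exact erase_insert (mem_filter.1 hR).2
      · intro N hN
        exact insert_erase (mem_filter.1 hN).2.2.1
      · intro R hR
        rw [erase_insert (mem_filter.1 hR).2]
    · intro R hR hne hy
      apply hne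
      have e := (mem_filter.1 hR).2.1
      simp only [hg, aw, h.hG R e, (h.hB R e).1 _ (subset_span ⟨y, hy, rfl⟩)]
      simp
  have h5 : ∀ N : Finset α, N.card = Fintype.card ι → Z ⊆ N →
      ∑ y ∈ N \ Z, g y (N.erase y) = fw a b P N * θ x := by
    intro N hN hZN
    have hR : ∀ u ∈ N, (N.erase u).card + 1 = Fintype.card ι := fun u hu => by
      rw [card_erase_add_one hu, hN]
    have hcr : ∑ y ∈ N \ Z, θ (a y) * GG a b (N.erase y) x (b y) = (MM a b N).det * θ x := by
      have e := congrArg θ (cramer_GG a b N hN x)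
      simp only [map_sum, map_smul, smul_eq_mul] at e
      rw [← e, ← sum_sdiff hZN, sum_eq_zero (s := Z), add_zero]
      · exact sum_congr rfl fun y _ => mul_comm _ _
      · intro z hz
        rw [hθZ z hz, mul_zero]
    have hdt : ∀ u ∈ N, na (N.erase u) (a u) * nb (N.erase u) (b u) = (MM a b N).det := by
      intro u hu
      rw [← h.hG _ (hR u hu), GG_insert a b (notMem_erase u N), insert_erase hu]
    by_cases hdet : (MM a b N).det = 0
    swap
    · have e1 : ∀ y ∈ N \ Z, g y (N.erase y) =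
          if P N then θ (a y) * GG a b (N.erase y) x (b y) else 0 := by
        intro y hy
        have hyN := (mem_sdiff.1 hy).1
        have e2 : na (N.erase y) (a y) ≠ 0 := left_ne_zero_of_mul (hdt y hyN ▸ hdet)
        have e3 := col_iff h.hP (hR y hyN) (notMem_erase y N) (by rwa [insert_erase hyN])
        rw [insert_erase hyN] at e3
        simp only [hg, aw, e2, false_and, if_false, e3, mul_ite, mul_zero]
      rw [sum_congr rfl e1, fw]
      split_ifs
      · exact hcr
      · simp
    rw [fw, hdet, ite_self, zero_mul]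
    by_contra hne
    obtain ⟨y, hy, e1⟩ := exists_ne_zero_of_sum_ne_zero hne
    have hyN := (mem_sdiff.1 hy).1
    simp only [hg, aw, h.hG _ (hR y hyN), ne_eq, ite_eq_left_iff, mul_eq_zero, Classical.not_imp,
      not_or, ite_eq_right_iff] at e1
    obtain ⟨e2, -, e3, e4, e5⟩ := e1
    have e6 : na (N.erase y) ≠ 0 := fun e => e4 (by rw [e]; rfl)
    have e7 : nb (N.erase y) ≠ 0 := fun e => e5 (by rw [e]; rfl)
    have e8 : na (N.erase y) (a y) = 0 := (mul_eq_zero.1 ((hdt y hyN).trans hdet)).resolve_right e5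
    have e9 : sg a Z y (N.erase y) = N.erase y := by
      by_contra e
      exact e2 ⟨e8, e⟩
    have hb : LinearIndepOn K b N := by
      have e := ((h.hB _ (hR y hyN)).2.1 e7).1.insert fun e => e5 ((h.hB _ (hR y hyN)).1 _ e)
      rwa [← coe_insert, insert_erase hyN] at e
    have ha : ∀ z ∈ N \ Z, LinearIndepOn K a (N.erase z) := by
      intro z hz
      have g1 := ((h.hA _ (hR y hyN)).2.1 e6).1
      by_cases e : z = y
      · rwa [e]
      have g2 : z ∈ sg a Z y (N.erase y) := e9.symm ▸ mem_erase.2 ⟨e, (mem_sdiff.1 hz).1⟩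
      have g3 := (mem_filter.1 ((mem_union.1 g2).resolve_left (mem_sdiff.1 hz).2)).2
      have g4 := (g1.mono (coe_subset.2 (erase_subset z _))).insert g3
      rwa [← coe_insert, erase_right_comm, insert_erase (mem_erase.2 ⟨Ne.symm e, hyN⟩)] at g4
    apply hne
    rw [hdet, zero_mul] at hcr
    rw [← hcr]
    refine sum_congr rfl fun z hz => ?_
    have hzN := (mem_sdiff.1 hz).1
    have g1 : sg a Z z (N.erase z) = N.erase z := by
      refine Subset.antisymm (union_subset (subset_erase.2 ⟨hZN, (mem_sdiff.1 hz).2⟩)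
        (filter_subset _ _)) fun u hu => ?_
      by_cases e : u ∈ Z
      · exact mem_union_left _ e
      refine mem_union_right _ (mem_filter.2 ⟨hu, ?_⟩)
      rw [erase_right_comm, coe_erase]
      rw [mem_erase] at hu
      exact linearIndepOn_iff_notMem_span.1 (ha u (mem_sdiff.2 ⟨hu.2, e⟩)) z
        (mem_erase.2 ⟨hu.1.symm, hzN⟩)
    simp only [hg, aw, g1, ne_eq, not_true, and_false, if_false,
      h.full hk hN hZN hdet hb ha hy e3 hz, if_true]
  rw [h4, sum_congr rfl fun N hN => h5 N (mem_filter.1 hN).2.1 (mem_filter.1 hN).2.2,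
    ← sum_mul] at h3
  exact mul_ne_zero h.hc hθx h3

/-- In a link of rank `k` with `1, …, k - 1` invertible the restricted weights add up to zero. -/
theorem up_link (hs : MM a b univ = 0) (hP : Closed a b P) (Z : Finset α)
    (hZ : Z.card < Fintype.card ι)
    (hk : ∀ j : ℕ, 0 < j → j + Z.card < Fintype.card ι → (j : K) ≠ 0) :
    up (Fintype.card ι) (fw a b P) Z = 0 := by
  rcases Nat.lt_or_ge (Z.card + 1) (Fintype.card ι) with h1 | h1
  swap
  · exact up_one hs hP (by omega)
  by_contra hc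
  choose! na nb hG hA hB using ridge a b
  refine Bad.false (P := P) (Z := Z) ⟨hs, hP, h1, fun Y e1 e2 e3 => ?_, hc, hG, hA, hB⟩ hk
  exact up_down _ (Fintype.card ι - 1) _ Y (fun j g1 g2 => hk j (by omega) (by omega)) (by omega)
    (fun Y' _ g2 => up_one hs hP (by omega)) (Fintype.card ι - 1 - Y.card) Y subset_rfl (by omega)

end Pool.Agent.Lib.MP_b1ff30_co
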