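import Pool.Agent.Lib.MP_b1ff30_co.Sq6

set_option autoImplicit false

namespace Pool.Agent.Lib.MP_b1ff30_co

open Finset Matrix Submodule
open scoped Classical

variable {α K : Type*} [Fintype α] [DecidableEq α] [Field K]

/-- All link sums of rank between `1` and `q - 1` vanish. -/
def UpZ (n q : ℕ) (g : Finset α → K) : Prop :=
  ∀ Z : Finset α, Z.card < n → n < Z.card + q → up n g Z = 0

/-- Complementation inside `E`. -/
def cp (E : Finset α) (g : Finset α → K) (X : Finset α) : K := if X ⊆ E then g (E \ X) else 0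

/-- Contraction of the pair `x, y`. -/
def ct (x y : α) (g : Finset α → K) (R : Finset α) : K :=
  if x ∈ R ∨ y ∈ R then 0 else g (insert x R) - g (insert y R)

lemma core (E : Finset α) (n q : ℕ) (g : Finset α → K) (hE : E.card = 2 * n) (hn : n + 2 ≤ 2 * q)
    (hs : ∀ X, g X ≠ 0 → X ⊆ E) (h1 : UpZ n q g) (h2 : UpZ n q (cp E g)) (B : Finset α)
    (hB : B ⊆ E) (hc : B.card = n) : g B = (-1) ^ n * g (E \ B) := by
  have hC : (E \ B).card = n := by rw [card_sdiff_of_subset hB]; omega
  obtain ⟨T, hT, hTc⟩ := Finset.exists_subset_card_eq (s := E \ B) (n := n / 2) (by omega)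
  have hT' := card_sdiff_of_subset hT
  have e1 := sig_up n g (E \ B) T hC hT fun Z g1 g2 =>
    h1 Z g2 (by have := card_le_card g1; omega)
  have e2 := sig_up n (cp E g) (E \ B) ((E \ B) \ T) hC sdiff_subset fun Z g1 g2 =>
    h2 Z g2 (by have := card_le_card g1; omega)
  rw [cp, if_pos sdiff_subset, Finset.sdiff_sdiff_eq_self hB] at e2
  have e3 : (-1 : K) ^ (n - T.card) * g (E \ B) = (-1) ^ (n - ((E \ B) \ T).card) * g B := by
    rw [← e1, ← e2, ← sum_filter_of_ne (p := fun X => X ⊆ E) fun X _ => hs X,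
      ← sum_filter_of_ne (p := fun X => X ⊆ E) (f := cp E g) fun X _ h => by
        by_contra e
        exact h (if_neg e)]
    refine Finset.sum_nbij' (fun X => E \ X) (fun X => E \ X) ?_ ?_ ?_ ?_ ?_
    · intro X hX
      simp only [mem_filter, mem_univ, true_and] at hX ⊢
      refine ⟨⟨by rw [card_sdiff_of_subset hX.2]; omega, ?_⟩, sdiff_subset⟩
      rw [← hX.1.2]
      ext z
      simp only [mem_inter, mem_sdiff]
      tauto
    · intro X hX
      simp only [mem_filter, mem_univ, true_and] at hX ⊢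
      refine ⟨⟨by rw [card_sdiff_of_subset hX.2]; omega, ?_⟩, sdiff_subset⟩
      ext z
      have g1 : z ∈ X ∩ (E \ B) ↔ z ∈ (E \ B) \ T := by rw [hX.1.2]
      have g2 : z ∈ T → z ∈ E \ B := fun hz => hT hz
      simp only [mem_inter, mem_sdiff] at g1 g2 ⊢
      tauto
    · exact fun X hX => Finset.sdiff_sdiff_eq_self (mem_filter.1 hX).2
    · exact fun X hX => Finset.sdiff_sdiff_eq_self (mem_filter.1 hX).2
    · intro X hX
      rw [cp, if_pos sdiff_subset, Finset.sdiff_sdiff_eq_self (mem_filter.1 hX).2]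
  have e4 : (-1 : K) ^ n = (-1) ^ (n - ((E \ B) \ T).card) * (-1) ^ (n - T.card) := by
    rw [← pow_add]
    congr 1
    omega
  rw [e4, mul_assoc, e3, ← mul_assoc, ← mul_pow]
  simp

lemma sum_ins (n : ℕ) (g : Finset α → K) {x y : α} (hxy : x ≠ y) {Z : Finset α} (hx : x ∉ Z) :
    ∑ R ∈ (univ : Finset (Finset α)).filter
      (fun R => (R.card = n ∧ Z ⊆ R) ∧ ¬ (x ∈ R ∨ y ∈ R)), g (insert x R) =
      up (n + 1) g (insert x Z) - up (n + 1) g (insert x (insert y Z)) := by
  rw [eq_sub_iff_add_eq, up, up, ← sum_filter_add_sum_filter_not (p := fun X => y ∉ X)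
    ((univ : Finset (Finset α)).filter fun X => X.card = n + 1 ∧ insert x Z ⊆ X)]
  congr 1
  · refine Finset.sum_nbij' (fun R => insert x R) (fun X => X.erase x) ?_ ?_ ?_ ?_ ?_
    · intro R hR
      simp only [mem_filter, mem_univ, true_and, not_or] at hR ⊢
      exact ⟨⟨by rw [card_insert_of_notMem hR.2.1, hR.1.1], insert_subset_insert _ hR.1.2⟩,
        by simp [hxy.symm, hR.2.2]⟩
    · intro X hX
      simp only [mem_filter, mem_univ, true_and, not_or, insert_subset_iff] at hX ⊢
      have := card_erase_add_one hX.1.2.1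
      exact ⟨⟨by omega, subset_erase.2 ⟨hX.1.2.2, hx⟩⟩, notMem_erase _ _,
        fun h => hX.2 (mem_of_mem_erase h)⟩
    · exact fun R hR => erase_insert fun h => (mem_filter.1 hR).2.2 (Or.inl h)
    · exact fun X hX => insert_erase ((mem_filter.1 (mem_filter.1 hX).1).2.2 (mem_insert_self _ _))
    · exact fun _ _ => rfl
  · rw [filter_filter]
    refine sum_congr (filter_congr fun X _ => ?_) fun _ _ => rfl
    simp only [insert_subset_iff, not_not]
    tauto

lemma UpZ.ct {n q : ℕ} {g : Finset α → K} (h : UpZ (n + 1) q g) {x y : α} (hxy : x ≠ y) :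
    UpZ n q (ct x y g) := by
  intro Z h1 h2
  by_cases h3 : x ∈ Z ∨ y ∈ Z
  · refine sum_eq_zero fun R hR => if_pos ?_
    exact h3.imp (fun e => (mem_filter.1 hR).2.2 e) fun e => (mem_filter.1 hR).2.2 e
  rw [not_or] at h3
  have e1 := sum_ins n g hxy h3.1
  have e2 := sum_ins n g hxy.symm h3.2
  rw [h _ (by rw [card_insert_of_notMem h3.1]; omega) (by rw [card_insert_of_notMem h3.1]; omega)]
    at e1
  rw [h _ (by rw [card_insert_of_notMem h3.2]; omega) (by rw [card_insert_of_notMem h3.2]; omega),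
    Finset.insert_comm, ← e1] at e2
  simp only [or_comm (a := y ∈ _)] at e2
  rw [← sub_eq_zero, ← neg_eq_zero, neg_sub, ← sum_sub_distrib, ← filter_filter, sum_filter] at e2
  rw [← e2, up]
  refine sum_congr rfl fun R _ => ?_
  rw [MP_b1ff30_co.ct, ite_not]

omit [Fintype α] in
lemma sdiff_ins {E R : Finset α} {x y : α} (hxy : x ≠ y) (hx : x ∈ E) (hxR : x ∉ R) :
    insert x ((E.erase x).erase y \ R) = E \ insert y R := by
  ext z
  simp only [mem_insert, mem_sdiff, mem_erase]
  by_cases e : z = x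
  · subst e
    simp [hx, hxy, hxR]
  · tauto

omit [Fintype α] in
lemma cp_ct {E : Finset α} {x y : α} (hxy : x ≠ y) (hx : x ∈ E) (hy : y ∈ E) (g : Finset α → K)
    (R : Finset α) : cp ((E.erase x).erase y) (ct x y g) R = -ct x y (cp E g) R := by
  by_cases h : x ∈ R ∨ y ∈ R
  · rw [ct, if_pos h, neg_zero, cp, if_neg]
    intro e
    rcases h with h | h <;> simpa using e h
  rw [ct, if_neg h]
  rw [not_or] at h
  simp only [cp, subset_erase, insert_subset_iff, h.1, h.2, hx, hy, not_false_iff, and_true,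
    true_and]
  split_ifs
  · rw [ct, if_neg (by simp), sdiff_ins hxy hx h.1, erase_right_comm, sdiff_ins hxy.symm hy h.2,
      neg_sub]
  · simp

lemma path_core (q w : ℕ) (hw : w + 2 ≤ 2 * q) (c : α → ℕ) (hc : Function.Injective c) (n : ℕ) :
    ∀ (E : Finset α) (g : Finset α → K), E.card = 2 * n → (∀ X, g X ≠ 0 → X ⊆ E) → UpZ n q g →
      UpZ n q (cp E g) → (∀ X, X ⊆ E → X.card = n → g X ≠ (-1) ^ n * g (E \ X) → ∀ t,
        (X.filter fun z => t ≤ c z).card ≤ ((E \ X).filter fun z => t ≤ c z).card + w) →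
      ∀ X, X ⊆ E → X.card = n → g X = (-1) ^ n * g (E \ X) := by
  induction n with
  | zero => exact fun E g h1 h2 h3 h4 _ => core E 0 q g h1 (by omega) h2 h3 h4
  | succ n ih =>
    intro E g h1 h2 h3 h4 h5
    by_cases hn : n + 1 ≤ w
    · exact core E _ q g h1 (by omega) h2 h3 h4
    by_contra h6
    push Not at h6
    obtain ⟨Z, hZ, hmax⟩ := exists_max_image ((univ : Finset (Finset α)).filter
      fun X => X ⊆ E ∧ X.card = n + 1 ∧ g X ≠ (-1) ^ (n + 1) * g (E \ X)) (fun X => ∑ z ∈ X, c z)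
      (by obtain ⟨X, hX⟩ := h6; exact ⟨X, mem_filter.2 ⟨mem_univ _, hX⟩⟩)
    simp only [mem_filter, mem_univ, true_and] at hZ hmax
    obtain ⟨x₀, hx₀, hmin₀⟩ := exists_min_image Z c (card_pos.1 (by omega))
    have h7 := h5 Z hZ.1 hZ.2.1 hZ.2.2 (c x₀)
    rw [filter_true_of_mem hmin₀] at h7
    obtain ⟨y₀, hy₀⟩ : ((E \ Z).filter fun z => c x₀ ≤ c z).Nonempty := card_pos.1 (by omega)
    obtain ⟨⟨x, y⟩, hp, hmin⟩ := exists_min_image ((Z ×ˢ (E \ Z)).filter fun p => c p.1 ≤ c p.2)
      (fun p => c p.2 - c p.1) ⟨(x₀, y₀), by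
        simp only [mem_filter, mem_product] at hy₀ ⊢
        exact ⟨⟨hx₀, hy₀.1⟩, hy₀.2⟩⟩
    simp only [mem_filter, mem_product, mem_sdiff, Prod.forall] at hp hmin
    obtain ⟨⟨hx, hyE, hy⟩, hle⟩ := hp
    have hxE := hZ.1 hx
    have hxy : x ≠ y := fun e => hy (e ▸ hx)
    have hlt : c x < c y := lt_of_le_of_ne hle fun e => hxy (hc e)
    have hgap : ∀ z ∈ E, c z ≤ c x ∨ c y ≤ c z := by
      intro z hz
      by_contra e
      by_cases e1 : z ∈ Z
      · have := hmin z y ⟨⟨e1, hyE, hy⟩, by omega⟩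
        omega
      · have := hmin x z ⟨⟨hx, hz, e1⟩, by omega⟩
        omega
    have hd : ∀ R : Finset α, x ∉ R → y ∉ R →
        ct x y g R - (-1) ^ n * ct x y g ((E.erase x).erase y \ R) =
          (g (insert x R) - (-1) ^ (n + 1) * g (E \ insert x R)) -
            (g (insert y R) - (-1) ^ (n + 1) * g (E \ insert y R)) := by
      intro R e1 e2
      rw [ct, ct, if_neg (by simp [e1, e2]), if_neg (by simp), sdiff_ins hxy hxE e1,
        erase_right_comm, sdiff_ins hxy.symm hyE e2]
      ring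
    have hE' : ∀ R : Finset α, R ⊆ (E.erase x).erase y ↔ (R ⊆ E ∧ x ∉ R) ∧ y ∉ R := fun R => by
      rw [subset_erase, subset_erase]
    have h8 := ih ((E.erase x).erase y) (ct x y g)
      (by rw [card_erase_of_mem (mem_erase.2 ⟨hxy.symm, hyE⟩), card_erase_of_mem hxE]; omega)
      (fun R hR => by
        rw [ct] at hR
        split_ifs at hR with e
        · exact absurd rfl hR
        rw [not_or] at e
        refine (hE' R).2 ⟨⟨?_, e.1⟩, e.2⟩
        by_cases e1 : g (insert x R) = 0
        · exact (subset_insert _ _).trans (h2 (insert y R) fun e2 => hR (by rw [e1, e2, sub_zero]))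
        · exact (subset_insert _ _).trans (h2 _ e1))
      (h3.ct hxy)
      (fun Y e1 e2 => by
        have e3 := h4.ct hxy Y e1 e2
        rw [← neg_eq_zero, up, ← sum_neg_distrib] at e3
        rw [← e3, up]
        exact sum_congr rfl fun R _ => cp_ct hxy hxE hyE g R)
      (fun R e1 e2 e3 t => by
        obtain ⟨⟨e4, e5⟩, e6⟩ := (hE' R).1 e1
        have key : ∀ u u' : α, u ≠ u' → u ∈ E → u' ∈ E → u ∉ R → u' ∉ R → ∀ s : ℕ,
            (s ≤ c u ↔ s ≤ c u') → g (insert u R) ≠ (-1) ^ (n + 1) * g (E \ insert u R) →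
            (R.filter fun z => s ≤ c z).card ≤
              (((E.erase u').erase u \ R).filter fun z => s ≤ c z).card + w := by
          intro u u' g1 g2 g3 g4 g5 s g6 g7
          have g8 := h5 _ (insert_subset g2 e4) (by rw [card_insert_of_notMem g4, e2]) g7 s
          rw [← sdiff_ins g1.symm g3 g5, filter_insert, filter_insert] at g8
          by_cases g9 : s ≤ c u
          · rw [if_pos g9, if_pos (g6.1 g9), card_insert_of_notMem (by simp [g4]),
              card_insert_of_notMem (by simp)] at g8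
            omega
          · rwa [if_neg g9, if_neg (mt g6.2 g9)] at g8
        obtain ⟨s, g1, g2⟩ : ∃ s : ℕ, (s ≤ c x ↔ s ≤ c y) ∧
            ∀ z ∈ (E.erase x).erase y, (t ≤ c z ↔ s ≤ c z) := by
          by_cases g : c x < t ∧ t ≤ c y
          · refine ⟨c x, by omega, fun z hz => ?_⟩
            simp only [mem_erase] at hz
            have g3 := hgap z hz.2.2
            have g4 : c z ≠ c x := fun e => hz.2.1 (hc e)
            omega
          · exact ⟨t, by omega, fun _ _ => Iff.rfl⟩
        rw [filter_congr fun z hz => g2 z (e1 hz), filter_congr fun z hz => g2 z (sdiff_subset hz)]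
        by_cases g3 : g (insert x R) = (-1) ^ (n + 1) * g (E \ insert x R)
        · refine key y x hxy.symm hyE hxE e6 e5 s g1.symm fun g4 => e3 ?_
          rw [← sub_eq_zero, hd R e5 e6, sub_eq_zero.2 g3, sub_eq_zero.2 g4, sub_zero]
        · rw [erase_right_comm]
          exact key x y hxy hxE hyE e5 e6 s g1 g3)
      (Z.erase x) ((hE' _).2 ⟨⟨(erase_subset _ _).trans hZ.1, notMem_erase _ _⟩,
        fun e => hy (mem_of_mem_erase e)⟩) (by rw [card_erase_of_mem hx]; omega)
    have hy' : y ∉ Z.erase x := fun e => hy (mem_of_mem_erase e)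
    rw [← sub_eq_zero, hd _ (notMem_erase _ _) hy', insert_erase hx, sub_eq_zero] at h8
    have h9 := hmax (insert y (Z.erase x)) ⟨insert_subset hyE ((erase_subset _ _).trans hZ.1),
      by rw [card_insert_of_notMem hy', card_erase_add_one hx, hZ.2.1],
      fun e => hZ.2.2 (sub_eq_zero.1 (h8.trans (sub_eq_zero.2 e)))⟩
    rw [sum_insert hy', ← add_sum_erase Z c hx] at h9
    omega

end Pool.Agent.Lib.MP_b1ff30_co
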